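import Pool.Agent.H4.NM.Riesz

/-!
# Mean values over balls; radial test functions (definitions) (MP_898b17_an, all dimensions)
-/

open MeasureTheory Set Metric Filter Topology ContDiff Module
open scoped ENNReal NNReal RealInnerProductSpace

namespace Pool.Agent.H4.NM

variable {E : Type} [NormedAddCommGroup E] [InnerProductSpace ℝ E] [FiniteDimensional ℝ E]
  [CompleteSpace E] [MeasurableSpace E] [BorelSpace E]

set_option linter.unusedSectionVars false

/-- mean value over a ball -/
noncomputable def av (x : E) (r : ℝ) (f : E → ℝ) : ℝ :=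
  (volume.real (ball x r))⁻¹ * ∫ z in ball x r, f z

/-- `(t² - |y - x|²)⁺ / 2` -/
noncomputable def Ph (x : E) (t : ℝ) (y : E) : ℝ := max (t ^ 2 - ‖y - x‖ ^ 2) 0 / 2

/-- the gradient of `Ph x t` -/
noncomputable def GPh (x : E) (t : ℝ) : E → E := (ball x t).indicator fun y => x - y

theorem vol_ball (x : E) {r : ℝ} (hr : 0 < r) :
    volume.real (ball x r) = r ^ finrank ℝ E * volume.real (ball (0 : E) 1) := by
  rw [Measure.real, Measure.addHaar_ball_of_pos _ _ hr, ENNReal.toReal_mul,
    ENNReal.toReal_ofReal (by positivity), Measure.real]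

theorem vol_ball_pos (x : E) {r : ℝ} (hr : 0 < r) : 0 < volume.real (ball x r) :=
  ENNReal.toReal_pos (measure_ball_pos volume x hr).ne' measure_ball_lt_top.ne

theorem vol_one_pos : 0 < volume.real (ball (0 : E) 1) := vol_ball_pos 0 one_pos

theorem vol_ball_center (x y : E) (r : ℝ) :
    volume.real (ball x r) = volume.real (ball y r) := by
  rw [Measure.real, Measure.real, Measure.addHaar_ball_center, ← Measure.addHaar_ball_center _ y]

theorem vol_ball_half (x : E) {r : ℝ} (hr : 0 < r) :
    volume.real (ball x (r / 2)) = (1 / 2) ^ finrank ℝ E * volume.real (ball x r) := by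
  rw [vol_ball x hr, vol_ball x (by positivity : 0 < r / 2), div_eq_mul_one_div, mul_pow]
  ring

theorem av_mul_vol (x : E) {r : ℝ} (hr : 0 < r) (f : E → ℝ) :
    volume.real (ball x r) * av x r f = ∫ z in ball x r, f z := by
  rw [av, mul_inv_cancel_left₀ (vol_ball_pos x hr).ne']

theorem av_const (x : E) {r : ℝ} (hr : 0 < r) (c : ℝ) : av x r (fun _ => c) = c := by
  rw [av, setIntegral_const, smul_eq_mul, inv_mul_cancel_left₀ (vol_ball_pos x hr).ne']

theorem av_add {x : E} {r : ℝ} {f g : E → ℝ} (hf : IntegrableOn f (ball x r))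
    (hg : IntegrableOn g (ball x r)) : av x r (fun z => f z + g z) = av x r f + av x r g := by
  rw [av, av, av, integral_add hf hg, mul_add]

theorem av_sub {x : E} {r : ℝ} {f g : E → ℝ} (hf : IntegrableOn f (ball x r))
    (hg : IntegrableOn g (ball x r)) : av x r (fun z => f z - g z) = av x r f - av x r g := by
  rw [av, av, av, integral_sub hf hg, mul_sub]

theorem av_one_sub {x : E} {r : ℝ} (hr : 0 < r) {f : E → ℝ} (hf : IntegrableOn f (ball x r)) :
    av x r (fun z => 1 - f z) = 1 - av x r f := by
  rw [av_sub (integrableOn_const (by exact measure_ball_lt_top.ne)) hf, av_const x hr]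

/-- Comparison of mean values. -/
theorem av_mono {x : E} {r : ℝ} {f g : E → ℝ} (hf : IntegrableOn f (ball x r))
    (hg : IntegrableOn g (ball x r)) (h : ∀ᵐ z, z ∈ ball x r → f z ≤ g z) :
    av x r f ≤ av x r g := by
  refine mul_le_mul_of_nonneg_left ?_ (by positivity)
  refine setIntegral_mono_ae_restrict hf hg ?_
  exact (ae_restrict_iff' measurableSet_ball).2 h

/-- A function which is square integrable is integrable on balls. -/
theorem memLp_integrableOn_ball {f : E → ℝ} (hf : MemLp f 2 volume) (x : E) (r : ℝ) :
    IntegrableOn f (ball x r) := by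
  have h : MemLp f 1 (volume.restrict (ball x r)) := by
    haveI : IsFiniteMeasure (volume.restrict (ball x r)) :=
      ⟨by simpa using measure_ball_lt_top⟩
    exact (hf.restrict _).mono_exponent (by norm_num)
  exact memLp_one_iff_integrable.1 h

end Pool.Agent.H4.NM
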