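import Pool.Agent.H4.NM.Mul

/-!
# Torsion function, Rayleigh bounds (MP_898b17_an, M1)
-/

open MeasureTheory Set Metric Filter Topology ContDiff
open scoped ENNReal RealInnerProductSpace

namespace Pool.Agent.H4.NM

variable {E : Type} [NormedAddCommGroup E] [InnerProductSpace ℝ E] [FiniteDimensional ℝ E]
  [CompleteSpace E] [MeasurableSpace E] [BorelSpace E]

set_option linter.unusedSectionVars false

set_option maxHeartbeats 400000

variable {Ω Ω' U : Set E} {u v w w' : E → ℝ} {G H W W' : E → E} {φ ψ : E → ℝ}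

theorem integral_inner_self_real (f : E → ℝ) : ∫ z, ⟪f z, f z⟫ = ∫ z, f z ^ 2 := by
  congr 1
  ext z
  rw [real_inner_self_eq_norm_sq, Real.norm_eq_abs, sq_abs]

theorem integral_inner_self (f : E → E) : ∫ z, ⟪f z, f z⟫ = ∫ z, ‖f z‖ ^ 2 := by
  congr 1
  ext z
  rw [real_inner_self_eq_norm_sq]

theorem integrable_inner_of_memLp {F : Type*} [NormedAddCommGroup F] [InnerProductSpace ℝ F]
    {f g : E → F} (hf : MemLp f 2 volume) (hg : MemLp g 2 volume) :
    Integrable (fun z => ⟪f z, g z⟫) volume := by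
  have h := L2.integrable_inner (𝕜 := ℝ) (hf.toLp f) (hg.toLp g)
  refine h.congr ?_
  filter_upwards [hf.coeFn_toLp, hg.coeFn_toLp] with z h1 h2
  rw [h1, h2]

theorem memLp_indicator_one (hΩ : IsOpen Ω) (hfin : volume Ω < ⊤) :
    MemLp (Ω.indicator fun _ => (1 : ℝ)) 2 volume :=
  memLp_indicator_const 2 hΩ.measurableSet 1 (Or.inr hfin.ne)

/-- `L²`-convergence of functions vanishing outside `Ω` gives convergence of the integrals. -/
theorem tendsto_integral_of_L2 {fn : ℕ → E → ℝ} {f : E → ℝ} (hΩ : IsOpen Ω) (hfin : volume Ω < ⊤)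
    (hfn : ∀ n, MemLp (fn n) 2 volume) (hf : MemLp f 2 volume)
    (h0n : ∀ n, ∀ᵐ z, z ∉ Ω → fn n z = 0) (h0 : ∀ᵐ z, z ∉ Ω → f z = 0)
    (h : Tendsto (fun n => eLpNorm (fun z => fn n z - f z) 2 volume) atTop (𝓝 0)) :
    Tendsto (fun n => ∫ z, fn n z) atTop (𝓝 (∫ z, f z)) := by
  have h1 := tendsto_integral_inner (fn := fun _ => Ω.indicator fun _ => (1 : ℝ)) (gn := fn)
    (f := Ω.indicator fun _ => (1 : ℝ)) (g := f) (fun _ => memLp_indicator_one hΩ hfin) hfn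
    (memLp_indicator_one hΩ hfin) hf (by simp) h
  have key : ∀ g : E → ℝ, (∀ᵐ z, z ∉ Ω → g z = 0) →
      ∫ z, ⟪Ω.indicator (fun _ => (1 : ℝ)) z, g z⟫ = ∫ z, g z := by
    intro g hg
    apply integral_congr_ae
    filter_upwards [hg] with z hz
    by_cases h2 : z ∈ Ω
    · simp [h2]
    · simp [h2, hz h2]
  rw [key f h0] at h1
  refine h1.congr fun n => key _ (h0n n)

theorem IsTest.ae_zero (h : IsTest Ω φ) : ∀ z, z ∉ Ω → φ z = 0 :=
  fun _ hz => image_eq_zero_of_notMem_tsupport fun hz' => hz (h.2.2 hz')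

theorem H10.tendsto_integral (hΩ : IsOpen Ω) (hfin : volume Ω < ⊤) (h : H10 Ω u G)
    {φ : ℕ → E → ℝ} (h1 : ∀ n, IsTest Ω (φ n))
    (h2 : Tendsto (fun n => eLpNorm (fun x => φ n x - u x) 2 volume) atTop (𝓝 0)) :
    Tendsto (fun n => ∫ z, φ n z) atTop (𝓝 (∫ z, u z)) :=
  tendsto_integral_of_L2 hΩ hfin (fun n => (h1 n).memLp 2) h.1
    (fun n => Eventually.of_forall (h1 n).ae_zero) (by
      filter_upwards [h.ae_zero hΩ] with z hz hz'
      exact (hz hz').1) h2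

theorem H10.tendsto_integral_sq (h : H10 Ω u G)
    {φ : ℕ → E → ℝ} (h1 : ∀ n, IsTest Ω (φ n))
    (h2 : Tendsto (fun n => eLpNorm (fun x => φ n x - u x) 2 volume) atTop (𝓝 0)) :
    Tendsto (fun n => ∫ z, φ n z ^ 2) atTop (𝓝 (∫ z, u z ^ 2)) := by
  have := tendsto_integral_inner (fun n => (h1 n).memLp 2) (fun n => (h1 n).memLp 2) h.1 h.1 h2 h2
  simpa only [integral_inner_self_real] using this

theorem H10.tendsto_integral_grad (h : H10 Ω u G)
    {φ : ℕ → E → ℝ} (h1 : ∀ n, IsTest Ω (φ n))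
    (h2 : Tendsto (fun n => eLpNorm (fun x => gradient (φ n) x - G x) 2 volume) atTop (𝓝 0)) :
    Tendsto (fun n => ∫ z, ‖gradient (φ n) z‖ ^ 2) atTop (𝓝 (∫ z, ‖G z‖ ^ 2)) := by
  have := tendsto_integral_inner (fun n => (h1 n).memLp_gradient 2)
    (fun n => (h1 n).memLp_gradient 2) h.2 h.2 h2 h2
  simpa only [integral_inner_self] using this

theorem IsTorsion.all (hΩ : IsOpen Ω) (hfin : volume Ω < ⊤) (h : IsTorsion Ω w W)
    (hv : H10 Ω v H) : ∫ z, ⟪W z, H z⟫ = ∫ z, v z := by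
  obtain ⟨φ, h1, h2, h3⟩ := hv.approx
  have e1 := tendsto_integral_inner (fn := fun _ => W) (gn := fun n => gradient (φ n)) (f := W)
    (g := H) (fun _ => h.1.2) (fun n => (h1 n).memLp_gradient 2) h.1.2 hv.2 (by simp) h3
  have e2 := hv.tendsto_integral hΩ hfin h1 h2
  exact tendsto_nhds_unique e1 (e2.congr fun n => (h.2 (φ n) (h1 n)).symm)

theorem RQ.all {c : ℝ} (h : RQ Ω c) (hu : H10 Ω u G) : c * ∫ z, u z ^ 2 ≤ ∫ z, ‖G z‖ ^ 2 := by
  obtain ⟨φ, h1, h2, h3⟩ := hu.approx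
  exact le_of_tendsto_of_tendsto' ((hu.tendsto_integral_sq h1 h2).const_mul c)
    (hu.tendsto_integral_grad h1 h3) fun n => h (φ n) (h1 n)

theorem H10.tLow (hΩ : IsOpen Ω) (hfin : volume Ω < ⊤) (h : H10 Ω u G) {t : ℝ}
    (ht : t < 2 * (∫ z, u z) - ∫ z, ‖G z‖ ^ 2) : TLow Ω t := by
  obtain ⟨φ, h1, h2, h3⟩ := h.approx
  have e := ((h.tendsto_integral hΩ hfin h1 h2).const_mul 2).sub (h.tendsto_integral_grad h1 h3)
  obtain ⟨n, hn⟩ := (e.eventually (lt_mem_nhds ht)).exists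
  exact ⟨φ n, h1 n, hn.le⟩

theorem IsTorsion.energy (hΩ : IsOpen Ω) (hfin : volume Ω < ⊤) (h : IsTorsion Ω w W) :
    ∫ z, ‖W z‖ ^ 2 = ∫ z, w z := by
  rw [← integral_inner_self, h.all hΩ hfin h.1]

theorem IsTorsion.nonneg (hΩ : IsOpen Ω) (hfin : volume Ω < ⊤) (h : IsTorsion Ω w W) :
    ∀ᵐ z, 0 ≤ w z := by
  classical
  have h1 := h.1.neg.pos_part
  have h2 := h.all hΩ hfin h1
  have hnn : 0 ≤ᵐ[volume] fun z => Max.max (-w z) 0 := Eventually.of_forall fun z => le_max_right _ _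
  have h3 : ∫ z, Max.max (-w z) 0 ≤ 0 := by
    rw [← h2]
    apply integral_nonpos
    intro z
    simp only [Pi.zero_apply]
    split_ifs
    · rw [inner_neg_right]
      exact neg_nonpos.2 real_inner_self_nonneg
    · rw [inner_zero_right]
  have h4 : ∫ z, Max.max (-w z) 0 = 0 := le_antisymm h3 (integral_nonneg_of_ae hnn)
  rw [integral_eq_zero_iff_of_nonneg_ae hnn (h1.integrable hΩ hfin)] at h4
  filter_upwards [h4] with z hz
  have := le_max_left (-w z) 0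
  simp only [Pi.zero_apply] at hz
  linarith

/-- Gradients equal to zero and Poincaré give uniqueness. -/
theorem IsTorsion.grad_eq (hΩ : IsOpen Ω) (hfin : volume Ω < ⊤) (h : IsTorsion Ω w W)
    (h' : IsTorsion Ω w' W') : ∫ z, ‖W z - W' z‖ ^ 2 = 0 := by
  have hd := h.1.sub h'.1
  have h1 := h.all hΩ hfin hd
  have h2 := h'.all hΩ hfin hd
  rw [← integral_inner_self]
  have i1 : Integrable (fun z => ⟪W z, W z - W' z⟫) volume := integrable_inner_of_memLp h.1.2 hd.2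
  have i2 : Integrable (fun z => ⟪W' z, W z - W' z⟫) volume := integrable_inner_of_memLp h'.1.2 hd.2
  have e : (fun z => ⟪W z - W' z, W z - W' z⟫) =
      fun z => ⟪W z, W z - W' z⟫ - ⟪W' z, W z - W' z⟫ := by
    ext z; rw [inner_sub_left]
  rw [e, integral_sub i1 i2, h1, h2, sub_self]

theorem IsTorsion.tLow_le (hΩ : IsOpen Ω) (hfin : volume Ω < ⊤) (h : IsTorsion Ω w W) {t : ℝ}
    (ht : TLow Ω t) : t ≤ ∫ z, w z := by
  obtain ⟨ψ, h1, h2⟩ := ht
  refine h2.trans ?_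
  have h3 := h.all hΩ hfin h1.h10
  have h4 := h.energy hΩ hfin
  have i1 : Integrable (fun z => ‖W z‖ ^ 2) volume := h.1.2.integrable_norm_pow (by norm_num)
  have i2 : Integrable (fun z => ‖gradient ψ z‖ ^ 2) volume :=
    (h1.memLp_gradient 2).integrable_norm_pow (by norm_num)
  have i3 : Integrable (fun z => ⟪W z, gradient ψ z⟫) volume :=
    integrable_inner_of_memLp h.1.2 (h1.memLp_gradient 2)
  have h5 : 0 ≤ ∫ z, ‖W z - gradient ψ z‖ ^ 2 := integral_nonneg fun z => by positivity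
  have e : (fun z => ‖W z - gradient ψ z‖ ^ 2) =
      fun z => ‖W z‖ ^ 2 - 2 * ⟪W z, gradient ψ z⟫ + ‖gradient ψ z‖ ^ 2 := by
    ext z; rw [norm_sub_sq_real]
  have i4 : Integrable (fun z => ‖W z‖ ^ 2 - 2 * ⟪W z, gradient ψ z⟫) volume :=
    i1.sub (i3.const_mul 2)
  rw [e, integral_add i4 i2, integral_sub i1 (i3.const_mul 2), integral_const_mul, h3, h4] at h5
  linarith

end Pool.Agent.H4.NM
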