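import Pool.Agent.H4.NM.Av
import Pool.Agent.H4.NM.Tors

/-!
# NM-09: Poincaré inequality on convex sets (MP_898b17_an, all dimensions)

## Paper proof

`C` convex, measurable, bounded (`‖x - y‖ ≤ D` on `C`), `φ` smooth with compact support. For
`x, y ∈ C`: `|φ x - φ y|² ≤ D² ∫_0^1 ‖∇φ((1-t) x + t y)‖² dt` (fundamental theorem along the segment
and Cauchy-Schwarz). Integrate over `C × C` (with `lintegral`s, Tonelli). By the symmetry
`(x, y, t) ↦ (y, x, 1 - t)` the integral over `t ∈ [0,1]` is twice the integral over `t ∈ [1/2, 1]`.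
For `t ∈ [1/2, 1]` and fixed `x ∈ C` substitute `z = (1-t) x + t y`, `dz = t^d dy`, `z ∈ C` by
convexity: `∫_C ‖∇φ((1-t)x + t y)‖² dy ≤ t^{-d} ∫_C ‖∇φ‖² ≤ 2^d ∫_C ‖∇φ‖²`. So
`∫_C ∫_C |φ x - φ y|² ≤ D² · 2 · (1/2) · |C| · 2^d ∫_C ‖∇φ‖²`.
(Or, without the symmetry: bound `t ∈ [0, 1/2]` by substituting in `x` instead.)
For `u` of `H¹` take `φ n → u`: both sides converge (`(u x - u y)²` is continuous in `L²(C)`; or use
Fatou on the left along an a.e. convergent subsequence, `H10.exists_approx_ae`).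

`cell_poincare`: `(u z - av p ρ u)² = (|B|⁻¹ ∫_B (u z - u y) dy)² ≤ |B|⁻¹ ∫_B (u z - u y)² dy
≤ |B|⁻¹ ∫_C (u z - u y)² dy`, integrate over `z ∈ C`.
-/

open MeasureTheory Set Metric Filter Topology ContDiff Module
open scoped ENNReal NNReal RealInnerProductSpace

namespace Pool.Agent.H4.NM

variable {E : Type} [NormedAddCommGroup E] [InnerProductSpace ℝ E] [FiniteDimensional ℝ E]
  [CompleteSpace E] [MeasurableSpace E] [BorelSpace E]

set_option linter.unusedSectionVars false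

set_option maxHeartbeats 400000

variable {u : E → ℝ} {G : E → E}

/-- pointwise bound along the segment -/
theorem cp_pointwise {φ : E → ℝ} (hφ : IsTest univ φ) (x y : E) :
    ENNReal.ofReal ((φ x - φ y) ^ 2) ≤ ENNReal.ofReal (‖x - y‖ ^ 2) *
      ∫⁻ t in Ioc (0 : ℝ) 1, ENNReal.ofReal (‖gradient φ ((1 - t) • x + t • y)‖ ^ 2) := by
  set γ : ℝ → E := fun t => (1 - t) • x + t • y with hγ
  have hγc : Continuous γ := by
    simp only [hγ]
    fun_prop
  have hγd : ∀ t, HasDerivAt γ (y - x) t := by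
    intro t
    have h1 : HasDerivAt (fun t : ℝ => (1 - t)) (-1) t := by
      simpa using (hasDerivAt_id t).const_sub 1
    have h2 := (h1.smul_const x).add ((hasDerivAt_id t).smul_const y)
    have e : (-1 : ℝ) • x + (1 : ℝ) • y = y - x := by
      rw [neg_one_smul, one_smul]; abel
    rw [e] at h2
    exact h2
  have hfd : ∀ t, HasDerivAt (fun t => φ (γ t)) (⟪gradient φ (γ t), y - x⟫) t := by
    intro t
    have h1 := (hφ.differentiable (γ t)).hasFDerivAt.comp_hasDerivAt t (hγd t)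
    rw [inner_gradient]
    exact h1
  set g : ℝ → ℝ := fun t => ⟪gradient φ (γ t), y - x⟫ with hg
  have hgc : Continuous g := by
    simp only [hg]
    exact (hφ.continuous_gradient.comp hγc).inner continuous_const
  have hnc : Continuous fun t => ‖gradient φ (γ t)‖ ^ 2 :=
    (hφ.continuous_gradient.comp hγc).norm.pow 2
  have hint : ∫ t in (0 : ℝ)..1, g t = φ y - φ x := by
    rw [intervalIntegral.integral_eq_sub_of_hasDerivAt (fun t _ => hfd t)
      (hgc.intervalIntegrable _ _)]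
    simp [hγ]
  have hcs : (φ x - φ y) ^ 2 ≤ ∫ t in (0 : ℝ)..1, g t ^ 2 := by
    have h1 : 0 ≤ ∫ t in (0 : ℝ)..1, (g t - (φ y - φ x)) ^ 2 :=
      intervalIntegral.integral_nonneg zero_le_one fun t _ => sq_nonneg _
    have h2 : ∫ t in (0 : ℝ)..1, (g t - (φ y - φ x)) ^ 2 =
        (∫ t in (0 : ℝ)..1, g t ^ 2) - 2 * (φ y - φ x) * (∫ t in (0 : ℝ)..1, g t) +
          (φ y - φ x) ^ 2 := by
      have e : (fun t => (g t - (φ y - φ x)) ^ 2) = fun t =>
          (g t ^ 2 - 2 * (φ y - φ x) * g t) + (φ y - φ x) ^ 2 := by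
        ext t; ring
      rw [e, intervalIntegral.integral_add, intervalIntegral.integral_sub,
        intervalIntegral.integral_const_mul, intervalIntegral.integral_const]
      · simp
      · exact (hgc.pow 2).intervalIntegrable _ _
      · exact (continuous_const.mul hgc).intervalIntegrable _ _
      · exact ((hgc.pow 2).sub (continuous_const.mul hgc)).intervalIntegrable _ _
      · exact continuous_const.intervalIntegrable _ _
    rw [h2, hint] at h1
    nlinarith
  have hle : (φ x - φ y) ^ 2 ≤ ‖x - y‖ ^ 2 * ∫ t in (0 : ℝ)..1, ‖gradient φ (γ t)‖ ^ 2 := by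
    refine hcs.trans ?_
    rw [← intervalIntegral.integral_const_mul]
    refine intervalIntegral.integral_mono_on zero_le_one ((hgc.pow 2).intervalIntegrable _ _)
      ((continuous_const.mul hnc).intervalIntegrable _ _) fun t _ => ?_
    have h3 : |g t| ≤ ‖gradient φ (γ t)‖ * ‖y - x‖ := abs_real_inner_le_norm _ _
    have h4 : g t ^ 2 ≤ (‖gradient φ (γ t)‖ * ‖y - x‖) ^ 2 := by
      rw [← sq_abs (g t)]
      exact pow_le_pow_left₀ (abs_nonneg _) h3 2
    rw [norm_sub_rev x y]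
    calc g t ^ 2 ≤ (‖gradient φ (γ t)‖ * ‖y - x‖) ^ 2 := h4
      _ = ‖y - x‖ ^ 2 * ‖gradient φ (γ t)‖ ^ 2 := by ring
  have e1 : ENNReal.ofReal (∫ t in (0 : ℝ)..1, ‖gradient φ (γ t)‖ ^ 2) =
      ∫⁻ t in Ioc (0 : ℝ) 1, ENNReal.ofReal (‖gradient φ (γ t)‖ ^ 2) := by
    rw [intervalIntegral.integral_of_le zero_le_one]
    exact ofReal_integral_eq_lintegral_ofReal
      (hnc.integrableOn_Icc.mono_set Ioc_subset_Icc_self)
      (Eventually.of_forall fun t => by positivity)
  rw [← e1, ← ENNReal.ofReal_mul (by positivity)]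
  exact ENNReal.ofReal_le_ofReal hle

/-- substitution `z = (1 - s) p + s y`, `s ≥ 1/2` -/
theorem cp_subst {C : Set E} (hC : Convex ℝ C) (hm : MeasurableSet C) {g : E → ℝ≥0∞}
    (hg : Measurable g) {s : ℝ} (hs : 1 / 2 ≤ s) (hs1 : s ≤ 1) {p : E} (hp : p ∈ C) :
    ∫⁻ y in C, g ((1 - s) • p + s • y) ≤ 2 ^ finrank ℝ E * ∫⁻ z in C, g z := by
  have hs0 : 0 < s := by linarith
  have h1 : ∫⁻ y in C, g ((1 - s) • p + s • y) ≤
      ∫⁻ y, C.indicator g ((1 - s) • p + s • y) := by
    rw [← lintegral_indicator hm]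
    refine lintegral_mono fun y => ?_
    by_cases hy : y ∈ C
    · have : (1 - s) • p + s • y ∈ C := hC hp hy (by linarith) hs0.le (by ring)
      simp only [indicator_of_mem hy, indicator_of_mem this, le_refl]
    · simp only [indicator_of_notMem hy, zero_le]
  refine h1.trans ?_
  have hgm : Measurable (C.indicator g) := hg.indicator hm
  have h2 : ∫⁻ y, C.indicator g ((1 - s) • p + s • y) =
      ENNReal.ofReal |(s ^ finrank ℝ E)⁻¹| * ∫⁻ z, C.indicator g z := by
    have h3 : ∫⁻ y, C.indicator g ((1 - s) • p + s • y) =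
        ∫⁻ z, C.indicator g ((1 - s) • p + z) ∂(Measure.map (s • ·) (volume : Measure E)) := by
      rw [lintegral_map]
      · exact hgm.comp (measurable_const.add measurable_id)
      · exact measurable_const_smul s
    rw [h3, Measure.map_addHaar_smul volume hs0.ne', lintegral_smul_measure, smul_eq_mul,
      lintegral_add_left_eq_self]
  rw [h2, lintegral_indicator hm]
  refine mul_le_mul_left ?_ _
  have h4 : |(s ^ finrank ℝ E)⁻¹| ≤ 2 ^ finrank ℝ E := by
    rw [abs_of_pos (by positivity), ← inv_pow]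
    refine pow_le_pow_left₀ (by positivity) ?_ _
    rw [inv_le_comm₀ hs0 (by norm_num)]
    linarith
  calc ENNReal.ofReal |(s ^ finrank ℝ E)⁻¹| ≤ ENNReal.ofReal (2 ^ finrank ℝ E) :=
        ENNReal.ofReal_le_ofReal h4
    _ = 2 ^ finrank ℝ E := by
        rw [ENNReal.ofReal_pow (by norm_num)]
        norm_num

/-- the double integral of the segment functional -/
theorem cp_double {C : Set E} (hC : Convex ℝ C) (hm : MeasurableSet C) {g : E → ℝ≥0∞}
    (hg : Measurable g) {t : ℝ} (ht0 : 0 ≤ t) (ht1 : t ≤ 1) :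
    ∫⁻ x in C, ∫⁻ y in C, g ((1 - t) • x + t • y) ≤
      2 ^ finrank ℝ E * (∫⁻ z in C, g z) * volume C := by
  rcases le_total (1 / 2) t with h | h
  · calc ∫⁻ x in C, ∫⁻ y in C, g ((1 - t) • x + t • y)
        ≤ ∫⁻ _ in C, 2 ^ finrank ℝ E * ∫⁻ z in C, g z :=
          setLIntegral_mono' hm fun x hx => cp_subst hC hm hg h ht1 hx
      _ = _ := by rw [setLIntegral_const]
  · have hF : Measurable (fun q : E × E => g ((1 - t) • q.1 + t • q.2)) :=
      hg.comp ((measurable_fst.const_smul (1 - t)).add (measurable_snd.const_smul t))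
    rw [lintegral_lintegral_swap hF.aemeasurable]
    calc ∫⁻ y in C, ∫⁻ x in C, g ((1 - t) • x + t • y)
        ≤ ∫⁻ _ in C, 2 ^ finrank ℝ E * ∫⁻ z in C, g z := by
          refine setLIntegral_mono' hm fun y hy => ?_
          have h5 := cp_subst hC hm hg (s := 1 - t) (by linarith) (by linarith) hy
          refine le_trans (le_of_eq ?_) h5
          refine lintegral_congr fun x => ?_
          congr 1
          rw [sub_sub_cancel, add_comm]
      _ = _ := by rw [setLIntegral_const]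

theorem cp_smooth {C : Set E} (hC : Convex ℝ C) (hm : MeasurableSet C)
    (hb : volume C < ⊤) {D : ℝ} (hD : ∀ x ∈ C, ∀ y ∈ C, ‖x - y‖ ≤ D) {φ : E → ℝ}
    (hφ : IsTest univ φ) :
    ∫⁻ x in C, ∫⁻ y in C, ENNReal.ofReal ((φ x - φ y) ^ 2) ≤
      ENNReal.ofReal (2 ^ finrank ℝ E * D ^ 2 * volume.real C *
        ∫ z in C, ‖gradient φ z‖ ^ 2) := by
  set g : E → ℝ≥0∞ := fun z => ENNReal.ofReal (‖gradient φ z‖ ^ 2) with hgd
  have hgc : Continuous g := ENNReal.continuous_ofReal.comp (hφ.continuous_gradient.norm.pow 2)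
  have hg : Measurable g := hgc.measurable
  have hF : Continuous (fun q : (E × E) × ℝ => g ((1 - q.2) • q.1.1 + q.2 • q.1.2)) := by
    refine hgc.comp ?_
    fun_prop
  have h1 : ∫⁻ x in C, ∫⁻ y in C, ENNReal.ofReal ((φ x - φ y) ^ 2) ≤
      ∫⁻ x in C, ∫⁻ y in C, ENNReal.ofReal (D ^ 2) *
        ∫⁻ t in Ioc (0 : ℝ) 1, g ((1 - t) • x + t • y) := by
    refine setLIntegral_mono' hm fun x hx => setLIntegral_mono' hm fun y hy => ?_
    refine (cp_pointwise hφ x y).trans ?_
    refine mul_le_mul_left (ENNReal.ofReal_le_ofReal ?_) _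
    exact pow_le_pow_left₀ (norm_nonneg _) (hD x hx y hy) 2
  refine h1.trans ?_
  have hm1 : ∀ x : E, Measurable fun y => ∫⁻ t in Ioc (0 : ℝ) 1, g ((1 - t) • x + t • y) := by
    intro x
    have : Measurable (fun q : E × ℝ => g ((1 - q.2) • x + q.2 • q.1)) := by
      refine (hgc.comp ?_).measurable
      fun_prop
    exact this.lintegral_prod_right'
  have e1 : ∫⁻ x in C, ∫⁻ y in C, ENNReal.ofReal (D ^ 2) *
        ∫⁻ t in Ioc (0 : ℝ) 1, g ((1 - t) • x + t • y) =
      ENNReal.ofReal (D ^ 2) * ∫⁻ x in C, ∫⁻ y in C,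
        ∫⁻ t in Ioc (0 : ℝ) 1, g ((1 - t) • x + t • y) := by
    have e2 : ∀ x : E, ∫⁻ y in C, ENNReal.ofReal (D ^ 2) *
        ∫⁻ t in Ioc (0 : ℝ) 1, g ((1 - t) • x + t • y) =
        ENNReal.ofReal (D ^ 2) * ∫⁻ y in C,
          ∫⁻ t in Ioc (0 : ℝ) 1, g ((1 - t) • x + t • y) :=
      fun x => lintegral_const_mul _ (hm1 x)
    simp only [e2]
    exact lintegral_const_mul' _ _ ENNReal.ofReal_ne_top
  rw [e1]
  have e3 : ∀ x : E, ∫⁻ y in C, ∫⁻ t in Ioc (0 : ℝ) 1, g ((1 - t) • x + t • y) =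
      ∫⁻ t in Ioc (0 : ℝ) 1, ∫⁻ y in C, g ((1 - t) • x + t • y) := by
    intro x
    have : Measurable (fun q : E × ℝ => g ((1 - q.2) • x + q.2 • q.1)) := by
      refine (hgc.comp ?_).measurable
      fun_prop
    exact lintegral_lintegral_swap this.aemeasurable
  simp only [e3]
  have e4 : ∫⁻ x in C, ∫⁻ t in Ioc (0 : ℝ) 1, ∫⁻ y in C, g ((1 - t) • x + t • y) =
      ∫⁻ t in Ioc (0 : ℝ) 1, ∫⁻ x in C, ∫⁻ y in C, g ((1 - t) • x + t • y) := by
    have h3 : Measurable (fun q : (E × ℝ) × E => g ((1 - q.1.2) • q.1.1 + q.1.2 • q.2)) := by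
      refine (hgc.comp ?_).measurable
      fun_prop
    have h4 : Measurable (fun q : E × ℝ => ∫⁻ y in C, g ((1 - q.2) • q.1 + q.2 • y)) :=
      h3.lintegral_prod_right'
    exact lintegral_lintegral_swap h4.aemeasurable
  rw [e4]
  have h5 : ∫⁻ t in Ioc (0 : ℝ) 1, ∫⁻ x in C, ∫⁻ y in C, g ((1 - t) • x + t • y) ≤
      2 ^ finrank ℝ E * (∫⁻ z in C, g z) * volume C := by
    calc ∫⁻ t in Ioc (0 : ℝ) 1, ∫⁻ x in C, ∫⁻ y in C, g ((1 - t) • x + t • y)
        ≤ ∫⁻ _ in Ioc (0 : ℝ) 1, 2 ^ finrank ℝ E * (∫⁻ z in C, g z) * volume C :=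
          setLIntegral_mono' measurableSet_Ioc fun t ht => cp_double hC hm hg ht.1.le ht.2
      _ = _ := by
          rw [setLIntegral_const, Real.volume_Ioc]
          simp
  refine (mul_le_mul_right h5 _).trans (le_of_eq ?_)
  have e6 : ∫⁻ z in C, g z = ENNReal.ofReal (∫ z in C, ‖gradient φ z‖ ^ 2) := by
    rw [ofReal_integral_eq_lintegral_ofReal]
    · exact ((hφ.memLp_gradient 2).integrable_norm_pow (by norm_num)).integrableOn
    · exact Eventually.of_forall fun z => by positivity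
  have e7 : volume C = ENNReal.ofReal (volume.real C) := by
    rw [Measure.real, ENNReal.ofReal_toReal hb.ne]
  have e8 : (2 : ℝ≥0∞) ^ finrank ℝ E = ENNReal.ofReal (2 ^ finrank ℝ E) := by
    rw [ENNReal.ofReal_pow (by norm_num)]
    norm_num
  have hI : 0 ≤ ∫ z in C, ‖gradient φ z‖ ^ 2 := integral_nonneg fun z => by positivity
  rw [e6, e7, e8, ← ENNReal.ofReal_mul (by positivity), ← ENNReal.ofReal_mul (by positivity),
    ← ENNReal.ofReal_mul (by positivity)]
  congr 1
  ring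

theorem convex_poincare_lint {C : Set E} (hC : Convex ℝ C) (hm : MeasurableSet C)
    (hb : volume C < ⊤) {D : ℝ} (hD : ∀ x ∈ C, ∀ y ∈ C, ‖x - y‖ ≤ D) (hu : H10 univ u G) :
    ∫⁻ x in C, ∫⁻ y in C, ENNReal.ofReal ((u x - u y) ^ 2) ≤
      ENNReal.ofReal (2 ^ finrank ℝ E * D ^ 2 * volume.real C * ∫ z in C, ‖G z‖ ^ 2) := by
  obtain ⟨φ, h1, h2, h3, h4, -⟩ := hu.exists_approx_ae
  set K : ℝ := 2 ^ finrank ℝ E * D ^ 2 * volume.real C with hK
  -- convergence of the right-hand sides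
  have hG : Tendsto (fun n => ∫ z in C, ‖gradient (φ n) z‖ ^ 2) atTop
      (𝓝 (∫ z in C, ‖G z‖ ^ 2)) := by
    have hi : ∀ H : E → E, ∫ z, ⟪C.indicator H z, C.indicator H z⟫ = ∫ z in C, ‖H z‖ ^ 2 := by
      intro H
      rw [← integral_indicator hm]
      congr 1
      ext z
      by_cases hz : z ∈ C
      · simp only [indicator_of_mem hz, real_inner_self_eq_norm_sq]
      · simp only [indicator_of_notMem hz, inner_zero_left]
    have hl : Tendsto (fun n => eLpNorm (fun z => C.indicator (gradient (φ n)) z -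
        C.indicator G z) 2 volume) atTop (𝓝 0) := by
      refine tendsto_of_tendsto_of_tendsto_of_le_of_le tendsto_const_nhds h3
        (fun n => bot_le) fun n => ?_
      have e : (fun z => C.indicator (gradient (φ n)) z - C.indicator G z) =
          C.indicator (fun z => gradient (φ n) z - G z) := by
        ext1 z
        by_cases hz : z ∈ C
        · simp only [indicator_of_mem hz]
        · simp only [indicator_of_notMem hz, sub_zero]
      rw [e]
      exact eLpNorm_indicator_le _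
    have hmn : ∀ n, MemLp (C.indicator (gradient (φ n))) 2 (volume : Measure E) :=
      fun n => ((h1 n).memLp_gradient 2).indicator hm
    have hmG : MemLp (C.indicator G) 2 (volume : Measure E) := hu.memLp_grad.indicator hm
    have h := tendsto_integral_inner (fn := fun n => C.indicator (gradient (φ n)))
      (gn := fun n => C.indicator (gradient (φ n))) (f := C.indicator G) (g := C.indicator G)
      hmn hmn hmG hmG hl hl
    simpa only [hi] using h
  have hR : Tendsto (fun n => ENNReal.ofReal (K * ∫ z in C, ‖gradient (φ n) z‖ ^ 2)) atTop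
      (𝓝 (ENNReal.ofReal (K * ∫ z in C, ‖G z‖ ^ 2))) :=
    (ENNReal.continuous_ofReal.tendsto _).comp (hG.const_mul K)
  have h4' : ∀ᵐ z ∂(volume.restrict C), Tendsto (fun n => φ n z) atTop (𝓝 (u z)) :=
    ae_restrict_of_ae h4
  have hmeas : ∀ n, Measurable fun q : E × E => ENNReal.ofReal ((φ n q.1 - φ n q.2) ^ 2) := by
    intro n
    refine (ENNReal.continuous_ofReal.comp ?_).measurable
    exact (((h1 n).continuous.comp continuous_fst).sub
      ((h1 n).continuous.comp continuous_snd)).pow 2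
  calc ∫⁻ x in C, ∫⁻ y in C, ENNReal.ofReal ((u x - u y) ^ 2)
      ≤ ∫⁻ x in C, liminf (fun n => ∫⁻ y in C, ENNReal.ofReal ((φ n x - φ n y) ^ 2)) atTop := by
        refine lintegral_mono_ae ?_
        filter_upwards [h4'] with x hx
        calc ∫⁻ y in C, ENNReal.ofReal ((u x - u y) ^ 2)
            ≤ ∫⁻ y in C, liminf (fun n => ENNReal.ofReal ((φ n x - φ n y) ^ 2)) atTop := by
              refine lintegral_mono_ae ?_
              filter_upwards [h4'] with y hy
              have : Tendsto (fun n => ENNReal.ofReal ((φ n x - φ n y) ^ 2)) atTop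
                  (𝓝 (ENNReal.ofReal ((u x - u y) ^ 2))) :=
                (ENNReal.continuous_ofReal.tendsto _).comp ((hx.sub hy).pow 2)
              rw [this.liminf_eq]
          _ ≤ _ := lintegral_liminf_le fun n => (hmeas n).comp measurable_prodMk_left
    _ ≤ liminf (fun n => ∫⁻ x in C, ∫⁻ y in C, ENNReal.ofReal ((φ n x - φ n y) ^ 2)) atTop :=
        lintegral_liminf_le fun n => (hmeas n).lintegral_prod_right'
    _ ≤ liminf (fun n => ENNReal.ofReal (K * ∫ z in C, ‖gradient (φ n) z‖ ^ 2)) atTop :=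
        liminf_le_liminf (Eventually.of_forall fun n => cp_smooth hC hm hb hD (h1 n))
    _ = _ := hR.liminf_eq

theorem convex_poincare {C : Set E} (hC : Convex ℝ C) (hm : MeasurableSet C)
    (hb : volume C < ⊤) {D : ℝ} (hD : ∀ x ∈ C, ∀ y ∈ C, ‖x - y‖ ≤ D) (hu : H10 univ u G) :
    ∫ x in C, ∫ y in C, (u x - u y) ^ 2 ≤
      2 ^ finrank ℝ E * D ^ 2 * volume.real C * ∫ z in C, ‖G z‖ ^ 2 := by
  have hI : 0 ≤ ∫ z in C, ‖G z‖ ^ 2 := integral_nonneg fun z => by positivity
  have hR : 0 ≤ 2 ^ finrank ℝ E * D ^ 2 * volume.real C * ∫ z in C, ‖G z‖ ^ 2 := by positivity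
  have h := convex_poincare_lint hC hm hb hD hu
  rw [← ENNReal.ofReal_le_ofReal_iff hR]
  refine le_trans ?_ h
  calc ENNReal.ofReal (∫ x in C, ∫ y in C, (u x - u y) ^ 2)
      ≤ ‖∫ x in C, ∫ y in C, (u x - u y) ^ 2‖ₑ := by
        rw [← ofReal_norm_eq_enorm]
        exact ENNReal.ofReal_le_ofReal (le_abs_self _)
    _ ≤ ∫⁻ x in C, ‖∫ y in C, (u x - u y) ^ 2‖ₑ := enorm_integral_le_lintegral_enorm _
    _ ≤ ∫⁻ x in C, ∫⁻ y in C, ‖(u x - u y) ^ 2‖ₑ :=
        lintegral_mono fun x => enorm_integral_le_lintegral_enorm _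
    _ = ∫⁻ x in C, ∫⁻ y in C, ENNReal.ofReal ((u x - u y) ^ 2) := by
        refine lintegral_congr fun x => lintegral_congr fun y => ?_
        rw [← ofReal_norm_eq_enorm, Real.norm_of_nonneg (sq_nonneg _)]

theorem cell_poincare {C : Set E} (hC : Convex ℝ C) (hm : MeasurableSet C)
    (hb : volume C < ⊤) {D : ℝ} (hD : ∀ x ∈ C, ∀ y ∈ C, ‖x - y‖ ≤ D) {p : E} {ρ : ℝ} (hρ : 0 < ρ)
    (hB : ball p ρ ⊆ C) (hu : H10 univ u G) :
    ∫ z in C, (u z - av p ρ u) ^ 2 ≤
      2 ^ finrank ℝ E * D ^ 2 * (volume.real C / volume.real (ball p ρ)) * ∫ z in C, ‖G z‖ ^ 2 := by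
  have hV : 0 < volume.real (ball p ρ) := vol_ball_pos p hρ
  set V := volume.real (ball p ρ) with hVd
  set a := av p ρ u with ha
  have hI : 0 ≤ ∫ z in C, ‖G z‖ ^ 2 := integral_nonneg fun z => by positivity
  have hR : 0 ≤ 2 ^ finrank ℝ E * D ^ 2 * (volume.real C / V) * ∫ z in C, ‖G z‖ ^ 2 := by
    positivity
  have huB : IntegrableOn u (ball p ρ) := memLp_integrableOn_ball hu.1 p ρ
  have hu2 : IntegrableOn (fun z => u z ^ 2) (ball p ρ) := hu.1.integrable_sq.integrableOn
  have hfin : volume (ball p ρ) ≠ ⊤ := measure_ball_lt_top.ne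
  have hmean : ∀ c : ℝ, V * (c - a) ^ 2 ≤ ∫ y in ball p ρ, (c - u y) ^ 2 := by
    intro c
    have hc : IntegrableOn (fun _ : E => c ^ 2) (ball p ρ) := integrableOn_const hfin
    have h1 : ∫ y in ball p ρ, (c - u y) ^ 2 =
        c ^ 2 * V - 2 * c * (V * a) + ∫ y in ball p ρ, u y ^ 2 := by
      have e : (fun y => (c - u y) ^ 2) = fun y => (c ^ 2 - 2 * c * u y) + u y ^ 2 := by
        ext y; ring
      have hcu : IntegrableOn (fun y => c ^ 2 - 2 * c * u y) (ball p ρ) :=
        hc.sub (huB.const_mul (2 * c))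
      have hcu' : IntegrableOn (fun y => 2 * c * u y) (ball p ρ) := huB.const_mul (2 * c)
      rw [e, integral_add hcu hu2, integral_sub hc hcu', integral_const_mul, setIntegral_const,
        ← av_mul_vol p hρ u, smul_eq_mul]
      ring
    have h2 : 0 ≤ ∫ y in ball p ρ, (a - u y) ^ 2 := integral_nonneg fun y => sq_nonneg _
    have h3 : ∫ y in ball p ρ, (a - u y) ^ 2 =
        a ^ 2 * V - 2 * a * (V * a) + ∫ y in ball p ρ, u y ^ 2 := by
      have hc' : IntegrableOn (fun _ : E => a ^ 2) (ball p ρ) := integrableOn_const hfin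
      have e : (fun y => (a - u y) ^ 2) = fun y => (a ^ 2 - 2 * a * u y) + u y ^ 2 := by
        ext y; ring
      have hcu : IntegrableOn (fun y => a ^ 2 - 2 * a * u y) (ball p ρ) :=
        hc'.sub (huB.const_mul (2 * a))
      have hcu' : IntegrableOn (fun y => 2 * a * u y) (ball p ρ) := huB.const_mul (2 * a)
      rw [e, integral_add hcu hu2, integral_sub hc' hcu', integral_const_mul, setIntegral_const,
        ← av_mul_vol p hρ u, smul_eq_mul]
      ring
    rw [h1]
    rw [h3] at h2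
    nlinarith
  have hpt : ∀ c : ℝ, ENNReal.ofReal ((c - a) ^ 2) ≤
      ENNReal.ofReal V⁻¹ * ∫⁻ y in C, ENNReal.ofReal ((c - u y) ^ 2) := by
    intro c
    have h1 : (c - a) ^ 2 ≤ V⁻¹ * ∫ y in ball p ρ, (c - u y) ^ 2 := by
      rw [← div_eq_inv_mul, le_div_iff₀ hV, mul_comm]
      exact hmean c
    calc ENNReal.ofReal ((c - a) ^ 2) ≤
          ENNReal.ofReal (V⁻¹ * ∫ y in ball p ρ, (c - u y) ^ 2) := ENNReal.ofReal_le_ofReal h1
      _ = ENNReal.ofReal V⁻¹ * ENNReal.ofReal (∫ y in ball p ρ, (c - u y) ^ 2) :=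
          ENNReal.ofReal_mul (by positivity)
      _ ≤ ENNReal.ofReal V⁻¹ * ∫⁻ y in ball p ρ, ENNReal.ofReal ((c - u y) ^ 2) := by
          refine mul_le_mul_right ?_ _
          calc ENNReal.ofReal (∫ y in ball p ρ, (c - u y) ^ 2)
              ≤ ‖∫ y in ball p ρ, (c - u y) ^ 2‖ₑ := by
                rw [← ofReal_norm_eq_enorm]
                exact ENNReal.ofReal_le_ofReal (le_abs_self _)
            _ ≤ ∫⁻ y in ball p ρ, ‖(c - u y) ^ 2‖ₑ := enorm_integral_le_lintegral_enorm _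
            _ = _ := by
                refine lintegral_congr fun y => ?_
                rw [← ofReal_norm_eq_enorm, Real.norm_of_nonneg (sq_nonneg _)]
      _ ≤ ENNReal.ofReal V⁻¹ * ∫⁻ y in C, ENNReal.ofReal ((c - u y) ^ 2) :=
          mul_le_mul_right (lintegral_mono_set hB) _
  rw [← ENNReal.ofReal_le_ofReal_iff hR]
  calc ENNReal.ofReal (∫ z in C, (u z - a) ^ 2)
      ≤ ‖∫ z in C, (u z - a) ^ 2‖ₑ := by
        rw [← ofReal_norm_eq_enorm]
        exact ENNReal.ofReal_le_ofReal (le_abs_self _)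
    _ ≤ ∫⁻ z in C, ‖(u z - a) ^ 2‖ₑ := enorm_integral_le_lintegral_enorm _
    _ = ∫⁻ z in C, ENNReal.ofReal ((u z - a) ^ 2) := by
        refine lintegral_congr fun z => ?_
        rw [← ofReal_norm_eq_enorm, Real.norm_of_nonneg (sq_nonneg _)]
    _ ≤ ∫⁻ z in C, ENNReal.ofReal V⁻¹ * ∫⁻ y in C, ENNReal.ofReal ((u z - u y) ^ 2) :=
        lintegral_mono fun z => hpt (u z)
    _ = ENNReal.ofReal V⁻¹ * ∫⁻ z in C, ∫⁻ y in C, ENNReal.ofReal ((u z - u y) ^ 2) :=
        lintegral_const_mul' _ _ ENNReal.ofReal_ne_top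
    _ ≤ ENNReal.ofReal V⁻¹ * ENNReal.ofReal (2 ^ finrank ℝ E * D ^ 2 * volume.real C *
          ∫ z in C, ‖G z‖ ^ 2) := mul_le_mul_right (convex_poincare_lint hC hm hb hD hu) _
    _ = _ := by
        rw [← ENNReal.ofReal_mul (by positivity)]
        congr 1
        ring

end Pool.Agent.H4.NM
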