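import Pool.Agent.H4.NM.Lim

/-!
# Calculus in `H¹₀`, part 3: chain rule, uniqueness of the gradient (MP_898b17_an, M1)
-/

open MeasureTheory Set Metric Filter Topology ContDiff
open scoped ENNReal RealInnerProductSpace

namespace Pool.Agent.H4.NM

variable {E : Type} [NormedAddCommGroup E] [InnerProductSpace ℝ E] [FiniteDimensional ℝ E]
  [CompleteSpace E] [MeasurableSpace E] [BorelSpace E]

set_option linter.unusedSectionVars false

set_option maxHeartbeats 400000

variable {Ω Ω' U : Set E} {u v w w' : E → ℝ} {G H W W' : E → E} {φ ψ : E → ℝ}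

/-! ### Limits of integrals -/

theorem tendsto_integral_inner {F : Type*} [NormedAddCommGroup F] [InnerProductSpace ℝ F]
    {fn gn : ℕ → E → F} {f g : E → F} (hfn : ∀ n, MemLp (fn n) 2 volume)
    (hgn : ∀ n, MemLp (gn n) 2 volume) (hf : MemLp f 2 volume) (hg : MemLp g 2 volume)
    (h1 : Tendsto (fun n => eLpNorm (fun z => fn n z - f z) 2 volume) atTop (𝓝 0))
    (h2 : Tendsto (fun n => eLpNorm (fun z => gn n z - g z) 2 volume) atTop (𝓝 0)) :
    Tendsto (fun n => ∫ z, ⟪fn n z, gn n z⟫) atTop (𝓝 (∫ z, ⟪f z, g z⟫)) := by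
  have e1 := (Lp.tendsto_Lp_iff_tendsto_eLpNorm'' fn hfn f hf).2 h1
  have e2 := (Lp.tendsto_Lp_iff_tendsto_eLpNorm'' gn hgn g hg).2 h2
  have e3 := e1.inner (𝕜 := ℝ) e2
  have key : ∀ (a b : E → F) (ha : MemLp a 2 volume) (hb : MemLp b 2 volume),
      inner ℝ (ha.toLp a) (hb.toLp b) = ∫ z, ⟪a z, b z⟫ := by
    intro a b ha hb
    rw [L2.inner_def]
    apply integral_congr_ae
    filter_upwards [ha.coeFn_toLp, hb.coeFn_toLp] with z h3 h4
    rw [h3, h4]
  simpa only [key] using e3

theorem H10.exists_approx_ae (h : H10 Ω u G) : ∃ φ : ℕ → E → ℝ, (∀ n, IsTest Ω (φ n)) ∧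
    Tendsto (fun n => eLpNorm (fun x => φ n x - u x) 2 volume) atTop (𝓝 0) ∧
    Tendsto (fun n => eLpNorm (fun x => gradient (φ n) x - G x) 2 volume) atTop (𝓝 0) ∧
    (∀ᵐ z, Tendsto (fun n => φ n z) atTop (𝓝 (u z))) ∧
    (∀ᵐ z, Tendsto (fun n => gradient (φ n) z) atTop (𝓝 (G z))) := by
  obtain ⟨φ, h1, h2, h3⟩ := h.approx
  obtain ⟨ns, hns, h4⟩ := (tendstoInMeasure_of_tendsto_eLpNorm (by norm_num)
    (fun n => ((h1 n).memLp 2).1) h.1.1 h2).exists_seq_tendsto_ae
  have h3' : Tendsto (fun n => eLpNorm (gradient (φ (ns n)) - G) 2 volume) atTop (𝓝 0) :=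
    h3.comp hns.tendsto_atTop
  obtain ⟨ms, hms, h5⟩ := (tendstoInMeasure_of_tendsto_eLpNorm (by norm_num)
    (fun n => ((h1 (ns n)).memLp_gradient 2).1) h.2.1 h3').exists_seq_tendsto_ae
  refine ⟨fun n => φ (ns (ms n)), fun n => h1 _, ?_, ?_, ?_, h5⟩
  · exact h2.comp (hns.tendsto_atTop.comp hms.tendsto_atTop)
  · exact h3.comp (hns.tendsto_atTop.comp hms.tendsto_atTop)
  · filter_upwards [h4] with z hz
    exact hz.comp hms.tendsto_atTop

theorem tendsto_eLpNorm_smul {F : Type*} [NormedAddCommGroup F] [NormedSpace ℝ F]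
    {an : ℕ → E → ℝ} {a : E → ℝ} {Gn : ℕ → E → F} {G : E → F} {C : ℝ}
    (han : ∀ n, AEStronglyMeasurable (an n) volume) (hbd : ∀ n, ∀ᵐ z, |an n z| ≤ C)
    (hl : ∀ᵐ z, Tendsto (fun n => an n z) atTop (𝓝 (a z)))
    (hG : MemLp G 2 volume) (hGn : ∀ n, MemLp (Gn n) 2 volume)
    (hlG : Tendsto (fun n => eLpNorm (fun z => Gn n z - G z) 2 volume) atTop (𝓝 0)) :
    MemLp (fun z => a z • G z) 2 volume ∧
      Tendsto (fun n => eLpNorm (fun z => an n z • Gn n z - a z • G z) 2 volume) atTop (𝓝 0) := by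
  obtain ⟨h1, h2⟩ := tendsto_eLpNorm_two_of_dominated (fn := fun n z => an n z • G z)
    (f := fun z => a z • G z) (b := fun z => C * ‖G z‖) (fun n => (han n).smul hG.1)
    (hG.norm.const_mul C) (fun n => by
      filter_upwards [hbd n] with z hz
      rw [norm_smul]
      exact mul_le_mul_of_nonneg_right hz (norm_nonneg _)) (by
      filter_upwards [hl] with z hz
      exact hz.smul_const _)
  refine ⟨h1, ?_⟩
  have h3 : Tendsto (fun n => ENNReal.ofReal C * eLpNorm (fun z => Gn n z - G z) 2 volume +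
      eLpNorm (fun z => an n z • G z - a z • G z) 2 volume) atTop (𝓝 0) := by
    have := (ENNReal.Tendsto.const_mul (a := ENNReal.ofReal C) hlG (Or.inr (by simp))).add h2
    simpa using this
  refine tendsto_of_tendsto_of_tendsto_of_le_of_le tendsto_const_nhds h3 (fun n => bot_le) ?_
  intro n
  have e : (fun z => an n z • Gn n z - a z • G z) =
      (fun z => an n z • (Gn n z - G z)) + fun z => an n z • G z - a z • G z := by
    ext1 z; simp only [Pi.add_apply, smul_sub]; abel
  simp only [e]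
  refine (eLpNorm_add_le ((han n).smul ((hGn n).1.sub hG.1)) (((han n).smul hG.1).sub h1.1)
    (by norm_num)).trans ?_
  refine add_le_add ?_ le_rfl
  refine eLpNorm_le_mul_eLpNorm_of_ae_le_mul ?_ 2
  filter_upwards [hbd n] with z hz
  have e2 : (an n • (Gn n - G)) z = an n z • (Gn n z - G z) := rfl
  rw [e2, norm_smul]
  exact mul_le_mul_of_nonneg_right hz (norm_nonneg _)

/-! ### Chain rule -/

theorem abs_sub_le_of_deriv {F : ℝ → ℝ} (hF : Differentiable ℝ F) {C : ℝ}
    (hC : ∀ t, |deriv F t| ≤ C) (s t : ℝ) : |F s - F t| ≤ C * |s - t| :=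
  convex_univ.norm_image_sub_le_of_norm_deriv_le (𝕜 := ℝ) (fun x _ => hF x) (fun x _ => hC x)
    (mem_univ t) (mem_univ s)

theorem H10.comp_smooth (h : H10 Ω u G) {F : ℝ → ℝ} (hF : ContDiff ℝ ∞ F) (hF0 : F 0 = 0) {C : ℝ}
    (hC : ∀ t, |deriv F t| ≤ C) : H10 Ω (fun z => F (u z)) (fun z => deriv F (u z) • G z) := by
  obtain ⟨φ, h1, h2, h3, h4, h5⟩ := h.exists_approx_ae
  have hFd : Differentiable ℝ F := hF.differentiable (by simp)
  have hF' : Continuous (deriv F) := hF.continuous_deriv (by simp)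
  obtain ⟨k1, k2⟩ := tendsto_eLpNorm_smul (an := fun n z => deriv F (φ n z))
    (a := fun z => deriv F (u z)) (Gn := fun n => gradient (φ n)) (G := G) (C := C)
    (fun n => (hF'.comp (h1 n).continuous).aestronglyMeasurable)
    (fun n => Eventually.of_forall fun z => hC _) (by
      filter_upwards [h4] with z hz
      exact (hF'.tendsto _).comp hz) h.2 (fun n => (h1 n).memLp_gradient 2) h3
  have hFu : MemLp (fun z => F (u z)) 2 volume := by
    refine MemLp.of_le_mul (g := u) (c := C) h.1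
      (hF.continuous.comp_aestronglyMeasurable h.1.1) (Eventually.of_forall fun z => ?_)
    have := abs_sub_le_of_deriv hFd hC (u z) 0
    rwa [hF0, sub_zero, sub_zero] at this
  refine ⟨hFu, k1, fun n z => F (φ n z), fun n => (h1 n).comp hF hF0, ?_, ?_⟩
  · have h6 : Tendsto (fun n => ENNReal.ofReal C * eLpNorm (fun x => φ n x - u x) 2 volume) atTop
        (𝓝 0) := by
      have := (ENNReal.Tendsto.const_mul (a := ENNReal.ofReal C) h2 (Or.inr (by simp)))
      simpa using this
    refine tendsto_of_tendsto_of_tendsto_of_le_of_le tendsto_const_nhds h6 (fun n => bot_le) ?_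
    intro n
    exact eLpNorm_le_mul_eLpNorm_of_ae_le_mul
      (Eventually.of_forall fun z => abs_sub_le_of_deriv hFd hC _ _) 2
  · refine k2.congr fun n => ?_
    congr 1
    ext1 z
    rw [gradient_comp' ((h1 n).differentiable z) (hFd _)]

/-- A continuous bounded function on the line is a bounded pointwise limit of smooth ones. -/
theorem exists_smooth_approx {f : ℝ → ℝ} (hf : Continuous f) {C : ℝ} (hC : ∀ t, |f t| ≤ C) :
    ∃ g : ℕ → ℝ → ℝ, (∀ n, ContDiff ℝ ∞ (g n)) ∧ (∀ n t, |g n t| ≤ C) ∧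
      ∀ t, Tendsto (fun n => g n t) atTop (𝓝 (f t)) := by
  let b : ℕ → ContDiffBump (0 : ℝ) := fun n =>
    { rIn := 1 / (2 * ((n : ℝ) + 1)), rOut := 1 / ((n : ℝ) + 1), rIn_pos := by positivity,
      rIn_lt_rOut := by
        apply one_div_lt_one_div_of_lt
        · positivity
        · have : (0 : ℝ) < (n : ℝ) + 1 := by positivity
          linarith }
  refine ⟨fun n => convolution ((b n).normed volume) f (ContinuousLinearMap.lsmul ℝ ℝ) volume,
    fun n => ?_, fun n t => ?_, fun t => ?_⟩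
  · exact (b n).hasCompactSupport_normed.contDiff_convolution_left _ (b n).contDiff_normed
      hf.locallyIntegrable
  · have hi : Integrable (fun y => (b n).normed volume y) volume := (b n).integrable_normed
    calc |convolution ((b n).normed volume) f (ContinuousLinearMap.lsmul ℝ ℝ) volume t|
        = ‖∫ y, (b n).normed volume y * f (t - y)‖ := rfl
      _ ≤ ∫ y, ‖(b n).normed volume y * f (t - y)‖ := norm_integral_le_integral_norm _
      _ ≤ ∫ y, (b n).normed volume y * C := by
          apply integral_mono_of_nonneg (Eventually.of_forall fun y => norm_nonneg _)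
            (hi.mul_const C)
          refine Eventually.of_forall fun y => ?_
          simp only [norm_mul]
          rw [Real.norm_of_nonneg ((b n).nonneg_normed y)]
          exact mul_le_mul_of_nonneg_left (hC _) ((b n).nonneg_normed y)
      _ = C := by rw [integral_mul_const, (b n).integral_normed, one_mul]
  · apply ContDiffBump.convolution_tendsto_right_of_continuous _ hf
    exact tendsto_one_div_add_atTop_nhds_zero_nat

theorem H10.comp (h : H10 Ω u G) {F : ℝ → ℝ} (hF : ContDiff ℝ 1 F) (hF0 : F 0 = 0) {C : ℝ}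
    (hC : ∀ t, |deriv F t| ≤ C) : H10 Ω (fun z => F (u z)) (fun z => deriv F (u z) • G z) := by
  have hF' : Continuous (deriv F) := hF.continuous_deriv (by simp)
  obtain ⟨g, g1, g2, g3⟩ := exists_smooth_approx hF' hC
  let F' : ℕ → ℝ → ℝ := fun n t => ∫ s in (0 : ℝ)..t, g n s
  have hd : ∀ n, deriv (F' n) = g n := by
    intro n
    ext1 t
    exact (g1 n).continuous.deriv_integral _ 0 t
  have hdiff : ∀ n, Differentiable ℝ (F' n) := by
    intro n t
    exact ((g1 n).continuous.integral_hasStrictDerivAt 0 t).hasDerivAt.differentiableAt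
  have hsm : ∀ n, ContDiff ℝ ∞ (F' n) := fun n =>
    contDiff_infty_iff_deriv.2 ⟨hdiff n, by rw [hd n]; exact g1 n⟩
  have h0 : ∀ n, F' n 0 = 0 := fun n => intervalIntegral.integral_same
  have hb : ∀ n t, |F' n t| ≤ C * |t| := by
    intro n t
    have := abs_sub_le_of_deriv (hdiff n) (C := C) (fun s => by rw [hd n]; exact g2 n s) t 0
    rwa [h0, sub_zero, sub_zero] at this
  have hlim : ∀ t, Tendsto (fun n => F' n t) atTop (𝓝 (F t)) := by
    intro t
    have e : F t = ∫ s in (0 : ℝ)..t, deriv F s := by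
      rw [intervalIntegral.integral_deriv_eq_sub (fun x _ => hF.differentiable (by simp) x)
        (hF'.intervalIntegrable 0 t), hF0, sub_zero]
    rw [e]
    apply intervalIntegral.tendsto_integral_filter_of_dominated_convergence (fun _ => C)
    · exact Eventually.of_forall fun n => (g1 n).continuous.aestronglyMeasurable
    · exact Eventually.of_forall fun n => Eventually.of_forall fun s _ => g2 n s
    · exact intervalIntegrable_const
    · exact Eventually.of_forall fun s _ => g3 s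
  refine H10.of_dominated (un := fun n z => F' n (u z)) (Gn := fun n z => g n (u z) • G z)
    (b := fun z => C * ‖u z‖) (B := fun z => C * ‖G z‖) (fun n => ?_) (h.1.norm.const_mul C)
    (h.2.norm.const_mul C) (fun n => Eventually.of_forall fun z => hb n _) (fun n =>
      Eventually.of_forall fun z => ?_) (Eventually.of_forall fun z => hlim _)
    (Eventually.of_forall fun z => (g3 _).smul_const _)
  · have := h.comp_smooth (hsm n) (h0 n) (C := C) (fun s => by rw [hd n]; exact g2 n s)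
    rwa [hd n] at this
  · rw [norm_smul]
    exact mul_le_mul_of_nonneg_right (g2 n _) (norm_nonneg _)

/-- Chain rule, limit version. -/
theorem H10.comp_limit (h : H10 Ω u G) {Fn : ℕ → ℝ → ℝ} {F f : ℝ → ℝ}
    (hF : ∀ n, ContDiff ℝ 1 (Fn n)) (hF0 : ∀ n, Fn n 0 = 0) {C : ℝ}
    (hC : ∀ n t, |deriv (Fn n) t| ≤ C) (h1 : ∀ t, Tendsto (fun n => Fn n t) atTop (𝓝 (F t)))
    (h2 : ∀ t, Tendsto (fun n => deriv (Fn n) t) atTop (𝓝 (f t))) :
    H10 Ω (fun z => F (u z)) (fun z => f (u z) • G z) := by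
  refine H10.of_dominated (un := fun n z => Fn n (u z)) (Gn := fun n z => deriv (Fn n) (u z) • G z)
    (b := fun z => C * ‖u z‖) (B := fun z => C * ‖G z‖) (fun n => ?_) (h.1.norm.const_mul C)
    (h.2.norm.const_mul C) (fun n => Eventually.of_forall fun z => ?_) (fun n =>
      Eventually.of_forall fun z => ?_) (Eventually.of_forall fun z => h1 _)
    (Eventually.of_forall fun z => (h2 _).smul_const _)
  · exact h.comp (hF n) (hF0 n) (hC n)
  · have := abs_sub_le_of_deriv ((hF n).differentiable (by simp)) (hC n) (u z) 0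
    rwa [hF0 n, sub_zero, sub_zero] at this
  · rw [norm_smul]
    exact mul_le_mul_of_nonneg_right (hC n _) (norm_nonneg _)

/-! ### Uniqueness of the gradient, vanishing outside `Ω` -/

theorem test_ibp (hφ : IsTest Ω φ) (hψ : IsTest Ω' ψ) (a : E) :
    ∫ z, ψ z * ⟪gradient φ z, a⟫ = - ∫ z, ⟪gradient ψ z, a⟫ * φ z := by
  simp only [inner_gradient]
  have hc1 : Continuous fun z => fderiv ℝ φ z a :=
    (hφ.1.continuous_fderiv (by simp)).clm_apply continuous_const
  have hc2 : Continuous fun z => fderiv ℝ ψ z a :=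
    (hψ.1.continuous_fderiv (by simp)).clm_apply continuous_const
  apply integral_mul_fderiv_eq_neg_fderiv_mul_of_integrable
  · exact (hc2.mul hφ.continuous).integrable_of_hasCompactSupport hφ.2.1.mul_left
  · exact (hψ.continuous.mul hc1).integrable_of_hasCompactSupport hψ.2.1.mul_right
  · exact (hψ.continuous.mul hφ.continuous).integrable_of_hasCompactSupport hψ.2.1.mul_right
  · exact fun x _ => hψ.differentiable x
  · exact fun x _ => hφ.differentiable x

/-- Integration by parts in `H¹₀` against test functions. -/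
theorem H10.ibp (h : H10 Ω u G) (hψ : IsTest Ω' ψ) (a : E) :
    ∫ z, ψ z * ⟪G z, a⟫ = - ∫ z, ⟪gradient ψ z, a⟫ * u z := by
  obtain ⟨φ, h1, h2, h3⟩ := h.approx
  have e1 : Tendsto (fun n => ∫ z, ⟪gradient (φ n) z, ψ z • a⟫) atTop (𝓝 (∫ z, ⟪G z, ψ z • a⟫)) := by
    refine tendsto_integral_inner (fun n => (h1 n).memLp_gradient 2) (fun n => ?_) h.2 ?_ h3 ?_
    · exact (hψ.continuous.smul continuous_const).memLp_of_hasCompactSupport hψ.2.1.smul_right
    · exact (hψ.continuous.smul continuous_const).memLp_of_hasCompactSupport hψ.2.1.smul_right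
    · simp
  have e2 : Tendsto (fun n => ∫ z, ⟪φ n z, ⟪gradient ψ z, a⟫⟫) atTop
      (𝓝 (∫ z, ⟪u z, ⟪gradient ψ z, a⟫⟫)) := by
    have hm : MemLp (fun z => ⟪gradient ψ z, a⟫) 2 volume :=
      (hψ.memLp_gradient 2).inner_const a
    refine tendsto_integral_inner (fun n => (h1 n).memLp 2) (fun n => hm) h.1 hm h2 ?_
    simp
  have e3 : ∀ n, ∫ z, ⟪gradient (φ n) z, ψ z • a⟫ = - ∫ z, ⟪φ n z, ⟪gradient ψ z, a⟫⟫ := by
    intro n
    have := test_ibp (h1 n) hψ a
    have e4 : (fun z => ⟪gradient (φ n) z, ψ z • a⟫) = fun z => ψ z * ⟪gradient (φ n) z, a⟫ := by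
      ext z; rw [inner_smul_right]
    have e5 : (fun z => ⟪φ n z, ⟪gradient ψ z, a⟫⟫) = fun z => ⟪gradient ψ z, a⟫ * φ n z := by
      ext z; rfl
    rw [e4, e5, this]
  have e6 := tendsto_nhds_unique e1 ((e2.neg).congr fun n => (e3 n).symm)
  have e4 : (fun z => ⟪G z, ψ z • a⟫) = fun z => ψ z * ⟪G z, a⟫ := by
    ext z; rw [inner_smul_right]
  have e5 : (fun z => ⟪u z, ⟪gradient ψ z, a⟫⟫) = fun z => ⟪gradient ψ z, a⟫ * u z := by
    ext z; rfl
  rw [e4, e5] at e6
  exact e6

theorem H10.grad_ae_zero (h : H10 Ω u G) (hu : u =ᵐ[volume] 0) : G =ᵐ[volume] 0 := by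
  apply ae_eq_zero_of_integral_contDiff_smul_eq_zero (h.2.locallyIntegrable (by norm_num))
  intro ψ h1 h2
  have hψ : IsTest univ ψ := ⟨h1, h2, subset_univ _⟩
  apply ext_inner_left ℝ
  intro a
  rw [inner_zero_right]
  have hint : Integrable (fun z => ψ z • G z) volume :=
    (h.2.locallyIntegrable (by norm_num)).integrable_smul_left_of_hasCompactSupport h1.continuous h2
  rw [← integral_inner hint]
  have e1 : (fun z => ⟪a, ψ z • G z⟫) = fun z => ψ z * ⟪G z, a⟫ := by
    ext z; rw [inner_smul_right, real_inner_comm]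
  rw [e1, h.ibp hψ a]
  have e2 : ∫ z, ⟪gradient ψ z, a⟫ * u z = ∫ _z : E, (0 : ℝ) := by
    apply integral_congr_ae
    filter_upwards [hu] with z hz
    rw [hz]; simp
  rw [e2]; simp

theorem H10.grad_unique (h : H10 Ω u G) (h' : H10 Ω' v H) (huv : u =ᵐ[volume] v) :
    G =ᵐ[volume] H := by
  have h1 := (h.mono (subset_univ _)).sub (h'.mono (subset_univ _))
  have h2 := h1.grad_ae_zero (by
    filter_upwards [huv] with z hz
    simp [hz])
  filter_upwards [h2] with z hz
  simpa [sub_eq_zero] using hz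

theorem ae_zero_of_tendsto {F : Type*} [NormedAddCommGroup F] {fn : ℕ → E → F} {f : E → F}
    (hΩ : MeasurableSet Ω) (hf : AEStronglyMeasurable f volume) (h0 : ∀ n, ∀ z ∉ Ω, fn n z = 0)
    (hl : Tendsto (fun n => eLpNorm (fun z => fn n z - f z) 2 volume) atTop (𝓝 0)) :
    ∀ᵐ z, z ∉ Ω → f z = 0 := by
  have h1 : ∀ n, eLpNorm (Ωᶜ.indicator f) 2 volume ≤
      eLpNorm (fun z => fn n z - f z) 2 volume := by
    intro n
    apply eLpNorm_mono
    intro z
    by_cases hz : z ∈ Ω
    · simp [hz]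
    · rw [indicator_of_mem (show z ∈ Ωᶜ from hz), h0 n z hz, zero_sub, norm_neg]
  have h2 : eLpNorm (Ωᶜ.indicator f) 2 volume = 0 :=
    le_antisymm (ge_of_tendsto' hl h1) bot_le
  rw [eLpNorm_eq_zero_iff (hf.indicator hΩ.compl) (by norm_num)] at h2
  filter_upwards [h2] with z hz hzΩ
  rwa [indicator_of_mem (show z ∈ Ωᶜ from hzΩ)] at hz

theorem H10.ae_zero (hΩ : IsOpen Ω) (h : H10 Ω u G) : ∀ᵐ z, z ∉ Ω → u z = 0 ∧ G z = 0 := by
  obtain ⟨φ, h1, h2, h3⟩ := h.approx
  have k1 := ae_zero_of_tendsto hΩ.measurableSet h.1.1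
    (fun n z hz => image_eq_zero_of_notMem_tsupport fun hz' => hz ((h1 n).2.2 hz')) h2
  have k2 := ae_zero_of_tendsto hΩ.measurableSet h.2.1
    (fun n z hz => gradient_zero_of_notMem_tsupport fun hz' => hz ((h1 n).2.2 hz')) h3
  filter_upwards [k1, k2] with z e1 e2 hz
  exact ⟨e1 hz, e2 hz⟩

theorem integrable_of_memLp_two {f : E → ℝ} (hΩ : IsOpen Ω) (hfin : volume Ω < ⊤)
    (hf : MemLp f 2 volume) (h0 : ∀ᵐ z, z ∉ Ω → f z = 0) : Integrable f volume := by
  have : Fact (volume Ω < ⊤) := ⟨hfin⟩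
  have h1 : IntegrableOn f Ω volume := (hf.restrict Ω).integrable (by norm_num)
  have h2 : Integrable (Ω.indicator f) volume := h1.integrable_indicator hΩ.measurableSet
  refine h2.congr ?_
  filter_upwards [h0] with z hz
  by_cases h3 : z ∈ Ω
  · simp [h3]
  · simp [h3, hz h3]

theorem H10.integrable (hΩ : IsOpen Ω) (hfin : volume Ω < ⊤) (h : H10 Ω u G) :
    Integrable u volume :=
  integrable_of_memLp_two hΩ hfin h.1 (by
    filter_upwards [h.ae_zero hΩ] with z hz hz'
    exact (hz hz').1)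

end Pool.Agent.H4.NM
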