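import Pool.Agent.H4.NM.Harm

/-!
# NM-19: Claim A, holes force a gain nearby (one ball) (MP_898b17_an, all dimensions)

## Paper proof of `one_ball`

`d = finrank ℝ E`. `c₁ = 3^{-d}/4`, `ε₁ = 3^{-d}/100` (so `ε₁ ≤ 1/100`), `C = 2 · 5^d / c₁²`.
Almost every `x ∈ ball y (R - 2s) \ Ω` is a density point of the complement of `Ω` :
`av x ρ 1_Ω → 0` as `ρ → 0` (`ae_tendsto_av` for `1_Ω`), and `w x' ≤ av x' ρ w + ρ²` for all `ρ > 0`,
`h x' ≥ av x' s w - R²` (if `ball x' s ⊆ ball y R`) for almost every `x'`.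
Let `f(j) = |B_{s 2^{-j}}(x) \ Ω| / |B_{s 2^{-j}}(x)|`. `f(0) < 1/2`: `x ∈ ball y (R - s)`, so
`ε₁ ≥ av x s (1 - w) ≥ f(0) - ε₁` (`1 - w = 1` off `Ω`, `1 - w ≥ -ε₁` on `ball x s ⊆ ball y R`), so
`f(0) ≤ 2 ε₁ < 1/2`. `f(j) → 1`. Let `j ≥ 1` be least with `f(j) ≥ 1/2`, `r = s 2^{-j}`, `ρ = 2 r ≤ s`,
`f(j-1) < 1/2`: `|B_ρ(x) \ Ω| < |B_ρ| / 2`, `|B_r(x) \ Ω| ≥ |B_r| / 2`.
For a.e. `x' ∈ ball x ρ`: `ball x r ⊆ ball x' (3r) ⊆ ball y (R + s)` (`|x' - y| + 3r < R - 2s + 5r ≤
R + s/2`). So, `w = 0` on `ball x r \ Ω` and `w ≤ 1 + ε₁` on `ball x' (3r)`: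
`∫_{ball x' 3r} w ≤ (1 + ε₁)(|B_{3r}| - |B_r|/2)`, `av x' (3r) w ≤ 1 + ε₁ - 3^{-d}/2`,
`w x' ≤ 1 + ε₁ - 3^{-d}/2 + 9 r² ≤ 1 + ε₁ - 3^{-d}/2 + (9/4) ε₁` (`r ≤ s/2`, `s ≤ ε₁ ≤ 1`).
And `ball x' s ⊆ ball y R` (`|x' - y| < R - 2s + ρ ≤ R - s`), `x' ∈ ball y (R - s)`:
`h x' ≥ av x' s w - R² = 1 - av x' s (1 - w) - R² ≥ 1 - ε₁ - ε₁` (`R ≤ ε₁ ≤ 1`), `t ≤ ε₁`. So
`h x' - t - w x' ≥ 3^{-d}/2 - (3 + 1 + 9/4) ε₁ ≥ c₁`.
Hence `∫_{closedBall x ρ} 1_Ω P² ≥ c₁² |B_ρ(x) ∩ Ω| ≥ c₁² |B_ρ| / 2 = c₁² 5^{-d} |B_{5ρ}| / 2`.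
`closedBall x ρ ⊆ ball y R`: `|x - y| + ρ < R - 2s + s`. (`P²` is integrable on balls: `h - w ∈ L²`.)
-/

open MeasureTheory Set Metric Filter Topology ContDiff Module
open scoped ENNReal NNReal RealInnerProductSpace

namespace Pool.Agent.H4.NM

variable {E : Type} [NormedAddCommGroup E] [InnerProductSpace ℝ E] [FiniteDimensional ℝ E]
  [CompleteSpace E] [MeasurableSpace E] [BorelSpace E]

set_option linter.unusedSectionVars false

variable {Ω U : Set E} {w h Φ : E → ℝ} {W Gh H : E → E} {y : E} {R t : ℝ}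

theorem one_ball (hd : 2 ≤ finrank ℝ E) : ∃ C ε₁ : ℝ, 0 < C ∧ 0 < ε₁ ∧ ε₁ ≤ 1 / 100 ∧
    ∀ (Ω : Set E) (w : E → ℝ) (W : E → E), Norm1 Ω w W →
    ∀ (y : E) (R s t : ℝ) (h : E → ℝ) (Gh : E → E), 0 < s → 2 * s < R → R ≤ ε₁ → 0 ≤ t → t ≤ ε₁ →
      IsHarm y R w W h Gh →
      (∀ᵐ z, z ∈ ball y (R + s) → w z ≤ 1 + ε₁) →
      (∀ x ∈ ball y (R - s), av x s (fun z => 1 - w z) ≤ ε₁) →
      ∀ᵐ x, x ∈ ball y (R - 2 * s) \ Ω → ∃ ρ, 0 < ρ ∧ ρ ≤ s ∧ closedBall x ρ ⊆ ball y R ∧
        volume.real (closedBall x (5 * ρ)) ≤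
          C * ∫ z in closedBall x ρ, Ω.indicator (fun z => (max (h z - t - w z) 0) ^ 2) z := by
  have hκ0 : (0 : ℝ) < (1 / 3) ^ finrank ℝ E := by positivity
  have hκ1 : ((1 : ℝ) / 3) ^ finrank ℝ E ≤ 1 := pow_le_one₀ (by norm_num) (by norm_num)
  set κ : ℝ := (1 / 3) ^ finrank ℝ E with hκ
  refine ⟨2 * 5 ^ finrank ℝ E / (κ / 4) ^ 2, κ / 100, by positivity, by positivity, by linarith, ?_⟩
  intro Ω w W hN y R s t h Gh hs hsR hRε ht htε hh hw1 hav
  have hR : 0 < R := by linarith
  have hΩm : MeasurableSet Ω := hN.isOpen.measurableSet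
  have hwI : ∀ (x : E) (r : ℝ), IntegrableOn w (ball x r) := fun x r => hN.integrable.integrableOn
  have hwM : MemLp w 2 volume := hN.h10.memLp
  have hhM : MemLp h 2 volume := (IsHarm.h10 hN.h10 hh).memLp
  set χ : E → ℝ := Ω.indicator (fun _ => (1 : ℝ)) with hχ
  have hχi : Integrable χ volume := (integrable_indicator_iff hΩm).2
    (integrableOn_const hN.fin.ne)
  have D := ae_tendsto_av hχi.locallyIntegrable
  have A1 := IsTorsion.ae_le_av hN.isOpen hN.fin hN.tor
  have A2 := hh.ge_av hd hN hR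
  have A3 := hN.off
  -- the mean of the indicator
  have hχav : ∀ (x : E) (r : ℝ), av x r χ = (volume.real (ball x r))⁻¹ *
      volume.real (ball x r ∩ Ω) := by
    intro x r
    rw [av, hχ, setIntegral_indicator hΩm, setIntegral_const, smul_eq_mul, mul_one]
  filter_upwards [D] with x hx hxm
  have hxΩ : x ∉ Ω := hxm.2
  have hxy : dist x y < R - 2 * s := hxm.1
  have hx0 : χ x = 0 := indicator_of_notMem hxΩ _
  rw [hx0] at hx
  -- at scale `s`
  have hxs : x ∈ ball y (R - s) := by
    rw [mem_ball]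
    linarith
  have h0 : 1 / 2 < av x s χ := by
    have k1 := hav x hxs
    have k2 : av x s (fun z => (1 - χ z) - κ / 100) ≤ av x s (fun z => 1 - w z) := by
      refine av_mono ?_ ?_ ?_
      · exact ((integrableOn_const (by exact measure_ball_lt_top.ne)).sub
          hχi.integrableOn).sub (integrableOn_const (by exact measure_ball_lt_top.ne))
      · exact (integrableOn_const (by exact measure_ball_lt_top.ne)).sub (hwI x s)
      · filter_upwards [hw1, A3] with z z1 z2 hz
        by_cases hzΩ : z ∈ Ω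
        · have e1 : χ z = 1 := indicator_of_mem hzΩ _
          have e2 : z ∈ ball y (R + s) := by
            rw [mem_ball] at hz ⊢
            have := dist_triangle z x y
            linarith
          have e3 := z1 e2
          rw [e1]
          linarith
        · have e1 : χ z = 0 := indicator_of_notMem hzΩ _
          rw [e1, z2 hzΩ]
          linarith
    have k3 : av x s (fun z => (1 - χ z) - κ / 100) = 1 - av x s χ - κ / 100 := by
      rw [av_sub (f := fun z => 1 - χ z) (g := fun _ => κ / 100)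
        ((integrableOn_const (by exact measure_ball_lt_top.ne)).sub
          hχi.integrableOn) (integrableOn_const (by exact measure_ball_lt_top.ne)),
        av_one_sub hs hχi.integrableOn, av_const x hs]
    rw [k3] at k2
    linarith
  -- the dyadic scale
  have hlim : Tendsto (fun j : ℕ => av x (s * (1 / 2) ^ j) χ) atTop (𝓝 0) := by
    refine hx.comp ?_
    refine tendsto_nhdsWithin_iff.2 ⟨?_, Eventually.of_forall fun j => ?_⟩
    · have := (tendsto_pow_atTop_nhds_zero_of_lt_one (r := (1 / 2 : ℝ)) (by norm_num)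
        (by norm_num)).const_mul s
      rwa [mul_zero] at this
    · exact mem_Ioi.2 (by positivity)
  have hex : ∃ j : ℕ, av x (s * (1 / 2) ^ j) χ ≤ 1 / 2 := by
    obtain ⟨j, hj⟩ := (hlim.eventually (gt_mem_nhds (by norm_num : (0 : ℝ) < 1 / 2))).exists
    exact ⟨j, hj.le⟩
  classical
  obtain ⟨k, hk1, hk2⟩ : ∃ k : ℕ, 1 / 2 < av x (s * (1 / 2) ^ k) χ ∧
      av x (s * (1 / 2) ^ (k + 1)) χ ≤ 1 / 2 := by
    have f1 := Nat.find_spec hex
    have f2 : Nat.find hex ≠ 0 := by
      intro h0'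
      rw [h0', pow_zero, mul_one] at f1
      linarith
    obtain ⟨k, hk⟩ := Nat.exists_eq_succ_of_ne_zero f2
    refine ⟨k, ?_, ?_⟩
    · have f3 := Nat.find_min hex (m := k) (by rw [hk]; exact Nat.lt_succ_self k)
      exact not_le.1 f3
    · rw [hk] at f1
      exact f1
  set ρ : ℝ := s * (1 / 2) ^ k with hρ
  have hρ0 : 0 < ρ := by positivity
  have hρs : ρ ≤ s := by
    rw [hρ]
    exact mul_le_of_le_one_right hs.le (pow_le_one₀ (by norm_num) (by norm_num))
  have hr : s * (1 / 2) ^ (k + 1) = ρ / 2 := by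
    rw [hρ, pow_succ]
    ring
  rw [hr] at hk2
  set r : ℝ := ρ / 2 with hrd
  have hr0 : 0 < r := by positivity
  have hVρ := vol_ball_pos x hρ0
  have hVr := vol_ball_pos x hr0
  -- volumes
  have hk1' : volume.real (ball x ρ) / 2 ≤ volume.real (ball x ρ ∩ Ω) := by
    rw [hχav] at hk1
    rw [← div_eq_inv_mul, lt_div_iff₀ hVρ] at hk1
    linarith
  have hk2' : volume.real (ball x r) / 2 ≤ volume.real (ball x r \ Ω) := by
    rw [hχav] at hk2
    rw [← div_eq_inv_mul, div_le_iff₀ hVr] at hk2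
    have e1 := measureReal_inter_add_sdiff (μ := volume) (s := ball x r) (t := Ω) hΩm
      (by exact measure_ball_lt_top.ne)
    linarith
  have hsub1 : closedBall x ρ ⊆ ball y R := by
    intro z hz
    rw [mem_closedBall] at hz
    rw [mem_ball]
    have := dist_triangle z x y
    linarith
  refine ⟨ρ, hρ0, hρs, hsub1, ?_⟩
  -- the lower bound of the gain
  have hpt : ∀ᵐ z, z ∈ ball x ρ → κ / 4 ≤ h z - t - w z := by
    filter_upwards [A1, A2] with z a1 a2 hz
    rw [mem_ball] at hz
    have hzy : dist z y < R - s := by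
      have := dist_triangle z x y
      linarith
    have b1 := a1 (3 * r) (by positivity)
    have b2 := a2 s hs (by
      intro v hv
      rw [mem_ball] at hv ⊢
      have := dist_triangle v z y
      linarith)
    have b3 := hav z (mem_ball.2 hzy)
    rw [av_one_sub hs (hwI z s)] at b3
    have hsub2 : ball x r ⊆ ball z (3 * r) := by
      intro v hv
      rw [mem_ball] at hv ⊢
      have := dist_triangle_right v z x
      rw [dist_comm z x] at hz
      have h3 := dist_triangle v x z
      linarith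
    have hsub3 : ball z (3 * r) ⊆ ball y (R + s) := by
      intro v hv
      rw [mem_ball] at hv ⊢
      have := dist_triangle v z y
      linarith
    have hBm : MeasurableSet (ball x r \ Ω) := measurableSet_ball.diff hΩm
    have b4 : av z (3 * r) w ≤ 1 + κ / 100 - κ / 2 := by
      have c1 : av z (3 * r) w ≤ av z (3 * r)
          (fun v => (1 + κ / 100) - (ball x r \ Ω).indicator (fun _ => (1 : ℝ)) v) := by
        refine av_mono (hwI z _) ?_ ?_
        · refine (integrableOn_const (by exact measure_ball_lt_top.ne)).sub ?_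
          refine Integrable.integrableOn ((integrable_indicator_iff hBm).2 (integrableOn_const ?_))
          exact ((measure_mono (μ := volume) (sdiff_subset (s := ball x r) (t := Ω))).trans_lt
            measure_ball_lt_top).ne
        · filter_upwards [hw1, A3] with v v1 v2 hv
          by_cases hvB : v ∈ ball x r \ Ω
          · rw [indicator_of_mem hvB, v2 hvB.2]
            linarith
          · rw [indicator_of_notMem hvB, sub_zero]
            exact v1 (hsub3 hv)
      have c2 : av z (3 * r) (fun v => (1 + κ / 100) -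
          (ball x r \ Ω).indicator (fun _ => (1 : ℝ)) v) =
          (1 + κ / 100) - (volume.real (ball z (3 * r)))⁻¹ * volume.real (ball x r \ Ω) := by
        rw [av_sub (f := fun _ => 1 + κ / 100), av_const z (by positivity)]
        · congr 1
          rw [av, setIntegral_indicator hBm, setIntegral_const, smul_eq_mul, mul_one,
            inter_eq_self_of_subset_right (sdiff_subset.trans hsub2)]
        · exact integrableOn_const (by exact measure_ball_lt_top.ne)
        · refine Integrable.integrableOn ((integrable_indicator_iff hBm).2 (integrableOn_const ?_))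
          exact ((measure_mono (μ := volume) (sdiff_subset (s := ball x r) (t := Ω))).trans_lt
            measure_ball_lt_top).ne
      have c3 : volume.real (ball x r) = κ * volume.real (ball z (3 * r)) := by
        rw [vol_ball x hr0, vol_ball z (by positivity : 0 < 3 * r), hκ, ← mul_assoc, ← mul_pow]
        congr 2
        ring
      have c4 := vol_ball_pos z (by positivity : 0 < 3 * r)
      have c5 : κ / 2 ≤ (volume.real (ball z (3 * r)))⁻¹ * volume.real (ball x r \ Ω) := by
        rw [← div_eq_inv_mul, le_div_iff₀ c4]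
        rw [c3] at hk2'
        linarith
      rw [c2] at c1
      linarith
    have d1 : R ^ 2 ≤ κ / 100 := by
      nlinarith
    have d2 : (3 * r) ^ 2 ≤ κ / 100 := by
      have e1 : 3 * r ≤ R := by
        rw [hrd]
        linarith
      have e2 : (3 * r) ^ 2 ≤ R ^ 2 := pow_le_pow_left₀ (by positivity) e1 2
      linarith
    linarith
  -- integrate
  have hMp : MemLp (fun z => max (h z - t - w z) 0) 2 (volume.restrict (closedBall x ρ)) := by
    have : IsFiniteMeasure (volume.restrict (closedBall x ρ)) :=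
      ⟨by simpa using measure_closedBall_lt_top⟩
    have e1 : MemLp (fun z => h z - t - w z) 2 (volume.restrict (closedBall x ρ)) :=
      ((hhM.restrict _).sub (memLp_const t)).sub (hwM.restrict _)
    exact e1.pos_part
  have hIc : IntegrableOn (fun z => (max (h z - t - w z) 0) ^ 2) (closedBall x ρ) volume :=
    hMp.integrable_sq
  have hI2 : IntegrableOn (fun z => (max (h z - t - w z) 0) ^ 2) (ball x ρ ∩ Ω) volume :=
    hIc.mono_set (inter_subset_left.trans ball_subset_closedBall)
  have hlow : (κ / 4) ^ 2 * volume.real (ball x ρ ∩ Ω) ≤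
      ∫ z in closedBall x ρ, Ω.indicator (fun z => (max (h z - t - w z) 0) ^ 2) z := by
    rw [setIntegral_indicator hΩm]
    have e1 : (κ / 4) ^ 2 * volume.real (ball x ρ ∩ Ω) = ∫ z in ball x ρ ∩ Ω, (κ / 4) ^ 2 := by
      rw [setIntegral_const, smul_eq_mul, mul_comm]
    have hfin : volume (ball x ρ ∩ Ω) ≠ ⊤ := by
      exact ((measure_mono (μ := volume) (inter_subset_left (s := ball x ρ) (t := Ω))).trans_lt
        measure_ball_lt_top).ne
    have e2 : ∫ z in ball x ρ ∩ Ω, (κ / 4) ^ 2 ≤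
        ∫ z in ball x ρ ∩ Ω, (max (h z - t - w z) 0) ^ 2 := by
      refine setIntegral_mono_ae_restrict (integrableOn_const hfin) hI2 ?_
      refine (ae_restrict_iff' (measurableSet_ball.inter hΩm)).2 ?_
      filter_upwards [hpt] with z hz hz'
      have f1 := hz hz'.1
      refine pow_le_pow_left₀ (by positivity) ?_ 2
      exact f1.trans (le_max_left _ _)
    have e3 : ∫ z in ball x ρ ∩ Ω, (max (h z - t - w z) 0) ^ 2 ≤
        ∫ z in closedBall x ρ ∩ Ω, (max (h z - t - w z) 0) ^ 2 := by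
      refine setIntegral_mono_set (hIc.mono_set inter_subset_left)
        (Eventually.of_forall fun z => by positivity) ?_
      exact (inter_subset_inter_left Ω ball_subset_closedBall).eventuallyLE
    rw [e1]
    exact e2.trans e3
  have hV5 : volume.real (closedBall x (5 * ρ)) = 5 ^ finrank ℝ E * volume.real (ball x ρ) := by
    rw [vol_ball x hρ0, Measure.real, Measure.addHaar_closedBall _ _ (by positivity),
      ENNReal.toReal_mul, ENNReal.toReal_ofReal (by positivity), Measure.real, mul_pow]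
    ring
  rw [hV5]
  have g1 : (5 : ℝ) ^ finrank ℝ E * volume.real (ball x ρ) =
      2 * 5 ^ finrank ℝ E / (κ / 4) ^ 2 * ((κ / 4) ^ 2 * (volume.real (ball x ρ) / 2)) := by
    field_simp
  rw [g1]
  refine mul_le_mul_of_nonneg_left ?_ (by positivity)
  refine le_trans ?_ hlow
  exact mul_le_mul_of_nonneg_left hk1' (by positivity)

end Pool.Agent.H4.NM
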