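import Pool.Agent.H4.NM.Av

/-!
# NM-20: a covering lemma (MP_898b17_an, all dimensions)

## Paper proof of `vitali_le`

`S' ⊆ S` the set of full measure in `S` where the hypothesis holds, `ρ x` the radius. Vitali
(`Vitali.exists_disjoint_subfamily_covering_enlargement_closedBall`, radii bounded by `s`; check the
form of the statement in Mathlib, factor `5`): a subset `u ⊆ S'` with the
`closedBall x (ρ x)`, `x ∈ u`, pairwise disjoint, and `S' ⊆ ⋃_{x ∈ u} closedBall x (5 ρ x)`. `u` is
countable (disjoint sets with nonempty interior in a separable space,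
`Set.PairwiseDisjoint.countable_of_nonempty_interior`). So
`|S| ≤ ∑_{x ∈ u} |closedBall x (5 ρ x)| ≤ C ∑_{x ∈ u} ∫_{closedBall x (ρ x)} F ≤ C ∫_D F`
(`integral_iUnion`-type countable additivity, or `lintegral`s; `F ≥ 0`).
-/

open MeasureTheory Set Metric Filter Topology ContDiff Module
open scoped ENNReal NNReal RealInnerProductSpace

namespace Pool.Agent.H4.NM

variable {E : Type} [NormedAddCommGroup E] [InnerProductSpace ℝ E] [FiniteDimensional ℝ E]
  [CompleteSpace E] [MeasurableSpace E] [BorelSpace E]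

set_option linter.unusedSectionVars false

theorem vitali_le {S D : Set E} {F : E → ℝ} (hD : MeasurableSet D) (hF : IntegrableOn F D)
    (hF0 : ∀ z, 0 ≤ F z) {s C : ℝ} (hC : 0 ≤ C)
    (h : ∀ᵐ x, x ∈ S → ∃ ρ, 0 < ρ ∧ ρ ≤ s ∧ closedBall x ρ ⊆ D ∧
      volume.real (closedBall x (5 * ρ)) ≤ C * ∫ z in closedBall x ρ, F z) :
    volume S ≤ ENNReal.ofReal (C * ∫ z in D, F z) := by
  classical
  set t : Set E := {x | ∃ ρ, 0 < ρ ∧ ρ ≤ s ∧ closedBall x ρ ⊆ D ∧
      volume.real (closedBall x (5 * ρ)) ≤ C * ∫ z in closedBall x ρ, F z} with ht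
  have hex : ∀ x : E, ∃ ρ : ℝ, x ∈ t → (0 < ρ ∧ ρ ≤ s ∧ closedBall x ρ ⊆ D ∧
      volume.real (closedBall x (5 * ρ)) ≤ C * ∫ z in closedBall x ρ, F z) := by
    intro x
    by_cases hx : x ∈ t
    · obtain ⟨ρ, hρ⟩ := hx
      exact ⟨ρ, fun _ => hρ⟩
    · exact ⟨0, fun hx' => absurd hx' hx⟩
  choose r hr using hex
  obtain ⟨u, hut, hdisj, hcov⟩ :=
    Vitali.exists_disjoint_subfamily_covering_enlargement_closedBall t (fun x : E => x) r s
      (fun a ha => (hr a ha).2.1) 5 (by norm_num)
  have hcount : u.Countable := by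
    refine hdisj.countable_of_nonempty_interior fun x hx => ?_
    rw [interior_closedBall _ (hr x (hut hx)).1.ne']
    exact ⟨x, mem_ball_self (hr x (hut hx)).1⟩
  have hfi : ∀ x ∈ u, IntegrableOn F (closedBall x (r x)) := fun x hx =>
    hF.mono_set (hr x (hut hx)).2.2.1
  have hone : ∀ x ∈ u, volume (closedBall x (5 * r x)) ≤
      ENNReal.ofReal C * ∫⁻ z in closedBall x (r x), ENNReal.ofReal (F z) := by
    intro x hx
    have h1 := (hr x (hut hx)).2.2.2
    rw [← ofReal_integral_eq_lintegral_ofReal (hfi x hx) (Eventually.of_forall hF0),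
      ← ENNReal.ofReal_mul hC]
    rw [← ENNReal.ofReal_toReal (isCompact_closedBall x (5 * r x)).measure_lt_top.ne]
    exact ENNReal.ofReal_le_ofReal h1
  calc volume S ≤ volume t := measure_mono_ae (by
        filter_upwards [h] with x hx hxS
        exact hx hxS)
    _ ≤ volume (⋃ x ∈ u, closedBall x (5 * r x)) := by
        refine measure_mono fun a ha => ?_
        obtain ⟨b, hb, hab⟩ := hcov a ha
        exact mem_biUnion hb (hab (mem_closedBall_self (hr a ha).1.le))
    _ ≤ ∑' x : u, volume (closedBall (x : E) (5 * r x)) := measure_biUnion_le _ hcount _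
    _ ≤ ∑' x : u, ENNReal.ofReal C * ∫⁻ z in closedBall (x : E) (r x), ENNReal.ofReal (F z) :=
        ENNReal.tsum_le_tsum fun x => hone x x.2
    _ = ENNReal.ofReal C * ∑' x : u, ∫⁻ z in closedBall (x : E) (r x), ENNReal.ofReal (F z) :=
        ENNReal.tsum_mul_left
    _ = ENNReal.ofReal C * ∫⁻ z in ⋃ x ∈ u, closedBall x (r x), ENNReal.ofReal (F z) := by
        rw [lintegral_biUnion hcount (fun x _ => isClosed_closedBall.measurableSet) hdisj]
    _ ≤ ENNReal.ofReal C * ∫⁻ z in D, ENNReal.ofReal (F z) := by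
        gcongr
        exact iUnion₂_subset fun x hx => (hr x (hut hx)).2.2.1
    _ = ENNReal.ofReal (C * ∫ z in D, F z) := by
        rw [← ofReal_integral_eq_lintegral_ofReal hF (Eventually.of_forall hF0),
          ← ENNReal.ofReal_mul hC]

end Pool.Agent.H4.NM
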