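import Pool.Agent.H4.NM.ClaimA
import Pool.Agent.H4.NM.VitaliC

/-!
# NM-21: Claim B, geometric growth of the holes (MP_898b17_an, all dimensions)

## Paper proof of `claimB`

`C`, `ε₁` from `one_ball`; without loss `C ≥ 1`. `c₂ = 1/C`, `γ = 4/(4 + c₂)`,
`ε₀ ≤ ε₁/4` so small that `(1 + ε₀) (4 + c₂) ≤ 4 (1 + c₂ - 2 (4 ε₀)²)`, e.g. `ε₀ = min (ε₁/4) (c₂/100)`
(`c₂ ≤ 1`: left `≤ 4 + c₂ + 5 c₂/100`, right `≥ 4 + 4 c₂ - 8·16 c₂²/10⁴`).
`B = ball y R`, `K = B \ Ω`, `f(R) = |K|`, `t = ε₀`, `h` the harmonic replacement (`exists_harm`), `P = (h - t - w)⁺`.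
`one_ball` and `vitali_le` (`D = B`, `S = ball y (R-2s) \ Ω`, `F = 1_Ω P²`):
`c₂ f(R - 2s) ≤ ∫_{B ∩ Ω} P²`. `LocIneq` (`w ≤ 1 + ε₀` on `B`):
`∫_{B ∩ Ω} P² ≤ ∫_K min 1 (2 (1 - ψ)²) + ε₀ f(R)`, `ψ = h - t`. On `K ∩ ball y (R-2s)`, a.e.:
`ψ ≤ 1` (`IsHarm.le_const`, `c = 1 + ε₀`) and `ψ x ≥ av x s w - R² - t ≥ 1 - ε₀ - ε₀ - ε₀`
(`IsHarm.ge_av`, `ball x s ⊆ B`, `R² ≤ R ≤ ε₀`), so `2 (1-ψ)² ≤ 2 (4ε₀)²`; elsewhere `min ≤ 1`. So
`c₂ f(R-2s) ≤ 2 (4ε₀)² f(R-2s) + (f(R) - f(R-2s)) + ε₀ f(R)`,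
`(1 + c₂ - 2(4ε₀)²) f(R - 2s) ≤ (1 + ε₀) f(R)`, hence `f(R-2s) ≤ γ f(R)`.

## Paper proof of `iterate`

Induction on `m`: `f(s) ≤ γ^m f(s + 2 m s)`: apply the one-step inequality `hB` with
`R = s + 2 (i+1) s > 2 s`; then `f(s + 2ms) ≤ |ball y R|`.
(`ball y (R' - s) ⊆ ball y R`, `ball y (R' + s) ⊆ ball y (R+s)` for `R' ≤ R`.)
-/

open MeasureTheory Set Metric Filter Topology ContDiff Module
open scoped ENNReal NNReal RealInnerProductSpace

namespace Pool.Agent.H4.NM

variable {E : Type} [NormedAddCommGroup E] [InnerProductSpace ℝ E] [FiniteDimensional ℝ E]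
  [CompleteSpace E] [MeasurableSpace E] [BorelSpace E]

set_option linter.unusedSectionVars false

variable {Ω U : Set E} {w h Φ : E → ℝ} {W Gh H : E → E} {y : E} {R t : ℝ}

/-- The one-step inequality with constants `γ`, `ε₀`. -/
def StepB (γ ε₀ : ℝ) (Ω : Set E) (w : E → ℝ) : Prop :=
  ∀ (y : E) (R s : ℝ), 0 < s → 2 * s < R → R ≤ ε₀ → volume.real (ball y R) ≤ volume.real Ω →
    (∀ᵐ z, z ∈ ball y (R + s) → w z ≤ 1 + ε₀) →
    (∀ x ∈ ball y (R - s), av x s (fun z => 1 - w z) ≤ ε₀) →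
    volume.real (ball y (R - 2 * s) \ Ω) ≤ γ * volume.real (ball y R \ Ω)

theorem claimB (hd : 2 ≤ finrank ℝ E) : ∃ γ ε₀ : ℝ, 0 < γ ∧ γ < 1 ∧ 0 < ε₀ ∧ ε₀ ≤ 1 / 100 ∧
    ∀ (Ω : Set E) (w : E → ℝ) (W : E → E), Norm1 Ω w W → LocIneq ε₀ Ω w W →
      StepB γ ε₀ Ω w := by
  obtain ⟨C, ε₁, hC, hε₁, hε₁', hone⟩ := one_ball (E := E) hd
  obtain ⟨c, hc0, hc1, hcC⟩ : ∃ c : ℝ, 0 < c ∧ c ≤ 1 ∧ c * C ≤ 1 := by
    refine ⟨1 / max C 1, by positivity, ?_, ?_⟩
    · rw [div_le_one (by positivity)]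
      exact le_max_right _ _
    · rw [div_mul_eq_mul_div, one_mul, div_le_one (by positivity)]
      exact le_max_left _ _
  obtain ⟨ε₀, he0, he1, he2⟩ : ∃ ε₀ : ℝ, 0 < ε₀ ∧ ε₀ ≤ ε₁ / 4 ∧ ε₀ ≤ c / 100 :=
    ⟨min (ε₁ / 4) (c / 100), lt_min (by positivity) (by positivity), min_le_left _ _, min_le_right _ _⟩
  refine ⟨4 / (4 + c), ε₀, by positivity, ?_, he0, by linarith, ?_⟩
  · rw [div_lt_one (by positivity)]
    linarith
  intro Ω w W hN hL y R s hs h2s hR hv h1 h2
  have hR0 : 0 < R := by linarith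
  obtain ⟨h, Gh, hh⟩ := exists_harm hd hN.h10 y hR0
  have hball : ball y R ⊆ ball y (R + s) := ball_subset_ball (by linarith)
  have h1' : ∀ᵐ z, z ∈ ball y R → w z ≤ 1 + ε₀ := by
    filter_upwards [h1] with z hz hz'
    exact hz (hball hz')
  -- abbreviations
  set K := ball y R \ Ω with hK
  set K1 := ball y (R - 2 * s) \ Ω with hK1
  set P : E → ℝ := fun z => (max (h z - ε₀ - w z) 0) ^ 2 with hP
  have hP0 : ∀ z, 0 ≤ P z := fun z => by positivity
  have hΩm : MeasurableSet Ω := hN.isOpen.measurableSet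
  have hPint : Integrable P volume := by
    have e1 : Integrable (fun z => (h z - w z) ^ 2) volume := hh.1.memLp.integrable_sq
    have e2 : AEStronglyMeasurable P volume := by
      have e3 : AEStronglyMeasurable (fun z => h z - w z) volume := hh.1.memLp.aestronglyMeasurable
      have e4 : AEStronglyMeasurable (fun z => (max ((h z - w z) - ε₀) 0) ^ 2) volume :=
        ((e3.sub aestronglyMeasurable_const).sup aestronglyMeasurable_const).pow 2
      refine e4.congr (Eventually.of_forall fun z => ?_)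
      show (max ((h z - w z) - ε₀) 0) ^ 2 = (max (h z - ε₀ - w z) 0) ^ 2
      rw [sub_right_comm]
    refine e1.mono' e2 (Eventually.of_forall fun z => ?_)
    rw [Real.norm_of_nonneg (hP0 z)]
    show (max (h z - ε₀ - w z) 0) ^ 2 ≤ (h z - w z) ^ 2
    rcases le_total (h z - ε₀ - w z) 0 with hle | hle
    · rw [max_eq_right hle]
      linarith [sq_nonneg (h z - w z)]
    · rw [max_eq_left hle]
      exact pow_le_pow_left₀ hle (by linarith) 2
  -- the covering
  have hS : volume K1 ≤ ENNReal.ofReal (C * ∫ z in ball y R, Ω.indicator P z) := by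
    refine vitali_le (s := s) measurableSet_ball (hPint.indicator hΩm).integrableOn ?_ hC.le ?_
    · intro z
      exact indicator_nonneg (fun z _ => hP0 z) z
    · have := hone Ω w W hN y R s ε₀ h Gh hs h2s (by linarith) he0.le (by linarith) hh
        (by filter_upwards [h1] with z hz hz'
            have := hz hz'
            linarith)
        (fun x hx => (h2 x hx).trans (by linarith))
      exact this
  have hI0 : 0 ≤ ∫ z in ball y R ∩ Ω, P z := integral_nonneg fun z => hP0 z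
  have hS' : volume.real K1 ≤ C * ∫ z in ball y R ∩ Ω, P z := by
    have e1 : ∫ z in ball y R, Ω.indicator P z = ∫ z in ball y R ∩ Ω, P z :=
      setIntegral_indicator hΩm
    rw [e1] at hS
    exact ENNReal.toReal_le_of_le_ofReal (mul_nonneg hC.le hI0) hS
  -- the local inequality
  have hloc := (hL y R ε₀ h Gh hR0 he0.le hv hh h1').1
  have hKfin : volume K ≠ ⊤ := ((measure_mono sdiff_subset).trans_lt measure_ball_lt_top).ne
  have hsub : K1 ⊆ K := sdiff_subset_sdiff_left (ball_subset_ball (by linarith))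
  have hK1m : MeasurableSet K1 := measurableSet_ball.diff hΩm
  have hKm : MeasurableSet K := measurableSet_ball.diff hΩm
  have hK1fin : volume K1 ≠ ⊤ := ((measure_mono hsub).trans_lt hKfin.lt_top).ne
  -- bound of the integrand on `K1`
  have hψ : ∀ᵐ z, z ∈ K1 → 2 * (1 - (h z - ε₀)) ^ 2 ≤ 2 * (4 * ε₀) ^ 2 := by
    filter_upwards [hh.le_const hd hN.h10 (c := 1 + ε₀) (by linarith) h1', hh.ge_av hd hN hR0]
      with z hz1 hz2 hzK
    have hzb : z ∈ ball y (R - 2 * s) := hzK.1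
    rw [mem_ball] at hzb
    have hzR : z ∈ ball y R := by rw [mem_ball]; linarith
    have hzs : z ∈ ball y (R - s) := by rw [mem_ball]; linarith
    have hbs : ball z s ⊆ ball y R := ball_subset_ball' (by linarith)
    have a1 := hz1 hzR
    have a2 := hz2 s hs hbs
    have a3 := h2 z hzs
    rw [av_one_sub hs (memLp_integrableOn_ball hN.tor.1.memLp z s)] at a3
    have a4 : R ^ 2 ≤ ε₀ := by nlinarith
    have a5 : 0 ≤ 1 - (h z - ε₀) := by linarith
    have a6 : 1 - (h z - ε₀) ≤ 4 * ε₀ := by linarith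
    have := pow_le_pow_left₀ a5 a6 2
    linarith
  have hmin : ∫ z in K, min 1 (2 * (1 - (h z - ε₀)) ^ 2) ≤
      volume.real K - (1 - 2 * (4 * ε₀) ^ 2) * volume.real K1 := by
    have i1 : Integrable (fun _ : E => (1 : ℝ)) (volume.restrict K) := integrableOn_const hKfin
    have i2 : Integrable (fun z => K1.indicator (fun _ => 1 - 2 * (4 * ε₀) ^ 2) z)
        (volume.restrict K) := by
      have i3 : IntegrableOn (fun _ : E => 1 - 2 * (4 * ε₀) ^ 2) K1 volume :=
        integrableOn_const hK1fin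
      exact (i3.integrable_indicator hK1m).integrableOn
    have e1 : ∫ z in K, (1 - K1.indicator (fun _ => 1 - 2 * (4 * ε₀) ^ 2) z) =
        volume.real K - (1 - 2 * (4 * ε₀) ^ 2) * volume.real K1 := by
      rw [integral_sub i1 i2, setIntegral_const,
        setIntegral_indicator hK1m, inter_eq_self_of_subset_right hsub, setIntegral_const]
      simp only [smul_eq_mul, mul_one]
      ring
    rw [← e1]
    refine integral_mono_of_nonneg (Eventually.of_forall fun z => ?_) (i1.sub i2) ?_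
    · show 0 ≤ min 1 (2 * (1 - (h z - ε₀)) ^ 2)
      positivity
    · filter_upwards [ae_restrict_of_ae hψ] with z hz
      show min 1 (2 * (1 - (h z - ε₀)) ^ 2) ≤ 1 - K1.indicator (fun _ => 1 - 2 * (4 * ε₀) ^ 2) z
      by_cases hzK : z ∈ K1
      · rw [indicator_of_mem hzK]
        have := hz hzK
        exact (min_le_right _ _).trans (by linarith)
      · rw [indicator_of_notMem hzK, sub_zero]
        exact min_le_left _ _
  have hf0 : 0 ≤ volume.real K := measureReal_nonneg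
  have hf1 : 0 ≤ volume.real K1 := measureReal_nonneg
  have key1 : c * volume.real K1 ≤ ∫ z in ball y R ∩ Ω, P z := by
    calc c * volume.real K1 ≤ c * (C * ∫ z in ball y R ∩ Ω, P z) :=
          mul_le_mul_of_nonneg_left hS' hc0.le
      _ = (c * C) * ∫ z in ball y R ∩ Ω, P z := by ring
      _ ≤ 1 * ∫ z in ball y R ∩ Ω, P z := mul_le_mul_of_nonneg_right hcC hI0
      _ = _ := one_mul _
  have key2 : (1 + c - 2 * (4 * ε₀) ^ 2) * volume.real K1 ≤ (1 + ε₀) * volume.real K := by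
    have : ∫ z in ball y R ∩ Ω, P z ≤
        (∫ z in K, min 1 (2 * (1 - (h z - ε₀)) ^ 2)) + ε₀ * volume.real K := hloc
    linarith
  have key3 : (1 + ε₀) * (4 + c) ≤ 4 * (1 + c - 2 * (4 * ε₀) ^ 2) := by
    nlinarith
  rw [div_mul_eq_mul_div, le_div_iff₀ (by positivity)]
  have key4 : (1 + ε₀) * ((4 + c) * volume.real K1) ≤ (1 + ε₀) * (4 * volume.real K) := by
    have := mul_le_mul_of_nonneg_right key3 hf1
    linarith
  have := le_of_mul_le_mul_left key4 (by linarith)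
  linarith

theorem iterate {γ ε₀ : ℝ} (hγ : 0 < γ) (hB : StepB γ ε₀ Ω w) {y : E} {R s : ℝ} (hs : 0 < s)
    {m : ℕ} (hm : s + 2 * m * s ≤ R) (hR : R ≤ ε₀)
    (hv : volume.real (ball y R) ≤ volume.real Ω)
    (h1 : ∀ᵐ z, z ∈ ball y (R + s) → w z ≤ 1 + ε₀)
    (h2 : ∀ x ∈ ball y R, av x s (fun z => 1 - w z) ≤ ε₀) :
    volume.real (ball y s \ Ω) ≤ γ ^ m * volume.real (ball y R) := by
  have hmono : ∀ {r : ℝ}, r ≤ R → volume.real (ball y r) ≤ volume.real (ball y R) := fun hr =>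
    measureReal_mono (ball_subset_ball hr) measure_ball_lt_top.ne
  have key : ∀ i : ℕ, i ≤ m →
      volume.real (ball y s \ Ω) ≤ γ ^ i * volume.real (ball y (s + 2 * i * s) \ Ω) := by
    intro i
    induction i with
    | zero => intro _; simp
    | succ i ih =>
      intro hi
      have hi' : ((i + 1 : ℕ) : ℝ) ≤ m := by exact_mod_cast hi
      have hR' : s + 2 * ((i + 1 : ℕ) : ℝ) * s ≤ R := by
        have : ((i + 1 : ℕ) : ℝ) * s ≤ m * s := mul_le_mul_of_nonneg_right hi' hs.le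
        linarith
      have hpos : (0 : ℝ) ≤ i * s := by positivity
      have hstep := hB y (s + 2 * ((i + 1 : ℕ) : ℝ) * s) s hs (by push_cast; linarith)
        (hR'.trans hR) ((hmono hR').trans hv)
        (by
          filter_upwards [h1] with z hz hz'
          exact hz (ball_subset_ball (by linarith) hz'))
        (fun x hx => h2 x (ball_subset_ball (by linarith) hx))
      have e1 : s + 2 * ((i + 1 : ℕ) : ℝ) * s - 2 * s = s + 2 * i * s := by push_cast; ring
      rw [e1] at hstep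
      calc volume.real (ball y s \ Ω) ≤ γ ^ i * volume.real (ball y (s + 2 * i * s) \ Ω) :=
            ih (by omega)
        _ ≤ γ ^ i * (γ * volume.real (ball y (s + 2 * ((i + 1 : ℕ) : ℝ) * s) \ Ω)) :=
            mul_le_mul_of_nonneg_left hstep (by positivity)
        _ = γ ^ (i + 1) * volume.real (ball y (s + 2 * ((i + 1 : ℕ) : ℝ) * s) \ Ω) := by ring
  refine (key m le_rfl).trans (mul_le_mul_of_nonneg_left ?_ (by positivity))
  exact (measureReal_mono sdiff_subset measure_ball_lt_top.ne).trans (hmono hm)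

end Pool.Agent.H4.NM
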