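import Pool.Agent.H4.NM.Relaxed

/-!
# NM-15: the gain of a competitor is at most `(1 + c) |U \ Ω|` (MP_898b17_an, all dimensions)

## Paper proof

`d = finrank ℝ E`, `A = |Ω|`, `T = ∫ w`, `X = ∫ (2 - g) w'`, `p = pexp E q = (dq + 2q - 2)/d`,
`x = |U \ Ω| / A ≤ 1`, `e = 2 (q - 1) / (d q)`, so `p / q = 1 + e`. If `X ≤ T` there is nothing to
prove (`c > 0`, right side `≥ T`). Let `X > T ≥ 0`. `relaxed` with `η > 0` small (`η < 1`, `η < X`) and
maximality (`NoBetter` with `c = 1 - η`, `t = X - η`):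
`(1 - η) (X - η)^q ≤ T^q A^{-p} |Ω'|^p ≤ T^q A^{-p} |U|^p = T^q (1 + x)^p`. Let `η → 0`
(continuity of `rpow`): `X^q ≤ T^q (1+x)^p`, so `X ≤ T (1 + x)^{1+e}`
(`Real.rpow_le_rpow_iff`, monotone).
`(1+x)^{1+e} ≤ 1 + x (1+e) 2^e` for `0 ≤ x ≤ 1` (mean value theorem, or convexity:
`(1+x)^{1+e} ≤ 1 + x (2^{1+e} - 1)`, the chord; any bound `1 + x (1 + c(e))` with `c(e) → 0` will do;
the chord gives `c(e) = 2^{1+e} - 2`). So `X - T ≤ T x (1 + c(e)) ≤ A x (1 + c(e)) = (1 + c(e)) |U\Ω|`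
(`Norm1.tor_le`: `T ≤ A`), and `c(e) ≤ c` for `q` close to `1` (`e → 0`).
-/

open MeasureTheory Set Metric Filter Topology ContDiff Module
open scoped ENNReal NNReal RealInnerProductSpace

namespace Pool.Agent.H4.NM

variable {E : Type} [NormedAddCommGroup E] [InnerProductSpace ℝ E] [FiniteDimensional ℝ E]
  [CompleteSpace E] [MeasurableSpace E] [BorelSpace E]

set_option linter.unusedSectionVars false

theorem rpow_chord {x e : ℝ} (hx0 : 0 ≤ x) (hx1 : x ≤ 1) (he : 0 ≤ e) :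
    (1 + x) ^ (1 + e) ≤ 1 + x * ((2 : ℝ) ^ (1 + e) - 1) := by
  have h1 := (convexOn_rpow (show 1 ≤ 1 + e by linarith)).2
    (show (1 : ℝ) ∈ Ici 0 by simp) (show (2 : ℝ) ∈ Ici 0 by simp)
    (show (0 : ℝ) ≤ 1 - x by linarith) hx0 (show 1 - x + x = 1 by ring)
  simp only [smul_eq_mul, Real.one_rpow] at h1
  have h2 : (1 - x) * 1 + x * 2 = 1 + x := by ring
  rw [h2] at h1
  linarith

theorem le_of_limit {X R q : ℝ} (hq : 0 < q) (hX : 0 < X)
    (h : ∀ η : ℝ, 0 < η → η < 1 → η < X → (1 - η) * (X - η) ^ q ≤ R) : X ^ q ≤ R := by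
  have h1 : Tendsto (fun η : ℝ => (1 - η) * (X - η) ^ q) (𝓝[>] 0) (𝓝 ((1 - 0) * (X - 0) ^ q)) := by
    refine Tendsto.mono_left ?_ nhdsWithin_le_nhds
    refine Tendsto.mul (tendsto_const_nhds.sub tendsto_id) ?_
    exact (tendsto_const_nhds.sub tendsto_id).rpow_const (Or.inr hq.le)
  rw [sub_zero, sub_zero, one_mul] at h1
  refine le_of_tendsto h1 ?_
  have h2 : Ioo (0 : ℝ) (min 1 X) ∈ 𝓝[>] (0 : ℝ) := Ioo_mem_nhdsGT (lt_min one_pos hX)
  filter_upwards [h2] with η hη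
  exact h η hη.1 (hη.2.trans_le (min_le_left _ _)) (hη.2.trans_le (min_le_right _ _))

theorem gain_le (hd : 2 ≤ finrank ℝ E) {c : ℝ} (hc : 0 < c) : ∃ q₀ : ℝ, 1 < q₀ ∧
    ∀ q : ℝ, 1 < q → q < q₀ → ∀ (Ω : Set E) (w : E → ℝ) (W : E → E), Norm1 Ω w W →
      IsMax q Ω w → ∀ (U : Set E) (w' : E → ℝ) (W' : E → E) (g : E → ℝ) (G0 : ℝ),
      IsOpen U → Ω ⊆ U → volume U < ⊤ → volume.real (U \ Ω) ≤ volume.real Ω →
      Compet Ω U w w' W' g G0 →
      ∫ z, (2 - g z) * w' z ≤ (∫ z, w z) + (1 + c) * volume.real (U \ Ω) := by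
  refine ⟨Real.logb 2 (2 + c), ?_, ?_⟩
  · rw [Real.lt_logb_iff_rpow_lt (by norm_num) (by linarith), Real.rpow_one]
    linarith
  intro q hq1 hq Ω w W hN hmax U w' W' g G0 hU hΩU hfin hK hC
  have h2q : (2 : ℝ) ^ q < 2 + c :=
    (Real.lt_logb_iff_rpow_lt (by norm_num) (by linarith)).1 hq
  set A : ℝ := volume.real Ω with hA
  set T : ℝ := ∫ z, w z with hT
  set X : ℝ := ∫ z, (2 - g z) * w' z with hX
  set K : ℝ := volume.real (U \ Ω) with hKd
  have hA0 : 0 < A := hN.real_pos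
  have hT0 : 0 ≤ T := hN.tor_nonneg
  have hTA : T ≤ A := hN.tor_le
  have hK0 : 0 ≤ K := measureReal_nonneg
  have hq0 : 0 < q := by linarith
  have hd' : (2 : ℝ) ≤ (finrank ℝ E : ℝ) := by exact_mod_cast hd
  have hd0 : (0 : ℝ) < (finrank ℝ E : ℝ) := by linarith
  set p : ℝ := pexp E q with hp
  have hp' : p = ((finrank ℝ E : ℝ) * q + 2 * q - 2) / (finrank ℝ E : ℝ) := rfl
  have hp0 : 0 < p := by
    rw [hp']
    apply div_pos _ hd0
    nlinarith
  by_cases hXT : X ≤ T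
  · have : 0 ≤ (1 + c) * K := by positivity
    linarith
  push Not at hXT
  have hX0 : 0 < X := lt_of_le_of_lt hT0 hXT
  set x : ℝ := K / A with hx
  have hx0 : 0 ≤ x := by positivity
  have hx1 : x ≤ 1 := (div_le_one hA0).2 hK
  have hUv : volume.real U = A * (1 + x) := by
    have h1 : volume.real (U \ Ω) = volume.real U - volume.real Ω :=
      measureReal_sdiff hΩU hN.isOpen.measurableSet
    have h2 : A * x = K := by rw [hx]; field_simp
    rw [mul_add, mul_one, h2, hKd, h1]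
    ring
  -- the limit inequality
  have hkey : X ^ q ≤ T ^ q * (1 + x) ^ p := by
    refine le_of_limit hq0 hX0 ?_
    intro η hη0 hη1 hηX
    obtain ⟨Ω', hΩ', hΩ'U, hRQ, hTL⟩ := relaxed hd hN hU hΩU hfin hC hη0
    have hv' : volume Ω' < ⊤ := (measure_mono hΩ'U).trans_lt hfin
    have h1 := hmax Ω' hΩ' hv' (1 - η) (X - η) (by linarith) (by linarith) hRQ hTL
    have e1 : (((finrank ℝ E : ℕ) : ℝ) * q + 2 * q - 2) / ((finrank ℝ E : ℕ) : ℝ) = p := hp'.symm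
    rw [e1] at h1
    have h2 : (volume Ω').toReal ≤ A * (1 + x) := by
      rw [← hUv]
      exact ENNReal.toReal_mono hfin.ne (measure_mono hΩ'U)
    have h3 : (volume Ω').toReal ^ p ≤ A ^ p * (1 + x) ^ p := by
      rw [← Real.mul_rpow hA0.le (by linarith)]
      exact Real.rpow_le_rpow ENNReal.toReal_nonneg h2 hp0.le
    have hAp : 0 < A ^ p := Real.rpow_pos_of_pos hA0 _
    have h4 : 0 ≤ T ^ q / A ^ p := div_nonneg (Real.rpow_nonneg hT0 _) hAp.le
    calc (1 - η) * (X - η) ^ q ≤ T ^ q / A ^ p * (volume Ω').toReal ^ p := h1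
      _ ≤ T ^ q / A ^ p * (A ^ p * (1 + x) ^ p) := mul_le_mul_of_nonneg_left h3 h4
      _ = T ^ q * (1 + x) ^ p := by field_simp
  set e : ℝ := p / q - 1 with he
  have hpe : p / q = 1 + e := by rw [he]; ring
  have he0 : 0 ≤ e := by
    rw [he, sub_nonneg, le_div_iff₀ hq0, one_mul, hp', le_div_iff₀ hd0]
    nlinarith
  have he1 : 1 + e ≤ q := by
    rw [← hpe, div_le_iff₀ hq0, hp', div_le_iff₀ hd0]
    nlinarith [mul_nonneg (sub_nonneg.2 hd') (mul_nonneg hq0.le (sub_nonneg.2 hq1.le)),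
      sq_nonneg (q - 1)]
  have hXle : X ≤ T * (1 + x) ^ (1 + e) := by
    have h1 : T ^ q * (1 + x) ^ p = (T * (1 + x) ^ (1 + e)) ^ q := by
      rw [Real.mul_rpow hT0 (Real.rpow_nonneg (by linarith) _), ← Real.rpow_mul (by linarith),
        ← hpe, div_mul_cancel₀ _ hq0.ne']
    rw [h1] at hkey
    exact (Real.rpow_le_rpow_iff hX0.le
      (mul_nonneg hT0 (Real.rpow_nonneg (by linarith) _)) hq0).1 hkey
  have hch := rpow_chord hx0 hx1 he0
  have h2e : (2 : ℝ) ^ (1 + e) ≤ 2 + c :=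
    (Real.rpow_le_rpow_of_exponent_le (by norm_num) he1).trans h2q.le
  have h5 : X ≤ T * (1 + x * (1 + c)) := by
    refine hXle.trans (mul_le_mul_of_nonneg_left ?_ hT0)
    refine hch.trans ?_
    have := mul_le_mul_of_nonneg_left (show (2 : ℝ) ^ (1 + e) - 1 ≤ 1 + c by linarith) hx0
    linarith
  have h6 : T * x ≤ K := by
    have h7 : A * x = K := by rw [hx]; field_simp
    calc T * x ≤ A * x := mul_le_mul_of_nonneg_right hTA hx0
      _ = K := h7
  calc X ≤ T * (1 + x * (1 + c)) := h5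
    _ = T + (1 + c) * (T * x) := by ring
    _ ≤ T + (1 + c) * K := by
      have := mul_le_mul_of_nonneg_left h6 (show 0 ≤ 1 + c by linarith)
      linarith

end Pool.Agent.H4.NM
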