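import Pool.Agent.H4.NM.Tors
import Pool.Agent.H4.NM.Av
import Pool.Agent.H47.Ev.L2

/-!
# Normalised sets, competitors, the local inequality: definitions and first facts (MP_898b17_an)
-/

open MeasureTheory Set Metric Filter Topology ContDiff Module
open scoped ENNReal NNReal RealInnerProductSpace

namespace Pool.Agent.H4.NM

variable {E : Type} [NormedAddCommGroup E] [InnerProductSpace ℝ E] [FiniteDimensional ℝ E]
  [CompleteSpace E] [MeasurableSpace E] [BorelSpace E]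

set_option linter.unusedSectionVars false

open Pool.Agent.H47.FQ

/-- An open set of finite positive measure with `λ ≥ 1`, with its torsion function. -/
structure Norm1 (Ω : Set E) (w : E → ℝ) (W : E → E) : Prop where
  isOpen : IsOpen Ω
  pos : 0 < volume Ω
  fin : volume Ω < ⊤
  rq : RQ Ω 1
  tor : IsTorsion Ω w W

/-- Data of a relaxed competitor `(U, w', g)` of `(Ω, w)`. -/
structure Compet (Ω U : Set E) (w w' : E → ℝ) (W' : E → E) (g : E → ℝ) (G0 : ℝ) : Prop where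
  h10 : H10 U w' W'
  ge : ∀ᵐ z, w z ≤ w' z
  gm : AEStronglyMeasurable g volume
  g0 : ∀ᵐ z, 0 ≤ g z
  gG : ∀ᵐ z, g z ≤ G0
  gU : ∀ᵐ z, z ∉ U → g z = 0
  g1 : ∀ Φ H, H10 U Φ H → (∀ᵐ z, 0 ≤ Φ z) → ∫ z, ⟪W' z, H z⟫ ≤ ∫ z, g z * Φ z
  g2 : ∀ᵐ z, 0 ≤ w z ^ 2 - w z + g z * w' z - w' z ^ 2
  g3 : ∀ᵐ z, z ∈ U → w' z < 1 / 4 → 1 ≤ g z

/-- `h` (with gradient `Gh`) is the harmonic replacement of `w` in `ball y R`. -/
def IsHarm (y : E) (R : ℝ) (w : E → ℝ) (W : E → E) (h : E → ℝ) (Gh : E → E) : Prop :=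
  H10 (ball y R) (fun z => h z - w z) (fun z => Gh z - W z) ∧
    ∀ Φ H, H10 (ball y R) Φ H → ∫ z, ⟪Gh z, H z⟫ = 0

/-- The local inequality (M): what is used of the maximality. -/
def LocIneq (c : ℝ) (Ω : Set E) (w : E → ℝ) (W : E → E) : Prop :=
  ∀ (y : E) (R t : ℝ) (h : E → ℝ) (Gh : E → E), 0 < R → 0 ≤ t →
    volume.real (ball y R) ≤ volume.real Ω → IsHarm y R w W h Gh →
    (∀ᵐ z, z ∈ ball y R → w z ≤ 1 + t) →
    ((∫ z in ball y R ∩ Ω, (max (h z - t - w z) 0) ^ 2) ≤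
      (∫ z in ball y R \ Ω, min 1 (2 * (1 - (h z - t)) ^ 2)) + c * volume.real (ball y R \ Ω)) ∧
    ((∫ z in ball y R, (max (h z - t - w z) 0) ^ 2) ≤ (2 + c) * volume.real (ball y R \ Ω))

theorem LocIneq.mono {c c' : ℝ} {Ω : Set E} {w : E → ℝ} {W : E → E} (h : LocIneq c Ω w W)
    (hc : c ≤ c') : LocIneq c' Ω w W := by
  intro y R t k Gk hR ht hv hk hw
  obtain ⟨h1, h2⟩ := h y R t k Gk hR ht hv hk hw
  have h3 : c * volume.real (ball y R \ Ω) ≤ c' * volume.real (ball y R \ Ω) :=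
    mul_le_mul_of_nonneg_right hc (by positivity)
  constructor
  · linarith
  · refine h2.trans ?_
    rw [add_mul, add_mul]
    linarith

/-- The exponent of the volume in `F_q`. -/
noncomputable def pexp (E : Type) [NormedAddCommGroup E] [InnerProductSpace ℝ E] (q : ℝ) : ℝ :=
  ((finrank ℝ E : ℝ) * q + 2 * q - 2) / (finrank ℝ E : ℝ)

/-- Maximality of `Ω` (with `λ(Ω) ≥ 1` and torsion function `w`). -/
def IsMax (q : ℝ) (Ω : Set E) (w : E → ℝ) : Prop :=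
  NoBetter E (finrank ℝ E) q ((∫ z, w z) ^ q / (volume Ω).toReal ^ pexp E q)

section

variable {Ω : Set E} {w : E → ℝ} {W : E → E}

theorem Norm1.real_pos (h : Norm1 Ω w W) : 0 < volume.real Ω :=
  ENNReal.toReal_pos h.pos.ne' h.fin.ne

theorem Norm1.nonneg (h : Norm1 Ω w W) : ∀ᵐ z, 0 ≤ w z := h.tor.nonneg h.isOpen h.fin

theorem Norm1.off (h : Norm1 Ω w W) : ∀ᵐ z, z ∉ Ω → w z = 0 := by
  filter_upwards [h.tor.1.ae_zero h.isOpen] with z hz hz'
  exact (hz hz').1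

theorem Norm1.h10 (h : Norm1 Ω w W) : H10 univ w W := h.tor.1.mono (subset_univ _)

theorem Norm1.integrable (h : Norm1 Ω w W) : Integrable w volume :=
  h.tor.1.integrable h.isOpen h.fin

theorem Norm1.energy (h : Norm1 Ω w W) : ∫ z, ‖W z‖ ^ 2 = ∫ z, w z := h.tor.energy h.isOpen h.fin

/-- `∫ w² ≤ T`. -/
theorem Norm1.sq_le (h : Norm1 Ω w W) : ∫ z, w z ^ 2 ≤ ∫ z, w z := by
  have h1 := RQ.all h.rq h.tor.1
  rw [h.energy] at h1
  linarith

theorem Norm1.tor_nonneg (h : Norm1 Ω w W) : 0 ≤ ∫ z, w z := by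
  rw [← h.energy]
  exact integral_nonneg fun z => by positivity

/-- `∫_Ω (1 - w)² ≤ A - T`. -/
theorem Norm1.one_sub_sq (h : Norm1 Ω w W) :
    ∫ z in Ω, (1 - w z) ^ 2 ≤ volume.real Ω - ∫ z, w z := by
  have i1 : IntegrableOn w Ω := h.integrable.integrableOn
  have i2 : IntegrableOn (fun z => w z ^ 2) Ω := h.tor.1.memLp.integrable_sq.integrableOn
  have i0 : IntegrableOn (fun _ : E => (1 : ℝ)) Ω := integrableOn_const h.fin.ne
  have e1 : ∫ z in Ω, w z = ∫ z, w z := by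
    rw [setIntegral_eq_integral_of_ae_compl_eq_zero]
    filter_upwards [h.off] with z hz hz'
    exact hz hz'
  have e2 : ∫ z in Ω, w z ^ 2 = ∫ z, w z ^ 2 := by
    rw [setIntegral_eq_integral_of_ae_compl_eq_zero]
    filter_upwards [h.off] with z hz hz'
    rw [hz hz']; ring
  have e3 : ∫ z in Ω, (1 - w z) ^ 2 = volume.real Ω - 2 * (∫ z, w z) + ∫ z, w z ^ 2 := by
    have e4 : ∀ z, (1 - w z) ^ 2 = 1 - 2 * w z + w z ^ 2 := fun z => by ring
    simp only [e4]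
    have e5 : ∫ z in Ω, (1 - 2 * w z + w z ^ 2) = (∫ z in Ω, (1 - 2 * w z)) + ∫ z in Ω, w z ^ 2 :=
      integral_add (i0.sub (i1.const_mul 2)) i2
    have e6 : ∫ z in Ω, (1 - 2 * w z) = (∫ z in Ω, (1 : ℝ)) - ∫ z in Ω, 2 * w z :=
      integral_sub i0 (i1.const_mul 2)
    rw [e5, e6, integral_const_mul, e1, e2, setIntegral_const]
    simp
  have := h.sq_le
  linarith

/-- `T ≤ A`. -/
theorem Norm1.tor_le (h : Norm1 Ω w W) : ∫ z, w z ≤ volume.real Ω := by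
  have h1 := h.one_sub_sq
  have h2 : 0 ≤ ∫ z in Ω, (1 - w z) ^ 2 := integral_nonneg fun z => by positivity
  linarith

end

end Pool.Agent.H4.NM
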