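import Pool.Agent.H4.NM.Sob
import Pool.Agent.H47.Ev.L2

/-!
# Weak solutions exist (MP_898b17_an, all dimensions)
-/

open MeasureTheory Set Metric Filter Topology ContDiff Module
open scoped ENNReal NNReal RealInnerProductSpace

namespace Pool.Agent.H4.NM

variable {E : Type} [NormedAddCommGroup E] [InnerProductSpace ℝ E] [FiniteDimensional ℝ E]
  [CompleteSpace E] [MeasurableSpace E] [BorelSpace E]

set_option linter.unusedSectionVars false

variable {Ω Ω' U : Set E} {u v w w' : E → ℝ} {G H W W' : E → E} {φ : E → ℝ}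

/-- Poincaré inequality on one set. -/
theorem poincare_on (hd : 2 ≤ finrank ℝ E) (hU : IsOpen U) (hfin : volume U < ⊤) :
    ∃ C : ℝ, ∀ u G, H10 U u G → ∫ z, u z ^ 2 ≤ C * ∫ z, ‖G z‖ ^ 2 := by
  obtain ⟨C, -, hC⟩ := poincare (E := E) hd
  exact ⟨_, fun u G h => hC U u G hU hfin h⟩

/-- Poincaré inequality, as a spectral gap. -/
theorem exists_gap (hd : 2 ≤ finrank ℝ E) (hU : IsOpen U) (hfin : volume U < ⊤) :
    ∃ l : ℝ, 0 < l ∧ ∀ u G, H10 U u G → l * ∫ z, u z ^ 2 ≤ ∫ z, ‖G z‖ ^ 2 := by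
  obtain ⟨C, h⟩ := poincare_on hd hU hfin
  refine ⟨1 / (|C| + 1), by positivity, fun u G hu => ?_⟩
  have h1 := h u G hu
  have h2 : 0 ≤ ∫ z, ‖G z‖ ^ 2 := by positivity
  rw [div_mul_eq_mul_div, one_mul, div_le_iff₀ (by positivity)]
  have h3 : C * ∫ z, ‖G z‖ ^ 2 ≤ |C| * ∫ z, ‖G z‖ ^ 2 :=
    mul_le_mul_of_nonneg_right (le_abs_self C) h2
  linarith

/-- Riesz: `-Δu + n u = g - div F` in `Ω`. -/
theorem exists_weak (hd : 2 ≤ finrank ℝ E) (hΩ : IsOpen Ω) (hfin : volume Ω < ⊤) {n : ℝ}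
    (hn : 0 ≤ n) {g : E → ℝ} (hg : MemLp g 2 volume) {F : E → E} (hF : MemLp F 2 volume) :
    ∃ u G, H10 Ω u G ∧ ∀ v H, H10 Ω v H →
      (∫ z, ⟪G z, H z⟫) + n * (∫ z, u z * v z) = (∫ z, g z * v z) + ∫ z, ⟪F z, H z⟫ := by
  obtain ⟨C, hC⟩ := poincare_on hd hΩ hfin
  exact exists_weak_of_poincare hC hn hg hF

theorem exists_torsion (hd : 2 ≤ finrank ℝ E) (hΩ : IsOpen Ω) (hfin : volume Ω < ⊤) :
    ∃ w W, IsTorsion Ω w W := by
  obtain ⟨C, hC⟩ := poincare_on hd hΩ hfin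
  exact exists_torsion_of_poincare hΩ hfin hC

/-- A function of `H¹₀(U)` with vanishing gradient norm is zero. -/
theorem H10.ae_zero_of_grad (hd : 2 ≤ finrank ℝ E) (hU : IsOpen U) (hfin : volume U < ⊤)
    (hu : H10 U u G) (h : ∫ z, ‖G z‖ ^ 2 ≤ 0) : ∀ᵐ z, u z = 0 := by
  obtain ⟨l, hl, hgap⟩ := exists_gap hd hU hfin
  have e6 := hgap u G hu
  have e7 : ∫ z, u z ^ 2 ≤ 0 := by
    by_contra hcon
    push Not at hcon
    have : 0 < l * ∫ z, u z ^ 2 := mul_pos hl hcon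
    linarith
  have e8 : ∫ z, u z ^ 2 = 0 := le_antisymm e7 (by positivity)
  rw [integral_eq_zero_iff_of_nonneg (fun z => by positivity) hu.memLp.integrable_sq] at e8
  filter_upwards [e8] with z hz
  simpa using hz

end Pool.Agent.H4.NM
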