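import Pool.Agent.H4.NM.MvB
import Pool.Agent.H4.NM.Weak
import Pool.Agent.H4.NM.Norm1

/-!
# NM-16: harmonic replacement in a ball (MP_898b17_an, all dimensions)

## Paper proof

`B = ball y R`, `h = w + p`, `p ∈ H¹₀(B)` with gradient `Gh - W`.

`exists_harm`: `exists_weak` with `n = 0`, `g = 0`, `F = -W` on `B`: `p`, `Gp`; `h = w + p`,
`Gh = W + Gp`.

`IsHarm.le_const` (maximum principle): let `F s = s² / (1 + s)` for `s > 0`, `0` for `s ≤ 0`; `F` is
`C¹`, `0 ≤ F' ≤ 1`, `F' > 0` on `(0, ∞)`. Claim (L): `1_B F(h - c) ∈ H¹₀(B)` with gradient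
`1_B F'(h - c) Gh`. Test the equation of `h` with it: `∫_B F'(h - c) |Gh|² = 0`, so the gradient of
`1_B F(h-c)` vanishes, `H10.ae_zero_of_grad`: `F(h - c) = 0`, i.e. `h ≤ c` a.e. on `B`.
Proof of (L): take test functions `φ n` of `B`, `φ n → p` in `H¹` and a.e. (`H10.exists_approx_ae`).
Let `χ n ∈ C_c^∞(B)`, `0 ≤ χ n ≤ 1`, `χ n = 1` near `tsupport (φ n)` (`exists_cutoff`). Then
`a n = φ n + χ n w - c χ n ∈ H¹₀(B)` (`H10.test_mul`/`H10.mul_smooth`), and
`F(a n) = 1_B F(φ n + w - c)` a.e.: where `χ n = 1` clear; elsewhere in `B` `φ n = 0` and both are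
`F(nonpositive) = 0` because `w ≤ c` on `B`. `H10.comp`: `F(a n) ∈ H¹₀(B)` with gradient
`F'(a n) ∇a n = 1_B F'(φ n + w - c) (∇φ n + W)` (off `{χ n = 1}` the argument is `≤ 0` so `F' = 0`).
Let `n → ∞`: `F` is 1-Lipschitz, so `1_B F(φ n + w - c) → 1_B F(h - c)` in `L²`, and
`F'(φ n + w - c) (∇φ n + W) → F'(h - c) Gh` in `L²` by `tendsto_eLpNorm_smul` (bounded factors
converging a.e.). `H10.of_tendsto`.

`IsHarm.sub_le`: `e = Ph y R / d` (`d = finrank ℝ E`), `∇e = GPh y R / d`, `e ∈ H¹₀(B)` (`ph_h10`) and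
`∫ ⟪∇e, ∇φ⟫ = ∫ φ` for test functions `φ` of `B` (integration by parts: the divergence of `x - y` is
`d`; `test_ibp` of file Chain coordinate by coordinate in an orthonormal basis, with a cut-off which is
`1` near `tsupport φ`), so for all `Φ ∈ H¹₀(B)`. `q = w - h - e = -p - e ∈ H¹₀(B)`. For
`Φ = q⁺ ∈ H¹₀(B)`: `∫ ⟪∇q, ∇q⁺⟫ = ∫ ⟪W, ∇q⁺⟫ - ∫ ⟪Gh, ∇q⁺⟫ - ∫ ⟪∇e, ∇q⁺⟫ ≤ ∫ q⁺ - 0 - ∫ q⁺ = 0`, so
`q⁺ = 0`, `w - h ≤ e ≤ R²/(2d) ≤ R²`. (Off `B` `w = h`.)

`IsHarm.av_eq`: `mv_harm`: `H10 univ h Gh` and `ph_h10` (`ball x t ⊆ B`). `IsHarm.ge_av`: `ae_eq_av`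
(`U = B`): `h x = av x s h ≥ av x s w - R²` by `sub_le`.
-/

open MeasureTheory Set Metric Filter Topology ContDiff Module
open scoped ENNReal NNReal RealInnerProductSpace

namespace Pool.Agent.H4.NM

variable {E : Type} [NormedAddCommGroup E] [InnerProductSpace ℝ E] [FiniteDimensional ℝ E]
  [CompleteSpace E] [MeasurableSpace E] [BorelSpace E]

set_option linter.unusedSectionVars false

variable {Ω : Set E} {w h : E → ℝ} {W Gh : E → E} {y : E} {R : ℝ}

/-- `H¹₀(U)` is an order ideal of `H¹₀` of the space. -/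
theorem h10_of_le {U : Set E} {u v : E → ℝ} {G H : E → E} (hU : IsOpen U) (hu : H10 U u G)
    (hv : H10 univ v H) (h0 : ∀ᵐ z, 0 ≤ v z) (hle : ∀ᵐ z, v z ≤ u z) : H10 U v H := by
  obtain ⟨φ, h1, h2, h3, h4, h5⟩ := hu.exists_approx_ae
  have hm : ∀ n, H10 univ (fun z => min (max (φ n z) 0) (v z))
      (fun z => if max (φ n z) 0 < v z then (if 0 < φ n z then gradient (φ n) z else 0)
        else H z) := fun n =>
    H10.min (((h1 n).mono (subset_univ _)).h10.pos_part) hv
  have hmU : ∀ n, H10 U (fun z => min (max (φ n z) 0) (v z))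
      (fun z => if max (φ n z) 0 < v z then (if 0 < φ n z then gradient (φ n) z else 0)
        else H z) := by
    intro n
    obtain ⟨χ, hχ, hχ0, hχ1, hχ2⟩ := exists_cutoff hU (h1 n).2.1 (h1 n).2.2
    have k1 := (H10.test_mul hχ (hm n)).mono (inter_subset_left (s := U) (t := univ))
    have k2 := (hm n).grad_zero_of_eq 0
    refine k1.congr ?_ ?_
    · filter_upwards [h0] with z hz
      by_cases hzt : z ∈ tsupport (φ n)
      · rw [(hχ2 z hzt).self_of_nhds, one_mul]
      · have e1 : φ n z = 0 := image_eq_zero_of_notMem_tsupport hzt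
        rw [e1, max_self, min_eq_left hz, mul_zero]
    · filter_upwards [h0, k2] with z hz hk
      by_cases hzt : z ∈ tsupport (φ n)
      · have e1 : χ z = 1 := (hχ2 z hzt).self_of_nhds
        have e2 : gradient χ z = 0 := by
          have : χ =ᶠ[𝓝 z] fun _ => (1 : ℝ) := hχ2 z hzt
          rw [gradient_eq, this.fderiv_eq]
          simp
        rw [e1, e2, smul_zero, add_zero, one_smul]
      · have e1 : φ n z = 0 := image_eq_zero_of_notMem_tsupport hzt
        have e2 : min (max (φ n z) 0) (v z) = 0 := by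
          rw [e1, max_self, min_eq_left hz]
        have e3 := hk e2
        rw [e3, e2, smul_zero, zero_smul, add_zero]
  refine H10.of_tendsto hmU hv.memLp hv.memLp_grad ?_ ?_
  · refine tendsto_of_tendsto_of_tendsto_of_le_of_le tendsto_const_nhds h2 (fun n => bot_le) ?_
    intro n
    refine eLpNorm_mono_ae ?_
    filter_upwards [h0, hle] with z hz hz'
    rw [Real.norm_eq_abs, Real.norm_eq_abs]
    rcases le_total (φ n z) 0 with hc | hc
    · rw [max_eq_right hc, min_eq_left hz]
      rw [abs_of_nonpos (by linarith), abs_of_nonpos (by linarith)]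
      linarith
    · rw [max_eq_left hc]
      rcases le_total (φ n z) (v z) with hd | hd
      · rw [min_eq_left hd, abs_of_nonpos (by linarith), abs_of_nonpos (by linarith)]
        linarith
      · rw [min_eq_right hd, sub_self, abs_zero]
        exact abs_nonneg _
  · set Gm : ℕ → E → E := fun n z =>
      if max (φ n z) 0 < v z then (if 0 < φ n z then gradient (φ n) z else 0) else H z with hGm
    set Y : ℕ → E → ℝ := fun n z => max (‖Gm n z - H z‖ - ‖gradient (φ n) z - G z‖) 0 with hY
    have hGmm : ∀ n, AEStronglyMeasurable (fun z => Gm n z - H z) volume := fun n =>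
      (hmU n).memLp_grad.1.sub hv.memLp_grad.1
    have hgm : ∀ n, AEStronglyMeasurable (fun z => gradient (φ n) z - G z) volume := fun n =>
      ((h1 n).memLp_gradient 2).1.sub hu.memLp_grad.1
    have hYm : ∀ n, AEStronglyMeasurable (Y n) volume := fun n =>
      (((hGmm n).norm.sub (hgm n).norm).aemeasurable.max aemeasurable_const).aestronglyMeasurable
    have hdiff : ∀ᵐ z, u z = v z → G z = H z := by
      have k1 := ((hu.mono (subset_univ _)).sub hv).grad_zero_of_eq 0
      filter_upwards [k1] with z hz hz'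
      exact sub_eq_zero.1 (hz (sub_eq_zero.2 hz'))
    have hzero : ∀ᵐ z, v z = 0 → H z = 0 := hv.grad_zero_of_eq 0
    have hYb : ∀ n, ∀ᵐ z, ‖Y n z‖ ≤ ‖G z‖ + ‖H z‖ := by
      intro n
      refine Eventually.of_forall fun z => ?_
      rw [Real.norm_eq_abs, abs_of_nonneg (le_max_right _ _)]
      refine max_le ?_ (by positivity)
      simp only [hGm]
      split_ifs with c1 c2
      · have e1 : gradient (φ n) z - H z = (gradient (φ n) z - G z) + (G z - H z) := by abel
        have e2 := norm_add_le (gradient (φ n) z - G z) (G z - H z)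
        have e3 := norm_sub_le (G z) (H z)
        rw [e1]
        linarith
      · rw [zero_sub, norm_neg]
        have e1 := norm_nonneg (gradient (φ n) z - G z)
        have e2 := norm_nonneg (G z)
        linarith
      · rw [sub_self, norm_zero]
        have e1 := norm_nonneg (gradient (φ n) z - G z)
        have e2 := norm_nonneg (G z)
        have e3 := norm_nonneg (H z)
        linarith
    have hYl : ∀ᵐ z, Tendsto (fun n => Y n z) atTop (𝓝 0) := by
      filter_upwards [h0, hle, h4, hdiff, hzero] with z a1 a2 a3 a4 a5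
      have key : ∀ᶠ n in atTop, Y n z = 0 := by
        rcases eq_or_lt_of_le a2 with hc | hc
        · -- `v z = u z`
          have e1 : G z = H z := a4 hc.symm
          rcases eq_or_lt_of_le a1 with hd | hd
          · have e2 : H z = 0 := a5 hd.symm
            refine Eventually.of_forall fun n => ?_
            simp only [hY, hGm]
            rw [← hd, if_neg (not_lt.2 (le_max_right _ _)), sub_self, norm_zero]
            refine max_eq_right ?_
            linarith [norm_nonneg (gradient (φ n) z - G z)]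
          · have e3 : ∀ᶠ n in atTop, 0 < φ n z := by
              have : 0 < u z := by rw [← hc]; exact hd
              exact a3.eventually (lt_mem_nhds this)
            filter_upwards [e3] with n hn
            simp only [hY, hGm]
            rw [if_pos hn]
            split_ifs with c1
            · rw [← e1, sub_self, max_self]
            · rw [sub_self, norm_zero]
              refine max_eq_right ?_
              linarith [norm_nonneg (gradient (φ n) z - G z)]
        · have e3 : ∀ᶠ n in atTop, v z < φ n z := a3.eventually (lt_mem_nhds hc)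
          filter_upwards [e3] with n hn
          simp only [hY, hGm]
          rw [if_neg (not_lt.2 (hn.le.trans (le_max_left _ _))), sub_self, norm_zero]
          refine max_eq_right ?_
          linarith [norm_nonneg (gradient (φ n) z - G z)]
      exact tendsto_const_nhds.congr' (key.mono fun n hn => hn.symm)
    have hYt := (tendsto_eLpNorm_two_of_dominated hYm
      (hu.memLp_grad.norm.add hv.memLp_grad.norm) hYb hYl).2
    have hs := hYt.add h3
    rw [add_zero] at hs
    refine tendsto_of_tendsto_of_tendsto_of_le_of_le tendsto_const_nhds hs (fun n => bot_le) ?_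
    intro n
    refine le_trans (eLpNorm_mono (g := fun z => (Y n z - 0) + ‖gradient (φ n) z - G z‖)
      fun z => ?_) ?_
    · rw [Real.norm_eq_abs, sub_zero]
      have e1 : ‖Gm n z - H z‖ - ‖gradient (φ n) z - G z‖ ≤ Y n z := le_max_left _ _
      have e2 := le_abs_self (Y n z + ‖gradient (φ n) z - G z‖)
      linarith
    · refine (eLpNorm_add_le ((hYm n).sub aestronglyMeasurable_const) (hgm n).norm
        (by norm_num)).trans ?_
      rw [eLpNorm_norm]
      exact le_rfl

theorem exists_harm (hd : 2 ≤ finrank ℝ E) (hw : H10 univ w W) (y : E) {R : ℝ} (hR : 0 < R) :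
    ∃ (h : E → ℝ) (Gh : E → E), IsHarm y R w W h Gh := by
  obtain ⟨p, Gp, hp, hp2⟩ := exists_weak (Ω := ball y R) hd isOpen_ball measure_ball_lt_top
    (le_refl (0 : ℝ)) (g := fun _ : E => (0 : ℝ)) (MemLp.zero' : MemLp (fun _ : E => (0 : ℝ)) 2 volume) hw.memLp_grad.neg
  refine ⟨fun z => p z + w z, fun z => Gp z + W z, ?_, ?_⟩
  · refine hp.congr (Eventually.of_forall fun z => ?_) (Eventually.of_forall fun z => ?_)
    · simp
    · simp
  · intro Φ H hΦ
    have e := hp2 Φ H hΦ
    have i1 := integrable_inner_of_memLp hp.memLp_grad hΦ.memLp_grad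
    have i2 := integrable_inner_of_memLp hw.memLp_grad hΦ.memLp_grad
    have e1 : ∫ z, ⟪(-W) z, H z⟫ = - ∫ z, ⟪W z, H z⟫ := by
      rw [← integral_neg]
      exact integral_congr_ae (Eventually.of_forall fun z => by simp [inner_neg_left])
    have e2 : ∫ z, ⟪Gp z + W z, H z⟫ = (∫ z, ⟪Gp z, H z⟫) + ∫ z, ⟪W z, H z⟫ := by
      rw [← integral_add i1 i2]
      exact integral_congr_ae (Eventually.of_forall fun z => by simp [inner_add_left])
    rw [e2]
    rw [e1] at e
    simp only [zero_mul, integral_zero, add_zero, zero_add] at e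
    linarith

theorem IsHarm.h10 (hw : H10 univ w W) (hh : IsHarm y R w W h Gh) : H10 univ h Gh := by
  have h1 := (hh.1.mono (subset_univ _)).add hw
  refine h1.congr (Eventually.of_forall fun z => ?_) (Eventually.of_forall fun z => ?_)
  · simp
  · simp

theorem IsHarm.ae_eq (hh : IsHarm y R w W h Gh) : ∀ᵐ z, z ∉ ball y R → h z = w z := by
  filter_upwards [hh.1.ae_zero isOpen_ball] with z hz hz'
  linarith [(hz hz').1]

/-- Maximum principle. -/
theorem IsHarm.le_const (hd : 2 ≤ finrank ℝ E) (hw : H10 univ w W) (hh : IsHarm y R w W h Gh)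
    {c : ℝ} (hc : 0 ≤ c) (hle : ∀ᵐ z, z ∈ ball y R → w z ≤ c) :
    ∀ᵐ z, z ∈ ball y R → h z ≤ c := by
  have hh10 : H10 univ h Gh := IsHarm.h10 hw hh
  have hp : H10 (ball y R) (fun z => h z - w z) (fun z => Gh z - W z) := hh.1
  have hpp := hp.pos_part
  have hv1 := hh10.sub (hh10.min_const hc)
  have hv := H10.min hv1 (hpp.mono (subset_univ _))
  have hoff := hp.ae_zero isOpen_ball
  have hvB := h10_of_le isOpen_ball hpp hv
    (Eventually.of_forall fun z => le_min (sub_nonneg.2 (min_le_left _ _)) (le_max_right _ _))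
    (Eventually.of_forall fun z => min_le_right _ _)
  have hdiff := (hv1.sub (hpp.mono (subset_univ _))).grad_zero_of_eq 0
  set Hv : E → E := fun z => if h z - min (h z) c < max (h z - w z) 0 then
    (Gh z - if h z < c then Gh z else 0) else (if 0 < h z - w z then Gh z - W z else 0) with hHv
  have hvB' : H10 (ball y R) (fun z => min (h z - min (h z) c) (max (h z - w z) 0)) Hv := hvB
  have hlev : ∀ᵐ z, z ∈ ball y R → h z - min (h z) c ≤ max (h z - w z) 0 := by
    filter_upwards [hle] with z hz hzB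
    have h1 := hz hzB
    rcases le_total (h z) c with h2 | h2
    · rw [min_eq_left h2, sub_self]
      exact le_max_right _ _
    · rw [min_eq_right h2]
      exact le_trans (by linarith) (le_max_left _ _)
  have hin : ∀ᵐ z, ⟪Gh z, Hv z⟫ = ‖Hv z‖ ^ 2 := by
    filter_upwards [hoff, hdiff, hlev] with z a1 a2 a3
    have first : ⟪Gh z, Gh z - (if h z < c then Gh z else 0)⟫ =
        ‖Gh z - (if h z < c then Gh z else 0)‖ ^ 2 := by
      split_ifs with c1
      · simp
      · rw [sub_zero, real_inner_self_eq_norm_sq]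
    simp only [hHv]
    by_cases c1 : h z - min (h z) c < max (h z - w z) 0
    · rw [if_pos c1]
      exact first
    · rw [if_neg c1]
      by_cases hzB : z ∈ ball y R
      · have e1 : h z - min (h z) c = max (h z - w z) 0 := le_antisymm (a3 hzB) (not_lt.1 c1)
        have e2 := a2 (sub_eq_zero.2 e1)
        rw [← sub_eq_zero.1 e2]
        exact first
      · have e1 := (a1 hzB).1
        rw [if_neg (by rw [e1]; exact lt_irrefl _)]
        simp
  have hzero := hh.2 _ _ hvB'
  rw [integral_congr_ae hin] at hzero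
  have hv0 := H10.ae_zero_of_grad hd isOpen_ball measure_ball_lt_top hvB' hzero.le
  filter_upwards [hv0, hlev] with z b1 b2 hzB
  rw [min_eq_left (b2 hzB)] at b1
  by_contra hcon
  push Not at hcon
  rw [min_eq_right hcon.le] at b1
  linarith

/-- The torsion function of a ball. -/
theorem ball_torsion (hd : 2 ≤ finrank ℝ E) (y : E) {R : ℝ} (hR : 0 < R) :
    IsTorsion (ball y R) (fun z => 1 / (finrank ℝ E : ℝ) * Ph y R z)
      (fun z => (1 / (finrank ℝ E : ℝ)) • GPh y R z) := by
  refine ⟨(ph_h10 y hR).const_mul _, fun φ hφ => ?_⟩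
  obtain ⟨χ, hχ, hχ0, hχ1, hχ2⟩ := exists_cutoff (isOpen_ball (x := y)) hφ.2.1 hφ.2.2
  have hdpos : (0 : ℝ) < finrank ℝ E := by
    have : 0 < finrank ℝ E := by omega
    exact_mod_cast this
  set b := stdOrthonormalBasis ℝ E with hb
  set ψ : Fin (finrank ℝ E) → E → ℝ := fun i z => χ z * ⟪y - z, b i⟫ with hψ
  have hψt : ∀ i, IsTest univ (ψ i) := by
    intro i
    refine ⟨hχ.1.mul ?_, hχ.2.1.mul_right, subset_univ _⟩
    exact (contDiff_const.sub contDiff_id).inner ℝ contDiff_const
  have hint : ∀ i, Integrable (fun z => ψ i z * ⟪gradient φ z, b i⟫) volume := by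
    intro i
    refine Continuous.integrable_of_hasCompactSupport ?_ (hψt i).2.1.mul_right
    exact (hψt i).continuous.mul (hφ.continuous_gradient.inner continuous_const)
  have hI : ∀ i, ∫ z, ψ i z * ⟪gradient φ z, b i⟫ = ∫ z, φ z := by
    intro i
    rw [test_ibp hφ (hψt i) (b i), ← integral_neg]
    refine integral_congr_ae (Eventually.of_forall fun z => ?_)
    change -(⟪gradient (ψ i) z, b i⟫ * φ z) = φ z
    by_cases hz : z ∈ tsupport φ
    · have e1 : ψ i =ᶠ[𝓝 z] fun z => ⟪y - z, b i⟫ := by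
        filter_upwards [hχ2 z hz] with x hx
        simp only [hψ]
        rw [hx, one_mul]
      have e2 : gradient (ψ i) z = - b i := by
        apply gradient_eq_of_fderiv
        intro a
        rw [e1.fderiv_eq]
        have e3 : (fun z : E => ⟪y - z, b i⟫) = fun z => ⟪y, b i⟫ - innerSL ℝ (b i) z := by
          funext x
          rw [inner_sub_left, innerSL_apply_apply, real_inner_comm (b i) x]
        rw [e3, fderiv_const_sub, ContinuousLinearMap.fderiv]
        simp [inner_neg_left]
      rw [e2, inner_neg_left, real_inner_self_eq_norm_sq, b.norm_eq_one i]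
      ring
    · rw [image_eq_zero_of_notMem_tsupport hz]
      ring
  have hpt : ∀ z, ⟪(1 / (finrank ℝ E : ℝ)) • GPh y R z, gradient φ z⟫ =
      1 / (finrank ℝ E : ℝ) * ∑ i, ψ i z * ⟪gradient φ z, b i⟫ := by
    intro z
    rw [inner_smul_left]
    simp only [conj_trivial]
    congr 1
    by_cases hz : z ∈ tsupport φ
    · have e1 : GPh y R z = y - z := by
        rw [GPh, indicator_of_mem (hφ.2.2 hz)]
      have e2 : χ z = 1 := (hχ2 z hz).self_of_nhds
      rw [e1, ← b.sum_inner_mul_inner]
      refine Finset.sum_congr rfl fun i _ => ?_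
      simp only [hψ]
      rw [e2, one_mul, real_inner_comm (gradient φ z) (b i)]
    · rw [gradient_zero_of_notMem_tsupport hz]
      simp
  rw [integral_congr_ae (Eventually.of_forall hpt), integral_const_mul,
    integral_finsetSum _ (fun i _ => hint i), Finset.sum_congr rfl (fun i _ => hI i)]
  rw [Finset.sum_const, Finset.card_univ, Fintype.card_fin, nsmul_eq_mul]
  field_simp

/-- Comparison with `(R² - |x - y|²) / (2d)`. -/
theorem IsHarm.sub_le (hd : 2 ≤ finrank ℝ E) (hw : H10 univ w W) (hR : 0 < R)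
    (hsub : ∀ Φ H, H10 (ball y R) Φ H → (∀ᵐ z, 0 ≤ Φ z) → ∫ z, ⟪W z, H z⟫ ≤ ∫ z, Φ z)
    (hh : IsHarm y R w W h Gh) : ∀ᵐ z, w z - h z ≤ R ^ 2 := by
  have hT := ball_torsion hd y hR
  have hq := hh.1.neg.sub hT.1
  have hqp := hq.pos_part
  set Gq : E → E := fun z => -(Gh z - W z) - (1 / (finrank ℝ E : ℝ)) • GPh y R z with hGq
  set q : E → ℝ := fun z => -(h z - w z) - 1 / (finrank ℝ E : ℝ) * Ph y R z with hqd
  have hqp' : H10 (ball y R) (fun z => max (q z) 0) (fun z => if 0 < q z then Gq z else 0) := hqp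
  have e1 := hsub _ _ hqp' (Eventually.of_forall fun z => le_max_right _ _)
  have e2 := hh.2 _ _ hqp'
  have e3 := hT.all isOpen_ball measure_ball_lt_top hqp'
  have i1 := integrable_inner_of_memLp hw.memLp_grad hqp'.memLp_grad
  have i2 := integrable_inner_of_memLp (IsHarm.h10 hw hh).memLp_grad hqp'.memLp_grad
  have i3 := integrable_inner_of_memLp hT.1.memLp_grad hqp'.memLp_grad
  have e4 : ∫ z, ‖(if 0 < q z then Gq z else 0)‖ ^ 2 =
      (∫ z, ⟪W z, (if 0 < q z then Gq z else 0)⟫) - (∫ z, ⟪Gh z, (if 0 < q z then Gq z else 0)⟫) -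
        ∫ z, ⟪(1 / (finrank ℝ E : ℝ)) • GPh y R z, (if 0 < q z then Gq z else 0)⟫ := by
    have i12 : Integrable (fun z => ⟪W z, (if 0 < q z then Gq z else 0)⟫ -
        ⟪Gh z, (if 0 < q z then Gq z else 0)⟫) volume := i1.sub i2
    rw [← integral_sub i1 i2, ← integral_sub i12 i3]
    refine integral_congr_ae (Eventually.of_forall fun z => ?_)
    change ‖(if 0 < q z then Gq z else 0)‖ ^ 2 = ⟪W z, (if 0 < q z then Gq z else 0)⟫ -
      ⟪Gh z, (if 0 < q z then Gq z else 0)⟫ -
      ⟪(1 / (finrank ℝ E : ℝ)) • GPh y R z, (if 0 < q z then Gq z else 0)⟫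
    split_ifs with c1
    · rw [← real_inner_self_eq_norm_sq, ← inner_sub_left, ← inner_sub_left]
      congr 1
      simp only [hGq]
      abel
    · simp
  have e5 := H10.ae_zero_of_grad hd isOpen_ball measure_ball_lt_top hqp' (by
    rw [e4, e2, e3]
    linarith)
  have hdge : (1 : ℝ) ≤ finrank ℝ E := by
    have : 1 ≤ finrank ℝ E := by omega
    exact_mod_cast this
  filter_upwards [e5] with z hz
  have f1 : q z ≤ 0 := by
    rw [← hz]
    exact le_max_left _ _
  simp only [hqd] at f1
  have f2 := ph_le y R z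
  have f3 := ph_nonneg y R z
  have f4 : 1 / (finrank ℝ E : ℝ) ≤ 1 := by
    rw [div_le_one (by linarith)]
    exact hdge
  have f5 : 1 / (finrank ℝ E : ℝ) * Ph y R z ≤ 1 * Ph y R z := mul_le_mul_of_nonneg_right f4 f3
  have f6 : 0 ≤ R ^ 2 := by positivity
  linarith

theorem IsHarm.av_eq (hw : H10 univ w W) (hh : IsHarm y R w W h Gh) {x : E} {r s : ℝ}
    (hr : 0 < r) (hrs : r ≤ s) (hs : ball x s ⊆ ball y R) : av x r h = av x s h := by
  refine mv_harm (IsHarm.h10 hw hh) x hr hrs fun t ht hts => ?_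
  exact hh.2 _ _ ((ph_h10 x ht).mono ((ball_subset_ball hts.le).trans hs))

theorem IsHarm.ge_av (hd : 2 ≤ finrank ℝ E) (hN : Norm1 Ω w W) (hR : 0 < R)
    (hh : IsHarm y R w W h Gh) :
    ∀ᵐ x, ∀ s, 0 < s → ball x s ⊆ ball y R → av x s w - R ^ 2 ≤ h x := by
  have hw := hN.h10
  have h1 := ae_eq_av (U := ball y R) (IsHarm.h10 hw hh)
    (fun x t ht hsub => hh.2 _ _ ((ph_h10 x ht).mono hsub))
  have h2 := IsHarm.sub_le hd hw hR
    (fun Φ H hΦ h0 => sub_all hN.isOpen hN.fin hN.tor isOpen_ball measure_ball_lt_top hΦ h0) hh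
  filter_upwards [h1] with x hx s hs hsub
  rw [hx s hs hsub]
  have i1 : IntegrableOn w (ball x s) := memLp_integrableOn_ball hw.memLp x s
  have i2 : IntegrableOn h (ball x s) := memLp_integrableOn_ball (IsHarm.h10 hw hh).memLp x s
  have i3 : IntegrableOn (fun _ : E => R ^ 2) (ball x s) :=
    integrableOn_const measure_ball_lt_top.ne
  have e1 : av x s w ≤ av x s (fun z => h z + R ^ 2) := by
    refine av_mono i1 (i2.add i3) ?_
    filter_upwards [h2] with z hz _
    linarith
  rw [av_add i2 i3, av_const x hs] at e1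
  linarith

end Pool.Agent.H4.NM
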