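import Pool.Agent.H4.NM.GlueS
import Pool.Agent.H4.NM.Harm
import Pool.Agent.H4.NM.Gain

/-!
# NM-18: the local inequality (M) (MP_898b17_an, all dimensions)

## Paper proof

Take `q₀` from `gain_le` (constant `c`). Let `B = ball y R`, `|B| ≤ |Ω|`, `w ≤ 1 + t` a.e. on `B`, `h` the
harmonic replacement, `ψ = h - t`, `P = (h - t - w)⁺` (zero off `B`: there `h = w`), `U = Ω ∪ B`,
`K = B \ Ω = U \ Ω`, `|K| ≤ |B| ≤ |Ω|`. By `IsHarm.le_const` `h ≤ 1 + t` on `B`, so `ψ ≤ 1` on `B`;
where `P > 0`: `ψ > w ≥ 0`, `ψ ≤ 1`.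
Competitor: `w' = w + P`, gradient `W' = W + GP` (`harm_P`), and
`g = 0` off `U`; on `U`: `g = (ψ² - w² + w)/ψ` where `P > 0` and `ψ ≥ 1/4`, `g = 1` elsewhere.
`Compet Ω U w w' W' g 8` (`compet_loc`):
* `g ≥ 0` (`0 ≤ w < ψ`), `g ≤ 8` (`ψ² + w ≤ 2`, `ψ ≥ 1/4`);
* g1: `glue_sub`, since `g ≥ 1_{P = 0}` on `U` and `Φ ≥ 0` vanishes a.e. off `U`
  (`P = 0` iff not `t < h - w`);
* g2: where `P = 0` (`w' = w`, `g = 1`) it is `0`; where `P > 0`, `ψ ≥ 1/4`: `w' = ψ`, it is `0`; where
  `P > 0`, `ψ < 1/4`: `w' = ψ`, `g = 1`: `w² - w + ψ - ψ² = (ψ - w)(1 - ψ - w) ≥ 0`; off `U` `w = 0`,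
  `w' = 0`;
* g3: `g < 1` only if `P > 0` and `ψ = w' ≥ 1/4`.
`gain_le`: `∫ ((2 - g) w' - w) ≤ (1 + c) |K|`. Pointwise `(2 - g) w' - w =: γ`: `γ = 0` where `P = 0`;
`γ = (ψ - w)(2 - ψ - w) ≥ P²` where `P > 0, ψ ≥ 1/4` (`2 - ψ - w ≥ ψ - w`); `γ = P ≥ P²` where
`P > 0, ψ < 1/4` (`P ≤ 1/4`). On `K` (`w = 0`): `γ ≥ max 0 (1 - 2 (1 - ψ)²) = 1 - min 1 (2(1-ψ)²)`:
if `ψ ≥ 1/4`: `γ = ψ(2 - ψ) = 1 - (1-ψ)²` (also `≥ 0`, `ψ ≤ 1`); if `ψ < 1/4`: `1 - 2(1-ψ)² < 0` and `γ ≥ 0`.
So `∫_{B ∩ Ω} P² + |K| - ∫_K min 1 (2(1-ψ)²) ≤ ∫ γ ≤ (1 + c)|K|`: first inequality of `LocIneq`.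
Second: `∫_B P² = ∫_{B∩Ω} P² + ∫_K P² ≤ |K| + c |K| + |K|` (`min ≤ 1`, `P ≤ 1` since `ψ ≤ 1`, `w ≥ 0`).
-/

open MeasureTheory Set Metric Filter Topology ContDiff Module
open scoped ENNReal NNReal RealInnerProductSpace

namespace Pool.Agent.H4.NM

variable {E : Type} [NormedAddCommGroup E] [InnerProductSpace ℝ E] [FiniteDimensional ℝ E]
  [CompleteSpace E] [MeasurableSpace E] [BorelSpace E]

set_option linter.unusedSectionVars false

variable {Ω U : Set E} {w h Φ : E → ℝ} {W Gh H : E → E} {y : E} {R t : ℝ}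

open Classical in
/-- The right side of the competitor. -/
noncomputable def gloc (U : Set E) (w h : E → ℝ) (t : ℝ) (z : E) : ℝ :=
  if z ∈ U then
    if t < h z - w z ∧ 1 / 4 ≤ h z - t then ((h z - t) ^ 2 - w z ^ 2 + w z) / (h z - t) else 1
  else 0

/-- Facts which hold almost everywhere. -/
theorem loc_ae (hd : 2 ≤ finrank ℝ E) (hN : Norm1 Ω w W) (ht : 0 ≤ t)
    (hh : IsHarm y R w W h Gh) (hw : ∀ᵐ z, z ∈ ball y R → w z ≤ 1 + t) :
    ∀ᵐ z, 0 ≤ w z ∧ (z ∉ Ω → w z = 0) ∧ (z ∉ ball y R → h z = w z) ∧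
      (z ∈ ball y R → h z - t ≤ 1) ∧ (t < h z - w z → z ∈ ball y R) := by
  filter_upwards [hN.nonneg, hN.off, hh.ae_eq, hh.le_const hd hN.h10 (by linarith) hw]
    with z h1 h2 h3 h4
  refine ⟨h1, h2, h3, fun hz => by linarith [h4 hz], fun hz => ?_⟩
  by_contra hb
  rw [h3 hb] at hz
  linarith

/-- The right side as a function of `(w z, h z)`. -/
noncomputable def glocFun (t : ℝ) (x : ℝ × ℝ) : ℝ :=
  if t < x.2 - x.1 ∧ 1 / 4 ≤ x.2 - t then ((x.2 - t) ^ 2 - x.1 ^ 2 + x.1) / (x.2 - t) else 1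

theorem glocFun_meas (t : ℝ) : Measurable (glocFun t) := by
  unfold glocFun
  have h1 : Measurable fun x : ℝ × ℝ => x.2 - x.1 := by fun_prop
  have h2 : Measurable fun x : ℝ × ℝ => x.2 - t := by fun_prop
  refine Measurable.ite ?_ (by fun_prop) measurable_const
  exact (measurableSet_lt measurable_const h1).inter (measurableSet_le measurable_const h2)

open Classical in
theorem gloc_eq (U : Set E) (w h : E → ℝ) (t : ℝ) :
    gloc U w h t = U.indicator (fun z => glocFun t (w z, h z)) := by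
  ext z
  unfold gloc glocFun
  by_cases hz : z ∈ U
  · rw [if_pos hz, indicator_of_mem hz]
  · rw [if_neg hz, indicator_of_notMem hz]

open Classical in
theorem gloc_meas (hU : MeasurableSet U) (hw : AEStronglyMeasurable w volume)
    (hh : AEStronglyMeasurable h volume) : AEStronglyMeasurable (gloc U w h t) volume := by
  rw [gloc_eq]
  have h1 : AEMeasurable (fun z => (w z, h z)) volume := hw.aemeasurable.prodMk hh.aemeasurable
  exact (((glocFun_meas t).comp_aemeasurable h1).indicator hU).aestronglyMeasurable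

open Classical in
theorem gloc_off {z : E} (hz : z ∉ U) : gloc U w h t z = 0 := by
  unfold gloc
  rw [if_neg hz]

open Classical in
theorem gloc_pos {z : E} (hz : z ∈ U) (h1 : t < h z - w z) (h2 : 1 / 4 ≤ h z - t) :
    gloc U w h t z = ((h z - t) ^ 2 - w z ^ 2 + w z) / (h z - t) := by
  unfold gloc
  rw [if_pos hz, if_pos ⟨h1, h2⟩]

open Classical in
theorem gloc_one {z : E} (hz : z ∈ U) (h1 : ¬ (t < h z - w z ∧ 1 / 4 ≤ h z - t)) :
    gloc U w h t z = 1 := by
  unfold gloc
  rw [if_pos hz, if_neg h1]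

open Classical in
theorem gloc_bd {z : E} (hw0 : 0 ≤ w z) (_ht : 0 ≤ t)
    (h1 : t < h z - w z → h z - t ≤ 1) : 0 ≤ gloc U w h t z ∧ gloc U w h t z ≤ 8 := by
  by_cases hz : z ∈ U
  · by_cases hc : t < h z - w z ∧ 1 / 4 ≤ h z - t
    · rw [gloc_pos hz hc.1 hc.2]
      obtain ⟨k1, k2⟩ := hc
      have k3 := h1 k1
      have k4 : w z < h z - t := by linarith
      have k5 : 0 < h z - t := by linarith
      constructor
      · apply div_nonneg _ k5.le
        nlinarith
      · rw [div_le_iff₀ k5]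
        nlinarith [sq_nonneg (w z)]
    · rw [gloc_one hz hc]
      norm_num
  · rw [gloc_off hz]
    norm_num

open Classical in
theorem compet_loc (hd : 2 ≤ finrank ℝ E) (hN : Norm1 Ω w W) (hR : 0 < R) (ht : 0 ≤ t)
    (hh : IsHarm y R w W h Gh) (hw : ∀ᵐ z, z ∈ ball y R → w z ≤ 1 + t) :
    Compet Ω (Ω ∪ ball y R) w (fun z => w z + max (h z - t - w z) 0)
      (fun z => W z + (if t < h z - w z then Gh z - W z else 0))
      (gloc (Ω ∪ ball y R) w h t) 8 := by
  have hUo : IsOpen (Ω ∪ ball y R) := hN.isOpen.union isOpen_ball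
  have hUf : volume (Ω ∪ ball y R) < ⊤ :=
    (measure_union_le _ _).trans_lt (ENNReal.add_lt_top.2 ⟨hN.fin, measure_ball_lt_top⟩)
  have hae := loc_ae hd hN ht hh hw
  have hmw : AEStronglyMeasurable w volume := hN.h10.memLp.1
  have hmh : AEStronglyMeasurable h volume := (hh.h10 hN.h10).memLp.1
  have hgm : AEStronglyMeasurable (gloc (Ω ∪ ball y R) w h t) volume :=
    gloc_meas hUo.measurableSet hmw hmh
  have hbd : ∀ᵐ z, 0 ≤ gloc (Ω ∪ ball y R) w h t z ∧ gloc (Ω ∪ ball y R) w h t z ≤ 8 := by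
    filter_upwards [hae] with z hz
    exact gloc_bd hz.1 ht fun h1 => hz.2.2.2.1 (hz.2.2.2.2 h1)
  refine ⟨?_, ?_, hgm, ?_, ?_, ?_, ?_, ?_, ?_⟩
  · exact (hN.tor.1.mono subset_union_left).add ((harm_P hh ht).mono subset_union_right)
  · exact Eventually.of_forall fun z => by
      have := le_max_right (h z - t - w z) 0
      linarith
  · filter_upwards [hbd] with z hz
    exact hz.1
  · filter_upwards [hbd] with z hz
    exact hz.2
  · exact Eventually.of_forall fun z hz => gloc_off hz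
  · intro Φ H hΦ h0
    refine (glue_sub hN hh ht hUo hUf hΦ h0).trans ?_
    have iΦ : Integrable Φ volume := hΦ.integrable hUo hUf
    have hmm : AEStronglyMeasurable (fun z => if t < h z - w z then (0 : ℝ) else 1) volume := by
      have hF : Measurable (fun x : ℝ × ℝ => if t < x.2 - x.1 then (0 : ℝ) else 1) :=
        Measurable.ite (measurableSet_lt measurable_const (by fun_prop)) measurable_const
          measurable_const
      exact (hF.comp_aemeasurable (hmw.aemeasurable.prodMk hmh.aemeasurable)).aestronglyMeasurable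
    refine integral_mono_ae ?_ ?_ ?_
    · refine iΦ.bdd_mul hmm (c := 1) (Eventually.of_forall fun z => ?_)
      split_ifs <;> simp
    · refine iΦ.bdd_mul hgm (c := 8) ?_
      filter_upwards [hbd] with z hz
      rw [Real.norm_eq_abs, abs_of_nonneg hz.1]
      exact hz.2
    · filter_upwards [h0, hbd, hΦ.ae_zero hUo] with z k1 k2 k3
      by_cases hz : z ∈ Ω ∪ ball y R
      · by_cases hc : t < h z - w z
        · simp only [if_pos hc, zero_mul]
          exact mul_nonneg k2.1 k1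
        · simp only [if_neg hc]
          rw [gloc_one hz (fun h5 => hc h5.1)]
      · rw [(k3 hz).1, mul_zero, mul_zero]
  · filter_upwards [hae] with z ⟨k1, k2, k3, k4, k5⟩
    by_cases hc : t < h z - w z
    · have hm : max (h z - t - w z) 0 = h z - t - w z := max_eq_left (by linarith)
      have hzb : z ∈ Ω ∪ ball y R := Or.inr (k5 hc)
      have hψ1 := k4 (k5 hc)
      rw [hm]
      have e : w z + (h z - t - w z) = h z - t := by ring
      rw [e]
      by_cases hq : 1 / 4 ≤ h z - t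
      · rw [gloc_pos hzb hc hq, div_mul_cancel₀ _ (by linarith)]
        linarith
      · rw [gloc_one hzb (fun h5 => hq h5.2)]
        push Not at hq
        nlinarith
    · have hm : max (h z - t - w z) 0 = 0 := max_eq_right (by linarith)
      rw [hm, add_zero]
      by_cases hzb : z ∈ Ω ∪ ball y R
      · rw [gloc_one hzb (fun h5 => hc h5.1)]
        linarith
      · rw [gloc_off hzb, k2 (fun h6 => hzb (Or.inl h6))]
        norm_num
  · filter_upwards [hae] with z ⟨k1, k2, k3, k4, k5⟩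
    intro hz hlt
    by_cases hc : t < h z - w z ∧ 1 / 4 ≤ h z - t
    · exfalso
      have hm : max (h z - t - w z) 0 = h z - t - w z := max_eq_left (by linarith [hc.1])
      rw [hm] at hlt
      linarith [hc.2]
    · rw [gloc_one hz hc]

open Classical in
/-- The pointwise lower bound of the gain. -/
theorem loc_point {z : E} (k1 : 0 ≤ w z) (k2 : z ∉ Ω → w z = 0)
    (k4 : z ∈ ball y R → h z - t ≤ 1) (k5 : t < h z - w z → z ∈ ball y R) (_ht : 0 ≤ t) :
    (ball y R ∩ Ω).indicator (fun z => (max (h z - t - w z) 0) ^ 2) z +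
      (ball y R \ Ω).indicator (fun z => 1 - min 1 (2 * (1 - (h z - t)) ^ 2)) z ≤
    (2 - gloc (Ω ∪ ball y R) w h t z) * (w z + max (h z - t - w z) 0) - w z := by
  by_cases hc : t < h z - w z
  · have hm : max (h z - t - w z) 0 = h z - t - w z := max_eq_left (by linarith)
    have hzB := k5 hc
    have hψ1 := k4 hzB
    have hzb : z ∈ Ω ∪ ball y R := Or.inr hzB
    have e : w z + (h z - t - w z) = h z - t := by ring
    by_cases hzΩ : z ∈ Ω
    · rw [indicator_of_mem (show z ∈ ball y R ∩ Ω from ⟨hzB, hzΩ⟩),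
        indicator_of_notMem (fun h6 : z ∈ ball y R \ Ω => h6.2 hzΩ), add_zero, hm, e]
      by_cases hq : 1 / 4 ≤ h z - t
      · rw [gloc_pos hzb hc hq]
        have e2 : (2 - ((h z - t) ^ 2 - w z ^ 2 + w z) / (h z - t)) * (h z - t) - w z =
            2 * (h z - t) - ((h z - t) ^ 2 - w z ^ 2 + w z) - w z := by
          rw [sub_mul, div_mul_cancel₀ _ (by linarith)]
        rw [e2]
        nlinarith
      · push Not at hq
        rw [gloc_one hzb (fun h5 => by linarith [h5.2])]
        nlinarith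
    · rw [indicator_of_notMem (fun h6 : z ∈ ball y R ∩ Ω => hzΩ h6.2),
        indicator_of_mem (show z ∈ ball y R \ Ω from ⟨hzB, hzΩ⟩), zero_add, hm, e]
      have hw0 := k2 hzΩ
      rw [hw0] at hc
      rw [hw0]
      by_cases hq : 1 / 4 ≤ h z - t
      · rw [gloc_pos hzb (by rw [hw0]; exact hc) hq, hw0]
        have e2 : (2 - ((h z - t) ^ 2 - 0 ^ 2 + 0) / (h z - t)) * (h z - t) - 0 =
            2 * (h z - t) - (h z - t) ^ 2 := by
          rw [sub_mul, div_mul_cancel₀ _ (by linarith)]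
          ring
        rw [e2]
        have h7 : (1 - (h z - t)) ^ 2 ≤ min 1 (2 * (1 - (h z - t)) ^ 2) :=
          le_min (by nlinarith) (by nlinarith [sq_nonneg (1 - (h z - t))])
        nlinarith
      · push Not at hq
        rw [gloc_one hzb (fun h5 => by linarith [h5.2])]
        have h7 : min 1 (2 * (1 - (h z - t)) ^ 2) = 1 := min_eq_left (by nlinarith)
        rw [h7]
        linarith
  · have hm : max (h z - t - w z) 0 = 0 := max_eq_right (by linarith)
    have hR : (2 - gloc (Ω ∪ ball y R) w h t z) * (w z + max (h z - t - w z) 0) - w z = 0 := by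
      rw [hm, add_zero]
      by_cases hzb : z ∈ Ω ∪ ball y R
      · rw [gloc_one hzb (fun h5 => hc h5.1)]
        ring
      · rw [gloc_off hzb, k2 (fun h6 => hzb (Or.inl h6))]
        ring
    rw [hR]
    have h8 : (ball y R ∩ Ω).indicator (fun z => (max (h z - t - w z) 0) ^ 2) z = 0 := by
      by_cases h9 : z ∈ ball y R ∩ Ω
      · rw [indicator_of_mem h9, hm]
        norm_num
      · rw [indicator_of_notMem h9]
    rw [h8, zero_add]
    by_cases h9 : z ∈ ball y R \ Ω
    · rw [indicator_of_mem h9]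
      have hw0 := k2 h9.2
      rw [hw0] at hc
      push Not at hc
      have h7 : min 1 (2 * (1 - (h z - t)) ^ 2) = 1 := min_eq_left (by nlinarith)
      rw [h7]
      norm_num
    · rw [indicator_of_notMem h9]

theorem loc_ineq (hd : 2 ≤ finrank ℝ E) {c : ℝ} (hc : 0 < c) : ∃ q₀ : ℝ, 1 < q₀ ∧
    ∀ q : ℝ, 1 < q → q < q₀ → ∀ (Ω : Set E) (w : E → ℝ) (W : E → E), Norm1 Ω w W →
      IsMax q Ω w → LocIneq c Ω w W := by
  classical
  obtain ⟨q₀, hq₀, hgain⟩ := gain_le (E := E) hd hc
  refine ⟨q₀, hq₀, fun q hq1 hq Ω w W hN hmax => ?_⟩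
  intro y R t h Gh hR ht hv hh hw
  have hUo : IsOpen (Ω ∪ ball y R) := hN.isOpen.union isOpen_ball
  have hUf : volume (Ω ∪ ball y R) < ⊤ :=
    (measure_union_le _ _).trans_lt (ENNReal.add_lt_top.2 ⟨hN.fin, measure_ball_lt_top⟩)
  have hC := compet_loc hd hN hR ht hh hw
  have hae := loc_ae hd hN ht hh hw
  have eK : (Ω ∪ ball y R) \ Ω = ball y R \ Ω := union_sdiff_left
  have hKB : volume.real (ball y R \ Ω) ≤ volume.real (ball y R) :=
    measureReal_mono sdiff_subset measure_ball_lt_top.ne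
  have hg := hgain q hq1 hq Ω w W hN hmax (Ω ∪ ball y R) _ _ _ 8 hUo subset_union_left hUf
    (by rw [eK]; linarith) hC
  rw [eK] at hg
  -- integrability
  have hmw : AEStronglyMeasurable w volume := hN.h10.memLp.1
  have hmh : AEStronglyMeasurable h volume := (hh.h10 hN.h10).memLp.1
  have iw' : Integrable (fun z => w z + max (h z - t - w z) 0) volume :=
    hC.h10.integrable hUo hUf
  have igw : Integrable (fun z => (2 - gloc (Ω ∪ ball y R) w h t z) *
      (w z + max (h z - t - w z) 0)) volume := by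
    refine iw'.bdd_mul (aestronglyMeasurable_const.sub hC.gm) (c := 8) ?_
    filter_upwards [hC.g0, hC.gG] with z h1 h2
    rw [Real.norm_eq_abs, abs_le]
    constructor <;> linarith
  have iγ : Integrable (fun z => (2 - gloc (Ω ∪ ball y R) w h t z) *
      (w z + max (h z - t - w z) 0) - w z) volume := igw.sub hN.integrable
  have iP2 : Integrable (fun z => (max (h z - t - w z) 0) ^ 2) volume :=
    (harm_P hh ht).memLp.integrable_sq
  have mB : MeasurableSet (ball y R) := isOpen_ball.measurableSet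
  have mΩ : MeasurableSet Ω := hN.isOpen.measurableSet
  have hKf : volume (ball y R \ Ω) < ⊤ := (measure_mono sdiff_subset).trans_lt measure_ball_lt_top
  have hmin : AEStronglyMeasurable (fun z => min 1 (2 * (1 - (h z - t)) ^ 2)) volume := by
    have h1 : Continuous fun s : ℝ => min 1 (2 * (1 - (s - t)) ^ 2) := by fun_prop
    exact h1.comp_aestronglyMeasurable hmh
  have iM : IntegrableOn (fun z => min 1 (2 * (1 - (h z - t)) ^ 2)) (ball y R \ Ω) volume := by
    refine Measure.integrableOn_of_bounded (M := 1) hKf.ne hmin ?_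
    refine Eventually.of_forall fun z => ?_
    rw [Real.norm_eq_abs, abs_of_nonneg (le_min zero_le_one (by positivity))]
    exact min_le_left _ _
  have i1 : IntegrableOn (fun _ : E => (1 : ℝ)) (ball y R \ Ω) volume := integrableOn_const hKf.ne
  have iK : Integrable ((ball y R \ Ω).indicator
      (fun z => 1 - min 1 (2 * (1 - (h z - t)) ^ 2))) volume :=
    (i1.sub iM).integrable_indicator (mB.diff mΩ)
  have iBΩ : Integrable ((ball y R ∩ Ω).indicator
      (fun z => (max (h z - t - w z) 0) ^ 2)) volume := iP2.indicator (mB.inter mΩ)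
  have hle := integral_mono_ae (iBΩ.add iK) iγ (by
    filter_upwards [hae] with z ⟨k1, k2, k3, k4, k5⟩
    exact loc_point k1 k2 k4 k5 ht)
  simp only [Pi.add_apply] at hle
  have e1 : ∫ z, ((ball y R ∩ Ω).indicator (fun z => (max (h z - t - w z) 0) ^ 2) z +
      (ball y R \ Ω).indicator (fun z => 1 - min 1 (2 * (1 - (h z - t)) ^ 2)) z) =
      (∫ z in ball y R ∩ Ω, (max (h z - t - w z) 0) ^ 2) +
        (volume.real (ball y R \ Ω) -
          ∫ z in ball y R \ Ω, min 1 (2 * (1 - (h z - t)) ^ 2)) := by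
    rw [integral_add iBΩ iK, integral_indicator (mB.inter mΩ), integral_indicator (mB.diff mΩ)]
    congr 1
    rw [integral_sub i1 iM, setIntegral_const]
    simp
  have e2 : ∫ z, ((2 - gloc (Ω ∪ ball y R) w h t z) * (w z + max (h z - t - w z) 0) - w z) =
      (∫ z, (2 - gloc (Ω ∪ ball y R) w h t z) * (w z + max (h z - t - w z) 0)) - ∫ z, w z :=
    integral_sub igw hN.integrable
  rw [e1, e2] at hle
  have hfirst : (∫ z in ball y R ∩ Ω, (max (h z - t - w z) 0) ^ 2) ≤
      (∫ z in ball y R \ Ω, min 1 (2 * (1 - (h z - t)) ^ 2)) +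
        c * volume.real (ball y R \ Ω) := by
    linarith
  refine ⟨hfirst, ?_⟩
  have e3 : ∫ z in ball y R, (max (h z - t - w z) 0) ^ 2 =
      (∫ z in ball y R ∩ Ω, (max (h z - t - w z) 0) ^ 2) +
        ∫ z in ball y R \ Ω, (max (h z - t - w z) 0) ^ 2 :=
    (integral_inter_add_sdiff mΩ iP2.integrableOn).symm
  have e4 : ∫ z in ball y R \ Ω, (max (h z - t - w z) 0) ^ 2 ≤ volume.real (ball y R \ Ω) := by
    have h5 : ∫ z in ball y R \ Ω, (1 : ℝ) = volume.real (ball y R \ Ω) := by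
      rw [setIntegral_const]
      simp
    rw [← h5]
    refine integral_mono_ae iP2.integrableOn i1 ?_
    filter_upwards [ae_restrict_of_ae hae, ae_restrict_mem (mB.diff mΩ)] with z hz hzm
    obtain ⟨k1, k2, k3, k4, k5⟩ := hz
    have k6 := k4 hzm.1
    have k7 : max (h z - t - w z) 0 ≤ 1 := max_le (by linarith) zero_le_one
    have k8 : 0 ≤ max (h z - t - w z) 0 := le_max_right _ _
    show (max (h z - t - w z) 0) ^ 2 ≤ 1
    nlinarith
  have e5 : ∫ z in ball y R \ Ω, min 1 (2 * (1 - (h z - t)) ^ 2) ≤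
      volume.real (ball y R \ Ω) := by
    have h5 : ∫ z in ball y R \ Ω, (1 : ℝ) = volume.real (ball y R \ Ω) := by
      rw [setIntegral_const]
      simp
    rw [← h5]
    exact integral_mono iM i1 fun z => min_le_left _ _
  rw [e3]
  linarith

end Pool.Agent.H4.NM
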