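import Pool.Agent.H4.NM.Chain

/-!
# Calculus in `H¹₀`, part 4: positive part, minimum, products (MP_898b17_an, M1)
-/

open MeasureTheory Set Metric Filter Topology ContDiff
open scoped ENNReal RealInnerProductSpace

namespace Pool.Agent.H4.NM

variable {E : Type} [NormedAddCommGroup E] [InnerProductSpace ℝ E] [FiniteDimensional ℝ E]
  [CompleteSpace E] [MeasurableSpace E] [BorelSpace E]

set_option linter.unusedSectionVars false

set_option maxHeartbeats 400000

variable {Ω Ω' U : Set E} {u v w w' : E → ℝ} {G H W W' : E → E} {φ ψ : E → ℝ}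

/-! ### Positive part -/

theorem H10.grad_zero_of_eq (h : H10 Ω u G) (c : ℝ) : ∀ᵐ z, u z = c → G z = 0 := by
  classical
  let N : ℕ → ℝ := fun n => (n : ℝ) + 1
  have hN : ∀ n, 0 < N n := fun n => by positivity
  have hNt : Tendsto N atTop atTop := tendsto_atTop_add_const_right _ _ tendsto_natCast_atTop_atTop
  let Fn : ℕ → ℝ → ℝ := fun n t =>
    (Real.arctan (N n * (t - c)) + Real.arctan (N n * c)) / N n
  have hd : ∀ n t, HasDerivAt (Fn n) (1 / (1 + (N n * (t - c)) ^ 2)) t := by
    intro n t
    have h1 : HasDerivAt (fun t => N n * (t - c)) (N n) t := by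
      simpa using ((hasDerivAt_id t).sub_const c).const_mul (N n)
    have h2 := ((h1.arctan).add_const (Real.arctan (N n * c))).div_const (N n)
    refine h2.congr_deriv ?_
    have := (hN n).ne'
    field_simp
  have key := h.comp_limit (Fn := Fn) (F := fun _ => 0) (f := fun t => if t = c then 1 else 0)
    (C := 1) (fun n => ?_) (fun n => ?_) (fun n t => ?_) (fun t => ?_) (fun t => ?_)
  · have h1 := key.grad_ae_zero (by rfl)
    filter_upwards [h1] with z hz hzc
    simpa [hzc] using hz
  · have h1 : ContDiff ℝ 1 fun t : ℝ => Real.arctan (N n * (t - c)) :=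
      Real.contDiff_arctan.comp (contDiff_const.mul (contDiff_id.sub contDiff_const))
    exact (h1.add contDiff_const).div_const _
  · simp only [Fn, zero_sub, mul_neg, Real.arctan_neg]
    simp
  · rw [(hd n t).deriv, abs_of_pos (by positivity), div_le_one (by positivity)]
    nlinarith [sq_nonneg (N n * (t - c))]
  · have h1 : ∀ n, |Fn n t| ≤ Real.pi / N n := by
      intro n
      rw [abs_div, abs_of_pos (hN n)]
      apply div_le_div_of_nonneg_right _ (hN n).le
      have a1 := Real.arctan_lt_pi_div_two (N n * (t - c))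
      have a2 := Real.arctan_lt_pi_div_two (N n * c)
      have a3 := Real.neg_pi_div_two_lt_arctan (N n * (t - c))
      have a4 := Real.neg_pi_div_two_lt_arctan (N n * c)
      rw [abs_le]
      constructor <;> linarith
    exact squeeze_zero_norm h1 (hNt.const_div_atTop _)
  · simp only [(hd _ t).deriv]
    by_cases htc : t = c
    · simp [htc]
    · simp only [htc, if_false]
      have h1 : Tendsto (fun n => 1 + (N n * (t - c)) ^ 2) atTop atTop := by
        apply tendsto_atTop_add_const_left
        have h2 : Tendsto (fun n => N n ^ 2 * (t - c) ^ 2) atTop atTop :=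
          ((tendsto_pow_atTop (by norm_num)).comp hNt).atTop_mul_const (by
            have : t - c ≠ 0 := sub_ne_zero.2 htc
            positivity)
        refine h2.congr fun n => ?_
        ring
      exact h1.const_div_atTop _

/-- Smooth approximation of the positive part. -/
noncomputable def P (ε t : ℝ) : ℝ := (Real.sqrt (t ^ 2 + ε ^ 2) + t - ε) / 2

theorem P_pos {ε : ℝ} (hε : 0 < ε) (t : ℝ) : 0 < t ^ 2 + ε ^ 2 := by positivity

theorem P_hasDerivAt {ε : ℝ} (hε : 0 < ε) (t : ℝ) :
    HasDerivAt (P ε) ((t / Real.sqrt (t ^ 2 + ε ^ 2) + 1) / 2) t := by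
  have h1 : HasDerivAt (fun t : ℝ => t ^ 2 + ε ^ 2) (2 * t) t := by
    simpa using (hasDerivAt_pow 2 t).add_const (ε ^ 2)
  have h2 := (((h1.sqrt (P_pos hε t).ne').add (hasDerivAt_id t)).sub_const ε).div_const 2
  refine h2.congr_deriv ?_
  rw [mul_div_mul_left _ _ (by norm_num : (2 : ℝ) ≠ 0)]

theorem P_contDiff {ε : ℝ} (hε : 0 < ε) : ContDiff ℝ ∞ (P ε) := by
  have h1 : ContDiff ℝ ∞ fun t : ℝ => Real.sqrt (t ^ 2 + ε ^ 2) :=
    ((contDiff_id.pow 2).add contDiff_const).sqrt fun t => (P_pos hε t).ne'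
  exact ((h1.add contDiff_id).sub contDiff_const).div_const 2

theorem P_deriv_bound {ε : ℝ} (hε : 0 < ε) (t : ℝ) :
    0 ≤ (t / Real.sqrt (t ^ 2 + ε ^ 2) + 1) / 2 ∧ (t / Real.sqrt (t ^ 2 + ε ^ 2) + 1) / 2 ≤ 1 := by
  have h0 : 0 < Real.sqrt (t ^ 2 + ε ^ 2) := Real.sqrt_pos.2 (P_pos hε t)
  have h1 : |t| ≤ Real.sqrt (t ^ 2 + ε ^ 2) :=
    Real.abs_le_sqrt (by nlinarith [sq_nonneg ε])
  have h2 : |t / Real.sqrt (t ^ 2 + ε ^ 2)| ≤ 1 := by
    rw [abs_div, abs_of_pos h0, div_le_one h0]
    exact h1
  rw [abs_le] at h2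
  constructor <;> linarith [h2.1, h2.2]

theorem P_zero {ε : ℝ} (hε : 0 < ε) : P ε 0 = 0 := by
  simp [P, Real.sqrt_sq hε.le]

theorem P_tendsto {εn : ℕ → ℝ} (hl : Tendsto εn atTop (𝓝 0)) (t : ℝ) :
    Tendsto (fun n => P (εn n) t) atTop (𝓝 (max t 0)) := by
  have h1 : Continuous fun ε : ℝ => P ε t := by
    unfold P
    fun_prop
  have h2 := (h1.tendsto 0).comp hl
  have e : P 0 t = max t 0 := by
    unfold P
    rw [max_def]
    simp only [ne_eq, OfNat.ofNat_ne_zero, not_false_eq_true, zero_pow, add_zero, sub_zero,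
      Real.sqrt_sq_eq_abs]
    split_ifs with h
    · rw [abs_of_nonpos h]; ring
    · rw [abs_of_pos (not_le.1 h)]; ring
  rwa [e] at h2

theorem P_deriv_tendsto {εn : ℕ → ℝ} (hl : Tendsto εn atTop (𝓝 0)) (t : ℝ) :
    Tendsto (fun n => (t / Real.sqrt (t ^ 2 + (εn n) ^ 2) + 1) / 2) atTop
      (𝓝 ((t / |t| + 1) / 2)) := by
  by_cases ht : t = 0
  · simp [ht]
  · have h0 : Real.sqrt (t ^ 2 + 0 ^ 2) = |t| := by
      simp [Real.sqrt_sq_eq_abs]
    have h1 : Continuous fun ε : ℝ => Real.sqrt (t ^ 2 + ε ^ 2) := by fun_prop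
    have h2 := (h1.tendsto 0).comp hl
    rw [h0] at h2
    exact (((tendsto_const_nhds (x := t)).div h2 (abs_pos.2 ht).ne').add_const 1).div_const 2

theorem eps_tendsto : Tendsto (fun n : ℕ => 1 / ((n : ℝ) + 1)) atTop (𝓝 0) :=
  tendsto_one_div_add_atTop_nhds_zero_nat

theorem eps_pos (n : ℕ) : 0 < 1 / ((n : ℝ) + 1) := by positivity

open Classical in
theorem H10.pos_part (h : H10 Ω u G) :
    H10 Ω (fun z => max (u z) 0) (fun z => if 0 < u z then G z else 0) := by
  have h1 := h.comp_limit (Fn := fun n : ℕ => P (1 / ((n : ℝ) + 1))) (F := fun t => max t 0)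
    (f := fun t => (t / |t| + 1) / 2) (C := 1) (fun n => (P_contDiff (eps_pos n)).of_le (by norm_cast)) (fun n => P_zero (eps_pos n)) (fun n t => by
      rw [(P_hasDerivAt (eps_pos n) t).deriv, abs_of_nonneg (P_deriv_bound (eps_pos n) t).1]
      exact (P_deriv_bound (eps_pos n) t).2) (fun t => P_tendsto eps_tendsto t) (fun t => by
      simp only [(P_hasDerivAt (eps_pos _) t).deriv]
      exact P_deriv_tendsto eps_tendsto t)
  refine h1.congr (by rfl) ?_
  filter_upwards [h.grad_zero_of_eq 0] with z hz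
  rcases lt_trichotomy (u z) 0 with h2 | h2 | h2
  · have e : u z / |u z| = -1 := by
      rw [abs_of_neg h2, div_neg, div_self h2.ne]
    simp [e, h2.not_gt]
  · simp [h2, hz h2]
  · have e : u z / |u z| = 1 := by
      rw [abs_of_pos h2, div_self h2.ne']
    simp [e, h2]

open Classical in
theorem H10.min_const (h : H10 Ω u G) {c : ℝ} (hc : 0 ≤ c) :
    H10 Ω (fun z => min (u z) c) (fun z => if u z < c then G z else 0) := by
  have hd : ∀ (n : ℕ) (t : ℝ), HasDerivAt
      (fun t => t - (P (1 / ((n : ℝ) + 1)) (t - c) - P (1 / ((n : ℝ) + 1)) (-c)))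
      (1 - ((t - c) / Real.sqrt ((t - c) ^ 2 + (1 / ((n : ℝ) + 1)) ^ 2) + 1) / 2) t := by
    intro n t
    have h1 := (P_hasDerivAt (eps_pos n) (t - c)).comp_sub_const t c
    exact (hasDerivAt_id t).sub (h1.sub_const _)
  have h1 := h.comp_limit
    (Fn := fun (n : ℕ) t => t - (P (1 / ((n : ℝ) + 1)) (t - c) - P (1 / ((n : ℝ) + 1)) (-c)))
    (F := fun t => min t c)
    (f := fun t => 1 - ((t - c) / |t - c| + 1) / 2) (C := 1) (fun n => ?_) (fun n => ?_)
    (fun n t => ?_) (fun t => ?_) (fun t => ?_)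
  · refine h1.congr (by rfl) ?_
    filter_upwards [h.grad_zero_of_eq c] with z hz
    rcases lt_trichotomy (u z) c with h2 | h2 | h2
    · have e : (u z - c) / |u z - c| = -1 := by
        rw [abs_of_neg (sub_neg.2 h2), div_neg, div_self (sub_neg.2 h2).ne]
      simp [e, h2]
    · simp [h2, hz h2]
    · have e : (u z - c) / |u z - c| = 1 := by
        rw [abs_of_pos (sub_pos.2 h2), div_self (sub_pos.2 h2).ne']
      simp only [e, h2.not_gt, if_false]
      norm_num
  · have h2 : ContDiff ℝ 1 (P (1 / ((n : ℝ) + 1))) :=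
      (P_contDiff (eps_pos n)).of_le (by norm_cast)
    exact contDiff_id.sub ((h2.comp (contDiff_id.sub contDiff_const)).sub contDiff_const)
  · simp
  · rw [(hd n t).deriv]
    have := P_deriv_bound (eps_pos n) (t - c)
    rw [abs_of_nonneg (by linarith [this.2])]
    linarith [this.1]
  · have h2 := (P_tendsto eps_tendsto (t - c)).sub (P_tendsto eps_tendsto (-c))
    have h3 := h2.const_sub t
    have e : t - (max (t - c) 0 - max (-c) 0) = min t c := by
      rw [max_eq_right (by linarith : -c ≤ 0), sub_zero]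
      rcases le_total t c with h4 | h4
      · rw [max_eq_right (by linarith), min_eq_left h4, sub_zero]
      · rw [max_eq_left (by linarith), min_eq_right h4]; ring
    rwa [e] at h3
  · simp only [(hd _ t).deriv]
    exact (P_deriv_tendsto eps_tendsto (t - c)).const_sub 1

open Classical in
theorem H10.min (h : H10 Ω u G) (h' : H10 Ω v H) :
    H10 Ω (fun z => min (u z) (v z)) (fun z => if u z < v z then G z else H z) := by
  have h1 := h.sub h'
  have h2 := h.sub h1.pos_part
  refine h2.congr (Eventually.of_forall fun z => ?_) ?_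
  · simp only
    rcases le_total (u z) (v z) with h4 | h4
    · rw [max_eq_right (by linarith), min_eq_left h4, sub_zero]
    · rw [max_eq_left (by linarith), min_eq_right h4]; ring
  · filter_upwards [h1.grad_zero_of_eq 0] with z hz
    rcases lt_trichotomy (u z) (v z) with h3 | h3 | h3
    · simp [h3, h3.not_gt]
    · have h4 := hz (by rw [h3, sub_self])
      simp only [h3, sub_self, lt_irrefl, if_false, sub_zero]
      exact sub_eq_zero.1 h4
    · simp [h3, h3.not_gt]

open Classical in
theorem H10.max (h : H10 Ω u G) (h' : H10 Ω v H) :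
    H10 Ω (fun z => max (u z) (v z)) (fun z => if v z < u z then G z else H z) := by
  have h1 := h.sub h'
  have h2 := h'.add h1.pos_part
  refine h2.congr (Eventually.of_forall fun z => ?_) ?_
  · simp only
    rcases le_total (u z) (v z) with h4 | h4
    · rw [max_eq_right (by linarith), max_eq_right h4, add_zero]
    · rw [max_eq_left (by linarith), max_eq_left h4]; ring
  · filter_upwards with z
    by_cases h3 : v z < u z
    · simp [h3]
    · simp [h3]

end Pool.Agent.H4.NM
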