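import Pool.Agent.H4.NM.Av
import Pool.Agent.H4.NM.Tors
import Pool.Agent.H4.NM.Prod
import Pool.Agent.H4.NM.Norm1

/-!
# NM-25: translation estimate and the good ball (MP_898b17_an, all dimensions)

## Paper proof of `trans_le`

`f ∈ H¹₀(Ω)`, `|Ω| < ∞`, gradient `F` (`f`, `F` are integrable). For test functions
`|φ(x + a) - φ(x)| ≤ ‖a‖ ∫_0^1 ‖∇φ(x + s a)‖ ds`, integrate in `x` (Tonelli, translation invariance):
`∫ |φ(x+a) - φ(x)| dx ≤ ‖a‖ ∫ ‖∇φ‖`. Density: `φ n → f` in `H¹` with test functions of `Ω`, and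
`L²(Ω) → L¹` as `|Ω| < ∞`(all vanish off `Ω`).

## Paper proof of `good_ball`

`A = |Ω|`, `T = ∫ w ≥ (1 - η) A`, `η ≤ 1/32`. `f = G(w)`, `G(t) = min (max (2t - 1/2) 0) 1`; by
`H10.pos_part`, `H10.min_const` etc. (e.g. `G(w) = 2 (min w (3/4) - min w (1/4))` for `w ≥ 0`),
`f ∈ H¹₀(Ω)`, gradient `F`, `‖F‖ ≤ 2 ‖W‖ 1_{1/4 < w < 3/4}`. `∫_Ω (1-w)² ≤ A - T ≤ η A`
(`Norm1.one_sub_sq`), so `|{w < 3/4} ∩ Ω| ≤ 16 η A`, and
`∫ ‖F‖ ≤ 2 |{1/4<w<3/4}|^{1/2} (∫|W|²)^{1/2} ≤ 2 (16 η A)^{1/2} A^{1/2} = 8 √η A`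
(`∫ |W|² = T ≤ A`).
Let `S = {w ≥ 3/4}` (up to null sets in `Ω`), `|S| ≥ A - 16 η A ≥ A/2 > 0`.
`∫_S ∫_{ball x L} |1 - w(y)| dy dx`, split: `y ∈ Ω`: by Tonelli
`≤ |B_L| ∫_Ω |1 - w| ≤ |B_L| A^{1/2} (ηA)^{1/2} = |B_L| √η A`; `y ∉ Ω`: `|1 - w(y)| = 1 = |f(x) - f(y)|`,
substitute `y = x + a`: `≤ ∫_{ball 0 L} ∫ |f(x) - f(x+a)| dx da ≤ |B_L| L 8 √η A`. So for some
`x ∈ S`: `∫_{ball x L} |1 - w| ≤ 2 |B_L| √η (1 + 8 L) ≤ δ` for `η` small.
-/

open MeasureTheory Set Metric Filter Topology ContDiff Module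
open scoped ENNReal NNReal RealInnerProductSpace

namespace Pool.Agent.H4.NM

variable {E : Type} [NormedAddCommGroup E] [InnerProductSpace ℝ E] [FiniteDimensional ℝ E]
  [CompleteSpace E] [MeasurableSpace E] [BorelSpace E]

set_option linter.unusedSectionVars false

variable {Ω U : Set E} {w f : E → ℝ} {W F : E → E}

theorem trans_test {φ : E → ℝ} (hφ : IsTest Ω φ) (a : E) :
    ∫⁻ x, ‖φ (x + a) - φ x‖ₑ ≤ ‖a‖ₑ * ∫⁻ x, ‖gradient φ x‖ₑ := by
  have hc := hφ.continuous_gradient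
  have h1 : ∀ x, ‖φ (x + a) - φ x‖ₑ ≤
      ∫⁻ s in Ioc (0 : ℝ) 1, ‖a‖ₑ * ‖gradient φ (x + s • a)‖ₑ := by
    intro x
    have hd : ∀ s : ℝ, HasDerivAt (fun s : ℝ => φ (x + s • a)) (fderiv ℝ φ (x + s • a) a) s := by
      intro s
      have h := (hφ.differentiable (x + s • a)).hasFDerivAt
      have h2 : HasDerivAt (fun s : ℝ => x + s • a) a s := by
        simpa using ((hasDerivAt_id s).smul_const a).const_add x
      exact h.comp_hasDerivAt s h2
    have hcont : Continuous fun s : ℝ => fderiv ℝ φ (x + s • a) a := by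
      have := hφ.1.continuous_fderiv (by simp)
      fun_prop
    have e : φ (x + a) - φ x = ∫ s in (0 : ℝ)..1, fderiv ℝ φ (x + s • a) a := by
      rw [intervalIntegral.integral_eq_sub_of_hasDerivAt (fun s _ => hd s)
        (hcont.intervalIntegrable _ _)]
      simp
    rw [e, intervalIntegral.integral_of_le zero_le_one]
    refine (enorm_integral_le_lintegral_enorm _).trans ?_
    refine lintegral_mono fun s => ?_
    simp only
    rw [← inner_gradient, mul_comm, ← ofReal_norm, ← ofReal_norm, ← ofReal_norm,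
      ← ENNReal.ofReal_mul (norm_nonneg _)]
    exact ENNReal.ofReal_le_ofReal (norm_inner_le_norm _ _)
  calc ∫⁻ x, ‖φ (x + a) - φ x‖ₑ
      ≤ ∫⁻ x, ∫⁻ s in Ioc (0 : ℝ) 1, ‖a‖ₑ * ‖gradient φ (x + s • a)‖ₑ := lintegral_mono h1
    _ = ∫⁻ s in Ioc (0 : ℝ) 1, ∫⁻ x, ‖a‖ₑ * ‖gradient φ (x + s • a)‖ₑ := by
        refine lintegral_lintegral_swap ?_
        have h2 : Continuous fun p : E × ℝ => gradient φ (p.1 + p.2 • a) := by fun_prop
        exact ((h2.measurable.enorm).const_mul _).aemeasurable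
    _ = ∫⁻ _ in Ioc (0 : ℝ) 1, ‖a‖ₑ * ∫⁻ x, ‖gradient φ x‖ₑ := by
        congr with s
        have h2 : Continuous fun x : E => gradient φ (x + s • a) := by fun_prop
        rw [lintegral_const_mul _ h2.measurable.enorm]
        rw [lintegral_add_right_eq_self (fun x => ‖gradient φ x‖ₑ) (s • a)]
    _ = ‖a‖ₑ * ∫⁻ x, ‖gradient φ x‖ₑ := by simp

/-- `L²` convergence gives `L¹` convergence of the enorm on a set of finite measure. -/
theorem L1_tendsto {X : Type*} [NormedAddCommGroup X] {g : ℕ → E → X} (hΩ : IsOpen Ω)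
    (hfin : volume Ω < ⊤) (hm : ∀ n, AEStronglyMeasurable (g n) volume)
    (h0 : ∀ n, ∀ᵐ z, z ∉ Ω → g n z = 0)
    (h : Tendsto (fun n => eLpNorm (g n) 2 volume) atTop (𝓝 0)) :
    Tendsto (fun n => ∫⁻ z, ‖g n z‖ₑ) atTop (𝓝 0) := by
  have h1 : ∀ n, ∫⁻ z, ‖g n z‖ₑ ≤ eLpNorm (g n) 2 volume *
      volume Ω ^ (1 / (1 : ℝ≥0∞).toReal - 1 / (2 : ℝ≥0∞).toReal) := by
    intro n
    have e1 : ∫⁻ z, ‖g n z‖ₑ = ∫⁻ z in Ω, ‖g n z‖ₑ := by
      rw [← lintegral_indicator hΩ.measurableSet]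
      refine lintegral_congr_ae ?_
      filter_upwards [h0 n] with z hz
      by_cases hz' : z ∈ Ω
      · rw [indicator_of_mem hz']
      · rw [indicator_of_notMem hz', hz hz', enorm_zero]
    rw [e1, ← eLpNorm_one_eq_lintegral_enorm]
    refine (eLpNorm_le_eLpNorm_mul_rpow_measure_univ (by norm_num : (1 : ℝ≥0∞) ≤ 2)
      (hm n).restrict).trans ?_
    rw [Measure.restrict_apply_univ]
    exact mul_le_mul_left (eLpNorm_mono_measure _ Measure.restrict_le_self) _
  have h2 := ENNReal.Tendsto.mul_const h (b := volume Ω ^ (1 / (1 : ℝ≥0∞).toReal -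
    1 / (2 : ℝ≥0∞).toReal)) (Or.inr (by
      apply ENNReal.rpow_ne_top_of_nonneg _ hfin.ne
      norm_num))
  rw [zero_mul] at h2
  exact tendsto_of_tendsto_of_tendsto_of_le_of_le tendsto_const_nhds h2 (fun n => bot_le) h1

theorem trans_lint (hΩ : IsOpen Ω) (hfin : volume Ω < ⊤) (hf : H10 Ω f F) (a : E) :
    ∫⁻ x, ‖f (x + a) - f x‖ₑ ≤ ‖a‖ₑ * ∫⁻ x, ‖F x‖ₑ := by
  obtain ⟨φ, h1, h2, h3, h4, h5⟩ := hf.exists_approx_ae
  have k1 : Tendsto (fun n => ∫⁻ z, ‖gradient (φ n) z - F z‖ₑ) atTop (𝓝 0) := by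
    refine L1_tendsto hΩ hfin (fun n => ((h1 n).memLp_gradient 2).1.sub hf.2.1) (fun n => ?_) h3
    filter_upwards [hf.ae_zero hΩ] with z hz hz'
    rw [(hz hz').2, gradient_zero_of_notMem_tsupport fun h => hz' ((h1 n).2.2 h), sub_zero]
  have k2 : ∀ᵐ x, Tendsto (fun n => φ n (x + a)) atTop (𝓝 (f (x + a))) :=
    (measurePreserving_add_right volume a).quasiMeasurePreserving.ae h4
  have k3 : ∫⁻ x, ‖f (x + a) - f x‖ₑ ≤ liminf (fun n => ∫⁻ x, ‖φ n (x + a) - φ n x‖ₑ) atTop := by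
    refine le_trans ?_ (lintegral_liminf_le' fun n => ?_)
    · refine lintegral_mono_ae ?_
      filter_upwards [k2, h4] with x hx hx'
      have := ((continuous_enorm.tendsto _).comp (hx.sub hx')).liminf_eq
      exact this.ge
    · have : Continuous fun x => φ n (x + a) - φ n x := by
        have := (h1 n).continuous
        fun_prop
      exact this.measurable.enorm.aemeasurable
  refine k3.trans ?_
  have k4 : ∀ n, ∫⁻ x, ‖φ n (x + a) - φ n x‖ₑ ≤
      ‖a‖ₑ * (∫⁻ x, ‖F x‖ₑ) + ‖a‖ₑ * ∫⁻ z, ‖gradient (φ n) z - F z‖ₑ := by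
    intro n
    refine (trans_test (h1 n) a).trans ?_
    rw [← mul_add]
    gcongr
    rw [← lintegral_add_left' hf.2.1.enorm]
    refine lintegral_mono fun z => ?_
    calc ‖gradient (φ n) z‖ₑ = ‖F z + (gradient (φ n) z - F z)‖ₑ := by rw [add_sub_cancel]
      _ ≤ ‖F z‖ₑ + ‖gradient (φ n) z - F z‖ₑ := enorm_add_le _ _
  have k5 : Tendsto (fun n => ‖a‖ₑ * (∫⁻ x, ‖F x‖ₑ) + ‖a‖ₑ * ∫⁻ z, ‖gradient (φ n) z - F z‖ₑ)
      atTop (𝓝 (‖a‖ₑ * (∫⁻ x, ‖F x‖ₑ) + ‖a‖ₑ * 0)) :=
    tendsto_const_nhds.add (ENNReal.Tendsto.const_mul k1 (Or.inr enorm_ne_top))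
  rw [mul_zero, add_zero] at k5
  calc liminf (fun n => ∫⁻ x, ‖φ n (x + a) - φ n x‖ₑ) atTop
      ≤ liminf (fun n => ‖a‖ₑ * (∫⁻ x, ‖F x‖ₑ) + ‖a‖ₑ * ∫⁻ z, ‖gradient (φ n) z - F z‖ₑ) atTop :=
        liminf_le_liminf (Eventually.of_forall k4)
    _ = ‖a‖ₑ * ∫⁻ x, ‖F x‖ₑ := k5.liminf_eq

theorem grad_integrable (hΩ : IsOpen Ω) (hfin : volume Ω < ⊤) (hf : H10 Ω f F) :
    Integrable F volume := by
  have : Fact (volume Ω < ⊤) := ⟨hfin⟩
  have h1 : IntegrableOn F Ω volume := (hf.2.restrict Ω).integrable (by norm_num)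
  have h2 : Integrable (Ω.indicator F) volume := h1.integrable_indicator hΩ.measurableSet
  refine h2.congr ?_
  filter_upwards [hf.ae_zero hΩ] with z hz
  by_cases hz' : z ∈ Ω
  · rw [indicator_of_mem hz']
  · rw [indicator_of_notMem hz', (hz hz').2]

theorem trans_le (hΩ : IsOpen Ω) (hfin : volume Ω < ⊤) (hf : H10 Ω f F) (a : E) :
    ∫ x, |f (x + a) - f x| ≤ ‖a‖ * ∫ x, ‖F x‖ := by
  have i1 := hf.integrable hΩ hfin
  have i2 : Integrable (fun x => f (x + a)) volume := i1.comp_add_right a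
  have i3 := grad_integrable hΩ hfin hf
  have h := trans_lint hΩ hfin hf a
  have e1 : ∫ x, |f (x + a) - f x| = (∫⁻ x, ‖f (x + a) - f x‖ₑ).toReal := by
    have := integral_norm_eq_lintegral_enorm (i2.sub i1).1
    simpa only [Real.norm_eq_abs, Pi.sub_apply] using this
  have e2 : ∫ x, ‖F x‖ = (∫⁻ x, ‖F x‖ₑ).toReal := integral_norm_eq_lintegral_enorm i3.1
  rw [e1, e2, ← toReal_enorm, ← ENNReal.toReal_mul]
  exact ENNReal.toReal_mono (ENNReal.mul_ne_top enorm_ne_top i3.2.ne) h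


open Pool.Agent.H47.FQ

theorem lint_shift {g : E → ℝ≥0∞} (x : E) (L : ℝ) :
    ∫⁻ a in ball (0 : E) L, g (x + a) = ∫⁻ z in ball x L, g z := by
  rw [← lintegral_indicator measurableSet_ball, ← lintegral_indicator measurableSet_ball,
    ← lintegral_add_left_eq_self ((ball x L).indicator g) x]
  congr with a
  by_cases ha : a ∈ ball (0 : E) L
  · have : x + a ∈ ball x L := by simpa using ha
    rw [indicator_of_mem ha, indicator_of_mem this]
  · have : x + a ∉ ball x L := by simpa using ha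
    rw [indicator_of_notMem ha, indicator_of_notMem this]

/-- the truncation of `w` -/
noncomputable def trw (w : E → ℝ) (z : E) : ℝ := 2 * (min (w z) (3 / 4) - min (w z) (1 / 4))

theorem trw_nonneg (w : E → ℝ) (z : E) : 0 ≤ trw w z := by
  have : min (w z) (1 / 4) ≤ min (w z) (3 / 4) := min_le_min_left _ (by norm_num)
  rw [trw]; linarith

theorem trw_le_one (w : E → ℝ) (z : E) : trw w z ≤ 1 := by
  rw [trw]
  rcases le_total (w z) (1 / 4) with h | h
  · rw [min_eq_left h, min_eq_left (h.trans (by norm_num))]; norm_num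
  · rw [min_eq_right h]
    have := min_le_right (w z) (3 / 4)
    linarith

theorem trw_ge (w : E → ℝ) (z : E) : 1 - 4 * |1 - w z| ≤ trw w z := by
  rcases le_total (w z) (3 / 4) with h | h
  · have h1 := trw_nonneg w z
    have h2 := le_abs_self (1 - w z)
    linarith
  · have h2 := abs_nonneg (1 - w z)
    rw [trw, min_eq_right h, min_eq_right (le_trans (by norm_num) h)]
    linarith

open Classical in
theorem trw_h10 (h : Norm1 Ω w W) : ∃ F : E → E, H10 Ω (trw w) F ∧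
    ∀ z, ‖F z‖ ≤ 8 * (‖W z‖ * |1 - w z|) := by
  have h1 := h.tor.1.min_const (c := 3 / 4) (by norm_num)
  have h2 := h.tor.1.min_const (c := 1 / 4) (by norm_num)
  refine ⟨_, (h1.sub h2).const_mul 2, fun z => ?_⟩
  have hW := norm_nonneg (W z)
  have hw := abs_nonneg (1 - w z)
  have h8 : 0 ≤ 8 * (‖W z‖ * |1 - w z|) := by positivity
  by_cases h3 : w z < 1 / 4
  · rw [if_pos h3, if_pos (h3.trans (by norm_num)), sub_self, smul_zero, norm_zero]
    exact h8
  · rw [if_neg h3, sub_zero]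
    by_cases h4 : w z < 3 / 4
    · rw [if_pos h4, norm_smul]
      have h5 : 1 / 4 ≤ |1 - w z| := by
        have := le_abs_self (1 - w z)
        linarith
      have h6 : ‖W z‖ * (1 / 4) ≤ ‖W z‖ * |1 - w z| := mul_le_mul_of_nonneg_left h5 hW
      rw [Real.norm_ofNat]
      linarith
    · rw [if_neg h4, smul_zero, norm_zero]
      exact h8

theorem good_aux {L : ℝ} (hL : 0 < L) {Ω : Set E} {w : E → ℝ} {W : E → E} (h : Norm1 Ω w W)
    (hw : Measurable w) {η : ℝ} (hη : 0 ≤ η) (hη' : η ≤ 1 / 64)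
    (hT : (1 - η) * volume.real Ω ≤ ∫ z, w z) {δ : ℝ} (hδ0 : 0 < δ)
    (hδ : ∀ x : E, δ ≤ ∫ z in ball x L, |1 - w z|) :
    δ ≤ 2 * volume.real (ball (0 : E) L) * (√η * (1 + 8 * L)) := by
  obtain ⟨F, hF, hFb⟩ := trw_h10 h
  have hA := h.real_pos
  set A := volume.real Ω with hAdef
  have hΩ := h.isOpen
  have hfin := h.fin
  have : IsFiniteMeasure (volume.restrict Ω) := ⟨by simpa using hfin⟩
  have hs : √(η * A) * √A = √η * A := by
    rw [Real.sqrt_mul hη, mul_assoc, Real.mul_self_sqrt hA.le]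
  have m1 : MemLp (fun z => 1 - w z) 2 (volume.restrict Ω) :=
    (memLp_const 1).sub (h.tor.1.memLp.restrict Ω)
  have b0 : ∫ z in Ω, (1 - w z) ^ 2 ≤ η * A := by
    have := h.one_sub_sq
    rw [← hAdef] at this
    linarith
  have i1 : IntegrableOn (fun z => 1 - w z) Ω := m1.integrable (by norm_num)
  -- (a)
  have a1 : ∫ z in Ω, |1 - w z| ≤ √η * A := by
    have h1 := cs_abs m1 (memLp_const (1 : ℝ) (μ := volume.restrict Ω) (p := 2))
    simp only [abs_one, mul_one, one_pow] at h1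
    refine h1.trans ?_
    rw [setIntegral_const, smul_eq_mul, mul_one, ← hAdef, ← hs]
    gcongr
  -- (c)
  have c1 : ∫ z, ‖F z‖ ≤ 8 * (√η * A) := by
    have e1 : ∫ z, ‖F z‖ = ∫ z in Ω, ‖F z‖ := by
      rw [setIntegral_eq_integral_of_ae_compl_eq_zero]
      filter_upwards [hF.ae_zero hΩ] with z hz hz'
      rw [(hz hz').2, norm_zero]
    have i2 : IntegrableOn (fun z => ‖F z‖) Ω := (grad_integrable hΩ hfin hF).norm.integrableOn
    have mW : MemLp (fun z => ‖W z‖) 2 (volume.restrict Ω) := (h.tor.1.2.restrict Ω).norm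
    have h2 := cs_abs mW m1
    have h3 : ∫ z in Ω, ‖F z‖ ≤ 8 * ∫ z in Ω, |‖W z‖| * |1 - w z| := by
      rw [← integral_const_mul]
      refine integral_mono i2 ((int_abs_mul mW m1).const_mul 8) fun z => ?_
      simp only [abs_norm]
      exact hFb z
    have h4 : ∫ z in Ω, ‖W z‖ ^ 2 ≤ A := by
      refine le_trans ?_ h.tor_le
      rw [← h.energy]
      exact setIntegral_le_integral (int_norm_sq h.tor.1.2)
        (Eventually.of_forall fun z => by positivity)
    rw [e1]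
    refine h3.trans ?_
    have h5 : √(∫ z in Ω, ‖W z‖ ^ 2) * √(∫ z in Ω, (1 - w z) ^ 2) ≤ √A * √(η * A) := by gcongr
    rw [mul_comm √A, hs] at h5
    linarith
  have hnn : 0 ≤ √η * A := by positivity
  have a2 : ∫⁻ z in Ω, ‖1 - w z‖ₑ ≤ ENNReal.ofReal (√η * A) := by
    rw [← ofReal_integral_norm_eq_lintegral_enorm i1]
    exact ENNReal.ofReal_le_ofReal a1
  have c2 : ∫⁻ z, ‖F z‖ₑ ≤ ENNReal.ofReal (8 * (√η * A)) := by
    rw [← ofReal_integral_norm_eq_lintegral_enorm (grad_integrable hΩ hfin hF)]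
    exact ENNReal.ofReal_le_ofReal c1
  -- lower bound of the mass of `trw w`
  have iT : Integrable (trw w) volume := hF.integrable hΩ hfin
  have d1 : A / 2 ≤ ∫ z, trw w z := by
    have e1 : ∫ z in Ω, trw w z ≤ ∫ z, trw w z :=
      setIntegral_le_integral iT (Eventually.of_forall fun z => trw_nonneg w z)
    have e2 : ∫ z in Ω, (1 - 4 * |1 - w z|) ≤ ∫ z in Ω, trw w z := by
      refine integral_mono ((integrable_const _).sub (i1.abs.const_mul 4)) iT.integrableOn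
        fun z => trw_ge w z
    rw [integral_sub (integrable_const _) (i1.abs.const_mul 4), integral_const_mul,
      setIntegral_const, smul_eq_mul, mul_one, ← hAdef] at e2
    have e3 : √η ≤ 1 / 8 := by
      rw [show (1 / 8 : ℝ) = √(1 / 64) by
        rw [show (1 / 64 : ℝ) = (1 / 8) ^ 2 by norm_num, Real.sqrt_sq (by norm_num)]]
      exact Real.sqrt_le_sqrt hη'
    have e4 : √η * A ≤ 1 / 8 * A := by gcongr
    linarith
  have hmt : Measurable (trw w) := by
    unfold trw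
    fun_prop
  -- the double integral
  have lo : ENNReal.ofReal δ * ∫⁻ x, ‖trw w x‖ₑ ≤
      ∫⁻ x, ∫⁻ a in ball (0 : E) L, ‖trw w x‖ₑ * ‖1 - w (x + a)‖ₑ := by
    rw [← lintegral_const_mul _ hmt.enorm]
    refine lintegral_mono fun x => ?_
    have hm2 : Measurable fun a => ‖1 - w (x + a)‖ₑ := by fun_prop
    simp only
    rw [lintegral_const_mul _ hm2, mul_comm]
    gcongr
    rw [lint_shift (g := fun z => ‖1 - w z‖ₑ) x L]
    have i3 : IntegrableOn (fun z => 1 - w z) (ball x L) :=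
      (integrableOn_const (by exact measure_ball_lt_top.ne)).sub
        (memLp_integrableOn_ball h.tor.1.memLp x L)
    rw [← ofReal_integral_norm_eq_lintegral_enorm i3]
    exact ENNReal.ofReal_le_ofReal (hδ x)
  have up : ∫⁻ x, ∫⁻ a in ball (0 : E) L, ‖trw w x‖ₑ * ‖1 - w (x + a)‖ₑ ≤
      ENNReal.ofReal (√η * A + L * (8 * (√η * A))) * volume (ball (0 : E) L) := by
    rw [lintegral_lintegral_swap (by
      have : Measurable fun p : E × E => ‖trw w p.1‖ₑ * ‖1 - w (p.1 + p.2)‖ₑ := by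
        have h1 : Measurable fun p : E × E => trw w p.1 := hmt.comp measurable_fst
        have h2 : Measurable fun p : E × E => w (p.1 + p.2) :=
          hw.comp (measurable_fst.add measurable_snd)
        exact h1.enorm.mul (h2.const_sub 1).enorm
      exact this.aemeasurable)]
    rw [← setLIntegral_const]
    refine setLIntegral_mono measurable_const fun a ha => ?_
    have ha' : ‖a‖ ≤ L := by
      have : ‖a‖ < L := by simpa using ha
      exact this.le
    have p1 : ∀ᵐ x, x + a ∉ Ω → w (x + a) = 0 :=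
      (measurePreserving_add_right volume a).quasiMeasurePreserving.ae h.off
    have p2 : ∫⁻ x, ‖trw w x‖ₑ * ‖1 - w (x + a)‖ₑ ≤
        ∫⁻ x, (Ω.indicator (fun z => ‖1 - w z‖ₑ) (x + a) + ‖trw w (x + a) - trw w x‖ₑ) := by
      refine lintegral_mono_ae ?_
      filter_upwards [p1] with x hx
      by_cases hx' : x + a ∈ Ω
      · rw [indicator_of_mem hx']
        refine le_trans ?_ le_self_add
        have : ‖trw w x‖ₑ ≤ 1 := by
          rw [← ofReal_norm, Real.norm_of_nonneg (trw_nonneg w x)]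
          exact ENNReal.ofReal_le_one.2 (trw_le_one w x)
        calc ‖trw w x‖ₑ * ‖1 - w (x + a)‖ₑ ≤ 1 * ‖1 - w (x + a)‖ₑ := by gcongr
          _ = _ := one_mul _
      · have e1 := hx hx'
        have e2 : trw w (x + a) = 0 := by
          rw [trw, e1]; norm_num
        rw [indicator_of_notMem hx', e1, e2, zero_add, zero_sub, sub_zero, enorm_neg, enorm_one,
          mul_one]
    refine p2.trans ?_
    have hmi : Measurable fun x => Ω.indicator (fun z => ‖1 - w z‖ₑ) (x + a) := by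
      have : Measurable (Ω.indicator fun z => ‖1 - w z‖ₑ) :=
        ((hw.const_sub 1).enorm).indicator hΩ.measurableSet
      exact this.comp (measurable_add_const a)
    rw [lintegral_add_left hmi, lintegral_add_right_eq_self (Ω.indicator fun z => ‖1 - w z‖ₑ) a,
      lintegral_indicator hΩ.measurableSet, ENNReal.ofReal_add hnn (by positivity)]
    refine add_le_add a2 ?_
    refine (trans_lint hΩ hfin hF a).trans ?_
    rw [ENNReal.ofReal_mul hL.le]
    gcongr
    rw [← ofReal_norm]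
    exact ENNReal.ofReal_le_ofReal ha'
  have fin := lo.trans up
  rw [← ofReal_integral_norm_eq_lintegral_enorm iT,
    ← ENNReal.ofReal_mul hδ0.le] at fin
  have hV : volume (ball (0 : E) L) = ENNReal.ofReal (volume.real (ball (0 : E) L)) := by
    rw [Measure.real, ENNReal.ofReal_toReal measure_ball_lt_top.ne]
  rw [hV, ← ENNReal.ofReal_mul (by positivity),
    ENNReal.ofReal_le_ofReal_iff (by positivity)] at fin
  have e5 : ∫ z, ‖trw w z‖ = ∫ z, trw w z :=
    integral_congr_ae (Eventually.of_forall fun z => Real.norm_of_nonneg (trw_nonneg w z))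
  rw [e5] at fin
  have e6 : δ * (A / 2) ≤ δ * ∫ z, trw w z := mul_le_mul_of_nonneg_left d1 hδ0.le
  have e7 : A * δ ≤ A * (2 * volume.real (ball (0 : E) L) * (√η * (1 + 8 * L))) := by
    linarith
  exact le_of_mul_le_mul_left e7 hA

theorem good_ball {L δ : ℝ} (hL : 0 < L) (hδ : 0 < δ) : ∃ η : ℝ, 0 < η ∧
    ∀ (Ω : Set E) (w : E → ℝ) (W : E → E), Norm1 Ω w W →
      (1 - η) * volume.real Ω ≤ ∫ z, w z →
      ∃ x : E, ∫ z in ball x L, |1 - w z| ≤ δ := by
  have hV : 0 < volume.real (ball (0 : E) L) := vol_ball_pos 0 hL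
  set V := volume.real (ball (0 : E) L)
  have hC : 0 < 2 * V * (1 + 8 * L) := by positivity
  set C := 2 * V * (1 + 8 * L) with hCdef
  refine ⟨min (1 / 64) ((δ / (2 * C)) ^ 2), lt_min (by norm_num) (by positivity), ?_⟩
  intro Ω w W h hT
  set η := min (1 / 64) ((δ / (2 * C)) ^ 2) with hηdef
  have hη : 0 < η := lt_min (by norm_num) (by positivity)
  by_contra hcon
  push Not at hcon
  obtain ⟨w₀, hw₀, hww⟩ : ∃ w₀ : E → ℝ, Measurable w₀ ∧ w =ᵐ[volume] w₀ :=
    ⟨h.tor.1.memLp.1.mk w, h.tor.1.memLp.1.stronglyMeasurable_mk.measurable,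
      h.tor.1.memLp.1.ae_eq_mk⟩
  have h' : Norm1 Ω w₀ W :=
    ⟨h.isOpen, h.pos, h.fin, h.rq, h.tor.1.congr hww (EventuallyEq.refl _ _), h.tor.2⟩
  have hi : ∫ z, w z = ∫ z, w₀ z := integral_congr_ae hww
  have key := good_aux hL h' hw₀ hη.le (min_le_left _ _) (hi ▸ hT) hδ (fun x => by
    have e : ∫ z in ball x L, |1 - w z| = ∫ z in ball x L, |1 - w₀ z| := by
      refine integral_congr_ae (ae_restrict_of_ae ?_)
      filter_upwards [hww] with z hz
      rw [hz]
    rw [← e]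
    exact (hcon x).le)
  have k1 : √η ≤ δ / (2 * C) := by
    rw [← Real.sqrt_sq (show 0 ≤ δ / (2 * C) by positivity)]
    exact Real.sqrt_le_sqrt (min_le_right _ _)
  have k2 : 2 * V * (√η * (1 + 8 * L)) = √η * C := by rw [hCdef]; ring
  have k3 : √η * C ≤ δ / (2 * C) * C := mul_le_mul_of_nonneg_right k1 hC.le
  have k4 : δ / (2 * C) * C = δ / 2 := by field_simp
  rw [k2] at key
  linarith

end Pool.Agent.H4.NM
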