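import Pool.Agent.H4.NM.EpsReg
import Pool.Agent.H4.NM.Trans
import Pool.Agent.H4.NM.Loc
import Pool.Agent.H4.NM.Sim

/-!
# NM-26: a maximiser has `T < (1 - η) A` (MP_898b17_an, all dimensions)

## Paper proof

`exists_big_test`: for `0 ≠ φ ∈ C_c^∞(E)` (a `ContDiffBump`; compare `exists_test_pos` in
`Pool/Agent/H41/Ev/Lam.lean`) put `φ_R(x) = φ(R⁻¹ x)`: `∫ |∇φ_R|² = R^{d-2} ∫ |∇φ|²`,
`∫ φ_R² = R^d ∫ φ²` (`sim_integral`, `sim_gradient` of file Sim with `e = refl`, `s = R⁻¹`), so for `R` large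
`∫ |∇φ_R|² < ∫ φ_R²`; the support is bounded: contained in `ball 0 L`.

`tor_lt`: `c₀, δ₀` from `eps_reg`, `L, φ₀` from `exists_big_test`, `η` from `good_ball (L + 1) δ₀`, `q₀`
from `loc_ineq c₀`. Suppose `(1 - η) A ≤ T`. `good_ball`: `x₀` with `∫_{ball x₀ (L+1)} |1 - w| ≤ δ₀`. For
`p ∈ ball x₀ L`: `ball p 1 ⊆ ball x₀ (L+1)`, so `w ≥ 1/2` a.e. on `ball p (1/4)`; finitely (or
countably) many such balls cover `ball x₀ L`: `w ≥ 1/2` a.e. on `ball x₀ L`.
`φ(x) = φ₀(x - x₀) ∈ C_c^∞(ball x₀ L)`. `v = min (2 w) 1 ∈ H¹₀(Ω)` (`H10.const_mul`, `H10.min_const`),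
`φ v ∈ H¹₀(Ω)` (`H10.test_mul`), `φ v = φ` a.e.; the gradient is `∇φ` a.e. (`H10.grad_unique`).
`RQ.all`: `∫ φ² ≤ ∫ |∇φ|²`, a contradiction.
-/

open MeasureTheory Set Metric Filter Topology ContDiff Module
open scoped ENNReal NNReal RealInnerProductSpace

namespace Pool.Agent.H4.NM

variable {E : Type} [NormedAddCommGroup E] [InnerProductSpace ℝ E] [FiniteDimensional ℝ E]
  [CompleteSpace E] [MeasurableSpace E] [BorelSpace E]

set_option linter.unusedSectionVars false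

variable {Ω U : Set E} {w h Φ : E → ℝ} {W Gh H : E → E} {y : E} {R t : ℝ}

theorem exists_big_test (hd : 2 ≤ finrank ℝ E) : ∃ (L : ℝ) (φ : E → ℝ), 0 < L ∧
    IsTest (ball (0 : E) L) φ ∧ ∫ z, ‖gradient φ z‖ ^ 2 < ∫ z, φ z ^ 2 := by
  let b : ContDiffBump (0 : E) :=
    { rIn := 1, rOut := 2, rIn_pos := one_pos, rIn_lt_rOut := by norm_num }
  have hb : IsTest (ball (0 : E) 3) (b : E → ℝ) := by
    refine ⟨b.contDiff, b.hasCompactSupport, ?_⟩
    rw [b.tsupport_eq]
    refine closedBall_subset_ball ?_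
    change (2 : ℝ) < 3
    norm_num
  have hbp : b (0 : E) = 1 := b.one_of_mem_closedBall (by
    simp only [mem_closedBall, dist_self]
    exact b.rIn_pos.le)
  have hB : 0 < ∫ z, b z ^ 2 := by
    have hc : Continuous fun z => b z ^ 2 := hb.continuous.pow 2
    rw [integral_pos_iff_support_of_nonneg (fun z => sq_nonneg _) (hb.memLp 2).integrable_sq]
    exact (hc.isOpen_support).measure_pos volume ⟨0, by simp [hbp]⟩
  set B := ∫ z, b z ^ 2 with hBdef
  set A := ∫ z, ‖gradient (b : E → ℝ) z‖ ^ 2 with hAdef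
  have hA : 0 ≤ A := integral_nonneg fun z => by positivity
  obtain ⟨s, hs, hs1, hsA⟩ : ∃ s : ℝ, 0 < s ∧ s ≤ 1 ∧ s ^ 2 * A < B := by
    refine ⟨min 1 (B / (2 * (A + 1))), lt_min one_pos (by positivity), min_le_left _ _, ?_⟩
    have h1 : min 1 (B / (2 * (A + 1))) ≤ 1 := min_le_left _ _
    have h2 : min 1 (B / (2 * (A + 1))) ≤ B / (2 * (A + 1)) := min_le_right _ _
    have h3 : 0 < min 1 (B / (2 * (A + 1))) := lt_min one_pos (by positivity)
    calc min 1 (B / (2 * (A + 1))) ^ 2 * A ≤ min 1 (B / (2 * (A + 1))) * A := by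
          refine mul_le_mul_of_nonneg_right ?_ hA
          nlinarith
      _ ≤ B / (2 * (A + 1)) * A := mul_le_mul_of_nonneg_right h2 hA
      _ ≤ B / 2 := by
          rw [div_mul_eq_mul_div, div_le_div_iff₀ (by positivity) (by norm_num)]
          nlinarith
      _ < B := by linarith
  have hs' : s ≠ 0 := hs.ne'
  set e : E ≃ₗᵢ[ℝ] E := LinearIsometryEquiv.refl ℝ E with he
  have hT := sim_isTest e hs' hb
  refine ⟨3 / s, fun x => b (s • e x), by positivity, hT.mono ?_, ?_⟩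
  · intro x hx
    have hx' : ‖s • e x‖ < 3 := by simpa using hx
    rw [norm_smul, Real.norm_of_nonneg hs.le, LinearIsometryEquiv.norm_map] at hx'
    rw [mem_ball_zero_iff, lt_div_iff₀ hs, mul_comm]
    exact hx'
  · have h1 : ∫ x, b (s • e x) ^ 2 = |(s ^ finrank ℝ E)⁻¹| * B :=
      sim_integral e hs' (fun y => b y ^ 2)
    have h2 : ∫ x, ‖gradient (fun x => b (s • e x)) x‖ ^ 2 = |(s ^ finrank ℝ E)⁻¹| * (s ^ 2 * A) := by
      have h3 : ∀ x, ‖gradient (fun x => b (s • e x)) x‖ ^ 2 =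
          (fun y => s ^ 2 * ‖gradient (b : E → ℝ) y‖ ^ 2) (s • e x) := by
        intro x
        rw [sim_gradient e (hb.differentiable _), norm_smul, LinearIsometryEquiv.norm_map,
          Real.norm_of_nonneg hs.le]
        ring
      simp_rw [h3]
      rw [sim_integral e hs' (fun y => s ^ 2 * ‖gradient (b : E → ℝ) y‖ ^ 2), integral_const_mul]
    rw [h1, h2]
    refine mul_lt_mul_of_pos_left hsA ?_
    positivity

theorem tor_lt (hd : 2 ≤ finrank ℝ E) : ∃ η q₀ : ℝ, 0 < η ∧ 1 < q₀ ∧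
    ∀ q : ℝ, 1 < q → q < q₀ → ∀ (Ω : Set E) (w : E → ℝ) (W : E → E), Norm1 Ω w W →
      IsMax q Ω w → ∫ z, w z < (1 - η) * volume.real Ω := by
  obtain ⟨c₀, δ₀, hc₀, hδ₀, hreg⟩ := eps_reg hd
  obtain ⟨L, φ₀, hL, hφ₀, hlt⟩ := exists_big_test hd
  obtain ⟨η, hη, hgood⟩ := good_ball (E := E) (L := L + 1) (δ := δ₀) (by linarith) hδ₀
  obtain ⟨q₀, hq₀, hloc⟩ := loc_ineq hd hc₀
  refine ⟨η, q₀, hη, hq₀, ?_⟩
  intro q hq1 hqq Ω w W hN hmax
  by_contra hcon
  push Not at hcon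
  obtain ⟨x₀, hx₀⟩ := hgood Ω w W hN hcon
  have hLI := hloc q hq1 hqq Ω w W hN hmax
  have hint : IntegrableOn (fun z => |1 - w z|) (ball x₀ (L + 1)) := by
    have i0 : IntegrableOn (fun _ : E => (1 : ℝ)) (ball x₀ (L + 1)) :=
      integrableOn_const measure_ball_lt_top.ne
    exact (i0.sub hN.integrable.integrableOn).abs
  -- `w ≥ 1/2` on `ball x₀ L`
  have hhalf : ∀ᵐ z, z ∈ ball x₀ L → 1 / 2 ≤ w z := by
    rw [ae_iff]
    refine measure_null_of_locally_null _ fun p hp => ?_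
    have hp' : p ∈ ball x₀ L := by
      by_contra h
      exact hp fun h' => absurd h' h
    have hsub : ball p 1 ⊆ ball x₀ (L + 1) := by
      refine ball_subset_ball' ?_
      rw [mem_ball] at hp'
      linarith
    have h1 : ∫ z in ball p 1, |1 - w z| ≤ δ₀ := by
      refine le_trans ?_ hx₀
      exact setIntegral_mono_set hint (Eventually.of_forall fun z => abs_nonneg _)
        (LE.le.eventuallyLE hsub)
    have h2 := hreg Ω w W hN hLI p h1
    rw [ae_iff] at h2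
    refine ⟨{z | ¬(z ∈ ball p (1 / 4) → 1 / 2 ≤ w z)}, ?_, h2⟩
    rw [mem_nhdsWithin]
    refine ⟨ball p (1 / 4), isOpen_ball, mem_ball_self (by norm_num), ?_⟩
    rintro z ⟨hz1, hz2⟩ hz3
    exact hz2 fun _ => hz3 hz1
  -- the translated test function
  have hφ : IsTest (ball x₀ L) (fun z => φ₀ (z - x₀)) := by
    refine ⟨hφ₀.contDiff.comp (contDiff_id.sub contDiff_const), ?_, ?_⟩
    · exact hφ₀.hasCompactSupport.comp_homeomorph (Homeomorph.subRight x₀)
    · have h2 : tsupport (fun z => φ₀ (z - x₀)) ⊆ (fun z => z - x₀) ⁻¹' tsupport φ₀ := by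
        apply closure_minimal
        · intro z hz
          exact subset_tsupport φ₀ hz
        · exact (isClosed_tsupport φ₀).preimage (continuous_id.sub continuous_const)
      intro z hz
      have h3 := hφ₀.tsupport_subset (h2 hz)
      rw [mem_ball_zero_iff] at h3
      rwa [mem_ball, dist_eq_norm]
  have hgrad : ∀ z, gradient (fun z => φ₀ (z - x₀)) z = gradient φ₀ (z - x₀) := by
    intro z
    rw [gradient_eq, gradient_eq]
    congr 1
    exact fderiv_comp_sub x₀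
  have i1 : ∫ z, φ₀ (z - x₀) ^ 2 = ∫ z, φ₀ z ^ 2 :=
    integral_sub_right_eq_self (fun z => φ₀ z ^ 2) x₀
  have i2 : ∫ z, ‖gradient (fun z => φ₀ (z - x₀)) z‖ ^ 2 = ∫ z, ‖gradient φ₀ z‖ ^ 2 := by
    simp_rw [hgrad]
    exact integral_sub_right_eq_self (fun z => ‖gradient φ₀ z‖ ^ 2) x₀
  have hv := (hN.tor.1.const_mul 2).min_const (c := 1) zero_le_one
  have hprod := (H10.test_mul hφ hv).mono (Set.inter_subset_right (s := ball x₀ L) (t := Ω))
  have hae : (fun z => φ₀ (z - x₀) * min (2 * w z) 1) =ᵐ[volume] fun z => φ₀ (z - x₀) := by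
    filter_upwards [hhalf] with z hz
    by_cases hzb : z ∈ ball x₀ L
    · have := hz hzb
      rw [min_eq_right (by linarith), mul_one]
    · have h0 : φ₀ (z - x₀) = 0 := by
        by_contra h
        exact hzb (hφ.tsupport_subset (subset_tsupport _ h))
      rw [h0, zero_mul]
  have hG := H10.grad_unique hprod hφ.h10 hae
  have hRQ := RQ.all hN.rq hprod
  have j1 : ∫ z, (φ₀ (z - x₀) * min (2 * w z) 1) ^ 2 = ∫ z, φ₀ (z - x₀) ^ 2 := by
    refine integral_congr_ae ?_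
    filter_upwards [hae] with z hz
    rw [hz]
  have j2 := integral_congr_ae (μ := volume) (hG.fun_comp fun v => ‖v‖ ^ 2)
  rw [j1, i1, one_mul] at hRQ
  have j3 := hRQ.trans_eq j2
  have j4 := j3.trans_eq i2
  linarith

end Pool.Agent.H4.NM
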