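import Pool.Agent.H4.NM.Basic

/-!
# Calculus in `H¹₀`, part 2: limits, chain rule (MP_898b17_an, M1)
-/

open MeasureTheory Set Metric Filter Topology ContDiff
open scoped ENNReal RealInnerProductSpace

namespace Pool.Agent.H4.NM

variable {E : Type} [NormedAddCommGroup E] [InnerProductSpace ℝ E] [FiniteDimensional ℝ E]
  [CompleteSpace E] [MeasurableSpace E] [BorelSpace E]

set_option linter.unusedSectionVars false

set_option maxHeartbeats 400000

theorem tendsto_eLpNorm_two_of_dominated {F : Type*} [NormedAddCommGroup F] {fn : ℕ → E → F}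
    {f : E → F} {b : E → ℝ} (hm : ∀ n, AEStronglyMeasurable (fn n) volume) (hb : MemLp b 2 volume)
    (hfb : ∀ n, ∀ᵐ z, ‖fn n z‖ ≤ b z)
    (hl : ∀ᵐ z, Tendsto (fun n => fn n z) atTop (𝓝 (f z))) :
    MemLp f 2 volume ∧ Tendsto (fun n => eLpNorm (fun z => fn n z - f z) 2 volume) atTop (𝓝 0) := by
  have hfm : AEStronglyMeasurable f volume := aestronglyMeasurable_of_tendsto_ae atTop hm hl
  have hall : ∀ᵐ z, ∀ n, ‖fn n z‖ ≤ b z := ae_all_iff.2 hfb
  have hfb' : ∀ᵐ z, ‖f z‖ ≤ b z := by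
    filter_upwards [hl, hall] with z h1 h2
    exact le_of_tendsto h1.norm (Eventually.of_forall h2)
  have hf : MemLp f 2 volume := hb.mono hfm (by
    filter_upwards [hfb'] with z hz
    exact hz.trans (le_abs_self _))
  refine ⟨hf, ?_⟩
  have h1 : Tendsto (fun n => ∫⁻ z, ‖fn n z - f z‖ₑ ^ (2 : ℝ)) atTop (𝓝 (∫⁻ _z : E, 0)) := by
    apply tendsto_lintegral_of_dominated_convergence' (fun z => ‖2 * b z‖ₑ ^ (2 : ℝ))
    · intro n
      exact ((hm n).sub hfm).enorm.pow_const _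
    · intro n
      filter_upwards [hfb n, hfb'] with z h2 h3
      apply ENNReal.rpow_le_rpow _ (by norm_num)
      rw [enorm_le_iff_norm_le]
      calc ‖fn n z - f z‖ ≤ ‖fn n z‖ + ‖f z‖ := norm_sub_le _ _
        _ ≤ 2 * b z := by linarith
        _ ≤ ‖2 * b z‖ := le_abs_self _
    · have h2 := (hb.const_mul 2).eLpNorm_lt_top
      rw [eLpNorm_lt_top_iff_lintegral_rpow_enorm_lt_top (by norm_num) (by norm_num)] at h2
      simpa using h2.ne
    · filter_upwards [hl] with z hz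
      have h2 : Tendsto (fun n => ‖fn n z - f z‖ₑ) atTop (𝓝 0) :=
        tendsto_iff_enorm_sub_tendsto_zero.1 hz
      have h3 := (ENNReal.continuous_rpow_const (y := 2)).tendsto 0 |>.comp h2
      simpa [Function.comp_def] using h3
  rw [lintegral_zero] at h1
  have h2 : ∀ n, eLpNorm (fun z => fn n z - f z) 2 volume =
      (∫⁻ z, ‖fn n z - f z‖ₑ ^ (2 : ℝ)) ^ (1 / (2 : ℝ)) := by
    intro n
    rw [eLpNorm_eq_lintegral_rpow_enorm_toReal (by norm_num) (by norm_num)]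
    simp
  simp only [h2]
  have h3 := (ENNReal.continuous_rpow_const (y := 1 / 2)).tendsto 0 |>.comp h1
  simpa [Function.comp_def] using h3

variable {Ω Ω' U : Set E} {u v w w' : E → ℝ} {G H W W' : E → E} {φ ψ : E → ℝ}

theorem H10.of_dominated {un : ℕ → E → ℝ} {Gn : ℕ → E → E} (h : ∀ n, H10 Ω (un n) (Gn n))
    {b B : E → ℝ} (hb : MemLp b 2 volume) (hB : MemLp B 2 volume)
    (hub : ∀ n, ∀ᵐ z, |un n z| ≤ b z) (hGb : ∀ n, ∀ᵐ z, ‖Gn n z‖ ≤ B z)
    (hlu : ∀ᵐ z, Tendsto (fun n => un n z) atTop (𝓝 (u z)))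
    (hlG : ∀ᵐ z, Tendsto (fun n => Gn n z) atTop (𝓝 (G z))) : H10 Ω u G := by
  obtain ⟨h1, h2⟩ := tendsto_eLpNorm_two_of_dominated (fun n => (h n).1.1) hb hub hlu
  obtain ⟨h3, h4⟩ := tendsto_eLpNorm_two_of_dominated (fun n => (h n).2.1) hB hGb hlG
  exact H10.of_tendsto h h1 h3 h2 h4

end Pool.Agent.H4.NM
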