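import Pool.Agent.H4.NM.Moll
import Pool.Agent.H4.NM.Prod
import Pool.Agent.H4.NM.Lim
import Pool.Agent.H95.Perf.Basic

/-!
# NM-08: Lipschitz functions vanishing off an open set are in `H¹₀` (MP_898b17_an)

## Paper proof

`f` Lipschitz with compact support, `f = 0` off the open set `Ω`. For `δ > 0` put
`f_δ = max (f - δ) 0 - max (- f - δ) 0`. It is Lipschitz with the same constant, and its support is
contained in the closed set `{|f| ≥ δ}`, which is compact (contained in `tsupport f`) and contained in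
`Ω`. So `H10.of_lipschitz` (file Moll) gives `H10 Ω f_δ (gradient f_δ)`. As `δ = 1/(n+1) → 0`:
`|f_δ - f| ≤ δ`, `|f_δ| ≤ |f|`, and at a point of differentiability of `f` with `f x ≠ 0`
`gradient f_δ x = gradient f x` for `δ < |f x|`; where `f x = 0`: `f_δ = 0` near `x`
so `gradient f_δ x = 0`, while `gradient f = 0` almost everywhere on `{f = 0}`
(`H10.grad_zero_of_eq` of file Prod, applied to `H10 univ f (gradient f)`, which holds by
`H10.of_lipschitz` with `Ω = univ`). `‖gradient f_δ‖ ≤ K` and it vanishes off `tsupport f`. Dominated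
convergence, `H10.of_dominated` (file Lim).

`gradient` of a Lipschitz function: `norm_gradient_le_of_lipschitz`, `measurable_gradient` (Moll);
Rademacher: `LipschitzWith.ae_differentiableAt`.
`IsLip f` (`Pool.Agent.H95.Perf.IsLip`) is `∃ C, LipschitzWith C f`.
-/

open MeasureTheory Set Metric Filter Topology ContDiff Module
open scoped ENNReal NNReal RealInnerProductSpace

namespace Pool.Agent.H4.NM

variable {E : Type} [NormedAddCommGroup E] [InnerProductSpace ℝ E] [FiniteDimensional ℝ E]
  [CompleteSpace E] [MeasurableSpace E] [BorelSpace E]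

set_option linter.unusedSectionVars false

open Pool.Agent.H95.Perf (IsLip)

variable {Ω : Set E} {f : E → ℝ}

/-- soft threshold -/
noncomputable def soft (δ t : ℝ) : ℝ := max (t - δ) 0 - max (-t - δ) 0

theorem soft_sub_le {δ : ℝ} (hδ : 0 ≤ δ) (s t : ℝ) : |soft δ s - soft δ t| ≤ |s - t| := by
  unfold soft
  rcases max_cases (s - δ) 0 with ⟨h1, h1'⟩ | ⟨h1, h1'⟩ <;>
    rcases max_cases (-s - δ) 0 with ⟨h2, h2'⟩ | ⟨h2, h2'⟩ <;>
    rcases max_cases (t - δ) 0 with ⟨h3, h3'⟩ | ⟨h3, h3'⟩ <;>
    rcases max_cases (-t - δ) 0 with ⟨h4, h4'⟩ | ⟨h4, h4'⟩ <;>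
    rw [h1, h2, h3, h4] <;>
    refine abs_le.2 ⟨?_, ?_⟩ <;>
    rcases abs_cases (s - t) with ⟨h5, h5'⟩ | ⟨h5, h5'⟩ <;>
    linarith

theorem soft_zero_of_le {δ t : ℝ} (h : |t| ≤ δ) : soft δ t = 0 := by
  have h1 := abs_le.1 h
  unfold soft
  rw [max_eq_right (by linarith [h1.2]), max_eq_right (by linarith [h1.1]), sub_zero]

theorem soft_of_pos {δ t : ℝ} (hδ : 0 ≤ δ) (h : δ < t) : soft δ t = t - δ := by
  unfold soft
  rw [max_eq_left (by linarith), max_eq_right (by linarith), sub_zero]

theorem soft_of_neg {δ t : ℝ} (hδ : 0 ≤ δ) (h : t < -δ) : soft δ t = t + δ := by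
  unfold soft
  rw [max_eq_right (by linarith), max_eq_left (by linarith)]
  ring

theorem abs_soft_le {δ : ℝ} (hδ : 0 ≤ δ) (t : ℝ) : |soft δ t| ≤ |t| := by
  have h1 := soft_sub_le hδ t 0
  have h2 : soft δ 0 = 0 := soft_zero_of_le (by rw [abs_zero]; exact hδ)
  rwa [h2, sub_zero, sub_zero] at h1

theorem abs_soft_sub_le {δ : ℝ} (hδ : 0 ≤ δ) (t : ℝ) : |soft δ t - t| ≤ δ := by
  rcases le_or_gt |t| δ with h | h
  · rw [soft_zero_of_le h, zero_sub, abs_neg]
    exact h
  · rcases lt_abs.1 h with h1 | h1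
    · rw [soft_of_pos hδ h1, show t - δ - t = -δ by ring, abs_neg, abs_of_nonneg hδ]
    · rw [soft_of_neg hδ (by linarith), show t + δ - t = δ by ring, abs_of_nonneg hδ]

theorem lipschitzWith_soft {K : ℝ≥0} (hf : LipschitzWith K f) {δ : ℝ} (hδ : 0 ≤ δ) :
    LipschitzWith K (fun z => soft δ (f z)) := by
  apply LipschitzWith.of_dist_le_mul
  intro x y
  rw [Real.dist_eq]
  refine (soft_sub_le hδ _ _).trans ?_
  rw [← Real.dist_eq]
  exact hf.dist_le_mul x y

theorem tsupport_soft_subset (hf : Continuous f) {δ : ℝ} :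
    tsupport (fun z => soft δ (f z)) ⊆ {z | δ ≤ |f z|} := by
  refine closure_minimal ?_ (isClosed_le continuous_const hf.abs)
  intro z hz
  by_contra hz'
  exact hz (soft_zero_of_le (not_le.1 hz').le)

theorem gradient_soft_of_ne {δ : ℝ} (hf : Continuous f) (hδ : 0 ≤ δ) {z : E} (hz : δ < |f z|) :
    gradient (fun z => soft δ (f z)) z = gradient f z := by
  rw [gradient_eq, gradient_eq]
  congr 1
  rcases lt_abs.1 hz with h1 | h1
  · have e : (fun z => soft δ (f z)) =ᶠ[𝓝 z] fun z => f z - δ := by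
      filter_upwards [(isOpen_lt continuous_const hf).mem_nhds h1] with y hy
      exact soft_of_pos hδ hy
    rw [e.fderiv_eq, fderiv_sub_const]
  · have e : (fun z => soft δ (f z)) =ᶠ[𝓝 z] fun z => f z + δ := by
      have h2 : f z < -δ := by linarith
      filter_upwards [(isOpen_lt hf continuous_const).mem_nhds h2] with y hy
      exact soft_of_neg hδ hy
    rw [e.fderiv_eq, fderiv_add_const]

theorem H10.of_lipschitz_zero (hΩ : IsOpen Ω) (hf : IsLip f) (hc : HasCompactSupport f)
    (h0 : ∀ z, z ∉ Ω → f z = 0) : H10 Ω f (gradient f) := by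
  obtain ⟨K, hK⟩ := hf
  have hcont := hK.continuous
  have hsub : ∀ n : ℕ, tsupport (fun z => soft (1 / ((n : ℝ) + 1)) (f z)) ⊆ tsupport f := by
    intro n z hz
    have h1 := tsupport_soft_subset hcont hz
    have h2 : f z ≠ 0 := by
      intro h3
      have h4 : 1 / ((n : ℝ) + 1) ≤ |f z| := h1
      rw [h3, abs_zero] at h4
      exact absurd (eps_pos n) (not_lt.2 h4)
    exact subset_tsupport f h2
  have huniv : H10 univ f (gradient f) := H10.of_lipschitz isOpen_univ hK hc (subset_univ _)
  have hae := huniv.grad_zero_of_eq 0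
  refine H10.of_dominated (un := fun (n : ℕ) z => soft (1 / ((n : ℝ) + 1)) (f z))
    (Gn := fun (n : ℕ) => gradient (fun z => soft (1 / ((n : ℝ) + 1)) (f z)))
    (b := fun z => |f z|) (B := (tsupport f).indicator fun _ => (K : ℝ)) (fun n => ?_)
    ((hcont.memLp_of_hasCompactSupport hc).abs)
    (memLp_indicator_const 2 (isClosed_tsupport f).measurableSet _ (Or.inr hc.isCompact.measure_lt_top.ne))
    (fun n => Eventually.of_forall fun z => abs_soft_le (eps_pos n).le _) (fun n => ?_) ?_ ?_
  · refine H10.of_lipschitz hΩ (lipschitzWith_soft hK (eps_pos n).le) ?_ ?_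
    · exact hc.mono' ((subset_tsupport _).trans (hsub n))
    · intro z hz
      by_contra hz'
      have h1 : 1 / ((n : ℝ) + 1) ≤ |f z| := tsupport_soft_subset hcont hz
      rw [h0 z hz', abs_zero] at h1
      exact absurd (eps_pos n) (not_lt.2 h1)
  · refine Eventually.of_forall fun z => ?_
    by_cases hz : z ∈ tsupport f
    · rw [indicator_of_mem hz]
      exact norm_gradient_le_of_lipschitz (lipschitzWith_soft hK (eps_pos n).le) z
    · rw [indicator_of_notMem hz, gradient_zero_of_notMem_tsupport (fun h => hz (hsub n h)), norm_zero]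
  · refine Eventually.of_forall fun z => ?_
    rw [tendsto_iff_norm_sub_tendsto_zero]
    refine squeeze_zero (fun n => norm_nonneg _) (fun n => ?_) eps_tendsto
    exact abs_soft_sub_le (eps_pos n).le _
  · filter_upwards [hae] with z hz
    by_cases hfz : f z = 0
    · rw [hz hfz]
      refine tendsto_const_nhds.congr fun n => ?_
      symm
      apply gradient_zero_of_notMem_tsupport
      intro h1
      have h2 : 1 / ((n : ℝ) + 1) ≤ |f z| := tsupport_soft_subset hcont h1
      rw [hfz, abs_zero] at h2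
      exact absurd (eps_pos n) (not_lt.2 h2)
    · refine tendsto_const_nhds.congr' ?_
      have h1 : ∀ᶠ n : ℕ in atTop, 1 / ((n : ℝ) + 1) < |f z| :=
        eps_tendsto.eventually_lt_const (abs_pos.2 hfz)
      filter_upwards [h1] with n hn
      exact (gradient_soft_of_ne hcont (eps_pos n).le hn).symm

end Pool.Agent.H4.NM
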