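import Pool.Agent.H4.NM.Av
import Pool.Agent.H95.Perf.Basic

/-!
# Perforation in `E`, `dim E ≥ 2`: definitions (MP_898b17_an)
-/

open MeasureTheory Set Metric Filter Topology ContDiff Module
open scoped ENNReal NNReal RealInnerProductSpace

namespace Pool.Agent.H4.NM

variable {E : Type} [NormedAddCommGroup E] [InnerProductSpace ℝ E] [FiniteDimensional ℝ E]
  [CompleteSpace E] [MeasurableSpace E] [BorelSpace E]

set_option linter.unusedSectionVars false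

open Pool.Agent.H95.Perf (IsLip)

/-- `z` is the corrector of the hole `closedBall p r` in `ball p R`: `-Δ z = k` in
`ball p R \ closedBall p r`, `z = 0` on the hole, `z = 1` and `∂ z = 0` on the outer sphere. -/
structure IsCorr (p : E) (R k r : ℝ) (z : E → ℝ) : Prop where
  r_pos : 0 < r
  r_lt : r < R
  lip : IsLip z
  z0 : ∀ x, 0 ≤ z x
  z1 : ∀ x, z x ≤ 1
  inner : ∀ x ∈ closedBall p r, z x = 0
  outer : ∀ x, x ∉ ball p R → z x = 1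
  eqn : ∀ ψ : E → ℝ, IsLip ψ → (∀ x ∈ closedBall p r, ψ x = 0) →
    ∫ x, ⟪gradient z x, gradient ψ x⟫ = k * ∫ x in ball p R, ψ x

/-- A grid of cells of volume `ε ^ d`. -/
structure IsGrid {ι : Type} (ε : ℝ) (cell : ι → Set E) (ctr : ι → E) : Prop where
  meas : ∀ a, MeasurableSet (cell a)
  convex : ∀ a, Convex ℝ (cell a)
  disj : ∀ a b, a ≠ b → Disjoint (cell a) (cell b)
  cover : ∀ x, ∃ a, x ∈ cell a
  ball_sub : ∀ a, closedBall (ctr a) (ε / 4) ⊆ cell a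
  diam : ∀ a, ∀ x ∈ cell a, ∀ y ∈ cell a, ‖x - y‖ ≤ (finrank ℝ E : ℝ) * ε
  vol : ∀ a, volume.real (cell a) = ε ^ finrank ℝ E
  fin : ∀ K : Set E, Bornology.IsBounded K → {a | (cell a ∩ K).Nonempty}.Finite

/-- The one-scale perforation data: `P` is the finite set of the perforated cells, `κ a` the value
of the potential `V` on the cell `a`, `z a` the corrector with hole `closedBall (ctr a) (r a)`. -/
structure IsPerf {ι : Type} (U : Set E) (ε K τ δ : ℝ) (V : E → ℝ) (P : Finset ι)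
    (cell : ι → Set E) (ctr : ι → E) (κ k r : ι → ℝ) (z : ι → E → ℝ) : Prop where
  ε_pos : 0 < ε
  δ0 : 0 ≤ δ
  δ1 : δ < 1
  τ0 : 0 ≤ τ
  meas : ∀ a ∈ P, MeasurableSet (cell a)
  convex : ∀ a ∈ P, Convex ℝ (cell a)
  disj : ∀ a ∈ P, ∀ b ∈ P, a ≠ b → Disjoint (cell a) (cell b)
  ball_sub : ∀ a ∈ P, closedBall (ctr a) (ε / 4) ⊆ cell a
  cell_sub : ∀ a ∈ P, cell a ⊆ U
  diam : ∀ a ∈ P, ∀ x ∈ cell a, ∀ y ∈ cell a, ‖x - y‖ ≤ (finrank ℝ E : ℝ) * ε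
  vol : ∀ a ∈ P, volume.real (cell a) = ε ^ finrank ℝ E
  κ_pos : ∀ a ∈ P, 0 < κ a
  κ_le : ∀ a ∈ P, κ a ≤ K
  k_eq : ∀ a ∈ P, k a * volume.real (ball (ctr a) (ε / 4)) = κ a * ε ^ finrank ℝ E
  corr : ∀ a ∈ P, IsCorr (ctr a) (ε / 4) (k a) (r a) (z a)
  mean : ∀ a ∈ P, ∫ x in ball (ctr a) (ε / 4), (1 - z a x) ^ 2 ≤
    δ ^ 2 * volume.real (ball (ctr a) (ε / 4))
  Vm : Measurable V
  V0 : ∀ x, 0 ≤ V x
  VK : ∀ x, V x ≤ K
  V_near : ∀ a ∈ P, ∀ x ∈ cell a, |V x - κ a| ≤ τ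
  V_far : ∀ x, (∀ a ∈ P, x ∉ cell a) → V x ≤ τ

end Pool.Agent.H4.NM
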