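import Pool.Agent.H4.NM.CorrW
import Pool.Agent.H4.NM.PerfDefs
import Pool.Agent.H4.NM.Lip0
import Pool.Agent.H4.NM.Weak
import Pool.Agent.H95.PerfD.Transfer

/-!
# NM-07: the corrector (MP_898b17_an, all dimensions)

Compare `Pool/Agent/H95/Perf/Corrector.lean` (the plane: `Zf`, `cl`, `zz`, `fderiv_zz_mid`, ...).

## Paper proof of `exists_corr`

`d = finrank ℝ E ≥ 2`. `f(s) = R^d s^{1-d} - s = s ((R/s)^d - 1) ≥ 0` on `(0, R]`, continuous.
`I(r) = ∫_r^R f` is continuous on `(0, R]`, `I(R) = 0`, and `I(r) → ∞` as `r → 0`: for `0 < s ≤ R`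
`(R/s)^d ≥ (R/s)²`, so `f(s) ≥ R²/s - s`, `I(r) ≥ R² log (R/r) - R²/2`. By the intermediate value
theorem there is `r ∈ (0, R)` with `I(r) = d / k`.
`Z(t) = (k/d) ∫_r^t f` on `[r, R]`, `Z(r) = 0`, `Z(R) = 1`, monotone, `C¹` with
`Z' = (k/d) f`, Lipschitz. `z(x) = Z(max r (min ‖x - p‖ R))`.
So `z` is Lipschitz, `0 ≤ z ≤ 1`, `0` on the hole, `1` off `ball p R`, and almost everywhere (off the two
spheres): `∇z = 0` on `ball p r` and off `closedBall p R`, and for `r < ‖x - p‖ < R`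
`∇z(x) = (k/d) f(|x-p|) (x-p)/|x-p| = (k/d) ((R/‖x - p‖)^d - 1) (x - p)`.
`eqn`: for such `ψ` (its gradient vanishes on `ball p r`)
`∫ ⟪∇z, ∇ψ⟫ = (k/d) ∫_{ball p R} ((R/‖x-p‖)^d - 1) ⟪x - p, ∇ψ⟫ = k ∫_{ball p R} ψ` by `mv_weight`.

## Paper proof of `corr_mean`

`1 - z` is Lipschitz, zero off `ball p R`, with compact support: `H10 (ball p R) (1 - z) (∇(1 - z))`
(`H10.of_lipschitz_zero`), `‖∇(1-z)‖ = ‖∇z‖`. `eqn` with `ψ = z`: `∫ ‖∇z‖² = k ∫_{B_R} z ≤ k |B_R|`.
`poincare`: `∫ (1 - z)² ≤ C |B_R|^{2/d} ∫ ‖∇z‖²`, `|B_R|^{2/d} = R² |B_1|^{2/d}`.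
-/

open MeasureTheory Set Metric Filter Topology ContDiff Module
open scoped ENNReal NNReal RealInnerProductSpace

namespace Pool.Agent.H4.NM

variable {E : Type} [NormedAddCommGroup E] [InnerProductSpace ℝ E] [FiniteDimensional ℝ E]
  [CompleteSpace E] [MeasurableSpace E] [BorelSpace E]

set_option linter.unusedSectionVars false

open Pool.Agent.H95.Perf (IsLip)

theorem exists_corr (hd : 2 ≤ finrank ℝ E) (p : E) {R k : ℝ} (hR : 0 < R) (hk : 0 < k) :
    ∃ (r : ℝ) (z : E → ℝ), IsCorr p R k r z :=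
  Pool.Agent.H95.PerfD.exists_corr hd p hR hk

theorem corr_mean (hd : 2 ≤ finrank ℝ E) : ∃ C : ℝ, 0 < C ∧
    ∀ (p : E) (R k r : ℝ) (z : E → ℝ), 0 < R → 0 ≤ k → IsCorr p R k r z →
      ∫ x in ball p R, (1 - z x) ^ 2 ≤ C * k * R ^ 2 * volume.real (ball p R) := by
  obtain ⟨C, hC, hP⟩ := poincare (E := E) hd
  have hd0 : (finrank ℝ E : ℝ) ≠ 0 := by
    have : finrank ℝ E ≠ 0 := by omega
    exact_mod_cast this
  have hv1 : 0 < volume.real (ball (0 : E) 1) := vol_one_pos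
  refine ⟨C * volume.real (ball (0 : E) 1) ^ (2 / (finrank ℝ E : ℝ)), by positivity, ?_⟩
  intro p R k r z hR hk hz
  obtain ⟨K, hK⟩ := hz.lip
  have hu : H10 (ball p R) (fun x => 1 - z x) (gradient fun x => 1 - z x) := by
    refine H10.of_lipschitz_zero isOpen_ball ⟨K, ?_⟩ ?_ fun x hx => ?_
    · refine LipschitzWith.of_dist_le_mul fun x y => ?_
      rw [dist_sub_left]
      exact hK.dist_le_mul x y
    · refine HasCompactSupport.intro (isCompact_closedBall p R) fun x hx => ?_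
      rw [hz.outer x fun h => hx (ball_subset_closedBall h), sub_self]
    · rw [hz.outer x hx, sub_self]
  have hg : ∀ x, gradient (fun x => 1 - z x) x = -gradient z x := by
    intro x
    rw [gradient, gradient, fderiv_const_sub, map_neg]
  have h1 : ∫ x, ‖gradient (fun x => 1 - z x) x‖ ^ 2 ≤ k * volume.real (ball p R) := by
    have h2 : ∫ x, ‖gradient (fun x => 1 - z x) x‖ ^ 2 = ∫ x, ⟪gradient z x, gradient z x⟫ := by
      refine integral_congr_ae (Eventually.of_forall fun x => ?_)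
      show ‖gradient (fun x => 1 - z x) x‖ ^ 2 = ⟪gradient z x, gradient z x⟫
      rw [hg, norm_neg, real_inner_self_eq_norm_sq]
    rw [h2, hz.eqn z hz.lip hz.inner]
    refine mul_le_mul_of_nonneg_left ?_ hk
    have h3 : ∫ x in ball p R, z x ≤ ∫ _ in ball p R, (1 : ℝ) := by
      refine setIntegral_mono_on ?_ ?_ measurableSet_ball fun x _ => hz.z1 x
      · exact (hK.continuous.continuousOn.integrableOn_compact
          (isCompact_closedBall p R)).mono_set ball_subset_closedBall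
      · exact integrableOn_const measure_ball_lt_top.ne
    rw [setIntegral_const, smul_eq_mul, mul_one] at h3
    exact h3
  have h2 := hP (ball p R) _ _ isOpen_ball measure_ball_lt_top hu
  have h3 : ∫ x in ball p R, (1 - z x) ^ 2 = ∫ x, (1 - z x) ^ 2 := by
    refine setIntegral_eq_integral_of_forall_compl_eq_zero fun x hx => ?_
    rw [hz.outer x hx, sub_self]
    norm_num
  have h4 : (volume (ball p R)).toReal ^ (2 / (finrank ℝ E : ℝ)) =
      R ^ 2 * volume.real (ball (0 : E) 1) ^ (2 / (finrank ℝ E : ℝ)) := by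
    have h5 : (volume (ball p R)).toReal = R ^ finrank ℝ E * volume.real (ball (0 : E) 1) :=
      vol_ball p hR
    rw [h5, Real.mul_rpow (by positivity) hv1.le, ← Real.rpow_natCast R (finrank ℝ E),
      ← Real.rpow_mul hR.le, mul_div_cancel₀ _ hd0]
    norm_num
  rw [h3]
  refine h2.trans ?_
  rw [h4]
  calc C * (R ^ 2 * volume.real (ball (0 : E) 1) ^ (2 / (finrank ℝ E : ℝ))) *
        ∫ x, ‖gradient (fun x => 1 - z x) x‖ ^ 2
      ≤ C * (R ^ 2 * volume.real (ball (0 : E) 1) ^ (2 / (finrank ℝ E : ℝ))) *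
        (k * volume.real (ball p R)) := mul_le_mul_of_nonneg_left h1 (by positivity)
    _ = _ := by ring

end Pool.Agent.H4.NM
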