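import Pool.Agent.H4.NM.Lim

/-!
# Calculus in `H¹₀`: mollification of Lipschitz functions, products with Lipschitz functions
(MP_898b17_an, M1)
-/

open MeasureTheory Set Metric Filter Topology ContDiff
open scoped ENNReal NNReal RealInnerProductSpace Convolution

namespace Pool.Agent.H4.NM

variable {E : Type} [NormedAddCommGroup E] [InnerProductSpace ℝ E] [FiniteDimensional ℝ E]
  [CompleteSpace E] [MeasurableSpace E] [BorelSpace E]

set_option linter.unusedSectionVars false

variable (E) in
/-- Standard bumps at the origin of the plane. -/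
noncomputable def bump (n : ℕ) : ContDiffBump (0 : E) where
  rIn := 1 / ((n : ℝ) + 1)
  rOut := 2 / ((n : ℝ) + 1)
  rIn_pos := by positivity
  rIn_lt_rOut := by
    have : (0 : ℝ) < (n : ℝ) + 1 := by positivity
    gcongr
    norm_num

/-- Mollification. -/
noncomputable def moll (f : E → ℝ) (n : ℕ) : E → ℝ :=
  (bump E n).normed volume ⋆[ContinuousLinearMap.lsmul ℝ ℝ, volume] f

theorem bump_rOut_tendsto : Tendsto (fun n => (bump E n).rOut) atTop (𝓝 0) := by
  have h := tendsto_one_div_add_atTop_nhds_zero_nat (𝕜 := ℝ)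
  have h2 := h.const_mul 2
  simp only [mul_zero] at h2
  refine h2.congr fun n => ?_
  show 2 * (1 / ((n : ℝ) + 1)) = 2 / ((n : ℝ) + 1)
  ring

theorem moll_apply (f : E → ℝ) (n : ℕ) (x : E) :
    moll f n x = ∫ t, (bump E n).normed volume t * f (x - t) := rfl

theorem moll_integrable {f : E → ℝ} (hf : Continuous f) (n : ℕ) (x : E) :
    Integrable (fun t => (bump E n).normed volume t * f (x - t)) volume := by
  apply Continuous.integrable_of_hasCompactSupport
  · exact (bump E n).continuous_normed.mul (hf.comp (continuous_const.sub continuous_id))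
  · exact (bump E n).hasCompactSupport_normed.mul_right

theorem contDiff_moll {f : E → ℝ} (hf : Continuous f) (n : ℕ) : ContDiff ℝ ∞ (moll f n) :=
  (bump E n).hasCompactSupport_normed.contDiff_convolution_left _ (bump E n).contDiff_normed
    hf.locallyIntegrable

theorem moll_tendsto {f : E → ℝ} (hf : Continuous f) (x : E) :
    Tendsto (fun n => moll f n x) atTop (𝓝 (f x)) :=
  ContDiffBump.convolution_tendsto_right_of_continuous bump_rOut_tendsto hf x

theorem abs_moll_le {f : E → ℝ} {C : ℝ} (hC : ∀ z, |f z| ≤ C) (n : ℕ) (x : E) :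
    |moll f n x| ≤ C := by
  rw [moll_apply, ← Real.norm_eq_abs]
  have h1 : ∫ t, (bump E n).normed volume t * C = C := by
    rw [integral_mul_const, (bump E n).integral_normed, one_mul]
  rw [← h1]
  refine norm_integral_le_of_norm_le ((bump E n).integrable_normed.mul_const C) ?_
  refine Eventually.of_forall fun t => ?_
  rw [norm_mul, Real.norm_eq_abs, Real.norm_eq_abs, abs_of_nonneg ((bump E n).nonneg_normed t)]
  exact mul_le_mul_of_nonneg_left (hC _) ((bump E n).nonneg_normed t)

theorem lipschitzWith_moll {f : E → ℝ} {K : ℝ≥0} (hf : LipschitzWith K f) (n : ℕ) :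
    LipschitzWith K (moll f n) := by
  apply LipschitzWith.of_dist_le_mul
  intro x y
  rw [Real.dist_eq, moll_apply, moll_apply, ← integral_sub (moll_integrable hf.continuous n x)
    (moll_integrable hf.continuous n y), ← Real.norm_eq_abs]
  have h1 : ∫ t, (bump E n).normed volume t * (K * dist x y) = K * dist x y := by
    rw [integral_mul_const, (bump E n).integral_normed, one_mul]
  rw [← h1]
  refine norm_integral_le_of_norm_le ((bump E n).integrable_normed.mul_const _) ?_
  refine Eventually.of_forall fun t => ?_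
  rw [← mul_sub, norm_mul, Real.norm_eq_abs, Real.norm_eq_abs,
    abs_of_nonneg ((bump E n).nonneg_normed t)]
  refine mul_le_mul_of_nonneg_left ?_ ((bump E n).nonneg_normed t)
  rw [← Real.dist_eq]
  refine (hf.dist_le_mul _ _).trans ?_
  rw [dist_sub_right]

theorem norm_gradient_le_of_lipschitz {f : E → ℝ} {K : ℝ≥0} (hf : LipschitzWith K f) (z : E) :
    ‖gradient f z‖ ≤ K := by
  rw [norm_gradient]
  exact norm_fderiv_le_of_lipschitz ℝ hf

theorem measurable_gradient (f : E → ℝ) : Measurable (gradient f) :=
  (InnerProductSpace.toDual ℝ E).symm.continuous.measurable.comp (measurable_fderiv ℝ f)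

theorem fderiv_moll {f : E → ℝ} {K : ℝ≥0} (hf : LipschitzWith K f) (n : ℕ) (x : E) :
    fderiv ℝ (moll f n) x =
      ((bump E n).normed volume ⋆[ContinuousLinearMap.lsmul ℝ ℝ, volume] fderiv ℝ f) x := by
  have hae : ∀ᵐ t : E, DifferentiableAt ℝ f (x - t) := by
    have h1 := hf.ae_differentiableAt (μ := (volume : Measure E))
    have h2 : Measure.QuasiMeasurePreserving (fun t : E => x - t) volume volume :=
      quasiMeasurePreserving_sub_left volume x
    exact h2.ae h1
  have h := hasFDerivAt_integral_of_dominated_loc_of_lip' (𝕜 := ℝ) (μ := (volume : Measure E))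
    (F := fun y t => (bump E n).normed volume t * f (y - t)) (x₀ := x) (s := univ)
    (F' := fun t => (bump E n).normed volume t • fderiv ℝ f (x - t))
    (bound := fun t => (bump E n).normed volume t * K) univ_mem
    (fun y _ => (moll_integrable hf.continuous n y).1) (moll_integrable hf.continuous n x) ?_ ?_
    ((bump E n).integrable_normed.mul_const _) ?_
  · exact h.2.fderiv
  · apply AEStronglyMeasurable.smul (bump E n).continuous_normed.aestronglyMeasurable
    exact ((measurable_fderiv ℝ f).comp (measurable_const.sub measurable_id)).aestronglyMeasurable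
  · refine Eventually.of_forall fun t y _ => ?_
    rw [← mul_sub, norm_mul, Real.norm_eq_abs, Real.norm_eq_abs,
      abs_of_nonneg ((bump E n).nonneg_normed t), mul_assoc]
    refine mul_le_mul_of_nonneg_left ?_ ((bump E n).nonneg_normed t)
    rw [← Real.dist_eq, ← dist_eq_norm]
    refine (hf.dist_le_mul _ _).trans ?_
    rw [dist_sub_right]
  · filter_upwards [hae] with t ht
    have h1 : HasFDerivAt (fun y => f (y - t)) (fderiv ℝ f (x - t)) x := by
      have h2 := ht.hasFDerivAt.comp x ((hasFDerivAt_id x).sub_const t)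
      simpa [Function.comp_def] using h2
    exact h1.const_mul _

theorem gradient_moll_tendsto {f : E → ℝ} {K : ℝ≥0} (hf : LipschitzWith K f) :
    ∀ᵐ z, Tendsto (fun n => gradient (moll f n) z) atTop (𝓝 (gradient f z)) := by
  have hloc : LocallyIntegrable (fderiv ℝ f) (volume : Measure E) := by
    have h1 : LocallyIntegrable (fun _ : E => (K : ℝ)) (volume : Measure E) :=
      locallyIntegrable_const _
    apply h1.mono (measurable_fderiv ℝ f).aestronglyMeasurable
    refine Eventually.of_forall fun z => ?_
    rw [Real.norm_of_nonneg K.coe_nonneg]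
    exact norm_fderiv_le_of_lipschitz ℝ hf
  have h := ContDiffBump.ae_convolution_tendsto_right_of_locallyIntegrable (μ := volume)
    (K := 2) bump_rOut_tendsto (Eventually.of_forall fun n => ?_) hloc
  · filter_upwards [h] with z hz
    have h2 := ((InnerProductSpace.toDual ℝ E).symm.continuous.tendsto _).comp hz
    refine h2.congr fun n => ?_
    rw [Function.comp_apply, gradient_eq, fderiv_moll hf]
  · show 2 / ((n : ℝ) + 1) ≤ 2 * (1 / ((n : ℝ) + 1))
    apply le_of_eq
    ring

variable {Ω Ω' U : Set E} {u v w w' : E → ℝ} {G H W W' : E → E} {φ ψ : E → ℝ}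

theorem H10.mul_smooth (h : H10 Ω u G) {f : E → ℝ} (hf : ContDiff ℝ ∞ f) {C C' : ℝ}
    (hC : ∀ z, |f z| ≤ C) (hC' : ∀ z, ‖gradient f z‖ ≤ C') :
    H10 Ω (fun z => f z * u z) (fun z => f z • G z + u z • gradient f z) := by
  obtain ⟨φ, h1, h2, h3⟩ := h.approx
  have hfm : AEStronglyMeasurable f (volume : Measure E) := hf.continuous.aestronglyMeasurable
  have hgm : AEStronglyMeasurable (gradient f) (volume : Measure E) :=
    (measurable_gradient f).aestronglyMeasurable
  have htest : ∀ n, IsTest Ω (fun z => f z * φ n z) := fun n =>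
    ⟨hf.mul (h1 n).1, (h1 n).2.1.mul_left, (tsupport_mul_subset_right).trans (h1 n).2.2⟩
  have hgrad : ∀ n z, gradient (fun z => f z * φ n z) z =
      f z • gradient (φ n) z + φ n z • gradient f z := fun n z =>
    gradient_mul' (hf.differentiable (by simp) z) ((h1 n).differentiable z)
  have b1 : ∀ {g : E → ℝ}, MemLp g 2 volume → MemLp (fun z => f z * g z) 2 volume := by
    intro g hg
    refine hg.of_le_mul (c := C) (hfm.mul hg.1) (Eventually.of_forall fun z => ?_)
    rw [norm_mul]
    exact mul_le_mul_of_nonneg_right (hC z) (norm_nonneg _)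
  have b2 : ∀ {g : E → E}, MemLp g 2 volume → MemLp (fun z => f z • g z) 2 volume := by
    intro g hg
    refine hg.of_le_mul (c := C) (hfm.smul hg.1) (Eventually.of_forall fun z => ?_)
    rw [norm_smul]
    exact mul_le_mul_of_nonneg_right (hC z) (norm_nonneg _)
  have b3 : ∀ {g : E → ℝ}, MemLp g 2 volume → MemLp (fun z => g z • gradient f z) 2 volume := by
    intro g hg
    refine hg.of_le_mul (c := C') (hg.1.smul hgm) (Eventually.of_forall fun z => ?_)
    rw [norm_smul, mul_comm]
    exact mul_le_mul_of_nonneg_right (hC' z) (norm_nonneg _)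
  refine ⟨b1 h.1, (b2 h.2).add (b3 h.1), fun n z => f z * φ n z, htest, ?_, ?_⟩
  · have hs : Tendsto (fun n => ENNReal.ofReal C * eLpNorm (fun z => φ n z - u z) 2 volume) atTop
        (𝓝 0) := by
      have := ENNReal.Tendsto.const_mul (a := ENNReal.ofReal C) h2 (Or.inr (by simp))
      simpa using this
    refine tendsto_of_tendsto_of_tendsto_of_le_of_le tendsto_const_nhds hs (fun n => bot_le) ?_
    intro n
    refine eLpNorm_le_mul_eLpNorm_of_ae_le_mul (Eventually.of_forall fun z => ?_) _
    rw [← mul_sub, norm_mul]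
    exact mul_le_mul_of_nonneg_right (hC z) (norm_nonneg _)
  · have hs : Tendsto (fun n => ENNReal.ofReal C * eLpNorm (fun z => gradient (φ n) z - G z) 2 volume
        + ENNReal.ofReal C' * eLpNorm (fun z => φ n z - u z) 2 volume) atTop (𝓝 0) := by
      have t1 := ENNReal.Tendsto.const_mul (a := ENNReal.ofReal C) h3 (Or.inr (by simp))
      have t2 := ENNReal.Tendsto.const_mul (a := ENNReal.ofReal C') h2 (Or.inr (by simp))
      simpa using t1.add t2
    refine tendsto_of_tendsto_of_tendsto_of_le_of_le tendsto_const_nhds hs (fun n => bot_le) ?_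
    intro n
    have e : (fun z => gradient (fun z => f z * φ n z) z - (f z • G z + u z • gradient f z)) =
        (fun z => f z • (gradient (φ n) z - G z)) + fun z => (φ n z - u z) • gradient f z := by
      ext1 z
      simp only [Pi.add_apply]
      rw [hgrad, smul_sub, sub_smul]
      abel
    simp only [e]
    refine (eLpNorm_add_le (hfm.smul (((h1 n).memLp_gradient 2).1.sub h.2.1))
      ((((h1 n).memLp 2).1.sub h.1.1).smul hgm) (by norm_num)).trans ?_
    refine add_le_add ?_ ?_
    · refine eLpNorm_le_mul_eLpNorm_of_ae_le_mul (Eventually.of_forall fun z => ?_) _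
      show ‖f z • (gradient (φ n) z - G z)‖ ≤ _
      rw [norm_smul]
      exact mul_le_mul_of_nonneg_right (hC z) (norm_nonneg _)
    · refine eLpNorm_le_mul_eLpNorm_of_ae_le_mul (Eventually.of_forall fun z => ?_) _
      show ‖(φ n z - u z) • gradient f z‖ ≤ _
      rw [norm_smul, mul_comm]
      exact mul_le_mul_of_nonneg_right (hC' z) (norm_nonneg _)

/-- Multiplication by a bounded Lipschitz function. -/
theorem H10.mul_lipschitz (h : H10 Ω u G) {K : NNReal} {f : E → ℝ} (hf : LipschitzWith K f) {C : ℝ}
    (hC : ∀ z, |f z| ≤ C) :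
    H10 Ω (fun z => f z * u z) (fun z => f z • G z + u z • gradient f z) := by
  have hC0 : 0 ≤ C := (abs_nonneg _).trans (hC 0)
  have hcont := hf.continuous
  refine H10.of_dominated (un := fun n z => moll f n z * u z)
    (Gn := fun n z => moll f n z • G z + u z • gradient (moll f n) z)
    (b := fun z => C * ‖u z‖) (B := fun z => C * ‖G z‖ + K * ‖u z‖) (fun n => ?_)
    (h.1.norm.const_mul C) ((h.2.norm.const_mul C).add (h.1.norm.const_mul (K : ℝ))) ?_ ?_ ?_ ?_
  · exact h.mul_smooth (contDiff_moll hcont n) (abs_moll_le hC n)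
      (norm_gradient_le_of_lipschitz (lipschitzWith_moll hf n))
  · intro n
    refine Eventually.of_forall fun z => ?_
    rw [abs_mul]
    exact mul_le_mul_of_nonneg_right (abs_moll_le hC n z) (abs_nonneg _)
  · intro n
    refine Eventually.of_forall fun z => ?_
    refine (norm_add_le _ _).trans ?_
    rw [norm_smul, norm_smul, mul_comm (K : ℝ)]
    refine add_le_add (mul_le_mul_of_nonneg_right (abs_moll_le hC n z) (norm_nonneg _))
      (mul_le_mul_of_nonneg_left (norm_gradient_le_of_lipschitz (lipschitzWith_moll hf n) z)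
        (norm_nonneg _))
  · exact Eventually.of_forall fun z => (moll_tendsto hcont z).mul_const _
  · filter_upwards [gradient_moll_tendsto hf] with z hz
    exact ((moll_tendsto hcont z).smul_const _).add (hz.const_smul _)

/-- A test function equal to `1` near a compact subset of an open set. -/
theorem exists_cutoff (hΩ : IsOpen Ω) {S : Set E} (hS : IsCompact S) (hSΩ : S ⊆ Ω) :
    ∃ χ : E → ℝ, IsTest Ω χ ∧ (∀ z, 0 ≤ χ z) ∧ (∀ z, χ z ≤ 1) ∧ ∀ z ∈ S, ∀ᶠ y in 𝓝 z, χ y = 1 := by
  obtain ⟨T, hT, hST, hTΩ⟩ := exists_compact_between hS hΩ hSΩ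
  obtain ⟨χ, h1, h2, h3⟩ := exists_contMDiffMap_zero_one_nhds_of_isClosed (modelWithCornersSelf ℝ E)
    (n := ⊤) (isOpen_interior (s := T)).isClosed_compl hS.isClosed (by
      rw [Set.disjoint_left]
      intro z hz hz'
      exact hz (hST hz'))
  have hsupp : Function.support (χ : E → ℝ) ⊆ interior T := by
    intro z hz
    by_contra hz'
    exact hz (h1.self_of_nhdsSet z hz')
  have hts : tsupport (χ : E → ℝ) ⊆ T :=
    closure_minimal (hsupp.trans interior_subset) hT.isClosed
  refine ⟨χ, ⟨contMDiff_iff_contDiff.1 χ.contMDiff, hT.of_isClosed_subset (isClosed_tsupport _) hts,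
    hts.trans hTΩ⟩, fun z => (h3 z).1, fun z => (h3 z).2, fun z hz => ?_⟩
  exact h2.filter_mono (nhds_le_nhdsSet hz)

/-- Lipschitz functions with compact support in `Ω`. -/
theorem H10.of_lipschitz (hΩ : IsOpen Ω) {K : NNReal} {f : E → ℝ} (hf : LipschitzWith K f)
    (hc : HasCompactSupport f) (hs : tsupport f ⊆ Ω) : H10 Ω f (gradient f) := by
  obtain ⟨χ, h1, h2, h3, h4⟩ := exists_cutoff hΩ hc.isCompact hs
  obtain ⟨C, hC⟩ := hf.continuous.bounded_above_of_compact_support hc
  have h := h1.h10.mul_lipschitz hf (C := C) hC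
  have e1 : (fun z => f z * χ z) = f := by
    ext z
    by_cases hz : z ∈ tsupport f
    · rw [(h4 z hz).self_of_nhds, mul_one]
    · rw [image_eq_zero_of_notMem_tsupport hz, zero_mul]
  have e2 : (fun z => f z • gradient χ z + χ z • gradient f z) = gradient f := by
    ext1 z
    by_cases hz : z ∈ tsupport f
    · have e : gradient χ z = 0 := by
        have e3 : χ =ᶠ[𝓝 z] fun _ => (1 : ℝ) := h4 z hz
        rw [gradient_eq, e3.fderiv_eq]
        simp
      rw [(h4 z hz).self_of_nhds, e, smul_zero, zero_add, one_smul]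
    · rw [image_eq_zero_of_notMem_tsupport hz, gradient_zero_of_notMem_tsupport hz, zero_smul,
        smul_zero, add_zero]
  rwa [e1, e2] at h

end Pool.Agent.H4.NM
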