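import Pool.Agent.H4.NM.MvA
import Pool.Agent.H4.NM.Moll
import Pool.Agent.H95.Perf.Basic

/-!
# NM-06: the weighted mean value identity (MP_898b17_an, all dimensions)

## Paper proof of `mv_weight`

`d = finrank ℝ E ≥ 1`, `ω = |B_1|`. Both sides only see `ψ` on `ball p R`; multiply `ψ` by a smooth
cut-off which is `1` on `ball p (R + 1)` (`exists_cutoff` of file Moll gives one near the compact
`closedBall p (R+1)`; the product is Lipschitz with compact support, `IsLip.mul_bdd` after truncating,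
or use `K`-Lipschitz on a ball), so that `ψ` has compact support and `H10 univ ψ (gradient ψ)`
(`H10.of_lipschitz`). `mv_ftc` (file MvA) with `av p r ψ = 0` gives
`- |B_R|⁻¹ ∫_{B_R} ψ = ∫_r^R (t |B_t|)⁻¹ ∫ ⟪∇ψ, GPh p t⟫ dt`, i.e.
`|B_R|⁻¹ ∫_{B_R} ψ = ∫_r^R (ω t^{d+1})⁻¹ ∫_{B_t(p)} ⟪∇ψ(x), x - p⟫ dx dt`. Fubini
(`∇ψ` bounded with compact support):
`= ∫_{B_R} ⟪∇ψ(x), x - p⟫ (∫_{max(r, |x-p|)}^R (ω t^{d+1})⁻¹ dt) dx` and the inner integral is
`(ω d)⁻¹ (max(r,|x-p|)^{-d} - R^{-d})`. On `ball p r` `∇ψ = 0` (`ψ = 0` there, open set), so `max` may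
be dropped (the sphere is a null set). Multiply by `d ω R^d = d |B_R|`.
-/

open MeasureTheory Set Metric Filter Topology ContDiff Module
open scoped ENNReal NNReal RealInnerProductSpace

namespace Pool.Agent.H4.NM

variable {E : Type} [NormedAddCommGroup E] [InnerProductSpace ℝ E] [FiniteDimensional ℝ E]
  [CompleteSpace E] [MeasurableSpace E] [BorelSpace E]

set_option linter.unusedSectionVars false

open Pool.Agent.H95.Perf (IsLip)

variable {ψ : E → ℝ}

theorem corrW_pow {N : ℕ} (hN : 1 ≤ N) {s R : ℝ} (hs : 0 < s) (hsR : s ≤ R) :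
    ∫ t in s..R, (t ^ (N + 1))⁻¹ = ((s ^ N)⁻¹ - (R ^ N)⁻¹) / N := by
  have hN0 : (N : ℝ) ≠ 0 := by
    have : 0 < N := hN
    exact_mod_cast this.ne'
  have h : ∀ t ∈ uIcc s R, HasDerivAt (fun t : ℝ => -((t ^ N)⁻¹ / N)) ((t ^ (N + 1))⁻¹) t := by
    intro t ht
    rw [uIcc_of_le hsR] at ht
    have ht0 : 0 < t := hs.trans_le ht.1
    have h1 := ((hasDerivAt_pow N t).inv (pow_ne_zero N ht0.ne')).div_const (N : ℝ)
    have h2 := h1.neg
    refine h2.congr_deriv ?_
    obtain ⟨M, rfl⟩ : ∃ M, N = M + 1 := ⟨N - 1, by omega⟩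
    rw [Nat.add_sub_cancel]
    field_simp
    ring
  have hc : ContinuousOn (fun t : ℝ => (t ^ (N + 1))⁻¹) (uIcc s R) := by
    refine ContinuousOn.inv₀ (by fun_prop) fun t ht => ?_
    rw [uIcc_of_le hsR] at ht
    exact pow_ne_zero _ (hs.trans_le ht.1).ne'
  rw [intervalIntegral.integral_eq_sub_of_hasDerivAt h hc.intervalIntegrable]
  ring

/-- a bounded Lipschitz function which agrees with `ψ` near every point of `ball p R` -/
theorem corrW_trunc (hψ : IsLip ψ) (p : E) (R : ℝ) :
    ∃ (f : E → ℝ) (K : ℝ≥0) (C : ℝ), LipschitzWith K f ∧ (∀ z, |f z| ≤ C) ∧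
      ∀ z ∈ ball p R, f =ᶠ[𝓝 z] ψ := by
  obtain ⟨C, hC⟩ := (isCompact_closedBall p R).exists_bound_of_continuousOn hψ.continuous.continuousOn
  obtain ⟨K, hK⟩ := (hψ.min (IsLip.const (C + 1))).max (IsLip.const (-(C + 1)))
  refine ⟨_, K, |C + 1|, hK, fun z => ?_, fun z hz => ?_⟩
  · rw [abs_le]
    constructor
    · refine le_trans ?_ (le_max_right _ _)
      have := le_abs_self (C + 1)
      linarith
    · refine max_le ((min_le_right _ _).trans (le_abs_self _)) (neg_le_abs _)
  · filter_upwards [isOpen_ball.mem_nhds hz] with y hy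
    have h1 := hC y (ball_subset_closedBall hy)
    rw [Real.norm_eq_abs, abs_le] at h1
    show max (min (ψ y) (C + 1)) (-(C + 1)) = ψ y
    rw [min_eq_left (by linarith), max_eq_left (by linarith)]

theorem mv_weight (hd : 2 ≤ finrank ℝ E) (p : E) {r R : ℝ} (hr : 0 < r) (hrR : r < R)
    (hψ : IsLip ψ) (h0 : ∀ x ∈ closedBall p r, ψ x = 0) :
    ∫ x in ball p R, ((R / ‖x - p‖) ^ finrank ℝ E - 1) * ⟪x - p, gradient ψ x⟫ =
      (finrank ℝ E : ℝ) * ∫ x in ball p R, ψ x := by
  set N := finrank ℝ E with hN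
  set w1 := volume.real (ball (0 : E) 1) with hw1
  have hw10 : 0 < w1 := vol_one_pos
  have hR : 0 < R := hr.trans hrR
  obtain ⟨f, K, C, hf, hfC, hfψ⟩ := corrW_trunc hψ p R
  obtain ⟨χ, hχ, hχ0, hχ1, hχe⟩ := exists_cutoff (Ω := (univ : Set E)) isOpen_univ
    (isCompact_closedBall p R) (subset_univ _)
  have hu := hχ.h10.mul_lipschitz hf hfC
  set u : E → ℝ := fun z => f z * χ z with hudef
  set G : E → E := fun z => f z • gradient χ z + χ z • gradient f z with hGdef
  have hψe : ∀ z ∈ ball p R, u z = ψ z := by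
    intro z hz
    show f z * χ z = ψ z
    rw [(hχe z (ball_subset_closedBall hz)).self_of_nhds, mul_one, (hfψ z hz).self_of_nhds]
  have hGe : ∀ z ∈ ball p R, G z = gradient ψ z := by
    intro z hz
    have e1 : gradient χ z = 0 := by
      have e3 : χ =ᶠ[𝓝 z] fun _ => (1 : ℝ) := hχe z (ball_subset_closedBall hz)
      rw [gradient_eq, e3.fderiv_eq]
      simp
    have e2 : gradient f z = gradient ψ z := by
      rw [gradient_eq, gradient_eq, (hfψ z hz).fderiv_eq]
    show f z • gradient χ z + χ z • gradient f z = gradient ψ z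
    rw [e1, e2, (hχe z (ball_subset_closedBall hz)).self_of_nhds, smul_zero, zero_add, one_smul]
  have hG0 : ∀ z ∈ ball p r, gradient ψ z = 0 := by
    intro z hz
    have e3 : ψ =ᶠ[𝓝 z] fun _ => (0 : ℝ) := by
      filter_upwards [isOpen_ball.mem_nhds hz] with y hy
      exact h0 y (ball_subset_closedBall hy)
    rw [gradient_eq, e3.fderiv_eq]
    simp
  have hftc := mv_ftc hu p hr hrR.le
  -- the left side
  have hav : av p r u = 0 := by
    have : ∫ z in ball p r, u z = 0 := by
      rw [setIntegral_congr_fun (g := fun _ => (0 : ℝ)) measurableSet_ball]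
      · simp
      · intro z hz
        show u z = 0
        rw [hψe z (ball_subset_ball hrR.le hz), h0 z (ball_subset_closedBall hz)]
    rw [av, this, mul_zero]
  have havR : av p R u = (R ^ N * w1)⁻¹ * ∫ x in ball p R, ψ x := by
    rw [av, vol_ball p hR]
    congr 1
    exact setIntegral_congr_fun measurableSet_ball fun z hz => hψe z hz
  -- the integrand
  set g : E → ℝ := (ball p R).indicator fun y => ⟪y - p, gradient ψ y⟫ with hg
  have hgi : Integrable g := by
    have h1 : IntegrableOn (fun y => ⟪y - p, G y⟫) (ball p R) := by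
      haveI : IsFiniteMeasure (volume.restrict (ball p R)) :=
        ⟨by simpa using measure_ball_lt_top⟩
      have h2 : MemLp G 1 (volume.restrict (ball p R)) :=
        (hu.2.restrict _).mono_exponent (by norm_num)
      have h3 : Integrable G (volume.restrict (ball p R)) := memLp_one_iff_integrable.1 h2
      refine (h3.norm.const_mul R).mono' ?_ ?_
      · exact ((continuous_id.sub continuous_const).aestronglyMeasurable.inner h3.1)
      · refine (ae_restrict_iff' measurableSet_ball).2 (Eventually.of_forall fun y hy => ?_)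
        refine (norm_inner_le_norm _ _).trans ?_
        refine mul_le_mul_of_nonneg_right ?_ (norm_nonneg _)
        rw [← dist_eq_norm]
        exact (mem_ball.1 hy).le
    rw [hg, integrable_indicator_iff measurableSet_ball]
    refine h1.congr_fun (fun y hy => ?_) measurableSet_ball
    show ⟪y - p, G y⟫ = ⟪y - p, gradient ψ y⟫
    rw [hGe y hy]
  set c : ℝ → ℝ := fun t => (max r t * (max r t ^ N * w1))⁻¹ with hc
  have hc_eq : ∀ t, r ≤ t → c t = (t * (t ^ N * w1))⁻¹ := by
    intro t ht
    show (max r t * (max r t ^ N * w1))⁻¹ = _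
    rw [max_eq_right ht]
  have hcpos : ∀ t, 0 < max r t * (max r t ^ N * w1) := by
    intro t
    have : 0 < max r t := lt_max_of_lt_left hr
    positivity
  have hc0 : ∀ t, 0 ≤ c t := fun t => (inv_pos.2 (hcpos t)).le
  have hcb : ∀ t, c t ≤ (r * (r ^ N * w1))⁻¹ := by
    intro t
    refine inv_anti₀ (by positivity) ?_
    have : r ≤ max r t := le_max_left _ _
    gcongr
  have hcc : Continuous c := by
    refine Continuous.inv₀ (by fun_prop) fun t => (hcpos t).ne'
  set k : ℝ → E → ℝ := fun t y => (if ‖y - p‖ < t then c t else 0) with hk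
  have hkm : Measurable (Function.uncurry k) := by
    refine Measurable.ite ?_ (hcc.measurable.comp measurable_fst) measurable_const
    exact measurableSet_lt ((continuous_snd.sub continuous_const).norm.measurable) measurable_fst
  have hkb : ∀ q : ℝ × E, ‖Function.uncurry k q‖ ≤ (r * (r ^ N * w1))⁻¹ := by
    rintro ⟨t, y⟩
    show ‖(if ‖y - p‖ < t then c t else 0 : ℝ)‖ ≤ _
    split_ifs
    · rw [Real.norm_of_nonneg (hc0 t)]
      exact hcb t
    · rw [norm_zero]
      positivity
  have hFi : Integrable (Function.uncurry fun t y => k t y * g y)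
      ((volume.restrict (Ioc r R)).prod volume) := by
    have h1 : Integrable (fun q : ℝ × E => g q.2) ((volume.restrict (Ioc r R)).prod volume) :=
      hgi.comp_snd _
    exact h1.bdd_mul hkm.aestronglyMeasurable (Eventually.of_forall hkb)
  have hswap := integral_integral_swap (f := fun t y => k t y * g y) hFi
  -- the inner integral in the space variable
  have hin : ∀ t ∈ Ioc r R, (t * volume.real (ball p t))⁻¹ * ∫ y, ⟪G y, GPh p t y⟫ =
      - ∫ y, k t y * g y := by
    intro t ht
    have ht0 : 0 < t := hr.trans ht.1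
    rw [vol_ball p ht0, ← hw1, ← hN, ← hc_eq t ht.1.le, ← integral_const_mul, ← integral_neg]
    congr 1
    funext y
    by_cases hy : ‖y - p‖ < t
    · have hyR : y ∈ ball p R := by
        rw [mem_ball, dist_eq_norm]
        exact hy.trans_le ht.2
      have hyt : y ∈ ball p t := by
        rw [mem_ball, dist_eq_norm]
        exact hy
      show c t * ⟪G y, (ball p t).indicator (fun y => p - y) y⟫ =
        -((if ‖y - p‖ < t then c t else 0) * (ball p R).indicator (fun y => ⟪y - p, gradient ψ y⟫) y)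
      rw [if_pos hy, indicator_of_mem hyt, indicator_of_mem hyR, hGe y hyR, real_inner_comm,
        ← neg_sub y p, inner_neg_left]
      ring
    · have hyt : y ∉ ball p t := by
        rw [mem_ball, dist_eq_norm]
        exact hy
      show c t * ⟪G y, (ball p t).indicator (fun y => p - y) y⟫ =
        -((if ‖y - p‖ < t then c t else 0) * (ball p R).indicator (fun y => ⟪y - p, gradient ψ y⟫) y)
      rw [if_neg hy, indicator_of_notMem hyt, inner_zero_right, zero_mul, mul_zero, neg_zero]
  -- the inner integral in the radius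
  have hout : ∀ y, ∫ t in Ioc r R, k t y * g y =
      (ball p R).indicator (fun y => (w1 * N)⁻¹ * (((‖y - p‖ ^ N)⁻¹ - (R ^ N)⁻¹) *
        ⟪y - p, gradient ψ y⟫)) y := by
    intro y
    rw [integral_mul_const]
    by_cases hyR : y ∈ ball p R
    · rw [indicator_of_mem hyR, hg, indicator_of_mem hyR]
      by_cases hyr : y ∈ ball p r
      · rw [hG0 y hyr, inner_zero_right, mul_zero, mul_zero, mul_zero]
      · have hs : r ≤ ‖y - p‖ := by
          rw [mem_ball, dist_eq_norm, not_lt] at hyr
          exact hyr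
        have hsR : ‖y - p‖ < R := by
          rw [mem_ball, dist_eq_norm] at hyR
          exact hyR
        have hs0 : 0 < ‖y - p‖ := hr.trans_le hs
        have e1 : ∫ t in Ioc r R, k t y = ∫ t in Ioc ‖y - p‖ R, (t * (t ^ N * w1))⁻¹ := by
          have e2 : ∀ t ∈ Ioc r R, k t y = (Ioc ‖y - p‖ R).indicator (fun t => (t * (t ^ N * w1))⁻¹) t := by
            intro t ht
            show (if ‖y - p‖ < t then c t else 0) = _
            by_cases h : ‖y - p‖ < t
            · rw [if_pos h, indicator_of_mem (show t ∈ Ioc ‖y - p‖ R from ⟨h, ht.2⟩), hc_eq t ht.1.le]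
            · rw [if_neg h, indicator_of_notMem (fun h' => h h'.1)]
          rw [setIntegral_congr_fun measurableSet_Ioc e2, setIntegral_indicator measurableSet_Ioc,
            inter_eq_right.2 (Ioc_subset_Ioc_left hs)]
        have e3 : ∫ t in Ioc ‖y - p‖ R, (t * (t ^ N * w1))⁻¹ =
            w1⁻¹ * (((‖y - p‖ ^ N)⁻¹ - (R ^ N)⁻¹) / N) := by
          rw [← intervalIntegral.integral_of_le hsR.le, ← corrW_pow (by omega) hs0 hsR.le,
            ← intervalIntegral.integral_const_mul]
          refine intervalIntegral.integral_congr fun t _ => ?_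
          show (t * (t ^ N * w1))⁻¹ = w1⁻¹ * (t ^ (N + 1))⁻¹
          rw [← mul_inv]
          congr 1
          ring
        rw [e1, e3, mul_inv]
        ring
    · rw [indicator_of_notMem hyR, hg, indicator_of_notMem hyR, mul_zero]
  have hmain : (R ^ N * w1)⁻¹ * ∫ x in ball p R, ψ x =
      (w1 * N)⁻¹ * ∫ y in ball p R, ((‖y - p‖ ^ N)⁻¹ - (R ^ N)⁻¹) * ⟪y - p, gradient ψ y⟫ := by
    have h1 : ∫ t in r..R, (t * volume.real (ball p t))⁻¹ * ∫ y, ⟪G y, GPh p t y⟫ =
        - ∫ t in Ioc r R, ∫ y, k t y * g y := by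
      rw [intervalIntegral.integral_of_le hrR.le, setIntegral_congr_fun measurableSet_Ioc hin,
        integral_neg]
    rw [hav, havR, h1, hswap] at hftc
    have h2 : ∫ y, ∫ t in Ioc r R, k t y * g y = (w1 * N)⁻¹ *
        ∫ y in ball p R, ((‖y - p‖ ^ N)⁻¹ - (R ^ N)⁻¹) * ⟪y - p, gradient ψ y⟫ := by
      rw [integral_congr_ae (Eventually.of_forall hout), integral_indicator measurableSet_ball,
        integral_const_mul]
    rw [h2] at hftc
    linarith
  have hN0 : (N : ℝ) ≠ 0 := by
    have : 0 < N := by omega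
    exact_mod_cast this.ne'
  have hfin : ∫ x in ball p R, ((R / ‖x - p‖) ^ N - 1) * ⟪x - p, gradient ψ x⟫ =
      R ^ N * ∫ y in ball p R, ((‖y - p‖ ^ N)⁻¹ - (R ^ N)⁻¹) * ⟪y - p, gradient ψ y⟫ := by
    rw [← integral_const_mul]
    refine setIntegral_congr_fun measurableSet_ball fun x _ => ?_
    show ((R / ‖x - p‖) ^ N - 1) * ⟪x - p, gradient ψ x⟫ =
      R ^ N * (((‖x - p‖ ^ N)⁻¹ - (R ^ N)⁻¹) * ⟪x - p, gradient ψ x⟫)
    rw [← mul_assoc, mul_sub, mul_inv_cancel₀ (pow_ne_zero N hR.ne'), div_pow, div_eq_mul_inv]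
  rw [hfin]
  have h3 : ∫ y in ball p R, ((‖y - p‖ ^ N)⁻¹ - (R ^ N)⁻¹) * ⟪y - p, gradient ψ y⟫ =
      (w1 * N) * ((R ^ N * w1)⁻¹ * ∫ x in ball p R, ψ x) := by
    rw [hmain, mul_inv_cancel_left₀ (mul_ne_zero hw10.ne' hN0)]
  rw [h3]
  have hRN : R ^ N ≠ 0 := pow_ne_zero N hR.ne'
  field_simp

end Pool.Agent.H4.NM
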