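import Mathlib

/-!
# The eigenvalue-torsion functional: definitions (MP_898b17_an, all dimensions)

`E` is a finite-dimensional Euclidean space (in the final theorem `EuclideanSpace ℝ (Fin d)`).
A function of `H¹₀(Ω)` is a pair `(u, G)`, the function and its gradient.
-/

open MeasureTheory Set Metric Filter Topology ContDiff
open scoped ENNReal RealInnerProductSpace

namespace Pool.Agent.H4.NM

section General

variable {E : Type*} [NormedAddCommGroup E] [InnerProductSpace ℝ E] [CompleteSpace E]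
  [MeasureSpace E]

/-- `φ ∈ C_c^∞(Ω)`. -/
def IsTest (Ω : Set E) (φ : E → ℝ) : Prop :=
  ContDiff ℝ ∞ φ ∧ HasCompactSupport φ ∧ tsupport φ ⊆ Ω

/-- `u ∈ H¹₀(Ω)` with gradient `G`: `(u, G)` is a limit in `L² × L²` of `(φ, ∇φ)`,
`φ ∈ C_c^∞(Ω)`. -/
structure H10 (Ω : Set E) (u : E → ℝ) (G : E → E) : Prop where
  memLp : MemLp u 2 volume
  memLp_grad : MemLp G 2 volume
  approx : ∃ φ : ℕ → E → ℝ, (∀ n, IsTest Ω (φ n)) ∧
    Tendsto (fun n => eLpNorm (fun x => φ n x - u x) 2 volume) atTop (𝓝 0) ∧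
    Tendsto (fun n => eLpNorm (fun x => gradient (φ n) x - G x) 2 volume) atTop (𝓝 0)

/-- The first eigenvalue of the Dirichlet Laplacian on `Ω` (infimum of the Rayleigh quotient over
the nonzero elements of `H¹₀(Ω)`). -/
noncomputable def lam (Ω : Set E) : ℝ :=
  sInf {t : ℝ | ∃ (u : E → ℝ) (G : E → E), H10 Ω u G ∧ (∫ x, u x ^ 2) ≠ 0 ∧
    t = (∫ x, ‖G x‖ ^ 2) / ∫ x, u x ^ 2}

/-- `w`, with gradient `W`, is the weak solution in `H¹₀(Ω)` of `-Δw = 1` in `Ω`. -/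
def IsTorsion (Ω : Set E) (w : E → ℝ) (W : E → E) : Prop :=
  H10 Ω w W ∧ ∀ φ : E → ℝ, IsTest Ω φ → ∫ x, ⟪W x, gradient φ x⟫ = ∫ x, φ x

open Classical in
/-- Torsional rigidity `T(Ω) = ∫ w_Ω` (well defined for open `Ω` of finite measure). -/
noncomputable def torsion (Ω : Set E) : ℝ :=
  if h : ∃ (w : E → ℝ) (W : E → E), IsTorsion Ω w W then ∫ x, h.choose x else 0

/-- The functional `F_q` in dimension `d`. -/
noncomputable def Fq (d : ℕ) (q : ℝ) (Ω : Set E) : ℝ :=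
  lam Ω * torsion Ω ^ q / (volume Ω).toReal ^ ((d * q + 2 * q - 2) / d)

/-- Admissible sets: open, of finite positive measure. -/
def Admissible (Ω : Set E) : Prop := IsOpen Ω ∧ 0 < volume Ω ∧ volume Ω < ⊤

/-- Rayleigh bound: `c ∫φ² ≤ ∫|∇φ|²` for all test functions; i.e. `c ≤ λ(Ω)`. -/
def RQ (Ω : Set E) (c : ℝ) : Prop :=
  ∀ φ : E → ℝ, IsTest Ω φ → c * ∫ x, φ x ^ 2 ≤ ∫ x, ‖gradient φ x‖ ^ 2

/-- `t ≤ 2∫ψ - ∫|∇ψ|²` for some test function, which gives `t ≤ T(Ω)`. -/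
def TLow (Ω : Set E) (t : ℝ) : Prop :=
  ∃ ψ : E → ℝ, IsTest Ω ψ ∧ t ≤ 2 * (∫ x, ψ x) - ∫ x, ‖gradient ψ x‖ ^ 2

/-- No open set of finite measure does better than `S`, phrased with certified bounds `c ≤ λ`,
`t ≤ T` (`d` is the dimension). -/
def NoBetter (E : Type*) [NormedAddCommGroup E] [InnerProductSpace ℝ E] [CompleteSpace E]
    [MeasureSpace E] (d : ℕ) (q S : ℝ) : Prop :=
  ∀ Ω : Set E, IsOpen Ω → volume Ω < ⊤ → ∀ c t : ℝ, 0 < c → 0 < t → RQ Ω c → TLow Ω t →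
    c * t ^ q ≤ S * (volume Ω).toReal ^ ((d * q + 2 * q - 2) / d)

end General

end Pool.Agent.H4.NM
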