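import Pool.Agent.H4.NM.Prod

/-!
# Calculus in `H¹₀`, part 5: products, quotients (MP_898b17_an, M1)
-/

open MeasureTheory Set Metric Filter Topology ContDiff
open scoped ENNReal RealInnerProductSpace

namespace Pool.Agent.H4.NM

variable {E : Type} [NormedAddCommGroup E] [InnerProductSpace ℝ E] [FiniteDimensional ℝ E]
  [CompleteSpace E] [MeasurableSpace E] [BorelSpace E]

set_option linter.unusedSectionVars false

set_option maxHeartbeats 400000

variable {Ω Ω' U : Set E} {u v w w' : E → ℝ} {G H W W' : E → E} {φ ψ : E → ℝ}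

/-- Scalars converging in `L²` times a fixed bounded vector field. -/
theorem tendsto_eLpNorm_smul_right {F : Type*} [NormedAddCommGroup F] [NormedSpace ℝ F]
    {an : ℕ → E → ℝ} {a : E → ℝ} {G : E → F} {C : ℝ}
    (hbd : ∀ᵐ z, ‖G z‖ ≤ C)
    (hl : Tendsto (fun n => eLpNorm (fun z => an n z - a z) 2 volume) atTop (𝓝 0)) :
    Tendsto (fun n => eLpNorm (fun z => an n z • G z - a z • G z) 2 volume) atTop (𝓝 0) := by
  have h3 : Tendsto (fun n => ENNReal.ofReal C * eLpNorm (fun z => an n z - a z) 2 volume) atTop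
      (𝓝 0) := by
    have := (ENNReal.Tendsto.const_mul (a := ENNReal.ofReal C) hl (Or.inr (by simp)))
    simpa using this
  refine tendsto_of_tendsto_of_tendsto_of_le_of_le tendsto_const_nhds h3 (fun n => bot_le) ?_
  intro n
  refine eLpNorm_le_mul_eLpNorm_of_ae_le_mul ?_ 2
  filter_upwards [hbd] with z hz
  rw [← sub_smul, norm_smul, mul_comm]
  exact mul_le_mul_of_nonneg_right hz (norm_nonneg _)

theorem IsTest.exists_bound (h : IsTest Ω φ) : ∃ C : ℝ, 0 ≤ C ∧ (∀ z, |φ z| ≤ C) ∧
    ∀ z, ‖gradient φ z‖ ≤ C := by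
  obtain ⟨C1, h1⟩ := h.continuous.bounded_above_of_compact_support h.2.1
  obtain ⟨C2, h2⟩ := h.continuous_gradient.bounded_above_of_compact_support
    h.gradient_hasCompactSupport
  exact ⟨max (max C1 C2) 0, le_max_right _ _, fun z => (h1 z).trans
    ((le_max_left _ _).trans (le_max_left _ _)), fun z => (h2 z).trans
    ((le_max_right _ _).trans (le_max_left _ _))⟩

/-- Limits of sums. -/
theorem tendsto_eLpNorm_add {F : Type*} [NormedAddCommGroup F] {an bn : ℕ → E → F} {a b : E → F}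
    (han : ∀ n, AEStronglyMeasurable (an n) volume) (hbn : ∀ n, AEStronglyMeasurable (bn n) volume)
    (ha : AEStronglyMeasurable a volume) (hb : AEStronglyMeasurable b volume)
    (h1 : Tendsto (fun n => eLpNorm (fun z => an n z - a z) 2 volume) atTop (𝓝 0))
    (h2 : Tendsto (fun n => eLpNorm (fun z => bn n z - b z) 2 volume) atTop (𝓝 0)) :
    Tendsto (fun n => eLpNorm (fun z => an n z + bn n z - (a z + b z)) 2 volume) atTop (𝓝 0) := by
  have hs := h1.add h2
  rw [add_zero] at hs
  refine tendsto_of_tendsto_of_tendsto_of_le_of_le tendsto_const_nhds hs (fun n => bot_le) ?_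
  intro n
  have e : (fun z => an n z + bn n z - (a z + b z)) =
      (fun z => an n z - a z) + fun z => bn n z - b z := by
    ext1 z; simp only [Pi.add_apply]; abel
  simp only [e]
  exact eLpNorm_add_le ((han n).sub ha) ((hbn n).sub hb) (by norm_num)

/-- Product of a test function with an element of `H¹₀`. -/
theorem H10.test_mul (hφ : IsTest Ω φ) (h : H10 Ω' v H) :
    H10 (Ω ∩ Ω') (fun z => φ z * v z) (fun z => φ z • H z + v z • gradient φ z) := by
  obtain ⟨ψ, h1, h2, h3⟩ := h.approx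
  obtain ⟨C, hC0, hC1, hC2⟩ := hφ.exists_bound
  have hφm : AEStronglyMeasurable φ volume := hφ.continuous.aestronglyMeasurable
  obtain ⟨a1, a2⟩ := tendsto_eLpNorm_smul (an := fun _ => φ) (a := φ) (Gn := ψ) (G := v) (C := C)
    (fun n => hφm) (fun n => Eventually.of_forall hC1)
    (Eventually.of_forall fun z => tendsto_const_nhds) h.1 (fun n => (h1 n).memLp 2) h2
  obtain ⟨b1, b2⟩ := tendsto_eLpNorm_smul (an := fun _ => φ) (a := φ)
    (Gn := fun n => gradient (ψ n)) (G := H) (C := C)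
    (fun n => hφm) (fun n => Eventually.of_forall hC1)
    (Eventually.of_forall fun z => tendsto_const_nhds) h.2 (fun n => (h1 n).memLp_gradient 2) h3
  have c2 := tendsto_eLpNorm_smul_right (an := ψ) (a := v) (G := gradient φ) (C := C)
    (Eventually.of_forall hC2) h2
  have c1 : MemLp (fun z => v z • gradient φ z) 2 volume := by
    refine MemLp.of_le_mul (g := v) (c := C) h.1 (h.1.1.smul (hφ.memLp_gradient 2).1)
      (Eventually.of_forall fun z => ?_)
    rw [norm_smul, mul_comm]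
    exact mul_le_mul_of_nonneg_right (hC2 z) (norm_nonneg _)
  refine ⟨a1, b1.add c1, fun n z => φ z * ψ n z, fun n => hφ.mul (h1 n), a2, ?_⟩
  have := tendsto_eLpNorm_add (fun n => hφm.smul ((h1 n).memLp_gradient 2).1)
    (fun n => ((h1 n).memLp 2).1.smul (hφ.memLp_gradient 2).1) b1.1 c1.1 b2 c2
  refine this.congr fun n => ?_
  congr 1
  ext1 z
  rw [gradient_mul' (hφ.differentiable z) ((h1 n).differentiable z)]
  rfl

/-- Product rule with a smooth truncation. -/
theorem H10.comp_mul (h : H10 Ω u G) (h' : H10 Ω' v H) {C : ℝ} (hv : ∀ᵐ z, |v z| ≤ C)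
    {θ : ℝ → ℝ} (hθ : ContDiff ℝ ∞ θ) (hθ0 : θ 0 = 0) {M : ℝ} (hM : ∀ t, |θ t| ≤ M)
    (hM' : ∀ t, |deriv θ t| ≤ M) :
    H10 (Ω ∩ Ω') (fun z => θ (u z) * v z)
      (fun z => θ (u z) • H z + v z • (deriv θ (u z) • G z)) := by
  obtain ⟨φ, h1, h2, h3, h4, h5⟩ := h.exists_approx_ae
  have hθc : Continuous θ := hθ.continuous
  have hθ' : Continuous (deriv θ) := hθ.continuous_deriv (by simp)
  have hφm : ∀ n, AEStronglyMeasurable (fun z => θ (φ n z)) volume := fun n =>
    (hθc.comp (h1 n).continuous).aestronglyMeasurable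
  have hlim : ∀ᵐ z, Tendsto (fun n => θ (φ n z)) atTop (𝓝 (θ (u z))) := by
    filter_upwards [h4] with z hz
    exact (hθc.tendsto _).comp hz
  obtain ⟨a1, a2⟩ := tendsto_eLpNorm_smul (an := fun n z => θ (φ n z)) (a := fun z => θ (u z))
    (Gn := fun _ => v) (G := v) (C := M) hφm (fun n => Eventually.of_forall fun z => hM _) hlim
    h'.1 (fun n => h'.1) (by simp)
  obtain ⟨b1, b2⟩ := tendsto_eLpNorm_smul (an := fun n z => θ (φ n z)) (a := fun z => θ (u z))
    (Gn := fun _ => H) (G := H) (C := M) hφm (fun n => Eventually.of_forall fun z => hM _) hlim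
    h'.2 (fun n => h'.2) (by simp)
  have hvm : ∀ n, AEStronglyMeasurable (fun z => v z * deriv θ (φ n z)) volume := fun n =>
    h'.1.1.mul (hθ'.comp (h1 n).continuous).aestronglyMeasurable
  obtain ⟨c1, c2⟩ := tendsto_eLpNorm_smul (an := fun n z => v z * deriv θ (φ n z))
    (a := fun z => v z * deriv θ (u z)) (Gn := fun n => gradient (φ n)) (G := G) (C := C * M)
    hvm (fun n => by
      filter_upwards [hv] with z hz
      rw [abs_mul]
      exact mul_le_mul hz (hM' _) (abs_nonneg _) ((abs_nonneg _).trans hz)) (by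
      filter_upwards [h4] with z hz
      exact ((hθ'.tendsto _).comp hz).const_mul _) h.2 (fun n => (h1 n).memLp_gradient 2) h3
  have d := tendsto_eLpNorm_add (fun n => (hφm n).smul h'.2.1)
    (fun n => (hvm n).smul ((h1 n).memLp_gradient 2).1) b1.1 c1.1 b2 c2
  have key : H10 (Ω ∩ Ω') (fun z => θ (u z) * v z)
      (fun z => θ (u z) • H z + (v z * deriv θ (u z)) • G z) := by
    refine H10.of_tendsto (un := fun n z => θ (φ n z) * v z)
      (Gn := fun n z => θ (φ n z) • H z + (v z * deriv θ (φ n z)) • gradient (φ n) z)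
      (fun n => ?_) a1 (b1.add c1) a2 d
    have := H10.test_mul ((h1 n).comp hθ hθ0) h'
    refine this.congr (by rfl) (Eventually.of_forall fun z => ?_)
    simp only
    rw [gradient_comp' ((h1 n).differentiable z) (hθ.differentiable (by simp) _), smul_smul]
  refine key.congr (by rfl) (Eventually.of_forall fun z => ?_)
  simp only
  rw [smul_smul]

/-- Rational truncation. -/
noncomputable def tr (ε t : ℝ) : ℝ := t / (1 + ε * t ^ 2)

theorem tr_pos {ε : ℝ} (hε : 0 < ε) (t : ℝ) : 0 < 1 + ε * t ^ 2 := by positivity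

theorem tr_hasDerivAt {ε : ℝ} (hε : 0 < ε) (t : ℝ) :
    HasDerivAt (tr ε) ((1 - ε * t ^ 2) / (1 + ε * t ^ 2) ^ 2) t := by
  have h1 : HasDerivAt (fun t : ℝ => 1 + ε * t ^ 2) (ε * (2 * t)) t := by
    simpa using ((hasDerivAt_pow 2 t).const_mul ε).const_add 1
  have h2 := (hasDerivAt_id t).div h1 (tr_pos hε t).ne'
  refine h2.congr_deriv ?_
  simp only [id]
  congr 1
  ring

theorem tr_contDiff {ε : ℝ} (hε : 0 < ε) : ContDiff ℝ ∞ (tr ε) :=
  contDiff_id.div (contDiff_const.add (contDiff_const.mul (contDiff_id.pow 2)))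
    fun t => (tr_pos hε t).ne'

theorem tr_deriv_bound {ε : ℝ} (hε : 0 < ε) (t : ℝ) : |deriv (tr ε) t| ≤ 1 := by
  rw [(tr_hasDerivAt hε t).deriv, abs_div, abs_of_pos (pow_pos (tr_pos hε t) 2),
    div_le_one (pow_pos (tr_pos hε t) 2), abs_le]
  have : 0 ≤ ε * t ^ 2 := by positivity
  constructor <;> nlinarith

theorem tr_abs_le {ε : ℝ} (hε : 0 < ε) (t : ℝ) : |tr ε t| ≤ |t| := by
  rw [tr, abs_div, abs_of_pos (tr_pos hε t)]
  apply div_le_self (abs_nonneg _)
  have : 0 ≤ ε * t ^ 2 := by positivity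
  linarith

theorem tr_bound {ε : ℝ} (hε : 0 < ε) (t : ℝ) : |tr ε t| ≤ 1 + 1 / ε := by
  rw [tr, abs_div, abs_of_pos (tr_pos hε t), div_le_iff₀ (tr_pos hε t)]
  have h1 : 0 < 1 / ε := by positivity
  have h2 : (1 + 1 / ε) * (1 + ε * t ^ 2) = 1 + ε * t ^ 2 + 1 / ε + t ^ 2 := by
    field_simp
    ring
  rw [h2]
  have h3 : 0 ≤ ε * t ^ 2 := by positivity
  nlinarith [sq_abs t, sq_nonneg (|t| - 1), abs_nonneg t]

theorem tr_tendsto {εn : ℕ → ℝ} (hl : Tendsto εn atTop (𝓝 0)) (t : ℝ) :
    Tendsto (fun n => tr (εn n) t) atTop (𝓝 t) := by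
  have h1 : Tendsto (fun n => 1 + εn n * t ^ 2) atTop (𝓝 (1 + 0 * t ^ 2)) :=
    (hl.mul_const _).const_add 1
  have h2 := (tendsto_const_nhds (x := t)).div h1 (by simp)
  simpa [tr, Pi.div_def] using h2

theorem tr_deriv_tendsto {εn : ℕ → ℝ} (hε : ∀ n, 0 < εn n) (hl : Tendsto εn atTop (𝓝 0)) (t : ℝ) :
    Tendsto (fun n => deriv (tr (εn n)) t) atTop (𝓝 1) := by
  simp only [(tr_hasDerivAt (hε _) t).deriv]
  have h1 : Tendsto (fun n => 1 + εn n * t ^ 2) atTop (𝓝 (1 + 0 * t ^ 2)) :=
    (hl.mul_const _).const_add 1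
  have h2 : Tendsto (fun n => 1 - εn n * t ^ 2) atTop (𝓝 (1 - 0 * t ^ 2)) :=
    (hl.mul_const _).const_sub 1
  have h3 := h2.div (h1.pow 2) (by simp)
  simpa [Pi.div_def] using h3

theorem H10.mul (h : H10 Ω u G) (h' : H10 Ω' v H) {C : ℝ} (hv : ∀ᵐ z, |v z| ≤ C)
    (hL : MemLp (fun z => u z • H z) 2 volume) :
    H10 (Ω ∩ Ω') (fun z => u z * v z) (fun z => u z • H z + v z • G z) := by
  have key : ∀ n : ℕ, H10 (Ω ∩ Ω') (fun z => tr (1 / ((n : ℝ) + 1)) (u z) * v z)
      (fun z => tr (1 / ((n : ℝ) + 1)) (u z) • H z +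
        v z • (deriv (tr (1 / ((n : ℝ) + 1))) (u z) • G z)) := by
    intro n
    have hε := eps_pos n
    exact h.comp_mul h' hv (tr_contDiff hε) (by simp [tr]) (M := 1 + 1 / (1 / ((n : ℝ) + 1)))
      (tr_bound hε) (fun t => (tr_deriv_bound hε t).trans (by
        have : 0 < 1 / (1 / ((n : ℝ) + 1)) := by positivity
        linarith))
  refine H10.of_dominated key (b := fun z => C * ‖u z‖)
    (B := fun z => ‖u z • H z‖ + C * ‖G z‖) (h.1.norm.const_mul C)
    (hL.norm.add (h.2.norm.const_mul C)) (fun n => ?_) (fun n => ?_) ?_ ?_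
  · filter_upwards [hv] with z hz
    rw [abs_mul, mul_comm]
    exact mul_le_mul hz (tr_abs_le (eps_pos n) _) (abs_nonneg _) ((abs_nonneg _).trans hz)
  · filter_upwards [hv] with z hz
    refine (norm_add_le _ _).trans (add_le_add ?_ ?_)
    · rw [norm_smul, norm_smul]
      exact mul_le_mul_of_nonneg_right (tr_abs_le (eps_pos n) _) (norm_nonneg _)
    · rw [norm_smul, norm_smul]
      refine mul_le_mul hz ?_ (by positivity) ((abs_nonneg _).trans hz)
      calc ‖deriv (tr (1 / ((n : ℝ) + 1))) (u z)‖ * ‖G z‖ ≤ 1 * ‖G z‖ :=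
            mul_le_mul_of_nonneg_right (tr_deriv_bound (eps_pos n) _) (norm_nonneg _)
        _ = ‖G z‖ := one_mul _
  · exact Eventually.of_forall fun z => (tr_tendsto eps_tendsto _).mul_const _
  · refine Eventually.of_forall fun z => ?_
    have h1 := ((tr_tendsto eps_tendsto (u z)).smul_const (H z)).add
      (((tr_deriv_tendsto eps_pos eps_tendsto (u z)).smul_const (G z)).const_smul (v z))
    simpa using h1

/-- Chain rule for nonnegative functions. -/
theorem H10.comp_nonneg (h : H10 Ω u G) (hu : ∀ᵐ z, 0 ≤ u z) {F f : ℝ → ℝ}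
    (hF : ∀ t, 0 ≤ t → HasDerivAt F (f t) t) (hf : ContinuousOn f (Ici 0)) (hF0 : F 0 = 0) {C : ℝ}
    (hC : ∀ t, 0 ≤ t → |f t| ≤ C) : H10 Ω (fun z => F (u z)) (fun z => f (u z) • G z) := by
  have hfc : Continuous fun t => f (Max.max t 0) :=
    hf.comp_continuous (continuous_id.max continuous_const) (fun t => mem_Ici.2 (le_max_right _ _))
  let F' : ℝ → ℝ := fun t => ∫ s in (0 : ℝ)..t, f (Max.max s 0)
  have hd : deriv F' = fun t => f (Max.max t 0) := by
    ext1 t
    exact hfc.deriv_integral _ 0 t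
  have hdiff : Differentiable ℝ F' := fun t =>
    (hfc.integral_hasStrictDerivAt 0 t).hasDerivAt.differentiableAt
  have hsm : ContDiff ℝ 1 F' := by
    rw [contDiff_one_iff_deriv]
    exact ⟨hdiff, by rw [hd]; exact hfc⟩
  have h1 := h.comp hsm intervalIntegral.integral_same (C := C) (fun t => by
    rw [hd]; exact hC _ (le_max_right _ _))
  have h2 : ∀ t, 0 ≤ t → F' t = F t := by
    intro t ht
    have : F' t = ∫ s in (0 : ℝ)..t, f s := by
      apply intervalIntegral.integral_congr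
      intro s hs
      rw [uIcc_of_le ht] at hs
      simp only [max_eq_left hs.1]
    rw [this, intervalIntegral.integral_eq_sub_of_hasDerivAt (f := F) (fun s hs => by
      rw [uIcc_of_le ht] at hs
      exact hF s hs.1) ((hf.mono (by
        rw [uIcc_of_le ht]
        exact Icc_subset_Ici_self)).intervalIntegrable), hF0, sub_zero]
  refine h1.congr ?_ ?_
  · filter_upwards [hu] with z hz using h2 _ hz
  · filter_upwards [hu] with z hz
    simp only [hd, max_eq_left hz]

theorem H10.div_add (hφ : IsTest U φ) (h : H10 U u G) (hu : ∀ᵐ z, 0 ≤ u z) {s : ℝ} (hs : 0 < s) :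
    H10 U (fun z => φ z / (u z + s))
      (fun z => (1 / (u z + s)) • gradient φ z - (φ z / (u z + s) ^ 2) • G z) := by
  have h1 := h.comp_nonneg hu (F := fun t => 1 / (t + s) - 1 / s) (f := fun t => - 1 / (t + s) ^ 2)
    (C := 1 / s ^ 2) (fun t ht => ?_) ?_ (by simp) (fun t ht => ?_)
  · have h2 := (H10.test_mul hφ h1).add (hφ.h10.const_mul (1 / s) |>.mono (by simp : U ⊆ U ∩ U))
    rw [inter_self] at h2
    refine h2.congr (Eventually.of_forall fun z => ?_) (Eventually.of_forall fun z => ?_)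
    · simp only
      ring
    · simp only [smul_smul, sub_smul, mul_div_assoc']
      rw [show φ z * -1 / (u z + s) ^ 2 = - (φ z / (u z + s) ^ 2) by ring, neg_smul]
      abel
  · have h3 : HasDerivAt (fun t => t + s) 1 t := (hasDerivAt_id t).add_const s
    have h4 := (h3.inv (by positivity : t + s ≠ 0)).sub_const (1 / s)
    simpa using h4
  · apply ContinuousOn.div continuousOn_const (by fun_prop)
    intro t ht
    have : 0 < t + s := by
      have := mem_Ici.1 ht
      linarith
    positivity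
  · rw [abs_div, abs_neg, abs_one, abs_of_nonneg (by positivity)]
    apply one_div_le_one_div_of_le (by positivity)
    apply pow_le_pow_left₀ hs.le
    linarith

end Pool.Agent.H4.NM
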