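import Pool.Agent.H4.NM.Riesz
import Pool.Agent.H4.NM.Mul
import Pool.Agent.H4.NM.Tors

/-!
# NM-01: Sobolev-type inequalities in dimension `d ≥ 2` (MP_898b17_an, all dimensions)

Model: the plane file `Pool/Agent/H2/Ev/Ineq.lean` (`gns`, `poincare_test`, `poincare`,
`lady_mul`); copy its structure.

## Paper proof

`d = finrank ℝ E ≥ 2`, `d' = d / (d - 1)`.
(GNS) Mathlib's `MeasureTheory.lintegral_pow_le_pow_lintegral_fderiv` (`p = d'`, Hölder conjugate of
`finrank`): for `ψ ∈ C_c^∞`: `∫ |ψ|^{d'} ≤ C (∫ |∇ψ|)^{d'}`.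
Apply it to `ψ = φ²`, `∇ψ = 2 φ ∇φ`: `(∫ |φ|^{2d'})^{1/d'} ≤ 2 C^{1/d'} ‖φ‖₂ ‖∇φ‖₂`.

`poincare`: for `φ ∈ C_c^∞(Ω)` Hölder with exponents `d', d` gives
`∫ φ² ≤ |Ω|^{1/d} (∫ |φ|^{2d'})^{1/d'} ≤ C' |Ω|^{1/d} ‖φ‖₂ ‖∇φ‖₂`, so `‖φ‖₂ ≤ C' |Ω|^{1/d} ‖∇φ‖₂`
(for `d = 2` the exponents are `2, 2`). Then density (`H10.approx`), both sides converge.

`sob_mul`: `∫ |f| φ² ≤ ‖f‖_d (∫ |φ|^{2d'})^{1/d'} ≤ C' ‖f‖_d ‖φ‖₂ ‖∇φ‖₂`, and if `|f| ≤ M`
(`M ≥ 0`) then `∫ |f|^d ≤ M^{d-2} ∫ f² ≤ M^{d-2} δ`. So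
`δ = (ε / C')^d / (M ^ (d - 2) + 1)` will do. For general `(u, G)` of `H¹₀(E)` take test functions
`φ n → u` in `H¹` and almost everywhere (`H10.exists_approx_ae`) and use Fatou
(`f` is bounded, so `f u²` is integrable because `u² ` is).
-/

open MeasureTheory Set Metric Filter Topology ContDiff Module
open scoped ENNReal NNReal RealInnerProductSpace

namespace Pool.Agent.H4.NM

variable {E : Type} [NormedAddCommGroup E] [InnerProductSpace ℝ E] [FiniteDimensional ℝ E]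
  [CompleteSpace E] [MeasurableSpace E] [BorelSpace E]

set_option linter.unusedSectionVars false

/-! ### Inequalities for test functions -/

theorem one_lt_finrank (hd : 2 ≤ finrank ℝ E) : (1 : ℝ) < finrank ℝ E := by
  have : (2 : ℝ) ≤ finrank ℝ E := by exact_mod_cast hd
  linarith

theorem sob_isTest_sq {Ω : Set E} {φ : E → ℝ} (h : IsTest Ω φ) : IsTest Ω (fun z => φ z ^ 2) := by
  have := h.mul h
  rw [inter_self] at this
  have e : (fun z => φ z ^ 2) = fun z => φ z * φ z := by ext z; ring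
  rwa [e]

theorem sob_gradient_sq {Ω : Set E} {φ : E → ℝ} (h : IsTest Ω φ) (z : E) :
    gradient (fun z => φ z ^ 2) z = (2 * φ z) • gradient φ z := by
  have := gradient_mul' (h.differentiable z) (h.differentiable z)
  simp only [sq]
  rw [this, two_mul, add_smul]

/-- Gagliardo-Nirenberg-Sobolev, real integrals. -/
theorem sob_gns {p : ℝ} (hp : Real.HolderConjugate (finrank ℝ E : ℝ) p) :
    ∃ C : ℝ, 0 < C ∧ ∀ φ : E → ℝ, IsTest univ φ →
    ∫ z, |φ z| ^ p ≤ C * (∫ z, ‖gradient φ z‖) ^ p := by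
  have hp1 : 1 < p := hp.symm.lt
  have hp0 : 0 < p := by linarith
  refine ⟨(lintegralPowLePowLIntegralFDerivConst (volume : Measure E) p : ℝ≥0) + 1,
    by positivity, fun φ h => ?_⟩
  have h1 := lintegral_pow_le_pow_lintegral_fderiv (μ := (volume : Measure E)) (u := φ)
    (h.1.of_le (by simp)) h.2.1 hp
  have h2 : ∫⁻ z, ‖φ z‖ₑ ^ p = ENNReal.ofReal (∫ z, |φ z| ^ p) := by
    rw [ofReal_integral_eq_lintegral_ofReal]
    · refine lintegral_congr fun z => ?_
      rw [← ofReal_norm, ENNReal.ofReal_rpow_of_nonneg (norm_nonneg _) hp0.le]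
      rfl
    · have := (h.memLp (ENNReal.ofReal p)).integrable_norm_rpow
        (by simpa using hp0) (by simp)
      rwa [ENNReal.toReal_ofReal hp0.le] at this
    · exact Eventually.of_forall fun z => by positivity
  have h3 : ∫⁻ z, ‖fderiv ℝ φ z‖ₑ = ENNReal.ofReal (∫ z, ‖gradient φ z‖) := by
    rw [ofReal_integral_eq_lintegral_ofReal]
    · refine lintegral_congr fun z => ?_
      rw [← ofReal_norm, norm_gradient]
    · exact (memLp_one_iff_integrable.1 (h.memLp_gradient 1)).norm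
    · exact Eventually.of_forall fun z => norm_nonneg _
  rw [h2, h3] at h1
  have h0 : 0 ≤ ∫ z, ‖gradient φ z‖ := by positivity
  have h4 : (lintegralPowLePowLIntegralFDerivConst (volume : Measure E) p : ℝ≥0∞) *
      ENNReal.ofReal (∫ z, ‖gradient φ z‖) ^ p =
      ENNReal.ofReal ((lintegralPowLePowLIntegralFDerivConst (volume : Measure E) p : ℝ≥0) *
        (∫ z, ‖gradient φ z‖) ^ p) := by
    rw [ENNReal.ofReal_mul (by positivity), ENNReal.ofReal_coe_nnreal,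
      ENNReal.ofReal_rpow_of_nonneg h0 hp0.le]
  rw [h4] at h1
  have h5 := (ENNReal.ofReal_le_ofReal_iff (by positivity)).1 h1
  refine h5.trans ?_
  gcongr
  linarith

theorem sob_cauchy {F : Type*} [NormedAddCommGroup F] {f : E → ℝ} {g : E → F}
    (hf : MemLp f 2 volume) (hg : MemLp g 2 volume) :
    ∫ z, |f z| * ‖g z‖ ≤ Real.sqrt (∫ z, f z ^ 2) * Real.sqrt (∫ z, ‖g z‖ ^ 2) := by
  have h := integral_mul_le_Lp_mul_Lq_of_nonneg (μ := (volume : Measure E)) (f := fun z => |f z|)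
    (g := fun z => ‖g z‖) (p := 2) (q := 2) Real.HolderConjugate.two_two
    (Eventually.of_forall fun z => abs_nonneg _) (Eventually.of_forall fun z => norm_nonneg _)
    (by simpa using hf.norm) (by simpa using hg.norm)
  simp only [Real.rpow_ofNat, sq_abs] at h
  rwa [← Real.sqrt_eq_rpow, ← Real.sqrt_eq_rpow] at h

/-- The Sobolev inequality for the square of a test function. -/
theorem sob_test {p : ℝ} (hp : Real.HolderConjugate (finrank ℝ E : ℝ) p) :
    ∃ C : ℝ, 0 < C ∧ ∀ φ : E → ℝ, IsTest univ φ →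
    (∫ z, (φ z ^ 2) ^ p) ^ (1 / p) ≤
      C * (Real.sqrt (∫ z, φ z ^ 2) * Real.sqrt (∫ z, ‖gradient φ z‖ ^ 2)) := by
  obtain ⟨C, hC, h⟩ := sob_gns hp
  have hp1 : 1 < p := hp.symm.lt
  have hp0 : 0 < p := by linarith
  refine ⟨C ^ (1 / p) * 2, by positivity, fun φ hφ => ?_⟩
  have h1 := h _ (sob_isTest_sq hφ)
  have e1 : ∀ z, |φ z ^ 2| = φ z ^ 2 := fun z => abs_of_nonneg (sq_nonneg _)
  have e2 : ∀ z, ‖gradient (fun z => φ z ^ 2) z‖ = 2 * (|φ z| * ‖gradient φ z‖) := fun z => by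
    rw [sob_gradient_sq hφ, norm_smul, Real.norm_eq_abs, abs_mul]
    simp only [Nat.abs_ofNat]
    ring
  simp only [e1, e2] at h1
  rw [integral_const_mul] at h1
  have h2 := sob_cauchy (hφ.memLp 2) (hφ.memLp_gradient 2)
  have h3 : ∫ z, (φ z ^ 2) ^ p ≤
      C * (2 * (Real.sqrt (∫ z, φ z ^ 2) * Real.sqrt (∫ z, ‖gradient φ z‖ ^ 2))) ^ p := by
    refine h1.trans ?_
    have h0 : 0 ≤ ∫ z, |φ z| * ‖gradient φ z‖ := by positivity
    gcongr
  have h4 : (∫ z, (φ z ^ 2) ^ p) ^ (1 / p) ≤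
      (C * (2 * (Real.sqrt (∫ z, φ z ^ 2) * Real.sqrt (∫ z, ‖gradient φ z‖ ^ 2))) ^ p) ^ (1 / p) :=
    Real.rpow_le_rpow (by positivity) h3 (by positivity)
  refine h4.trans_eq ?_
  rw [Real.mul_rpow hC.le (by positivity), ← Real.rpow_mul (by positivity),
    mul_one_div_cancel hp0.ne', Real.rpow_one]
  ring

/-- Hölder with the Sobolev exponent. -/
theorem sob_holder {p : ℝ} (hp : Real.HolderConjugate (finrank ℝ E : ℝ) p) :
    ∃ C : ℝ, 0 < C ∧ ∀ (g : E → ℝ) (φ : E → ℝ), (∀ᵐ z, 0 ≤ g z) →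
    MemLp g (ENNReal.ofReal (finrank ℝ E : ℝ)) volume → IsTest univ φ →
    ∫ z, g z * φ z ^ 2 ≤ (∫ z, g z ^ (finrank ℝ E : ℝ)) ^ (1 / (finrank ℝ E : ℝ)) *
      (C * (Real.sqrt (∫ z, φ z ^ 2) * Real.sqrt (∫ z, ‖gradient φ z‖ ^ 2))) := by
  obtain ⟨C, hC, h⟩ := sob_test hp
  refine ⟨C, hC, fun g φ hg0 hg hφ => ?_⟩
  have h1 := integral_mul_le_Lp_mul_Lq_of_nonneg (μ := (volume : Measure E)) (f := g)
    (g := fun z => φ z ^ 2) hp hg0 (Eventually.of_forall fun z => sq_nonneg _) hg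
    ((sob_isTest_sq hφ).memLp _)
  refine h1.trans ?_
  refine mul_le_mul_of_nonneg_left (h φ hφ) ?_
  refine Real.rpow_nonneg (integral_nonneg_of_ae ?_) _
  filter_upwards [hg0] with z hz
  exact Real.rpow_nonneg hz _

/-- Poincaré inequality on sets of finite measure, with the scaling of the measure. -/
theorem poincare (hd : 2 ≤ finrank ℝ E) : ∃ C : ℝ, 0 < C ∧ ∀ (Ω : Set E) (u : E → ℝ) (G : E → E),
    IsOpen Ω → volume Ω < ⊤ → H10 Ω u G →
    ∫ z, u z ^ 2 ≤ C * (volume Ω).toReal ^ (2 / (finrank ℝ E : ℝ)) * ∫ z, ‖G z‖ ^ 2 := by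
  have hd1 := one_lt_finrank hd
  have hd0 : (0 : ℝ) < finrank ℝ E := by linarith
  obtain ⟨C, hC, h⟩ := sob_holder (Real.HolderConjugate.conjExponent hd1)
  refine ⟨C ^ 2, by positivity, fun Ω u G hΩ hfin hu => ?_⟩
  obtain ⟨φ, h1, h2, h3⟩ := hu.approx
  refine le_of_tendsto_of_tendsto' (hu.tendsto_integral_sq h1 h2)
    ((hu.tendsto_integral_grad h1 h3).const_mul _) fun n => ?_
  have hφ := h1 n
  set A := ∫ z, φ n z ^ 2 with hA
  set B := ∫ z, ‖gradient (φ n) z‖ ^ 2 with hB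
  have hA0 : 0 ≤ A := by positivity
  have hB0 : 0 ≤ B := by positivity
  have hind : MemLp (Ω.indicator (fun _ => (1 : ℝ))) (ENNReal.ofReal (finrank ℝ E : ℝ))
      (volume : Measure E) := memLp_indicator_const _ hΩ.measurableSet 1 (Or.inr hfin.ne)
  have h4 := h (Ω.indicator (fun _ => (1 : ℝ))) (φ n)
    (Eventually.of_forall fun z => indicator_nonneg (fun _ _ => zero_le_one) z) hind
    (hφ.mono (subset_univ _))
  have e1 : ∫ z, Ω.indicator (fun _ => (1 : ℝ)) z * φ n z ^ 2 = A := by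
    refine integral_congr_ae (Eventually.of_forall fun z => ?_)
    by_cases hz : z ∈ Ω
    · simp [hz]
    · simp [hz, hφ.ae_zero z hz]
  have e2 : ∫ z, Ω.indicator (fun _ => (1 : ℝ)) z ^ (finrank ℝ E : ℝ) = (volume Ω).toReal := by
    have e : ∀ z, Ω.indicator (fun _ => (1 : ℝ)) z ^ (finrank ℝ E : ℝ) =
        Ω.indicator (fun _ => (1 : ℝ)) z := by
      intro z
      by_cases hz : z ∈ Ω
      · simp [hz]
      · simp only [hz, not_false_eq_true, indicator_of_notMem]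
        exact Real.zero_rpow hd0.ne'
    simp only [e]
    rw [integral_indicator hΩ.measurableSet]
    simp [Measure.real]
  rw [e1, e2, ← hA, ← hB] at h4
  set V := (volume Ω).toReal with hV
  have hV0 : 0 ≤ V := ENNReal.toReal_nonneg
  set c := V ^ (1 / (finrank ℝ E : ℝ)) with hc
  have hc0 : 0 ≤ c := by positivity
  have hc2 : V ^ (2 / (finrank ℝ E : ℝ)) = c ^ 2 := by
    rw [hc, ← Real.rpow_natCast, ← Real.rpow_mul hV0]
    congr 1
    push_cast
    ring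
  rw [hc2]
  have h5 : Real.sqrt A ≤ c * C * Real.sqrt B := by
    rcases (Real.sqrt_nonneg A).eq_or_lt with h0 | h0
    · rw [← h0]
      positivity
    · refine le_of_mul_le_mul_left ?_ h0
      calc Real.sqrt A * Real.sqrt A = A := Real.mul_self_sqrt hA0
        _ ≤ _ := h4
        _ = _ := by ring
  calc A = Real.sqrt A ^ 2 := (Real.sq_sqrt hA0).symm
    _ ≤ (c * C * Real.sqrt B) ^ 2 := by gcongr
    _ = C ^ 2 * c ^ 2 * Real.sqrt B ^ 2 := by ring
    _ = C ^ 2 * c ^ 2 * B := by rw [Real.sq_sqrt hB0]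

/-- A bounded function which is small in `L²` is a small form perturbation. -/
theorem sob_mul (hd : 2 ≤ finrank ℝ E) {M ε : ℝ} (hM : 0 ≤ M) (hε : 0 < ε) :
    ∃ δ : ℝ, 0 < δ ∧ ∀ f : E → ℝ, MemLp f 2 volume → (∀ᵐ z, |f z| ≤ M) → ∫ z, f z ^ 2 ≤ δ →
      ∀ (u : E → ℝ) (G : E → E), H10 univ u G →
        ∫ z, |f z| * u z ^ 2 ≤ ε * Real.sqrt (∫ z, u z ^ 2) * Real.sqrt (∫ z, ‖G z‖ ^ 2) := by
  have hd1 := one_lt_finrank hd
  have hd0 : (0 : ℝ) < finrank ℝ E := by linarith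
  obtain ⟨C, hC, h⟩ := sob_holder (Real.HolderConjugate.conjExponent hd1)
  set d := finrank ℝ E with hdd
  refine ⟨(ε / C) ^ d / (M ^ (d - 2) + 1), by positivity, fun f hf hfM hfδ u G hu => ?_⟩
  obtain ⟨φ, h1, h2, h3, h4, -⟩ := hu.exists_approx_ae
  -- `|f|` in `L^d`
  have hpt : ∀ᵐ z, |f z| ^ (d : ℝ) ≤ M ^ (d - 2) * f z ^ 2 := by
    filter_upwards [hfM] with z hz
    rw [Real.rpow_natCast]
    calc |f z| ^ d = |f z| ^ (d - 2) * |f z| ^ 2 := by rw [← pow_add, Nat.sub_add_cancel hd]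
      _ ≤ M ^ (d - 2) * |f z| ^ 2 := by gcongr
      _ = _ := by rw [sq_abs]
  have hfsq : Integrable (fun z => f z ^ 2) (volume : Measure E) := hf.integrable_sq
  have hfd : Integrable (fun z => |f z| ^ (d : ℝ)) (volume : Measure E) := by
    refine Integrable.mono' (hfsq.const_mul (M ^ (d - 2))) ?_ ?_
    · exact (hf.1.norm.aemeasurable.pow_const _).aestronglyMeasurable
    · filter_upwards [hpt] with z hz
      rw [Real.norm_of_nonneg (by positivity)]
      exact hz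
  have hfmem : MemLp (fun z => |f z|) (ENNReal.ofReal (d : ℝ)) (volume : Measure E) := by
    have hm : AEStronglyMeasurable (fun z => |f z|) (volume : Measure E) := hf.1.norm
    refine (integrable_norm_rpow_iff (p := ENNReal.ofReal (d : ℝ)) hm ?_ (by simp)).1 ?_
    · rw [Ne, ENNReal.ofReal_eq_zero, not_le]
      exact hd0
    · rw [ENNReal.toReal_ofReal hd0.le]
      simpa only [Real.norm_eq_abs, abs_abs] using hfd
  have hint : ∫ z, |f z| ^ (d : ℝ) ≤ (ε / C) ^ d := by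
    calc ∫ z, |f z| ^ (d : ℝ) ≤ ∫ z, M ^ (d - 2) * f z ^ 2 :=
          integral_mono_ae hfd (hfsq.const_mul _) hpt
      _ = M ^ (d - 2) * ∫ z, f z ^ 2 := integral_const_mul _ _
      _ ≤ M ^ (d - 2) * ((ε / C) ^ d / (M ^ (d - 2) + 1)) := by gcongr
      _ ≤ (ε / C) ^ d := by
        rw [← mul_div_assoc, div_le_iff₀ (by positivity)]
        have : 0 ≤ (ε / C) ^ d := by positivity
        nlinarith [this, pow_nonneg hM (d - 2)]
  have hrt : (∫ z, |f z| ^ (d : ℝ)) ^ (1 / (d : ℝ)) ≤ ε / C := by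
    calc (∫ z, |f z| ^ (d : ℝ)) ^ (1 / (d : ℝ)) ≤ ((ε / C) ^ d) ^ (1 / (d : ℝ)) :=
          Real.rpow_le_rpow (by positivity) hint (by positivity)
      _ = ε / C := by
        rw [← Real.rpow_natCast, ← Real.rpow_mul (by positivity), mul_one_div_cancel hd0.ne',
          Real.rpow_one]
  -- the limit
  obtain ⟨h5, h6⟩ := tendsto_eLpNorm_smul (an := fun (_ : ℕ) z => |f z|) (a := fun z => |f z|)
    (Gn := φ) (G := u) (C := M) (fun _ => hf.1.norm) (fun _ => by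
      filter_upwards [hfM] with z hz
      rwa [abs_abs]) (Eventually.of_forall fun z => tendsto_const_nhds) hu.1
    (fun n => (h1 n).memLp 2) h2
  have hφf : ∀ n, MemLp (fun z => |f z| • φ n z) 2 (volume : Measure E) := by
    intro n
    refine MemLp.of_le_mul (g := φ n) (c := M) ((h1 n).memLp 2)
      (hf.1.norm.smul ((h1 n).memLp 2).1) ?_
    filter_upwards [hfM] with z hz
    rw [norm_smul, Real.norm_eq_abs, abs_abs]
    gcongr
  have h7 := tendsto_integral_inner hφf (fun n => (h1 n).memLp 2) h5 hu.1 h6 h2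
  have e7 : ∀ g : E → ℝ, ∫ z, ⟪|f z| • g z, g z⟫ = ∫ z, |f z| * g z ^ 2 := by
    intro g
    congr 1
    ext z
    rw [real_inner_smul_left, real_inner_self_eq_norm_sq, Real.norm_eq_abs, sq_abs]
  simp only [e7] at h7
  have h8 : Tendsto (fun n => ε * Real.sqrt (∫ z, φ n z ^ 2) *
      Real.sqrt (∫ z, ‖gradient (φ n) z‖ ^ 2)) atTop
      (𝓝 (ε * Real.sqrt (∫ z, u z ^ 2) * Real.sqrt (∫ z, ‖G z‖ ^ 2))) :=
    (((Real.continuous_sqrt.tendsto _).comp (hu.tendsto_integral_sq h1 h2)).const_mul ε).mul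
      ((Real.continuous_sqrt.tendsto _).comp (hu.tendsto_integral_grad h1 h3))
  refine le_of_tendsto_of_tendsto' h7 h8 fun n => ?_
  have h9 := h (fun z => |f z|) (φ n) (Eventually.of_forall fun z => abs_nonneg _) hfmem (h1 n)
  refine h9.trans ?_
  set a := Real.sqrt (∫ z, φ n z ^ 2) with ha
  set b := Real.sqrt (∫ z, ‖gradient (φ n) z‖ ^ 2) with hb
  have ha0 : 0 ≤ a := Real.sqrt_nonneg _
  have hb0 : 0 ≤ b := Real.sqrt_nonneg _
  calc (∫ z, |f z| ^ (d : ℝ)) ^ (1 / (d : ℝ)) * (C * (a * b)) ≤ ε / C * (C * (a * b)) := by gcongr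
    _ = ε * a * b := by field_simp

end Pool.Agent.H4.NM
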