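import Pool.Agent.H4.NM.PerfMain
import Pool.Agent.H4.NM.Sob
import Pool.Agent.H4.NM.Norm1

/-!
# NM-27: `sup F_q ≥ 1 - δ` for `q` close to `1` (MP_898b17_an, all dimensions)

Model: `Pool/Agent/H63/Ev/LimitOne.lean` (`exists_test`, `limit_one_of`, the plane, unit square).

## Paper proof

`U = ball 0 ρ` with `|U| = 1` (`ρ = |B_1|^{-1/d}`). `ε = min δ 1 / 20` (say). `χ ∈ C_c^∞(U)`,
`0 ≤ χ ≤ 1`, `∫ χ ≥ 1 - ε`; `G = ∫ |∇χ|²`, `K = 1 + G/ε`. `φ₀ = χ / K`.
Potential: `V = K χ₁`, `χ₁ ∈ C_c^∞(U)`, `0 ≤ χ₁ ≤ 1`, `∫ χ₁ ≥ 1 - κ`, `κ` small, so that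
`f = 1_U (K - V)` has `0 ≤ f ≤ K` and `∫ f² ≤ K² κ ≤` the `δ` of `sob_mul` (`M = K`, small constant `ε₁`).
For test functions `φ` of `U`: `K ∫ φ² = ∫ V φ² + ∫ f φ² ≤ ∫ V φ² + ε₁ ‖φ‖ ‖∇φ‖
≤ ∫ V φ² + (ε₁/2)(∫ φ² + ∫ |∇φ|²)`, so (`V ≥ 0`)
`Λ ∫ φ² ≤ ∫ |∇φ|² + ∫ V φ²` with `Λ = (K - ε₁)/(1 + ε₁) ≥ (1 - ε) K` for `ε₁` small.
`perforation` with `φ₀` and `η = ε / K`: `c = Λ - η`,
`t = 2 ∫ φ₀ - ∫ |∇φ₀|² - ∫ V φ₀² - η ≥ (1 - 3ε)/K` (as in the model: `V ≤ K`), so `c t ≥ 1 - 6 ε` or so.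
`NoBetter`: `c t^q ≤ S |Ω'|^p ≤ S` (`|Ω'| ≤ 1`, `S > 0`, `p > 0`) and `c t^q → c t` as `q → 1`.
-/

open MeasureTheory Set Metric Filter Topology ContDiff Module
open scoped ENNReal NNReal RealInnerProductSpace

namespace Pool.Agent.H4.NM

variable {E : Type} [NormedAddCommGroup E] [InnerProductSpace ℝ E] [FiniteDimensional ℝ E]
  [CompleteSpace E] [MeasurableSpace E] [BorelSpace E]

set_option linter.unusedSectionVars false

open scoped Manifold in
theorem lo_exists_test {U : Set E} (hU : IsOpen U) (hvol : volume U = 1) {ε : ℝ} (hε : 0 < ε)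
    (_ : ε < 1) : ∃ χ : E → ℝ, IsTest U χ ∧ (∀ z, 0 ≤ χ z) ∧ (∀ z, χ z ≤ 1) ∧
      1 - ε ≤ ∫ z, χ z := by
  obtain ⟨K, hKU, hK, hKv⟩ := hU.exists_lt_isCompact (μ := volume)
    (r := ENNReal.ofReal (1 - ε)) (by
      rw [hvol, ← ENNReal.ofReal_one, ENNReal.ofReal_lt_ofReal_iff one_pos]
      linarith)
  obtain ⟨V, hV, hKV, hVU, hVc⟩ := exists_open_between_and_isCompact_closure hK hU hKU
  obtain ⟨f, hf0, hf1, hf⟩ := exists_contMDiffMap_zero_one_of_isClosed (n := ⊤) 𝓘(ℝ, E)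
    hV.isClosed_compl hK.isClosed (disjoint_left.2 fun x hx hx' => hx (hKV hx'))
  have hsup : Function.support (f : E → ℝ) ⊆ V := by
    intro z hz
    by_contra h
    exact hz (hf0 h)
  have hts : tsupport (f : E → ℝ) ⊆ closure V := closure_mono hsup
  have hcs : HasCompactSupport (f : E → ℝ) :=
    HasCompactSupport.of_support_subset_isCompact hVc (hsup.trans subset_closure)
  have hcd : ContDiff ℝ ∞ (f : E → ℝ) := f.contMDiff.contDiff
  refine ⟨f, ⟨hcd, hcs, hts.trans hVU⟩, fun z => (hf z).1, fun z => (hf z).2, ?_⟩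
  have hint : Integrable (f : E → ℝ) volume := hcd.continuous.integrable_of_hasCompactSupport hcs
  have h1 : (volume K).toReal ≤ ∫ z, f z := by
    have h2 : ∫ z in K, (1 : ℝ) = (volume K).toReal := by
      simp [Measure.real]
    rw [← h2]
    calc ∫ z in K, (1 : ℝ) = ∫ z in K, f z := by
          apply setIntegral_congr_fun hK.measurableSet
          intro z hz
          exact (hf1 hz).symm
      _ ≤ ∫ z, f z := setIntegral_le_integral hint (Eventually.of_forall fun z => (hf z).1)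
  refine le_trans ?_ h1
  rw [← ENNReal.ofReal_le_iff_le_toReal hK.measure_lt_top.ne]
  exact hKv.le

theorem lo_gradient_const_mul {f : E → ℝ} (hf : Differentiable ℝ f) (c : ℝ) (z : E) :
    gradient (fun z => c * f z) z = c • gradient f z := by
  unfold gradient
  rw [fderiv_const_mul (hf z), map_smulₛₗ]
  rfl

/-- A ball of volume one. -/
theorem lo_exists_ball (hd : 2 ≤ finrank ℝ E) : ∃ ρ : ℝ, 0 < ρ ∧ volume (ball (0 : E) ρ) = 1 := by
  have hn : finrank ℝ E ≠ 0 := by omega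
  have : Nontrivial E := nontrivial_of_finrank_pos (R := ℝ) (by omega)
  set b : ℝ := (volume (ball (0 : E) 1)).toReal with hb
  have hb0 : 0 < b :=
    ENNReal.toReal_pos (measure_ball_pos volume (0 : E) one_pos).ne' measure_ball_lt_top.ne
  refine ⟨(1 / b) ^ ((finrank ℝ E : ℝ)⁻¹), Real.rpow_pos_of_pos (by positivity) _, ?_⟩
  rw [Measure.addHaar_ball volume (0 : E) (Real.rpow_nonneg (by positivity) _),
    Real.rpow_inv_natCast_pow (by positivity) hn]
  have h1 : volume (ball (0 : E) 1) = ENNReal.ofReal b := by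
    rw [hb, ENNReal.ofReal_toReal measure_ball_lt_top.ne]
  rw [h1, ← ENNReal.ofReal_mul (by positivity)]
  rw [one_div, inv_mul_cancel₀ hb0.ne', ENNReal.ofReal_one]

/-- The potential: a form bound for a continuous potential close to the constant `K`. -/
theorem lo_potential (hd : 2 ≤ finrank ℝ E) {U : Set E} (hU : IsOpen U) (hvol : volume U = 1)
    {K ε : ℝ} (hK : 1 ≤ K) (hε : 0 < ε) (hε1 : ε < 1) :
    ∃ V : E → ℝ, Continuous V ∧ HasCompactSupport V ∧ tsupport V ⊆ U ∧ (∀ z, 0 ≤ V z) ∧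
      (∀ z, V z ≤ K) ∧ ∀ φ : E → ℝ, IsTest U φ →
        ((1 - ε) * K) * ∫ z, φ z ^ 2 ≤ (∫ z, ‖gradient φ z‖ ^ 2) + ∫ z, V z * φ z ^ 2 := by
  have hK0 : 0 < K := by linarith
  obtain ⟨δ₁, hδ₁, hsob⟩ := sob_mul (E := E) hd hK0.le hε
  set κ : ℝ := min (1 / 2) (δ₁ / K ^ 2) with hκ
  have hκ0 : 0 < κ := by positivity
  have hκ1 : κ < 1 := lt_of_le_of_lt (min_le_left _ _) (by norm_num)
  have hκδ : K ^ 2 * κ ≤ δ₁ := by
    have h1 : κ ≤ δ₁ / K ^ 2 := min_le_right _ _
    rw [le_div_iff₀ (by positivity)] at h1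
    linarith
  obtain ⟨χ, hχ, hχ0, hχ1, hχi⟩ := lo_exists_test hU hvol hκ0 hκ1
  have hχz : ∀ z, z ∉ U → χ z = 0 := hχ.ae_zero
  have hχint : Integrable χ volume := hχ.continuous.integrable_of_hasCompactSupport hχ.2.1
  have hUfin : volume U ≠ ⊤ := by rw [hvol]; exact ENNReal.one_ne_top
  refine ⟨fun z => K * χ z, continuous_const.mul hχ.continuous, (hχ.const_mul K).2.1,
    (hχ.const_mul K).2.2, fun z => mul_nonneg hK0.le (hχ0 z),
    fun z => mul_le_of_le_one_right hK0.le (hχ1 z), ?_⟩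
  set f : E → ℝ := U.indicator (fun z => K * (1 - χ z)) with hf
  have hfK : ∀ z, |f z| ≤ K := by
    intro z
    by_cases hz : z ∈ U
    · rw [hf, indicator_of_mem hz, abs_of_nonneg (mul_nonneg hK0.le (by linarith [hχ1 z]))]
      exact mul_le_of_le_one_right hK0.le (by linarith [hχ0 z])
    · rw [hf, indicator_of_notMem hz, abs_zero]
      exact hK0.le
  have hf0 : ∀ z, 0 ≤ f z := by
    intro z
    by_cases hz : z ∈ U
    · rw [hf, indicator_of_mem hz]
      exact mul_nonneg hK0.le (by linarith [hχ1 z])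
    · rw [hf, indicator_of_notMem hz]
  have hfm : AEStronglyMeasurable f volume :=
    ((continuous_const.mul (continuous_const.sub hχ.continuous)).aestronglyMeasurable).indicator
      hU.measurableSet
  have hfL : MemLp f 2 volume := by
    have h1 : MemLp (U.indicator fun _ : E => K) 2 volume :=
      memLp_indicator_const 2 hU.measurableSet K (Or.inr hUfin)
    refine h1.of_le hfm (Eventually.of_forall fun z => ?_)
    by_cases hz : z ∈ U
    · rw [indicator_of_mem hz, Real.norm_eq_abs, Real.norm_eq_abs, abs_of_pos hK0]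
      exact hfK z
    · rw [hf, indicator_of_notMem hz, indicator_of_notMem hz]
  have hfi : ∫ z, f z ^ 2 ≤ δ₁ := by
    have e1 : ∀ z, f z ^ 2 ≤ U.indicator (fun z => K ^ 2 * (1 - χ z)) z := by
      intro z
      by_cases hz : z ∈ U
      · rw [hf, indicator_of_mem hz, indicator_of_mem hz]
        have a1 := hχ0 z
        have a2 := hχ1 z
        have a3 : (1 - χ z) ^ 2 ≤ 1 - χ z := by nlinarith
        rw [mul_pow]
        exact mul_le_mul_of_nonneg_left a3 (by positivity)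
      · rw [hf, indicator_of_notMem hz, indicator_of_notMem hz]
        norm_num
    have i1 : IntegrableOn (fun z => K ^ 2 * (1 - χ z)) U :=
      ((integrableOn_const hUfin).sub hχint.integrableOn).const_mul _
    have i2 : Integrable (U.indicator fun z => K ^ 2 * (1 - χ z)) volume :=
      i1.integrable_indicator hU.measurableSet
    have e2 : ∫ z, f z ^ 2 ≤ ∫ z, U.indicator (fun z => K ^ 2 * (1 - χ z)) z :=
      integral_mono hfL.integrable_sq i2 e1
    have e3 : ∫ z in U, χ z = ∫ z, χ z := by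
      rw [setIntegral_eq_integral_of_forall_compl_eq_zero]
      exact hχz
    have e4 : ∫ z in U, K ^ 2 * (1 - χ z) = K ^ 2 * (1 - ∫ z, χ z) := by
      have c1 : Integrable (fun _ : E => (1 : ℝ)) (volume.restrict U) := integrableOn_const hUfin
      have c2 : ∫ z in U, (1 - χ z) = (∫ z in U, (1 : ℝ)) - ∫ z in U, χ z :=
        integral_sub c1 hχint.integrableOn
      have c3 : ∫ z in U, (1 : ℝ) = 1 := by simp [Measure.real, hvol]
      rw [integral_const_mul, c2, c3, e3]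
    rw [integral_indicator hU.measurableSet, e4] at e2
    have e5 : K ^ 2 * (1 - ∫ z, χ z) ≤ K ^ 2 * κ :=
      mul_le_mul_of_nonneg_left (by linarith) (by positivity)
    linarith
  intro φ hφ
  have hs := hsob f hfL (Eventually.of_forall hfK) hfi φ (gradient φ)
    (hφ.h10.mono (subset_univ _))
  set A : ℝ := ∫ z, φ z ^ 2 with hA
  set B : ℝ := ∫ z, ‖gradient φ z‖ ^ 2 with hB
  have hA0 : 0 ≤ A := integral_nonneg fun z => by positivity
  have hB0 : 0 ≤ B := integral_nonneg fun z => by positivity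
  have iφ : Integrable (fun z => φ z ^ 2) volume := (hφ.memLp 2).integrable_sq
  have iV : Integrable (fun z => K * χ z * φ z ^ 2) volume := by
    have h1 : Integrable (fun z => (K * χ z) * φ z ^ 2) volume := by
      refine iφ.bdd_mul (c := K)
        (continuous_const.mul hχ.continuous).aestronglyMeasurable
        (Eventually.of_forall fun z => ?_)
      rw [Real.norm_eq_abs, abs_of_nonneg (mul_nonneg hK0.le (hχ0 z))]
      exact mul_le_of_le_one_right hK0.le (hχ1 z)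
    exact h1
  have e1 : ∀ z, |f z| * φ z ^ 2 = K * φ z ^ 2 - K * χ z * φ z ^ 2 := by
    intro z
    rw [abs_of_nonneg (hf0 z)]
    by_cases hz : z ∈ U
    · rw [hf, indicator_of_mem hz]; ring
    · rw [hφ.ae_zero z hz]; ring
  have e2 : ∫ z, |f z| * φ z ^ 2 = K * A - ∫ z, K * χ z * φ z ^ 2 := by
    simp only [e1]
    rw [integral_sub (iφ.const_mul K) iV, integral_const_mul]
  have e3 : Real.sqrt A * Real.sqrt B ≤ (A + B) / 2 := by
    have h1 := sq_nonneg (Real.sqrt A - Real.sqrt B)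
    have h2 := Real.sq_sqrt hA0
    have h3 := Real.sq_sqrt hB0
    nlinarith
  have e4 : ε * Real.sqrt A * Real.sqrt B ≤ ε * ((A + B) / 2) := by
    rw [mul_assoc]
    exact mul_le_mul_of_nonneg_left e3 hε.le
  rw [e2] at hs
  have e5 : K * A ≤ (∫ z, K * χ z * φ z ^ 2) + ε * ((A + B) / 2) := by linarith
  have e6 : ε * A ≤ ε * (K * A) := by
    apply mul_le_mul_of_nonneg_left _ hε.le
    nlinarith
  have e7 : ε * B ≤ B := mul_le_of_le_one_left hB0 hε1.le
  have e8 : 0 ≤ ε * (K * A) := by positivity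
  nlinarith

theorem limit_one (hd : 2 ≤ finrank ℝ E) {δ : ℝ} (hδ : 0 < δ) : ∃ q₀ : ℝ, 1 < q₀ ∧
    ∀ q : ℝ, 1 < q → q < q₀ → ∀ S : ℝ, NoBetter E (finrank ℝ E) q S → 1 - δ ≤ S := by
  set ε : ℝ := min δ 1 / 8 with hε
  have hε0 : 0 < ε := by positivity
  have hεδ : 8 * ε ≤ δ := by rw [hε]; linarith [min_le_left δ 1]
  have hε1 : 8 * ε ≤ 1 := by rw [hε]; linarith [min_le_right δ 1]
  obtain ⟨ρ, hρ, hvolρ⟩ := lo_exists_ball (E := E) hd
  obtain ⟨U, hU, hvol⟩ : ∃ U : Set E, IsOpen U ∧ volume U = 1 := ⟨ball 0 ρ, isOpen_ball, hvolρ⟩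
  have hUfin : volume U < ⊤ := by rw [hvol]; exact ENNReal.one_lt_top
  obtain ⟨χ, hχ, hχ0, hχ1, hχi⟩ := lo_exists_test hU hvol hε0 (by linarith)
  have hχint : Integrable χ volume := hχ.continuous.integrable_of_hasCompactSupport hχ.2.1
  set G : ℝ := ∫ z, ‖gradient χ z‖ ^ 2 with hG
  have hG0 : 0 ≤ G := integral_nonneg fun z => by positivity
  set K : ℝ := 1 + G / ε with hK
  have hK1 : 1 ≤ K := by rw [hK]; linarith [div_nonneg hG0 hε0.le]
  have hK0 : 0 < K := by linarith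
  have hGK : G ≤ ε * K := by
    rw [hK, mul_add, mul_div_cancel₀ _ hε0.ne']
    linarith
  obtain ⟨V, hVc, hVs, hVU, hV0, hVK, hΛ⟩ := lo_potential hd hU hvol hK1 hε0 (by linarith)
  set η : ℝ := ε / K with hη
  have hη0 : 0 < η := by positivity
  set φ₀ : E → ℝ := fun z => (1 / K) * χ z with hφ₀
  have hφt : IsTest U φ₀ := hχ.const_mul (1 / K)
  obtain ⟨Ω, hΩ, hΩU, hRQ, hT⟩ := perforation hd hU hUfin hVc hVs hVU hV0 hΛ hφt hη0
  set t : ℝ := 2 * (∫ z, φ₀ z) - (∫ z, ‖gradient φ₀ z‖ ^ 2) -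
          (∫ z, V z * φ₀ z ^ 2) - η with ht
  -- lower bound for `t`
  have hI : ∫ z, φ₀ z = (1 / K) * ∫ z, χ z := by rw [← integral_const_mul]
  have hgr : ∫ z, ‖gradient φ₀ z‖ ^ 2 = (1 / K) ^ 2 * G := by
    rw [hG, ← integral_const_mul]
    congr 1
    ext z
    rw [hφ₀, lo_gradient_const_mul hχ.differentiable, norm_smul, mul_pow,
      Real.norm_eq_abs, sq_abs]
  have hsq : ∫ z, V z * φ₀ z ^ 2 ≤ (1 / K) * ∫ z, χ z := by
    have h2 : Integrable (fun z => χ z ^ 2) volume := (hχ.memLp 2).integrable_sq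
    have h4 : Integrable (fun z => φ₀ z ^ 2) volume := (hφt.memLp 2).integrable_sq
    have h5 : Integrable (fun z => V z * φ₀ z ^ 2) volume := by
      refine h4.bdd_mul (c := K) hVc.aestronglyMeasurable (Eventually.of_forall fun z => ?_)
      rw [Real.norm_eq_abs, abs_of_nonneg (hV0 z)]
      exact hVK z
    rw [← integral_const_mul]
    apply integral_mono h5 (hχint.const_mul _)
    intro z
    have a0 := hχ0 z
    have a1 := hχ1 z
    have a2 := hVK z
    have a3 := hV0 z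
    show V z * ((1 / K) * χ z) ^ 2 ≤ (1 / K) * χ z
    have a4 : V z * ((1 / K) * χ z) ^ 2 ≤ K * ((1 / K) * χ z) ^ 2 :=
      mul_le_mul_of_nonneg_right a2 (by positivity)
    have a5 : K * ((1 / K) * χ z) ^ 2 = (1 / K) * χ z ^ 2 := by field_simp
    have a6 : χ z ^ 2 ≤ χ z := by nlinarith
    have a7 : (1 / K) * χ z ^ 2 ≤ (1 / K) * χ z := mul_le_mul_of_nonneg_left a6 (by positivity)
    linarith
  have htl : (1 - 3 * ε) / K ≤ t := by
    have h1 : (1 / K) ^ 2 * G ≤ ε / K := by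
      rw [div_pow, one_pow, one_div, inv_mul_le_iff₀ (by positivity)]
      calc G ≤ ε * K := hGK
        _ = K ^ 2 * (ε / K) := by field_simp
    have h2 : (1 - ε) / K ≤ (1 / K) * ∫ z, χ z := by
      rw [div_eq_inv_mul, one_div]
      gcongr
    have h3 : (1 - 3 * ε) / K = (1 - ε) / K - ε / K - ε / K := by ring
    rw [h3, ht, hI, hgr]
    linarith
  have ht0 : 0 < t := lt_of_lt_of_le (div_pos (by linarith) hK0) htl
  have hηK : η ≤ ε * K := by
    rw [hη, div_le_iff₀ hK0]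
    nlinarith
  have hc1 : (1 - 2 * ε) * K ≤ (1 - ε) * K - η := by linarith
  have hc0 : 0 < (1 - ε) * K - η := lt_of_lt_of_le (mul_pos (by linarith) hK0) hc1
  have hct : 1 - 5 * ε ≤ ((1 - ε) * K - η) * t := by
    have h2 : ((1 - 2 * ε) * K) * ((1 - 3 * ε) / K) ≤ ((1 - ε) * K - η) * t := by
      have : 0 ≤ (1 - 3 * ε) / K := div_nonneg (by linarith) hK0.le
      exact mul_le_mul hc1 htl this hc0.le
    have h3 : ((1 - 2 * ε) * K) * ((1 - 3 * ε) / K) = (1 - 2 * ε) * (1 - 3 * ε) := by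
      field_simp
    rw [h3] at h2
    nlinarith
  -- choice of `q₀`
  have hcont : Tendsto (fun q : ℝ => ((1 - ε) * K - η) * t ^ q) (𝓝 1)
      (𝓝 (((1 - ε) * K - η) * t ^ (1 : ℝ))) :=
    (Real.continuousAt_const_rpow ht0.ne').const_mul ((1 - ε) * K - η)
  rw [Real.rpow_one] at hcont
  have hev := hcont.eventually (lt_mem_nhds (show 1 - δ < ((1 - ε) * K - η) * t by linarith))
  obtain ⟨r, hr, hball⟩ := Metric.eventually_nhds_iff.1 hev
  refine ⟨1 + r, by linarith, ?_⟩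
  intro q hq1 hq2 S hS
  have h1 := hS Ω hΩ (lt_of_le_of_lt (measure_mono hΩU) hUfin)
    ((1 - ε) * K - η) t hc0 ht0 hRQ hT
  have h2 : 1 - δ < ((1 - ε) * K - η) * t ^ q := hball (by
    rw [Real.dist_eq, abs_of_pos (by linarith)]; linarith)
  have h3 : (volume Ω).toReal ≤ 1 := by
    have : volume Ω ≤ 1 := by rw [← hvol]; exact measure_mono hΩU
    exact ENNReal.toReal_le_of_le_ofReal zero_le_one (by simpa using this)
  have hdp : (0 : ℝ) < finrank ℝ E := by
    have : 0 < finrank ℝ E := by omega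
    exact_mod_cast this
  have hp : 0 ≤ ((finrank ℝ E : ℝ) * q + 2 * q - 2) / (finrank ℝ E : ℝ) := by
    apply div_nonneg _ hdp.le
    nlinarith
  have h4 : (volume Ω).toReal ^ (((finrank ℝ E : ℝ) * q + 2 * q - 2) / (finrank ℝ E : ℝ)) ≤ 1 :=
    Real.rpow_le_one ENNReal.toReal_nonneg h3 hp
  have h5 : 0 < ((1 - ε) * K - η) * t ^ q := mul_pos hc0 (Real.rpow_pos_of_pos ht0 q)
  have h6 : 0 ≤ (volume Ω).toReal ^ (((finrank ℝ E : ℝ) * q + 2 * q - 2) / (finrank ℝ E : ℝ)) :=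
    Real.rpow_nonneg ENNReal.toReal_nonneg _
  have hS0 : 0 < S := by
    by_contra h
    push Not at h
    have := mul_nonpos_of_nonpos_of_nonneg h h6
    linarith
  have h7 : S * (volume Ω).toReal ^ (((finrank ℝ E : ℝ) * q + 2 * q - 2) / (finrank ℝ E : ℝ)) ≤ S :=
    mul_le_of_le_one_right hS0.le h4
  linarith

end Pool.Agent.H4.NM
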