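import Pool.Agent.H4.NM.Lam
import Pool.Agent.H4.NM.Contr
import Pool.Agent.H4.NM.LimitOne

/-!
# End of the proof: no maximiser for `q` close to `1` (MP_898b17_an, all dimensions)
-/

open MeasureTheory Set Metric Filter Topology ContDiff Module
open scoped ENNReal RealInnerProductSpace

namespace Pool.Agent.H4.NM

variable {E : Type} [NormedAddCommGroup E] [InnerProductSpace ℝ E] [FiniteDimensional ℝ E]
  [CompleteSpace E] [MeasurableSpace E] [BorelSpace E]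

set_option linter.unusedSectionVars false

variable {Ω Ω' U : Set E} {u v w w' : E → ℝ} {G H W W' : E → E} {φ ψ : E → ℝ}

theorem exists_q_close {δ c : ℝ} (hδ : 0 < δ) (hc : 0 < c) : ∃ q₁ : ℝ, 1 < q₁ ∧
    ∀ q, 1 < q → q < q₁ → (1 - δ) * c ^ (1 - q) < 1 - δ / 2 := by
  have h1 : Continuous fun q : ℝ => (1 - δ) * c ^ (1 - q) :=
    continuous_const.mul (continuous_const.rpow (continuous_const.sub continuous_id)
      fun _ => Or.inl hc.ne')
  have h2 : (fun q : ℝ => (1 - δ) * c ^ (1 - q)) 1 < 1 - δ / 2 := by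
    simp only [sub_self, Real.rpow_zero, mul_one]
    linarith
  have h3 := (h1.tendsto 1).eventually (gt_mem_nhds h2)
  obtain ⟨ε, hε, h4⟩ := Metric.eventually_nhds_iff.1 h3
  refine ⟨1 + ε, by linarith, fun q hq1 hq2 => h4 ?_⟩
  rw [Real.dist_eq, abs_of_pos (by linarith)]
  linarith

/-- Normalisation `λ = 1`. -/
theorem exists_normalised (hd : 2 ≤ finrank ℝ E) (h : Admissible Ω) {q : ℝ} :
    ∃ (Ω₁ : Set E) (w : E → ℝ) (W : E → E), Norm1 Ω₁ w W ∧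
      (volume Ω₁).toReal = lam Ω ^ ((finrank ℝ E : ℝ) / 2) * (volume Ω).toReal ∧
      (∫ z, w z) ^ q / (volume Ω₁).toReal ^ pexp E q = Fq (finrank ℝ E) q Ω := by
  have hl := h.lam_pos hd
  obtain ⟨w, W, hw⟩ := exists_torsion hd h.1 h.2.2
  have hT := hw.torsion_eq hd h.1 h.2.2
  have hd0 : (0 : ℝ) < (finrank ℝ E : ℝ) := by
    have : 0 < finrank ℝ E := by omega
    exact_mod_cast this
  have hs : 0 < Real.sqrt (lam Ω) := Real.sqrt_pos.2 hl
  have hss : Real.sqrt (lam Ω) ^ 2 = lam Ω := Real.sq_sqrt hl.le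
  have hs' : (Real.sqrt (lam Ω))⁻¹ ≠ 0 := by positivity
  let e : E ≃ₗᵢ[ℝ] E := LinearIsometryEquiv.refl ℝ E
  have hA := h.toReal_pos
  have hpow : Real.sqrt (lam Ω) ^ finrank ℝ E = lam Ω ^ ((finrank ℝ E : ℝ) / 2) := by
    rw [Real.sqrt_eq_rpow, ← Real.rpow_natCast, ← Real.rpow_mul hl.le]
    congr 1
    ring
  have habs : |(((Real.sqrt (lam Ω))⁻¹) ^ finrank ℝ E)⁻¹| = lam Ω ^ ((finrank ℝ E : ℝ) / 2) := by
    rw [inv_pow, inv_inv, abs_of_pos (by positivity), hpow]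
  have hvol : volume ((fun x : E => (Real.sqrt (lam Ω))⁻¹ • e x) ⁻¹' Ω) =
      ENNReal.ofReal (lam Ω ^ ((finrank ℝ E : ℝ) / 2)) * volume Ω := by
    rw [sim_volume e hs', habs]
  have hvol' : (volume ((fun x : E => (Real.sqrt (lam Ω))⁻¹ • e x) ⁻¹' Ω)).toReal =
      lam Ω ^ ((finrank ℝ E : ℝ) / 2) * (volume Ω).toReal := by
    rw [hvol, ENNReal.toReal_mul, ENNReal.toReal_ofReal (Real.rpow_nonneg hl.le _)]
  have hw1 := sim_isTorsion e hs' hw
  have hint : ∫ x : E, (((Real.sqrt (lam Ω))⁻¹) ^ 2)⁻¹ * w ((Real.sqrt (lam Ω))⁻¹ • e x) =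
      lam Ω ^ (1 + (finrank ℝ E : ℝ) / 2) * ∫ z, w z := by
    rw [integral_const_mul, sim_integral e hs', habs, inv_pow, hss, inv_inv,
      Real.rpow_add hl, Real.rpow_one]
    ring
  refine ⟨_, _, _, ⟨?_, ?_, ?_, ?_, hw1⟩, hvol', ?_⟩
  · exact h.1.preimage (simHomeo e hs').continuous
  · rw [hvol]
    exact ENNReal.mul_pos (by simpa using Real.rpow_pos_of_pos hl _) h.2.1.ne'
  · rw [hvol]
    exact ENNReal.mul_lt_top ENNReal.ofReal_lt_top h.2.2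
  · have h1 := sim_RQ e hs' (rq_lam Ω)
    rwa [inv_pow, hss, inv_mul_cancel₀ hl.ne'] at h1
  · have hlp : (0 : ℝ) ≤ lam Ω ^ ((finrank ℝ E : ℝ) / 2) := Real.rpow_nonneg hl.le _
    have hlp' : (0 : ℝ) ≤ lam Ω ^ (1 + (finrank ℝ E : ℝ) / 2) := Real.rpow_nonneg hl.le _
    rw [hint, hvol', Fq_eq, hT, Real.mul_rpow hlp' (hw.torsion_nonneg h.1 h.2.2),
      Real.mul_rpow hlp hA.le]
    have h1 : (lam Ω ^ (1 + (finrank ℝ E : ℝ) / 2)) ^ q =
        lam Ω * (lam Ω ^ ((finrank ℝ E : ℝ) / 2)) ^ pexp E q := by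
      rw [← Real.rpow_mul hl.le, ← Real.rpow_mul hl.le]
      nth_rewrite 2 [← Real.rpow_one (lam Ω)]
      rw [← Real.rpow_add hl]
      congr 1
      unfold pexp
      field_simp
      ring
    rw [h1]
    have h2 : (lam Ω ^ ((finrank ℝ E : ℝ) / 2)) ^ pexp E q ≠ 0 :=
      (Real.rpow_pos_of_pos (Real.rpow_pos_of_pos hl _) _).ne'
    have h3 : (volume Ω).toReal ^ pexp E q ≠ 0 := (Real.rpow_pos_of_pos hA _).ne'
    field_simp

/-- For `q > 1` close to `1` every admissible set is beaten by another one. -/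
theorem no_max (hd : 2 ≤ finrank ℝ E) :
    ∃ q₀ : ℝ, 1 < q₀ ∧ ∀ q, 1 < q → q < q₀ → ∀ Ω : Set E, Admissible Ω →
      ∃ Ω' : Set E, Admissible Ω' ∧ Fq (finrank ℝ E) q Ω < Fq (finrank ℝ E) q Ω' := by
  obtain ⟨δ₀, q₃, hδ₀, hq₃, hl⟩ := tor_lt (E := E) hd
  obtain ⟨δ, hδdef⟩ : ∃ δ, δ = min δ₀ (1 / 2) := ⟨_, rfl⟩
  have hδ : 0 < δ := by rw [hδdef]; exact lt_min hδ₀ (by norm_num)
  have hδ2 : δ ≤ 1 / 2 := by rw [hδdef]; exact min_le_right _ _
  have hδδ : δ ≤ δ₀ := by rw [hδdef]; exact min_le_left _ _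
  have hd0 : (0 : ℝ) < (finrank ℝ E : ℝ) := by
    have : 0 < finrank ℝ E := by omega
    exact_mod_cast this
  obtain ⟨C, hC1, hC⟩ := exists_lam_lower (E := E) hd
  -- lower bound of the normalised volume
  set c : ℝ := (1 / C) ^ ((finrank ℝ E : ℝ) / 2) with hc
  have hc0 : 0 < c := Real.rpow_pos_of_pos (by positivity) _
  set a : ℝ := 2 / (finrank ℝ E : ℝ) with ha
  have ha0 : 0 < a := by positivity
  obtain ⟨q₁, hq₁, hq₁'⟩ := exists_q_close (δ := δ) (c := c ^ a) hδ (Real.rpow_pos_of_pos hc0 _)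
  obtain ⟨q₂, hq₂, hq₂'⟩ := limit_one (E := E) hd (δ := δ / 2) (by linarith)
  refine ⟨min (min q₁ q₂) q₃, lt_min (lt_min hq₁ hq₂) hq₃, fun q hq hq' Ω hΩ => ?_⟩
  have hqq1 : q < q₁ := hq'.trans_le ((min_le_left _ _).trans (min_le_left _ _))
  have hqq2 : q < q₂ := hq'.trans_le ((min_le_left _ _).trans (min_le_right _ _))
  have hqq3 : q < q₃ := hq'.trans_le (min_le_right _ _)
  by_contra hcon
  push Not at hcon
  have hNB : NoBetter E (finrank ℝ E) q (Fq (finrank ℝ E) q Ω) :=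
    noBetter_of_max hd (by linarith) (fun Ω' h' => hcon Ω' h')
  obtain ⟨Ω₁, w, W, hN, o6, o7⟩ := exists_normalised hd hΩ (q := q)
  have hmax : IsMax q Ω₁ w := by
    unfold IsMax
    rw [o7]
    exact hNB
  have hT := hl q hq hqq3 Ω₁ w W hN hmax
  have hS := hq₂' q hq hqq2 _ hNB
  have hA1 : c ≤ (volume Ω₁).toReal := by
    rw [o6, hc]
    have h1 := hC Ω hΩ
    have h2 := Real.rpow_le_rpow (by positivity) h1 (by positivity : 0 ≤ (finrank ℝ E : ℝ) / 2)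
    refine h2.trans (le_of_eq ?_)
    rw [Real.mul_rpow (hΩ.lam_pos hd).le (Real.rpow_nonneg hΩ.toReal_pos.le _),
      ← Real.rpow_mul hΩ.toReal_pos.le]
    have : 2 / (finrank ℝ E : ℝ) * ((finrank ℝ E : ℝ) / 2) = 1 := by field_simp
    rw [this, Real.rpow_one]
  have hA0 : 0 < (volume Ω₁).toReal := lt_of_lt_of_le hc0 hA1
  have hT0 : 0 ≤ ∫ z, w z := hN.tor_nonneg
  have hT' : ∫ z, w z ≤ (1 - δ) * (volume Ω₁).toReal := by
    refine hT.le.trans ?_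
    exact mul_le_mul_of_nonneg_right (by linarith) hA0.le
  have h1 : (∫ z, w z) ^ q ≤ (1 - δ) * (volume Ω₁).toReal ^ q := by
    calc (∫ z, w z) ^ q ≤ ((1 - δ) * (volume Ω₁).toReal) ^ q :=
          Real.rpow_le_rpow hT0 hT' (by linarith)
      _ = (1 - δ) ^ q * (volume Ω₁).toReal ^ q := Real.mul_rpow (by linarith) hA0.le
      _ ≤ (1 - δ) * (volume Ω₁).toReal ^ q := by
          apply mul_le_mul_of_nonneg_right _ (Real.rpow_nonneg hA0.le _)
          calc (1 - δ) ^ q ≤ (1 - δ) ^ (1 : ℝ) :=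
                Real.rpow_le_rpow_of_exponent_ge (by linarith) (by linarith) hq.le
            _ = 1 - δ := Real.rpow_one _
  have h2 : Fq (finrank ℝ E) q Ω ≤ (1 - δ) * (c ^ a) ^ (1 - q) := by
    rw [← o7, div_le_iff₀ (Real.rpow_pos_of_pos hA0 _)]
    refine h1.trans ?_
    have h3 : (volume Ω₁).toReal ^ q =
        ((volume Ω₁).toReal ^ a) ^ (1 - q) * (volume Ω₁).toReal ^ pexp E q := by
      rw [← Real.rpow_mul hA0.le, ← Real.rpow_add hA0, pexp_eq hd]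
      congr 1
      rw [ha]
      ring
    rw [h3, ← mul_assoc]
    apply mul_le_mul_of_nonneg_right _ (Real.rpow_nonneg hA0.le _)
    apply mul_le_mul_of_nonneg_left _ (by linarith)
    exact Real.rpow_le_rpow_of_nonpos (Real.rpow_pos_of_pos hc0 _)
      (Real.rpow_le_rpow hc0.le hA1 ha0.le) (by linarith)
  have h4 := hq₁' q hq hqq1
  linarith

/-- For `q > 1` close to `1`: `F_q` is bounded above and its supremum is not attained. -/
theorem no_maximiser (hd : 2 ≤ finrank ℝ E) :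
    ∃ q₀ : ℝ, 1 < q₀ ∧ ∀ q : ℝ, 1 < q → q < q₀ →
      BddAbove {t | ∃ Ω : Set E, Admissible Ω ∧ t = Fq (finrank ℝ E) q Ω} ∧
      ∀ Ω : Set E, Admissible Ω →
        Fq (finrank ℝ E) q Ω <
          sSup {t | ∃ Ω' : Set E, Admissible Ω' ∧ t = Fq (finrank ℝ E) q Ω'} := by
  obtain ⟨q₀, hq₀, h⟩ := no_max (E := E) hd
  obtain ⟨C, -, hC⟩ := exists_Fq_le (E := E) hd
  refine ⟨q₀, hq₀, fun q hq hq' => ?_⟩
  have hb : BddAbove {t | ∃ Ω : Set E, Admissible Ω ∧ t = Fq (finrank ℝ E) q Ω} := by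
    refine ⟨C ^ (q - 1), ?_⟩
    rintro t ⟨Ω, hΩ, rfl⟩
    exact hC _ hΩ q hq.le
  refine ⟨hb, fun Ω hΩ => ?_⟩
  obtain ⟨Ω₂, h2, h3⟩ := h q hq hq' _ hΩ
  exact h3.trans_le (le_csSup hb ⟨_, h2, rfl⟩)

end Pool.Agent.H4.NM
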