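import Mathlib

/-!
# NM-23: the sequences of the induction (MP_898b17_an, all dimensions)

## Paper proof

`m j = j²`, `ρ j = (2 j² + 1) (1/2)^j`, `b j = (1/4)^j + √(C γ^{j²} 2^{j d})`. Both series converge:
`∑ j² 2^{-j}` (e.g. `summable_pow_mul_geometric_of_norm_lt_one`), and
`√(C γ^{j²} 2^{jd}) = √C (√γ^{j} √2^{d})^{j}`, where `√γ^j √2^d ≤ 1/2` for `j ≥ j₁`, so it is eventually
`≤ √C 2^{-j}`. So for `j₀` large the tails `∑_{j ≥ j₀} ρ j ≤ 1/4` and `∑_{j ≥ j₀} b j ≤ ε₀/2` (partial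
sums of nonnegative terms are bounded by the tail sums; `tendsto_sum_nat_add` or
`Summable.tendsto_sum_tsum_nat`), also `ρ j ≤ ε₀` for `j ≥ j₀` and `2^d * (4 * (1/4)^j₀) ≤ ε₀/4`.
-/

open Filter Topology Finset

namespace Pool.Agent.H4.NM

/-- Tails of a convergent series of nonnegative terms are eventually small. -/
theorem num_tail {f : ℕ → ℝ} (hf : Summable f) (h0 : ∀ j, 0 ≤ f j) {ε : ℝ} (hε : 0 < ε) :
    ∀ᶠ j₀ in atTop, ∀ n, ∑ j ∈ range n, f (j₀ + j) ≤ ε := by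
  have h1 : Tendsto (fun i => ∑' k, f (k + i)) atTop (𝓝 0) := tendsto_sum_nat_add f
  filter_upwards [h1.eventually (gt_mem_nhds hε)] with j₀ hj n
  have hs : Summable (fun k => f (k + j₀)) := (summable_nat_add_iff j₀).2 hf
  have h2 : ∑ j ∈ range n, f (j + j₀) ≤ ∑' k, f (k + j₀) :=
    hs.sum_le_tsum _ (fun i _ => h0 _)
  have h3 : ∑ j ∈ range n, f (j₀ + j) = ∑ j ∈ range n, f (j + j₀) :=
    Finset.sum_congr rfl (fun j _ => by rw [add_comm])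
  rw [h3]
  exact h2.trans hj.le

theorem exists_seqs {γ ε₀ C : ℝ} (hγ : 0 < γ) (hγ1 : γ < 1) (hε : 0 < ε₀) (hC : 0 < C) (d : ℕ) :
    ∃ (j₀ : ℕ) (ρ b : ℕ → ℝ) (m : ℕ → ℕ), 4 ≤ j₀ ∧ (∀ j, 0 < ρ j) ∧ (∀ j, 0 ≤ b j) ∧
      (∀ n, ∑ j ∈ range n, ρ (j₀ + j) ≤ 1 / 4) ∧ (∀ n, ∑ j ∈ range n, b (j₀ + j) ≤ ε₀ / 2) ∧
      (∀ j, j₀ ≤ j → ρ j ≤ ε₀) ∧
      (∀ j, j₀ ≤ j → (1 / 2 : ℝ) ^ j + 2 * m j * (1 / 2 : ℝ) ^ j ≤ ρ j) ∧
      (∀ j, j₀ ≤ j → (1 / 4 : ℝ) ^ j + Real.sqrt (C * γ ^ (m j) * 2 ^ (j * d)) ≤ b j) ∧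
      (2 : ℝ) ^ d * (4 * (1 / 4 : ℝ) ^ j₀) ≤ ε₀ / 4 := by
  -- the sequences
  set ρ : ℕ → ℝ := fun j => (1 / 2 : ℝ) ^ j + 2 * ((j : ℝ) ^ 2 * (1 / 2 : ℝ) ^ j) with hρ
  set c : ℕ → ℝ := fun j => Real.sqrt (C * γ ^ (j ^ 2) * 2 ^ (j * d)) with hc
  set b : ℕ → ℝ := fun j => (1 / 4 : ℝ) ^ j + c j with hb
  have hρs : Summable ρ := by
    refine (summable_geometric_of_lt_one (by norm_num) (by norm_num)).add (Summable.mul_left 2 ?_)
    exact summable_pow_mul_geometric_of_norm_lt_one 2 (by norm_num)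
  have hρ0 : ∀ j, 0 < ρ j := fun j => by
    simp only [hρ]
    positivity
  have hc0 : ∀ j, 0 ≤ c j := fun j => Real.sqrt_nonneg _
  have hcs : Summable c := by
    have h1 : Tendsto (fun j : ℕ => γ ^ j * 2 ^ d) atTop (𝓝 (0 * 2 ^ d)) :=
      (tendsto_pow_atTop_nhds_zero_of_lt_one hγ.le hγ1).mul_const _
    rw [zero_mul] at h1
    have h2 : ∀ᶠ j : ℕ in atTop, γ ^ j * 2 ^ d < 1 / 4 :=
      h1.eventually (gt_mem_nhds (by norm_num))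
    have hg : Summable (fun j : ℕ => Real.sqrt C * (1 / 2 : ℝ) ^ j) :=
      (summable_geometric_of_lt_one (by norm_num) (by norm_num)).mul_left _
    refine Summable.of_norm_bounded_eventually_nat hg ?_
    filter_upwards [h2] with j hj
    rw [Real.norm_of_nonneg (hc0 j)]
    have h3 : γ ^ (j ^ 2) * (2 : ℝ) ^ (j * d) = (γ ^ j * 2 ^ d) ^ j := by
      rw [mul_pow, ← pow_mul, ← pow_mul, sq, mul_comm j d]
    have h4 : γ ^ (j ^ 2) * (2 : ℝ) ^ (j * d) ≤ (1 / 4 : ℝ) ^ j := by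
      rw [h3]
      exact pow_le_pow_left₀ (by positivity) hj.le j
    have h5 : (1 / 4 : ℝ) ^ j = ((1 / 2 : ℝ) ^ j) ^ 2 := by
      rw [← pow_mul, mul_comm, pow_mul]
      norm_num
    calc c j ≤ Real.sqrt (C * ((1 / 2 : ℝ) ^ j) ^ 2) := by
          refine Real.sqrt_le_sqrt ?_
          rw [mul_assoc, ← h5]
          exact mul_le_mul_of_nonneg_left h4 hC.le
      _ = Real.sqrt C * (1 / 2 : ℝ) ^ j := by
          rw [Real.sqrt_mul hC.le, Real.sqrt_sq (by positivity)]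
  have hbs : Summable b :=
    (summable_geometric_of_lt_one (by norm_num) (by norm_num)).add hcs
  have hb0 : ∀ j, 0 ≤ b j := fun j => by
    have := hc0 j
    simp only [hb]
    positivity
  have hlast : Tendsto (fun j : ℕ => (2 : ℝ) ^ d * (4 * (1 / 4 : ℝ) ^ j)) atTop
      (𝓝 ((2 : ℝ) ^ d * (4 * 0))) :=
    ((tendsto_pow_atTop_nhds_zero_of_lt_one (by norm_num) (by norm_num)).const_mul _).const_mul _
  rw [mul_zero, mul_zero] at hlast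
  have e1 := num_tail hρs (fun j => (hρ0 j).le) (show (0 : ℝ) < 1 / 4 by norm_num)
  have e2 := num_tail hbs hb0 (show (0 : ℝ) < ε₀ / 2 by linarith)
  have e3 : ∀ᶠ j₀ : ℕ in atTop, ∀ j, j₀ ≤ j → ρ j ≤ ε₀ := by
    have h := (hρs.tendsto_atTop_zero).eventually (gt_mem_nhds hε)
    rw [eventually_atTop] at h
    obtain ⟨N, hN⟩ := h
    filter_upwards [eventually_ge_atTop N] with j₀ hj₀ j hj
    exact (hN j (hj₀.trans hj)).le
  have e4 : ∀ᶠ j₀ : ℕ in atTop, (2 : ℝ) ^ d * (4 * (1 / 4 : ℝ) ^ j₀) < ε₀ / 4 :=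
    hlast.eventually (gt_mem_nhds (by linarith))
  obtain ⟨j₀, ⟨⟨⟨⟨h4, he1⟩, he2⟩, he3⟩, he4⟩⟩ :=
    (((((eventually_ge_atTop 4).and e1).and e2).and e3).and e4).exists
  refine ⟨j₀, ρ, b, fun j => j ^ 2, h4, hρ0, hb0, he1, he2, he3, ?_, ?_, he4.le⟩
  · intro j _
    simp only [hρ]
    push_cast
    linarith [mul_assoc (2 : ℝ) ((j : ℝ) ^ 2) ((1 / 2 : ℝ) ^ j)]
  · intro j _
    exact le_refl _

end Pool.Agent.H4.NM
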