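import Pool.Agent.H4.NM.Harm

/-!
# NM-22: the decay step (C) (MP_898b17_an, all dimensions)

## Paper proof

`d = finrank ℝ E`, `B = ball y s`, `a = 1 - av y s w`, `t = max (τ' - 2^{-d} a) 0`.

(1) `w ≤ 1 + t` a.e. on `B`. For a.e. `x ∈ B`: `w x ≤ av x (2s) w + (2s)²` (`IsTorsion.ae_le_av`).
`B ⊆ ball x (2s) ⊆ ball y (3s)` and `1 + τ - w ≥ 0` a.e. on `ball y (3s)`, so
`∫_{ball x 2s} (1 + τ - w) ≥ ∫_B (1 + τ - w)`, i.e. `av x (2s) (1 + τ - w) ≥ 2^{-d} (a + τ)`, so
`w x ≤ 1 + τ + 4 s² - 2^{-d} (a + τ) ≤ 1 + τ' - 2^{-d} a ≤ 1 + t`.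

(2) `h` harmonic replacement in `B` (`exists_harm`, `R = s`), `P = (h - t - w)⁺`; `LocIneq`:
`∫_B P² ≤ (2 + c) |B \ Ω| ≤ 3 F`. `w ≥ h - t - P`, so
`av y (s/2) w ≥ av y (s/2) h - t - av y (s/2) P`. `av y (s/2) h = av y s h` (`IsHarm.av_eq`)
`≥ av y s w - s²` (`IsHarm.sub_le`, with `sub_all` for the hypothesis).
`av y (s/2) P ≤ (av y (s/2) P²)^{1/2} ≤ (3 F / |ball y (s/2)|)^{1/2}` (Cauchy-Schwarz; `P ≥ 0`,
`ball y (s/2) ⊆ B`).
So `1 - av y (s/2) w ≤ a + t + s² + (3F/|B_{s/2}|)^{1/2}`.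

(3) `a + t ≤ max a (2^d τ')`: if `t = 0` clear; if `t > 0` then `a < 2^d τ'` and
`a + t = τ' + (1 - 2^{-d}) a ≤ τ' + (1 - 2^{-d}) 2^d τ' = 2^d τ'`.
-/

open MeasureTheory Set Metric Filter Topology ContDiff Module
open scoped ENNReal NNReal RealInnerProductSpace

namespace Pool.Agent.H4.NM

variable {E : Type} [NormedAddCommGroup E] [InnerProductSpace ℝ E] [FiniteDimensional ℝ E]
  [CompleteSpace E] [MeasurableSpace E] [BorelSpace E]

set_option linter.unusedSectionVars false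

variable {Ω U : Set E} {w h Φ : E → ℝ} {W Gh H : E → E} {y : E} {R t : ℝ}

/-- Numerics of step (3). -/
theorem stepC_num {D a τ' : ℝ} (hD : 1 ≤ D) :
    a + max (τ' - D⁻¹ * a) 0 ≤ max a (D * τ') := by
  have hD0 : 0 < D := by linarith
  have h1 : D * (D⁻¹ * a) = a := by field_simp
  rcases le_total (τ' - D⁻¹ * a) 0 with h | h
  · rw [max_eq_right h, add_zero]
    exact le_max_left _ _
  · rw [max_eq_left h]
    refine le_trans ?_ (le_max_right _ _)
    have h2 : 0 ≤ (D - 1) * (τ' - D⁻¹ * a) := mul_nonneg (by linarith) h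
    nlinarith [h1, h2]

/-- Mean values and the square (Jensen). -/
theorem stepC_av_le_sqrt {x : E} {r : ℝ} (hr : 0 < r) {f : E → ℝ} {M : ℝ}
    (hf : IntegrableOn f (ball x r))
    (hf2 : IntegrableOn (fun z => f z ^ 2) (ball x r)) (hM : ∫ z in ball x r, f z ^ 2 ≤ M) :
    av x r f ≤ Real.sqrt (M / volume.real (ball x r)) := by
  have hV := vol_ball_pos x hr
  apply Real.le_sqrt_of_sq_le
  rw [le_div_iff₀ hV]
  have h0 : 0 ≤ ∫ z in ball x r, (f z - av x r f) ^ 2 := integral_nonneg fun z => by positivity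
  have e0 : ∀ z, (f z - av x r f) ^ 2 = f z ^ 2 - (2 * av x r f) * f z + (av x r f) ^ 2 :=
    fun z => by ring
  simp only [e0] at h0
  have i0 : IntegrableOn (fun _ : E => (av x r f) ^ 2) (ball x r) :=
    integrableOn_const (by exact measure_ball_lt_top.ne)
  have e1 : ∫ z in ball x r, (f z ^ 2 - (2 * av x r f) * f z + (av x r f) ^ 2) =
      (∫ z in ball x r, (f z ^ 2 - (2 * av x r f) * f z)) + ∫ z in ball x r, (av x r f) ^ 2 :=
    integral_add (hf2.sub (hf.const_mul _)) i0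
  have e2 : ∫ z in ball x r, (f z ^ 2 - (2 * av x r f) * f z) =
      (∫ z in ball x r, f z ^ 2) - ∫ z in ball x r, (2 * av x r f) * f z :=
    integral_sub hf2 (hf.const_mul _)
  have e3 := av_mul_vol x hr f
  rw [e1, e2, integral_const_mul, ← e3, setIntegral_const, smul_eq_mul] at h0
  nlinarith [h0, hM]

theorem stepC_le (hN : Norm1 Ω w W) {y : E} {s τ τ' : ℝ} (hs : 0 < s)
    (hτ : 0 ≤ τ) (hw : ∀ᵐ z, z ∈ ball y (3 * s) → w z ≤ 1 + τ) (hτ' : τ + 4 * s ^ 2 ≤ τ') :
    ∀ᵐ z, z ∈ ball y s → w z ≤ 1 + max (τ' - (2 ^ finrank ℝ E)⁻¹ * (1 - av y s w)) 0 := by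
  filter_upwards [IsTorsion.ae_le_av hN.isOpen hN.fin hN.tor] with x hx hxB
  have h2s : 0 < 2 * s := by linarith
  have h1 := hx (2 * s) h2s
  have hwm := hN.h10.memLp
  have hxy : dist x y < s := hxB
  have sub1 : ball y s ⊆ ball x (2 * s) := by
    intro z hz
    have hz' : dist z y < s := hz
    have := dist_triangle z y x
    rw [dist_comm y x] at this
    rw [mem_ball]
    linarith
  have sub2 : ball x (2 * s) ⊆ ball y (3 * s) := by
    intro z hz
    have hz' : dist z x < 2 * s := hz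
    have := dist_triangle z x y
    rw [mem_ball]
    linarith
  have iw1 := memLp_integrableOn_ball hwm x (2 * s)
  have iw2 := memLp_integrableOn_ball hwm y s
  have ic : ∀ (z : E) (r c : ℝ), IntegrableOn (fun _ : E => c) (ball z r) := fun z r c =>
    integrableOn_const (by exact measure_ball_lt_top.ne)
  have hmono : ∫ z in ball y s, (1 + τ - w z) ≤ ∫ z in ball x (2 * s), (1 + τ - w z) := by
    refine setIntegral_mono_set ((ic x (2 * s) (1 + τ)).sub iw1) ?_ (Eventually.of_forall sub1)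
    have : ∀ᵐ z ∂(volume.restrict (ball x (2 * s))), 0 ≤ 1 + τ - w z := by
      refine (ae_restrict_iff' measurableSet_ball).2 ?_
      filter_upwards [hw] with z hz hz'
      have := hz (sub2 hz')
      linarith
    exact this
  rw [← av_mul_vol x h2s, ← av_mul_vol y hs, av_sub (ic _ _ _) iw1, av_sub (ic _ _ _) iw2,
    av_const x h2s, av_const y hs] at hmono
  have hvol : volume.real (ball x (2 * s)) = 2 ^ finrank ℝ E * volume.real (ball y s) := by
    rw [vol_ball x h2s, vol_ball y hs, mul_pow]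
    ring
  rw [hvol] at hmono
  have hV := vol_ball_pos y hs
  have hD : (1 : ℝ) ≤ 2 ^ finrank ℝ E := one_le_pow₀ (by norm_num)
  set D : ℝ := 2 ^ finrank ℝ E with hDdef
  have hD0 : 0 < D := by linarith
  have h3 : 1 + τ - av y s w ≤ D * (1 + τ - av x (2 * s) w) := by
    have : volume.real (ball y s) * (1 + τ - av y s w) ≤
        volume.real (ball y s) * (D * (1 + τ - av x (2 * s) w)) := by
      calc _ ≤ _ := hmono
        _ = _ := by ring
    exact le_of_mul_le_mul_left this hV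
  have h4 : D⁻¹ * (1 + τ - av y s w) ≤ 1 + τ - av x (2 * s) w := by
    rw [inv_mul_le_iff₀ hD0]
    exact h3
  have h5 : 0 ≤ D⁻¹ * τ := by positivity
  have h6 : D⁻¹ * (1 + τ - av y s w) = D⁻¹ * (1 - av y s w) + D⁻¹ * τ := by ring
  have h7 : τ' - D⁻¹ * (1 - av y s w) ≤ max (τ' - D⁻¹ * (1 - av y s w)) 0 := le_max_left _ _
  have h8 : (2 * s) ^ 2 = 4 * s ^ 2 := by ring
  linarith

theorem stepC (hd : 2 ≤ finrank ℝ E) {c : ℝ} (hc : c ≤ 1) (hN : Norm1 Ω w W)
    (hL : LocIneq c Ω w W) {y : E} {s τ τ' F : ℝ} (hs : 0 < s)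
    (hv : volume.real (ball y s) ≤ volume.real Ω) (hτ : 0 ≤ τ)
    (hw : ∀ᵐ z, z ∈ ball y (3 * s) → w z ≤ 1 + τ) (hτ' : τ + 4 * s ^ 2 ≤ τ')
    (hF : volume.real (ball y s \ Ω) ≤ F) :
    1 - av y (s / 2) w ≤ max (1 - av y s w) (2 ^ finrank ℝ E * τ') + s ^ 2 +
      Real.sqrt (3 * F / volume.real (ball y (s / 2))) := by
  have hs2 : 0 < s / 2 := by linarith
  have hle := stepC_le hN hs hτ hw hτ'
  have hD : (1 : ℝ) ≤ 2 ^ finrank ℝ E := one_le_pow₀ (by norm_num)
  have hnum := stepC_num (a := 1 - av y s w) (τ' := τ') hD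
  set t : ℝ := max (τ' - (2 ^ finrank ℝ E)⁻¹ * (1 - av y s w)) 0 with ht
  have ht0 : 0 ≤ t := le_max_right _ _
  obtain ⟨h, Gh, hh⟩ := exists_harm hd hN.h10 y hs
  obtain ⟨-, hP⟩ := hL y s t h Gh hs ht0 hv hh hle
  have hwm := hN.h10.memLp
  have hhm := (hh.h10 hN.h10).memLp
  have hP3 : ∫ z in ball y s, (max (h z - t - w z) 0) ^ 2 ≤ 3 * F := by
    refine hP.trans ?_
    have h0 : 0 ≤ volume.real (ball y s \ Ω) := by positivity
    nlinarith
  have ic : ∀ (z : E) (r c : ℝ), IntegrableOn (fun _ : E => c) (ball z r) := fun z r c =>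
    integrableOn_const (by exact measure_ball_lt_top.ne)
  -- `P` is square integrable on `B`
  have : IsFiniteMeasure (volume.restrict (ball y s)) :=
    ⟨by simpa using measure_ball_lt_top⟩
  have hPm : MemLp (fun z => max (h z - t - w z) 0) 2 (volume.restrict (ball y s)) := by
    have h1 : MemLp (fun z => h z - t - w z) 2 (volume.restrict (ball y s)) :=
      ((hhm.restrict _).sub (memLp_const t)).sub (hwm.restrict _)
    refine h1.of_le (h1.1.sup aestronglyMeasurable_const) (Eventually.of_forall fun z => ?_)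
    rw [Real.norm_eq_abs, Real.norm_eq_abs, abs_of_nonneg (le_max_right _ _)]
    exact max_le (le_abs_self _) (abs_nonneg _)
  have iP2 : IntegrableOn (fun z => (max (h z - t - w z) 0) ^ 2) (ball y s) := hPm.integrable_sq
  have iP1 : IntegrableOn (fun z => max (h z - t - w z) 0) (ball y s) :=
    memLp_one_iff_integrable.1 (hPm.mono_exponent (by norm_num))
  have hsub : ball y (s / 2) ⊆ ball y s := ball_subset_ball (by linarith)
  have hP4 : ∫ z in ball y (s / 2), (max (h z - t - w z) 0) ^ 2 ≤ 3 * F := by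
    refine le_trans ?_ hP3
    refine setIntegral_mono_set iP2 (Eventually.of_forall fun z => ?_) (Eventually.of_forall hsub)
    positivity
  have hav := stepC_av_le_sqrt hs2 (iP1.mono_set hsub) (iP2.mono_set hsub) hP4
  -- lower bound of the mean value of `w`
  have ih := memLp_integrableOn_ball hhm y (s / 2)
  have iw := memLp_integrableOn_ball hwm y (s / 2)
  have ih' : IntegrableOn (fun z => h z - t) (ball y (s / 2)) := ih.sub (ic _ _ _)
  have h1 : av y (s / 2) (fun z => h z - t - max (h z - t - w z) 0) ≤ av y (s / 2) w := by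
    refine av_mono (ih'.sub (iP1.mono_set hsub)) iw
      (Eventually.of_forall fun z _ => ?_)
    have := le_max_left (h z - t - w z) 0
    linarith
  rw [av_sub ih' (iP1.mono_set hsub), av_sub ih (ic _ _ _), av_const y hs2] at h1
  have h2 := hh.av_eq hN.h10 (x := y) hs2 (by linarith : s / 2 ≤ s) (Subset.refl _)
  have h3 : av y s (fun z => w z - s ^ 2) ≤ av y s h := by
    refine av_mono ((memLp_integrableOn_ball hwm y s).sub (ic _ _ _))
      (memLp_integrableOn_ball hhm y s) ?_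
    have h4 := hh.sub_le hd hN.h10 hs (fun Φ H hΦ h0 =>
      sub_all hN.isOpen hN.fin hN.tor isOpen_ball measure_ball_lt_top hΦ h0)
    filter_upwards [h4] with z hz _
    linarith
  rw [av_sub (memLp_integrableOn_ball hwm y s) (ic _ _ _), av_const y hs] at h3
  linarith

end Pool.Agent.H4.NM
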