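import Pool.Agent.H4.NM.ClaimB
import Pool.Agent.H4.NM.StepC
import Pool.Agent.H4.NM.Num

/-!
# NM-24: ε-regularity (MP_898b17_an, all dimensions)

## Paper proof

`γ`, `ε₀ ≤ 1/100` from `claimB`; `c₀ = ε₀`. `d = finrank ℝ E`, `V₁ = |B_1|`.
`exists_seqs` with `C = 3 · 2^d`: `j₀, ρ, b, m`. `s₀ = 2^{-j₀} ≤ 1/16`.
`τ = ε₀ / (4 · 2^d)`, `τ' = τ + 4 s₀²`, so `2^d τ' ≤ ε₀/4 + ε₀/4 = ε₀/2` (last property of
`exists_seqs`; `s₀² = (1/4)^j₀`).
`δ₀ > 0` so small that: (i) `δ₀ ≤ |B_r| τ/2` for some fixed `r ≤ 1/4` with `r² ≤ τ/2`;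
(ii) `δ₀ ≤ |B_{s₀}| ε₀ / 2`; (iii) `δ₀ ≤ V₁ / 2`.
Let `∫_{B_1(p)} |1 - w| ≤ δ₀`.

(0) `|B_R| ≤ |Ω|` for `R ≤ 1/2`: `|B_1(p) \ Ω| ≤ ∫_{B_1(p)} |1 - w| ≤ V₁/2` (`w = 0` off `Ω`), so
`|Ω| ≥ V₁/2 ≥ 2^{-d} V₁`.
(1) `w ≤ 1 + τ` a.e. on `ball p (3/4)`: for a.e. such `x`: `w x ≤ av x r w + r² ≤ 1 + δ₀/|B_r| + τ/2`
(`IsTorsion.ae_le_av`, `ball x r ⊆ ball p 1`).
(2) Let `r_j = 1/2 - ∑_{i < j - j₀} ρ (j₀ + i) ∈ [1/4, 1/2]`, `e_j = ε₀/2 + ∑_{i < j-j₀} b (j₀ + i) ≤ ε₀`.
H(j), `j ≥ j₀`: for all `x ∈ ball p r_j`: `1 - av x 2^{-j} w ≤ e_j`. (Induct on `n = j - j₀`.)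
H(j₀): `1 - av x s₀ w ≤ δ₀ / |B_{s₀}| ≤ ε₀/2` (`x ∈ ball p (1/2)`, `ball x s₀ ⊆ ball p 1`).
H(j) ⇒ H(j+1): `y ∈ ball p r_{j+1}`, `s = 2^{-j}`. `iterate` with `R = ρ j`, `m = m j`:
`s + 2 m s ≤ ρ j ≤ ε₀ ≤ 1/2`; `w ≤ 1 + ε₀` on `ball y (ρ j + s) ⊆ ball p (3/4)`
(`r_{j+1} + ρ_j + s = r_j + s ≤ 1/2 + 1/16`); for `x ∈ ball y (ρ j) ⊆ ball p r_j`:
`av x s (1 - w) = 1 - av x s w ≤ e_j ≤ ε₀`. So `|ball y s \ Ω| ≤ γ^{m j} |B_{ρ j}| ≤ γ^{m j} V₁ =: F`.
`stepC` (`c = ε₀`): `ball y (3s) ⊆ ball p (3/4)` (`1/2 + 3/16 < 3/4`), `τ + 4 s² ≤ τ'`: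
`1 - av y (s/2) w ≤ max e_j (2^d τ') + s² + (3 F / |B_{s/2}|)^{1/2} ≤ e_j + b_j` because
`2^d τ' ≤ ε₀/2 ≤ e_j`, `s² = (1/4)^j`, `3F/|B_{s/2}| = 3 γ^{m j} 2^{(j+1) d} = C γ^{m j} 2^{jd}`.
(3) For a.e. `x ∈ ball p (1/4)`: `av x 2^{-j} w → w x` (`ae_tendsto_av`), so `w x ≥ 1 - ε₀ ≥ 1/2`.
-/

open MeasureTheory Set Metric Filter Topology ContDiff Module
open scoped ENNReal NNReal RealInnerProductSpace

namespace Pool.Agent.H4.NM

variable {E : Type} [NormedAddCommGroup E] [InnerProductSpace ℝ E] [FiniteDimensional ℝ E]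
  [CompleteSpace E] [MeasurableSpace E] [BorelSpace E]

set_option linter.unusedSectionVars false

variable {Ω U : Set E} {w h Φ : E → ℝ} {W Gh H : E → E} {y : E} {R t : ℝ}

theorem eps_av_le {w : E → ℝ} (hw : MemLp w 2 volume) {p x : E} {r δ : ℝ} (hr : 0 < r)
    (hsub : ball x r ⊆ ball p 1) (hδ : ∫ z in ball p 1, |1 - w z| ≤ δ) :
    |1 - av x r w| ≤ δ / volume.real (ball x r) := by
  have hi : IntegrableOn w (ball x r) := memLp_integrableOn_ball hw x r
  have hi0 : IntegrableOn (fun _ : E => (1 : ℝ)) (ball p 1) :=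
    integrableOn_const (by exact measure_ball_lt_top.ne)
  have hi1 : IntegrableOn (fun z => |1 - w z|) (ball p 1) :=
    (hi0.sub (memLp_integrableOn_ball hw p 1)).abs
  have hV := vol_ball_pos x hr
  rw [← av_one_sub hr hi, av, abs_mul, abs_inv, abs_of_pos hV, inv_mul_eq_div]
  refine div_le_div_of_nonneg_right ?_ hV.le
  calc |∫ z in ball x r, (1 - w z)| ≤ ∫ z in ball x r, |1 - w z| := abs_integral_le_integral_abs
    _ ≤ ∫ z in ball p 1, |1 - w z| :=
        setIntegral_mono_set hi1 (ae_of_all _ fun z => abs_nonneg _) hsub.eventuallyLE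
    _ ≤ δ := hδ

theorem eps_vol (hd : 2 ≤ finrank ℝ E) (h : Norm1 Ω w W) {p : E}
    (hδ : ∫ z in ball p 1, |1 - w z| ≤ volume.real (ball (0 : E) 1) / 2) {y : E} {R : ℝ}
    (hR : 0 < R) (hR2 : R ≤ 1 / 2) : volume.real (ball y R) ≤ volume.real Ω := by
  have hV : 0 < volume.real (ball (0 : E) 1) := vol_one_pos
  have hw := h.h10.memLp
  have hi0 : IntegrableOn (fun _ : E => (1 : ℝ)) (ball p 1) :=
    integrableOn_const (by exact measure_ball_lt_top.ne)
  have hi1 : IntegrableOn (fun z => |1 - w z|) (ball p 1) :=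
    (hi0.sub (memLp_integrableOn_ball hw p 1)).abs
  have h1 : volume.real (ball p 1 \ Ω) ≤ volume.real (ball (0 : E) 1) / 2 := by
    have e1 : ∫ z in ball p 1 \ Ω, |1 - w z| = volume.real (ball p 1 \ Ω) := by
      rw [setIntegral_congr_ae (g := fun _ => (1 : ℝ))
        (measurableSet_ball.diff h.isOpen.measurableSet)]
      · rw [setIntegral_const, smul_eq_mul, mul_one]
      · filter_upwards [h.off] with z hz hz'
        rw [hz hz'.2]
        simp
    calc volume.real (ball p 1 \ Ω) = ∫ z in ball p 1 \ Ω, |1 - w z| := e1.symm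
      _ ≤ ∫ z in ball p 1, |1 - w z| :=
          setIntegral_mono_set hi1 (ae_of_all _ fun z => abs_nonneg _) sdiff_subset.eventuallyLE
      _ ≤ _ := hδ
  have h2 : volume.real (ball p 1) ≤ volume.real Ω + volume.real (ball p 1 \ Ω) := by
    calc volume.real (ball p 1) ≤ volume.real (Ω ∪ (ball p 1 \ Ω)) := by
          refine measureReal_mono ?_ ?_
          · intro z hz
            by_cases hzΩ : z ∈ Ω
            · exact Or.inl hzΩ
            · exact Or.inr ⟨hz, hzΩ⟩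
          · exact ((measure_union_le _ _).trans_lt (ENNReal.add_lt_top.2
              ⟨h.fin, (measure_mono sdiff_subset).trans_lt measure_ball_lt_top⟩)).ne
      _ ≤ _ := measureReal_union_le _ _
  rw [vol_ball_center p 0 1] at h2
  rw [vol_ball y hR]
  have h3 : R ^ finrank ℝ E ≤ 1 / 2 := by
    calc R ^ finrank ℝ E ≤ (1 / 2 : ℝ) ^ finrank ℝ E := pow_le_pow_left₀ hR.le hR2 _
      _ ≤ (1 / 2 : ℝ) ^ 1 := pow_le_pow_of_le_one (by norm_num) (by norm_num) (by omega)
      _ = 1 / 2 := pow_one _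
  nlinarith

/-- **ε-regularity.** -/
theorem eps_reg (hd : 2 ≤ finrank ℝ E) : ∃ c₀ δ₀ : ℝ, 0 < c₀ ∧ 0 < δ₀ ∧
    ∀ (Ω : Set E) (w : E → ℝ) (W : E → E), Norm1 Ω w W → LocIneq c₀ Ω w W →
      ∀ p : E, ∫ z in ball p 1, |1 - w z| ≤ δ₀ →
        ∀ᵐ z, z ∈ ball p (1 / 4) → 1 / 2 ≤ w z := by
  obtain ⟨γ, ε₀, hγ0, hγ1, he0, he1, hB⟩ := claimB (E := E) hd
  obtain ⟨j₀, ρ, b, m, hj₀, hρ0, hb0, hρs, hbs, hρε, hρm, hbj, hlast⟩ :=
    exists_seqs (C := 3 * 2 ^ finrank ℝ E) hγ0 hγ1 he0 (by positivity) (finrank ℝ E)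
  have hV : 0 < volume.real (ball (0 : E) 1) := vol_one_pos
  have hD : (1 : ℝ) ≤ 2 ^ finrank ℝ E := one_le_pow₀ (by norm_num)
  obtain ⟨τ, hτ0, hτ⟩ : ∃ τ : ℝ, 0 < τ ∧ 2 ^ finrank ℝ E * τ = ε₀ / 4 :=
    ⟨ε₀ / 4 / 2 ^ finrank ℝ E, by positivity, by field_simp⟩
  have hτε : τ ≤ ε₀ := by nlinarith
  obtain ⟨r₁, hr0, hr1, hr2⟩ : ∃ r : ℝ, 0 < r ∧ r ≤ 1 / 4 ∧ r ^ 2 ≤ τ / 2 :=
    ⟨min (1 / 4) (τ / 2), lt_min (by norm_num) (by positivity), min_le_left _ _, by
      have h1 : min (1 / 4) (τ / 2) ≤ 1 / 4 := min_le_left _ _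
      have h2 : min (1 / 4) (τ / 2) ≤ τ / 2 := min_le_right _ _
      have h3 : 0 < min (1 / 4) (τ / 2) := lt_min (by norm_num) (by positivity)
      nlinarith⟩
  have hs0 : (0 : ℝ) < (1 / 2) ^ j₀ := by positivity
  have hs16 : ∀ n : ℕ, ((1 : ℝ) / 2) ^ (j₀ + n) ≤ 1 / 16 := by
    intro n
    calc ((1 : ℝ) / 2) ^ (j₀ + n) ≤ (1 / 2) ^ 4 :=
          pow_le_pow_of_le_one (by norm_num) (by norm_num) (by omega)
      _ = 1 / 16 := by norm_num
  obtain ⟨δ₀, hδ0, hδ1, hδ2, hδ3⟩ : ∃ δ : ℝ, 0 < δ ∧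
      δ ≤ volume.real (ball (0 : E) r₁) * (τ / 2) ∧
      δ ≤ volume.real (ball (0 : E) ((1 / 2) ^ j₀)) * (ε₀ / 2) ∧
      δ ≤ volume.real (ball (0 : E) 1) / 2 := by
    have h1 := vol_ball_pos (0 : E) hr0
    have h2 := vol_ball_pos (0 : E) hs0
    refine ⟨min (volume.real (ball (0 : E) r₁) * (τ / 2))
      (min (volume.real (ball (0 : E) ((1 / 2) ^ j₀)) * (ε₀ / 2))
        (volume.real (ball (0 : E) 1) / 2)), ?_, ?_, ?_, ?_⟩
    · exact lt_min (by positivity) (lt_min (by positivity) (by positivity))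
    · exact min_le_left _ _
    · exact (min_le_right _ _).trans (min_le_left _ _)
    · exact (min_le_right _ _).trans (min_le_right _ _)
  refine ⟨ε₀, δ₀, he0, hδ0, ?_⟩
  intro Ω w W hN hL p hp
  have hwm := hN.h10.memLp
  have hSB := hB Ω w W hN hL
  have hvol : ∀ (y : E) {R : ℝ}, 0 < R → R ≤ 1 / 2 → volume.real (ball y R) ≤ volume.real Ω :=
    fun y R hR hR2 => eps_vol hd hN (hp.trans hδ3) hR hR2
  -- (1)
  have hw1 : ∀ᵐ z, z ∈ ball p (3 / 4) → w z ≤ 1 + τ := by
    filter_upwards [IsTorsion.ae_le_av hN.isOpen hN.fin hN.tor] with x hx hxp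
    have h1 := hx r₁ hr0
    have hxp' : dist x p < 3 / 4 := hxp
    have hsub : ball x r₁ ⊆ ball p 1 := by
      intro z hz
      have hz' : dist z x < r₁ := hz
      have := dist_triangle z x p
      rw [mem_ball]
      linarith
    have h2 := eps_av_le hwm hr0 hsub hp
    have hv := vol_ball_pos x hr0
    have h3 : δ₀ / volume.real (ball x r₁) ≤ τ / 2 := by
      rw [div_le_iff₀ hv, vol_ball_center x 0]
      linarith
    have h4 := neg_abs_le (1 - av x r₁ w)
    linarith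
  -- the radii and the bounds
  set rr : ℕ → ℝ := fun n => 1 / 2 - ∑ i ∈ Finset.range n, ρ (j₀ + i) with hrr
  set ee : ℕ → ℝ := fun n => ε₀ / 2 + ∑ i ∈ Finset.range n, b (j₀ + i) with hee
  have hrr4 : ∀ n, 1 / 4 ≤ rr n := fun n => by
    have := hρs n
    simp only [hrr]
    linarith
  have hrr2 : ∀ n, rr n ≤ 1 / 2 := fun n => by
    have h0 : 0 ≤ ∑ i ∈ Finset.range n, ρ (j₀ + i) :=
      Finset.sum_nonneg fun i _ => (hρ0 _).le
    simp only [hrr]
    linarith
  have hrrs : ∀ n, rr (n + 1) = rr n - ρ (j₀ + n) := fun n => by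
    simp only [hrr]
    rw [Finset.sum_range_succ]
    ring
  have hee1 : ∀ n, ee n ≤ ε₀ := fun n => by
    have := hbs n
    simp only [hee]
    linarith
  have hee2 : ∀ n, ε₀ / 2 ≤ ee n := fun n => by
    have h0 : 0 ≤ ∑ i ∈ Finset.range n, b (j₀ + i) :=
      Finset.sum_nonneg fun i _ => hb0 _
    simp only [hee]
    linarith
  have hees : ∀ n, ee (n + 1) = ee n + b (j₀ + n) := fun n => by
    simp only [hee]
    rw [Finset.sum_range_succ]
    ring
  clear_value rr ee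
  -- (2)
  have key : ∀ n : ℕ, ∀ x ∈ ball p (rr n), 1 - av x ((1 / 2) ^ (j₀ + n)) w ≤ ee n := by
    intro n
    induction n with
    | zero =>
      intro x hx
      have hx' : dist x p < rr 0 := hx
      have h0 := hrr2 0
      have hs := hs16 0
      rw [add_zero] at hs ⊢
      have hsub : ball x ((1 / 2) ^ j₀) ⊆ ball p 1 := by
        intro z hz
        have hz' : dist z x < (1 / 2) ^ j₀ := hz
        have := dist_triangle z x p
        rw [mem_ball]
        linarith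
      have h2 := eps_av_le hwm hs0 hsub hp
      have hv := vol_ball_pos x hs0
      have h3 : δ₀ / volume.real (ball x ((1 / 2) ^ j₀)) ≤ ε₀ / 2 := by
        rw [div_le_iff₀ hv, vol_ball_center x 0]
        linarith
      have h4 := le_abs_self (1 - av x ((1 / 2) ^ j₀) w)
      have h5 := hee2 0
      linarith
    | succ n ih =>
      intro y hy
      have hy' : dist y p < rr (n + 1) := hy
      rw [hrrs] at hy'
      set j := j₀ + n with hj
      have hjj : j₀ ≤ j := by omega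
      set s : ℝ := (1 / 2) ^ j with hs
      have hspos : 0 < s := by positivity
      have hs1 : s ≤ 1 / 16 := hs16 n
      have hρj := hρ0 j
      have hρj2 := hρε j hjj
      have hR2 : ρ j ≤ 1 / 2 := by linarith
      have hrn := hrr2 n
      have hsR : s + 2 * m j * s ≤ ρ j := hρm j hjj
      -- the iteration
      have hF : volume.real (ball y s \ Ω) ≤ γ ^ m j * volume.real (ball y (ρ j)) := by
        refine iterate hγ0 hSB hspos hsR hρj2 (hvol y hρj hR2) ?_ ?_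
        · filter_upwards [hw1] with z hz hzb
          have hzb' : dist z y < ρ j + s := hzb
          have h1 := dist_triangle z y p
          have h2 : z ∈ ball p (3 / 4) := by
            rw [mem_ball]
            linarith
          have := hz h2
          linarith
        · intro x hx
          have hx' : dist x y < ρ j := hx
          have h1 := dist_triangle x y p
          have h2 : x ∈ ball p (rr n) := by
            rw [mem_ball]
            linarith
          have h3 := ih x h2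
          rw [av_one_sub hspos (memLp_integrableOn_ball hwm x s)]
          have h4 := hee1 n
          linarith
      have hF2 : volume.real (ball y s \ Ω) ≤ γ ^ m j * volume.real (ball (0 : E) 1) := by
        refine hF.trans (mul_le_mul_of_nonneg_left ?_ (by positivity))
        rw [vol_ball y hρj]
        have : ρ j ^ finrank ℝ E ≤ 1 := pow_le_one₀ hρj.le (by linarith)
        nlinarith
      have hyn : y ∈ ball p (rr n) := by
        rw [mem_ball]
        linarith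
      have hC := stepC (F := γ ^ m j * volume.real (ball (0 : E) 1)) (τ := τ)
        (τ' := τ + 4 * s ^ 2) hd (by linarith) hN hL (y := y) hspos
        (hvol y hspos (by linarith)) hτ0.le (by
          filter_upwards [hw1] with z hz hzb
          have hzb' : dist z y < 3 * s := hzb
          have h1 := dist_triangle z y p
          refine hz ?_
          rw [mem_ball]
          linarith) le_rfl hF2
      have hs4 : s ^ 2 = (1 / 4) ^ j := by
        rw [hs, ← pow_mul, mul_comm, pow_mul]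
        norm_num
      have hs4le : s ^ 2 ≤ (1 / 4) ^ j₀ := by
        rw [hs4]
        exact pow_le_pow_of_le_one (by norm_num) (by norm_num) hjj
      have hmax : max (1 - av y s w) (2 ^ finrank ℝ E * (τ + 4 * s ^ 2)) ≤ ee n := by
        refine max_le (ih y hyn) ?_
        have h1 : (2 : ℝ) ^ finrank ℝ E * (4 * s ^ 2) ≤ 2 ^ finrank ℝ E * (4 * (1 / 4) ^ j₀) := by
          gcongr
        have h2 := hee2 n
        rw [mul_add, hτ]
        linarith
      have hsqrt : Real.sqrt (3 * (γ ^ m j * volume.real (ball (0 : E) 1)) /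
          volume.real (ball y (s / 2))) =
          Real.sqrt (3 * 2 ^ finrank ℝ E * γ ^ m j * 2 ^ (j * finrank ℝ E)) := by
        congr 1
        rw [vol_ball y (by positivity), div_eq_iff (by positivity)]
        have e1 : (s / 2) ^ finrank ℝ E * (2 ^ finrank ℝ E * 2 ^ (j * finrank ℝ E)) = 1 := by
          rw [pow_mul, ← mul_pow, ← mul_pow, hs]
          have : ((1 : ℝ) / 2) ^ j / 2 * (2 * 2 ^ j) = 1 := by
            rw [div_mul_eq_mul_div, div_eq_iff (by norm_num)]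
            have : ((1 : ℝ) / 2) ^ j * 2 ^ j = 1 := by
              rw [← mul_pow]
              norm_num
            linear_combination 2 * this
          rw [this, one_pow]
        linear_combination (-(3 * γ ^ m j * volume.real (ball (0 : E) 1))) * e1
      have hbj' := hbj j hjj
      rw [hsqrt] at hC
      have hC' : 1 - av y (s / 2) w ≤ ee n + (1 / 4) ^ j +
          Real.sqrt (3 * 2 ^ finrank ℝ E * γ ^ m j * 2 ^ (j * finrank ℝ E)) := by
        rw [← hs4]
        linarith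
      have hs2 : (1 / 2 : ℝ) ^ (j₀ + (n + 1)) = s / 2 := by
        rw [← add_assoc, pow_succ, ← hj, ← hs]
        ring
      rw [hs2, hees, ← hj]
      linarith
  -- (3)
  filter_upwards [ae_tendsto_av (hwm.locallyIntegrable (by norm_num))] with x hx hxp
  have ht : Tendsto (fun n : ℕ => ((1 : ℝ) / 2) ^ (j₀ + n)) atTop (𝓝[>] 0) := by
    refine tendsto_nhdsWithin_iff.2 ⟨?_, Eventually.of_forall fun n => ?_⟩
    · have := tendsto_pow_atTop_nhds_zero_of_lt_one (r := (1 : ℝ) / 2) (by norm_num) (by norm_num)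
      have h2 := this.comp (tendsto_add_atTop_nat j₀)
      refine h2.congr fun n => ?_
      simp only [Function.comp_apply]
      rw [add_comm]
    · exact mem_Ioi.2 (by positivity)
  have hlim := hx.comp ht
  have hge : 1 - ε₀ ≤ w x := by
    refine ge_of_tendsto' hlim fun n => ?_
    have h1 : x ∈ ball p (rr n) := ball_subset_ball (hrr4 n) hxp
    have h2 := key n x h1
    have h3 := hee1 n
    simp only [Function.comp_apply]
    linarith
  linarith

end Pool.Agent.H4.NM
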