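import Pool.Agent.H4.NM.End

/-!
# The final theorem in `EuclideanSpace ℝ (Fin d)` (MP_898b17_an, all dimensions `d ≥ 2`)
-/

open MeasureTheory Set Metric Filter Topology ContDiff Module
open scoped ENNReal RealInnerProductSpace

namespace Pool.Agent.H4.NM

theorem final (d : ℕ) (hd : 2 ≤ d) :
    ∃ q₀ : ℝ, 1 < q₀ ∧ ∀ q : ℝ, 1 < q → q < q₀ →
      BddAbove {t : ℝ | ∃ Ω : Set (EuclideanSpace ℝ (Fin d)), Admissible Ω ∧ t = Fq d q Ω} ∧
      ∀ Ω : Set (EuclideanSpace ℝ (Fin d)), Admissible Ω →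
        Fq d q Ω <
          sSup {t : ℝ | ∃ Ω' : Set (EuclideanSpace ℝ (Fin d)), Admissible Ω' ∧ t = Fq d q Ω'} := by
  have h := no_maximiser (E := EuclideanSpace ℝ (Fin d)) (by rw [finrank_euclideanSpace_fin]; exact hd)
  rw [finrank_euclideanSpace_fin] at h
  exact h

/-- Existence and uniqueness of the torsion function (so that `torsion` is what it should be). -/
theorem final_torsion (d : ℕ) (hd : 2 ≤ d) {Ω : Set (EuclideanSpace ℝ (Fin d))}
    (h : Admissible Ω) : ∃ w W, IsTorsion Ω w W ∧ torsion Ω = ∫ x, w x := by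
  have hd' : 2 ≤ finrank ℝ (EuclideanSpace ℝ (Fin d)) := by
    rw [finrank_euclideanSpace_fin]; exact hd
  obtain ⟨w, W, hw⟩ := exists_torsion hd' h.1 h.2.2
  exact ⟨w, W, hw, hw.torsion_eq hd' h.1 h.2.2⟩

end Pool.Agent.H4.NM
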