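import Pool.Agent.H4.NM.Star
import Pool.Agent.H4.NM.Norm1

/-!
# NM-17: the glued function is a subsolution (MP_898b17_an, all dimensions)

Compare `cond_S_bdd`, `cond_S` in `Pool/Agent/H38/Ev/Star.lean` (the plane, another gluing).

## Paper proof

`B = ball y R`, `p = h - w ∈ H¹₀(B)`, gradient `Gh - W`; `P = (p - t)⁺ = p - min p t ∈ H¹₀(B)`
(`t ≥ 0`; `H10.min_const`), gradient `GP = 1_{p > t} (Gh - W)` (this is `harm_P`; off `B` `p = 0 ≤ t`,
so `P = 0` there).
`glue_sub`: let `0 ≤ Φ ∈ H¹₀(U)`, `|U| < ∞`, first bounded, `Φ ≤ n`. `χ_k = min (k P) 1 ∈ H¹₀(B)`,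
gradient `k GP` on `{k P < 1}`, else `0`.
`Φ χ_k ∈ H¹₀(B)`: `H10.mul` (both bounded; the terms `χ_k • H`, `Φ • ∇χ_k` are in `L²`).
On `{P > 0}` `W + GP = Gh`, and `∇(Φ χ_k) = 0` a.e. on `{P = 0}`(it is `χ_k H + Φ ∇χ_k`), so
`∫ ⟪W + GP, ∇(Φ χ_k)⟫ = ∫ ⟪Gh, ∇(Φ χ_k)⟫ = 0` by harmonicity.
`0 ≤ Φ (1 - χ_k) ∈ H¹₀(U')` (`U' = U ∪ B`; it is `Φ - Φ χ_k`), so by `sub_all`
`∫ ⟪W, ∇(Φ (1 - χ_k))⟫ ≤ ∫ Φ (1 - χ_k)`, and
`∫ ⟪GP, ∇(Φ(1 - χ_k))⟫ = ∫ (1 - χ_k) ⟪GP, H⟫ - k ∫_{0 < P < 1/k} Φ |GP|² ≤ ∫ (1 - χ_k) ⟪GP, H⟫ → 0`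
as `k → ∞` (`1 - χ_k → 1_{P = 0}`, `GP = 0` where `P = 0`; dominated convergence), and
`∫ Φ (1 - χ_k) → ∫_{P = 0} Φ`. Add up. General `Φ`: truncate, `min Φ n` (`H10.min_const`), as in
`sub_all` of file Star.
-/

open MeasureTheory Set Metric Filter Topology ContDiff Module
open scoped ENNReal NNReal RealInnerProductSpace

namespace Pool.Agent.H4.NM

variable {E : Type} [NormedAddCommGroup E] [InnerProductSpace ℝ E] [FiniteDimensional ℝ E]
  [CompleteSpace E] [MeasurableSpace E] [BorelSpace E]

set_option linter.unusedSectionVars false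

variable {Ω U : Set E} {w h Φ : E → ℝ} {W Gh H : E → E} {y : E} {R t : ℝ}

theorem glue_pos_iff {a b t : ℝ} : 0 < max (a - t - b) 0 ↔ t < a - b := by
  rw [lt_max_iff]
  constructor
  · rintro (h | h)
    · linarith
    · exact absurd h (lt_irrefl _)
  · intro h
    left
    linarith

theorem glue_eq_zero {a b t : ℝ} (h : ¬ t < a - b) : max (a - t - b) 0 = 0 := by
  apply max_eq_right
  rw [not_lt] at h
  linarith

open Classical in
theorem harm_P (hh : IsHarm y R w W h Gh) (ht : 0 ≤ t) :
    H10 (ball y R) (fun z => max (h z - t - w z) 0)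
      (fun z => if t < h z - w z then Gh z - W z else 0) := by
  have h1 := hh.1.sub (hh.1.min_const ht)
  refine h1.congr (Eventually.of_forall fun z => ?_) ?_
  · simp only
    rcases le_total (h z - w z) t with h2 | h2
    · rw [min_eq_left h2, max_eq_right (by linarith), sub_self]
    · rw [min_eq_right h2, max_eq_left (by linarith)]
      ring
  · filter_upwards [hh.1.grad_zero_of_eq t] with z hz
    rcases lt_trichotomy (h z - w z) t with h2 | h2 | h2
    · simp [h2, h2.not_gt]
    · have h3 := hz h2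
      simp only [h3]
      split_ifs <;> simp
    · simp [h2, h2.not_gt]

open Classical in
/-- `glue_sub` for bounded test functions. -/
theorem glue_sub_bdd (hN : Norm1 Ω w W) (hh : IsHarm y R w W h Gh) (ht : 0 ≤ t) (hU : IsOpen U)
    (hfin : volume U < ⊤) (hΦ : H10 U Φ H) (h0 : ∀ᵐ z, 0 ≤ Φ z) {n : ℝ} (hn : ∀ᵐ z, Φ z ≤ n) :
    ∫ z, ⟪W z + (if t < h z - w z then Gh z - W z else 0), H z⟫ ≤
      ∫ z, (if t < h z - w z then 0 else 1) * Φ z := by
  have hP := harm_P hh ht
  set P : E → ℝ := fun z => max (h z - t - w z) 0 with hPdef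
  set GP : E → E := fun z => if t < h z - w z then Gh z - W z else 0 with hGPdef
  have hP0 : ∀ z, 0 ≤ P z := fun z => le_max_right _ _
  have hvb : ∀ᵐ z, |Φ z| ≤ n := by
    filter_upwards [h0, hn] with z h1 h2
    rwa [abs_of_nonneg h1]
  have hvi : Integrable Φ volume := hΦ.integrable hU hfin
  have hWL : MemLp W 2 volume := hN.tor.1.2
  have hWP : MemLp (fun z => W z + GP z) 2 volume := hWL.add hP.2
  have hχ01 : ∀ (k : ℕ) z, 0 ≤ min ((k : ℝ) * P z) 1 ∧ min ((k : ℝ) * P z) 1 ≤ 1 := fun k z =>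
    ⟨le_min (mul_nonneg (Nat.cast_nonneg k) (hP0 z)) zero_le_one, min_le_right _ _⟩
  have hχm : ∀ k : ℕ, AEStronglyMeasurable (fun z => min ((k : ℝ) * P z) 1) volume := fun k =>
    ((hP.const_mul (k : ℝ)).min_const zero_le_one).1.1
  have h1χ : ∀ k : ℕ, MemLp (fun z => (1 - min ((k : ℝ) * P z) 1) • H z) 2 volume := fun k =>
    memLp_smul_of_le_one (aestronglyMeasurable_const.sub (hχm k))
      (Eventually.of_forall fun z => by
        rw [abs_of_nonneg (by linarith [(hχ01 k z).2])]; linarith [(hχ01 k z).1]) hΦ.2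
  have step : ∀ k : ℕ, ∫ z, ⟪W z + GP z, H z⟫ ≤
      (∫ z, (1 - min ((k : ℝ) * P z) 1) * Φ z) +
        ∫ z, ⟪GP z, (1 - min ((k : ℝ) * P z) 1) • H z⟫ := by
    intro k
    have hk : (0 : ℝ) ≤ k := Nat.cast_nonneg k
    have hχ := (hP.const_mul (k : ℝ)).min_const zero_le_one
    have hL : MemLp (fun z => min ((k : ℝ) * P z) 1 • H z) 2 volume :=
      memLp_smul_of_le_one hχ.1.1
        (Eventually.of_forall fun z => by rw [abs_of_nonneg (hχ01 k z).1]; exact (hχ01 k z).2)
        hΦ.2
    have h2 := hχ.mul hΦ hvb hL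
    have h2B := h2.mono (inter_subset_left : ball y R ∩ U ⊆ ball y R)
    have h2U := h2.mono (inter_subset_right : ball y R ∩ U ⊆ U)
    have hD := hh.2 _ _ h2B
    have h3 := hΦ.sub h2U
    have e0 : ∫ z, ⟪W z + GP z, min ((k : ℝ) * P z) 1 • H z +
        Φ z • (if (k : ℝ) * P z < 1 then (k : ℝ) • GP z else 0)⟫ = 0 := by
      rw [← hD]
      congr 1
      ext1 z
      by_cases hz : t < h z - w z
      · have : W z + GP z = Gh z := by
          simp only [hGPdef, if_pos hz]
          abel
        rw [this]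
      · have p0 : P z = 0 := glue_eq_zero hz
        have g0 : GP z = 0 := by simp only [hGPdef, if_neg hz]
        rw [p0, g0]
        simp
    have e1 : ∫ z, ⟪W z + GP z, H z⟫ = ∫ z, ⟪W z + GP z, H z - (min ((k : ℝ) * P z) 1 • H z +
        Φ z • (if (k : ℝ) * P z < 1 then (k : ℝ) • GP z else 0))⟫ := by
      have i1 := integrable_inner_of_memLp hWP hΦ.2
      have i2 := integrable_inner_of_memLp hWP h2.2
      have : (∫ z, ⟪W z + GP z, H z⟫) - ∫ z, ⟪W z + GP z, min ((k : ℝ) * P z) 1 • H z +
          Φ z • (if (k : ℝ) * P z < 1 then (k : ℝ) • GP z else 0)⟫ = _ :=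
        (integral_sub i1 i2).symm
      rw [e0, sub_zero] at this
      rw [this]
      congr 1
      ext1 z
      rw [inner_sub_right]
    have e2 : ∫ z, ⟪W z + GP z, H z - (min ((k : ℝ) * P z) 1 • H z +
        Φ z • (if (k : ℝ) * P z < 1 then (k : ℝ) • GP z else 0))⟫ =
        (∫ z, ⟪W z, H z - (min ((k : ℝ) * P z) 1 • H z +
        Φ z • (if (k : ℝ) * P z < 1 then (k : ℝ) • GP z else 0))⟫) +
        ∫ z, ⟪GP z, H z - (min ((k : ℝ) * P z) 1 • H z +
        Φ z • (if (k : ℝ) * P z < 1 then (k : ℝ) • GP z else 0))⟫ := by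
      rw [← integral_add (integrable_inner_of_memLp hWL h3.2)
        (integrable_inner_of_memLp hP.2 h3.2)]
      congr 1
      ext1 z
      rw [inner_add_left]
    have e3 := sub_all hN.isOpen hN.fin hN.tor hU hfin h3 (by
      filter_upwards [h0] with z hz
      have := mul_le_of_le_one_left hz (hχ01 k z).2
      change 0 ≤ Φ z - min ((k : ℝ) * P z) 1 * Φ z
      linarith)
    have e4 : ∫ z, (Φ z - min ((k : ℝ) * P z) 1 * Φ z) =
        ∫ z, (1 - min ((k : ℝ) * P z) 1) * Φ z := by
      congr 1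
      ext1 z
      ring
    have e5 : ∫ z, ⟪GP z, H z - (min ((k : ℝ) * P z) 1 • H z +
        Φ z • (if (k : ℝ) * P z < 1 then (k : ℝ) • GP z else 0))⟫ ≤
        ∫ z, ⟪GP z, (1 - min ((k : ℝ) * P z) 1) • H z⟫ := by
      apply integral_mono_ae (integrable_inner_of_memLp hP.2 h3.2)
        (integrable_inner_of_memLp hP.2 (h1χ k))
      filter_upwards [h0] with z hz
      have h6 : 0 ≤ ⟪GP z, Φ z • (if (k : ℝ) * P z < 1 then (k : ℝ) • GP z else 0)⟫ := by
        rw [inner_smul_right]
        apply mul_nonneg hz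
        split_ifs
        · rw [inner_smul_right]
          exact mul_nonneg hk real_inner_self_nonneg
        · simp
      change ⟪GP z, H z - (min ((k : ℝ) * P z) 1 • H z +
        Φ z • (if (k : ℝ) * P z < 1 then (k : ℝ) • GP z else 0))⟫ ≤
        ⟪GP z, (1 - min ((k : ℝ) * P z) 1) • H z⟫
      rw [inner_sub_right, inner_add_right, sub_smul, one_smul, inner_sub_right]
      linarith
    rw [e1, e2]
    rw [e4] at e3
    exact add_le_add e3 e5
  have lim1 : Tendsto (fun k : ℕ => ∫ z, (1 - min ((k : ℝ) * P z) 1) * Φ z) atTop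
      (𝓝 (∫ z, (if t < h z - w z then 0 else 1) * Φ z)) := by
    apply tendsto_integral_of_dominated_convergence (fun z => ‖Φ z‖)
    · intro k
      exact (aestronglyMeasurable_const.sub (hχm k)).mul hvi.1
    · exact hvi.norm
    · intro k
      filter_upwards with z
      rw [norm_mul]
      apply mul_le_of_le_one_left (norm_nonneg _)
      rw [Real.norm_eq_abs, abs_of_nonneg (by linarith [(hχ01 k z).2])]
      linarith [(hχ01 k z).1]
    · filter_upwards with z
      by_cases hz : t < h z - w z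
      · have h1 : 0 < P z := glue_pos_iff.2 hz
        rw [if_pos hz, zero_mul]
        have hev : ∀ᶠ k : ℕ in atTop, 1 / P z ≤ (k : ℝ) :=
          tendsto_natCast_atTop_atTop.eventually (eventually_ge_atTop _)
        apply tendsto_const_nhds.congr'
        filter_upwards [hev] with k hk
        have h3 : 1 ≤ (k : ℝ) * P z := by
          rw [div_le_iff₀ h1] at hk
          exact hk
        rw [min_eq_right h3, sub_self, zero_mul]
      · have h1 : P z = 0 := glue_eq_zero hz
        rw [if_neg hz]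
        apply tendsto_const_nhds.congr
        intro k
        rw [h1, mul_zero, min_eq_left zero_le_one, sub_zero]
  have lim2 : Tendsto (fun k : ℕ => ∫ z, ⟪GP z, (1 - min ((k : ℝ) * P z) 1) • H z⟫) atTop
      (𝓝 (∫ _z : E, (0 : ℝ))) := by
    apply tendsto_integral_of_dominated_convergence (fun z => ‖GP z‖ * ‖H z‖)
    · intro k
      exact hP.2.1.inner (h1χ k).1
    · exact hP.2.norm.integrable_mul hΦ.2.norm
    · intro k
      filter_upwards with z
      refine (norm_inner_le_norm _ _).trans ?_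
      apply mul_le_mul_of_nonneg_left _ (norm_nonneg _)
      rw [norm_smul]
      apply mul_le_of_le_one_left (norm_nonneg _)
      rw [Real.norm_eq_abs, abs_of_nonneg (by linarith [(hχ01 k z).2])]
      linarith [(hχ01 k z).1]
    · filter_upwards with z
      by_cases hz : t < h z - w z
      · have h1 : 0 < P z := glue_pos_iff.2 hz
        have hev : ∀ᶠ k : ℕ in atTop, 1 / P z ≤ (k : ℝ) :=
          tendsto_natCast_atTop_atTop.eventually (eventually_ge_atTop _)
        apply tendsto_const_nhds.congr'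
        filter_upwards [hev] with k hk
        have h3 : 1 ≤ (k : ℝ) * P z := by
          rw [div_le_iff₀ h1] at hk
          exact hk
        rw [min_eq_right h3, sub_self, zero_smul, inner_zero_right]
      · have g0 : GP z = 0 := by simp only [hGPdef, if_neg hz]
        apply tendsto_const_nhds.congr
        intro k
        rw [g0, inner_zero_left]
  have lim := lim1.add lim2
  rw [integral_zero, add_zero] at lim
  exact ge_of_tendsto' lim step

open Classical in
theorem glue_sub (hN : Norm1 Ω w W) (hh : IsHarm y R w W h Gh) (ht : 0 ≤ t) (hU : IsOpen U)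
    (hfin : volume U < ⊤) (hΦ : H10 U Φ H) (h0 : ∀ᵐ z, 0 ≤ Φ z) :
    ∫ z, ⟪W z + (if t < h z - w z then Gh z - W z else 0), H z⟫ ≤
      ∫ z, (if t < h z - w z then 0 else 1) * Φ z := by
  have hP := harm_P hh ht
  have hvi : Integrable Φ volume := hΦ.integrable hU hfin
  have hWP : MemLp (fun z => W z + (if t < h z - w z then Gh z - W z else 0)) 2 volume :=
    hN.tor.1.2.add hP.2
  have hS : NullMeasurableSet {z | t < h z - w z} volume :=
    nullMeasurableSet_lt aemeasurable_const hh.1.1.1.aemeasurable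
  have hI : ∀ f : E → ℝ, Integrable f volume →
      Integrable (fun z => (if t < h z - w z then 0 else 1) * f z) volume := by
    intro f hf
    refine (hf.indicator₀ hS.compl).congr (Eventually.of_forall fun z => ?_)
    by_cases hz : t < h z - w z
    · have : z ∉ {z | t < h z - w z}ᶜ := fun h' => h' hz
      simp only [indicator_of_notMem this, if_pos hz, zero_mul]
    · have : z ∈ {z | t < h z - w z}ᶜ := hz
      simp only [indicator_of_mem this, if_neg hz, one_mul]
  have step : ∀ n : ℕ, ∫ z, ⟪W z + (if t < h z - w z then Gh z - W z else 0),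
      if Φ z < (n : ℝ) then H z else 0⟫ ≤ ∫ z, (if t < h z - w z then 0 else 1) * Φ z := by
    intro n
    have h1 := hΦ.min_const (Nat.cast_nonneg n)
    have h2 := glue_sub_bdd hN hh ht hU hfin h1 (by
      filter_upwards [h0] with z hz
      exact le_min hz (Nat.cast_nonneg n)) (n := n) (Eventually.of_forall fun z => min_le_right _ _)
    refine h2.trans ?_
    apply integral_mono_ae (hI _ (h1.integrable hU hfin)) (hI _ hvi)
    refine Eventually.of_forall fun z => ?_
    simp only
    apply mul_le_mul_of_nonneg_left (min_le_left _ _)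
    split_ifs
    · exact le_rfl
    · exact zero_le_one
  have hlim : Tendsto (fun n : ℕ => ∫ z, ⟪W z + (if t < h z - w z then Gh z - W z else 0),
      if Φ z < (n : ℝ) then H z else 0⟫) atTop
      (𝓝 (∫ z, ⟪W z + (if t < h z - w z then Gh z - W z else 0), H z⟫)) := by
    apply tendsto_integral_of_dominated_convergence
      (fun z => ‖W z + (if t < h z - w z then Gh z - W z else 0)‖ * ‖H z‖)
    · intro n
      exact hWP.1.inner (hΦ.min_const (Nat.cast_nonneg n)).2.1
    · exact hWP.norm.integrable_mul hΦ.2.norm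
    · intro n
      filter_upwards with z
      refine (norm_inner_le_norm _ _).trans ?_
      apply mul_le_mul_of_nonneg_left _ (norm_nonneg _)
      by_cases hz : Φ z < (n : ℝ)
      · rw [if_pos hz]
      · rw [if_neg hz, norm_zero]
        exact norm_nonneg _
    · filter_upwards with z
      have hev : ∀ᶠ n : ℕ in atTop, Φ z < (n : ℝ) :=
        tendsto_natCast_atTop_atTop.eventually (eventually_gt_atTop _)
      apply tendsto_const_nhds.congr'
      filter_upwards [hev] with n hn
      rw [if_pos hn]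
  exact le_of_tendsto' hlim step

end Pool.Agent.H4.NM
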