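import Pool.Agent.H4.NM.PerfDefs

/-!
# NM-10: the grid (MP_898b17_an, all dimensions)

## Paper proof

`b = stdOrthonormalBasis ℝ E`, `d = finrank ℝ E`, `ι = Fin d → ℤ`;
`cell a = {x | ∀ i, ε * a i ≤ ⟪b i, x⟫ ∧ ⟪b i, x⟫ < ε * (a i + 1)}` (or the preimage of a box under
`b.repr`, `b.measurePreserving_repr`-type lemmas: `EuclideanSpace.volume_preserving_...`,
`Real.volume_pi_Ico`), `ctr a = ∑ i, (ε * (a i + 1/2)) • b i`.
* convex: intersection of preimages of intervals under linear functionals;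
* disjoint: two cells containing `x` have the same `a i = ⌊⟪b i, x⟫ / ε⌋`; cover: this `a`;
* `closedBall (ctr a) (ε/4) ⊆ cell a`: `|⟪b i, x - ctr a⟫| ≤ ‖x - ctr a‖ ≤ ε/4 < ε/2`;
* diam: `‖x - y‖² = ∑ ⟪b i, x - y⟫² ≤ d ε² ≤ (d ε)²`;
* volume: product of lengths (orthonormal basis: `OrthonormalBasis.measurePreserving_repr`);
* finiteness: `x ∈ cell a`, `‖x‖ ≤ R` gives `|a i| ≤ R/ε + 1`.
(`d = 0` cannot occur in the application but is harmless; add `hd` if convenient.)
-/

open MeasureTheory Set Metric Filter Topology ContDiff Module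
open scoped ENNReal NNReal RealInnerProductSpace

namespace Pool.Agent.H4.NM

variable {E : Type} [NormedAddCommGroup E] [InnerProductSpace ℝ E] [FiniteDimensional ℝ E]
  [CompleteSpace E] [MeasurableSpace E] [BorelSpace E]

set_option linter.unusedSectionVars false

/-- the coordinates in the standard orthonormal basis -/
private noncomputable def co (x : E) (i : Fin (finrank ℝ E)) : ℝ :=
  (stdOrthonormalBasis ℝ E).repr x i

private lemma co_sub (x y : E) (i : Fin (finrank ℝ E)) : co (x - y) i = co x i - co y i := by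
  unfold co
  rw [map_sub]
  rfl

private lemma co_norm_sq (x : E) : ‖x‖ ^ 2 = ∑ i, co x i ^ 2 := by
  rw [← (stdOrthonormalBasis ℝ E).repr.norm_map x, EuclideanSpace.norm_sq_eq]
  refine Finset.sum_congr rfl fun i _ => ?_
  rw [Real.norm_eq_abs, sq_abs]
  rfl

private lemma abs_co_le (x : E) (i : Fin (finrank ℝ E)) : |co x i| ≤ ‖x‖ := by
  have h := PiLp.norm_apply_le ((stdOrthonormalBasis ℝ E).repr x) i
  rw [(stdOrthonormalBasis ℝ E).repr.norm_map x, Real.norm_eq_abs] at h
  exact h

private lemma co_mp : MeasurePreserving (fun x : E => co x) volume volume :=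
  (PiLp.volume_preserving_ofLp (Fin (finrank ℝ E))).comp
    (stdOrthonormalBasis ℝ E).measurePreserving_repr

private noncomputable def cl (ε : ℝ) (a : Fin (finrank ℝ E) → ℤ) : Set E :=
  (fun x : E => co x) ⁻¹' (Set.univ.pi fun i => Ico (ε * a i) (ε * a i + ε))

private lemma mem_cl {ε : ℝ} {a : Fin (finrank ℝ E) → ℤ} {x : E} :
    x ∈ cl ε a ↔ ∀ i, ε * a i ≤ co x i ∧ co x i < ε * a i + ε := by
  unfold cl
  simp [Set.mem_pi]

private noncomputable def ct (E : Type) [NormedAddCommGroup E] [InnerProductSpace ℝ E]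
    [FiniteDimensional ℝ E] (ε : ℝ) (a : Fin (finrank ℝ E) → ℤ) : E :=
  (stdOrthonormalBasis ℝ E).repr.symm (WithLp.toLp 2 fun i => ε * a i + ε / 2)

private lemma co_ct (ε : ℝ) (a : Fin (finrank ℝ E) → ℤ) (i : Fin (finrank ℝ E)) :
    co (ct E ε a) i = ε * a i + ε / 2 := by
  unfold co ct
  rw [LinearIsometryEquiv.apply_symm_apply]

private lemma convex_cl (ε : ℝ) (a : Fin (finrank ℝ E) → ℤ) : Convex ℝ (cl ε a : Set E) := by
  unfold cl
  refine Convex.is_linear_preimage (convex_pi fun i _ => convex_Ico _ _) ?_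
  constructor
  · intro x y
    funext i
    show co (x + y) i = co x i + co y i
    unfold co
    rw [map_add]
    rfl
  · intro c x
    funext i
    show co (c • x) i = c * co x i
    unfold co
    rw [map_smul]
    rfl

private lemma floor_of_mem {ε : ℝ} (hε : 0 < ε) {a : Fin (finrank ℝ E) → ℤ} {x : E}
    (hx : x ∈ cl ε a) (i : Fin (finrank ℝ E)) : ⌊co x i / ε⌋ = a i := by
  have h := mem_cl.1 hx i
  rw [Int.floor_eq_iff]
  constructor
  · rw [le_div_iff₀ hε]; linarith [mul_comm ε (a i : ℝ)]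
  · rw [div_lt_iff₀ hε]; nlinarith

theorem exists_grid (hd : 2 ≤ finrank ℝ E) {ε : ℝ} (hε : 0 < ε) :
    ∃ (cell : (Fin (finrank ℝ E) → ℤ) → Set E) (ctr : (Fin (finrank ℝ E) → ℤ) → E),
      IsGrid ε cell ctr := by
  refine ⟨cl ε, ct E ε, ?_, convex_cl ε, ?_, ?_, ?_, ?_, ?_, ?_⟩
  · intro a
    exact co_mp.measurable (MeasurableSet.univ_pi fun i => measurableSet_Ico)
  · intro a b hab
    rw [Set.disjoint_left]
    intro x hxa hxb
    exact hab (funext fun i => (floor_of_mem hε hxa i).symm.trans (floor_of_mem hε hxb i))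
  · intro x
    refine ⟨fun i => ⌊co x i / ε⌋, mem_cl.2 fun i => ?_⟩
    have h1 := Int.floor_le (co x i / ε)
    have h2 := Int.lt_floor_add_one (co x i / ε)
    rw [le_div_iff₀ hε] at h1
    rw [div_lt_iff₀ hε] at h2
    constructor
    · linarith [mul_comm ε (⌊co x i / ε⌋ : ℝ)]
    · nlinarith
  · intro a x hx
    rw [mem_closedBall, dist_eq_norm] at hx
    refine mem_cl.2 fun i => ?_
    have h1 := (abs_co_le (x - ct E ε a) i).trans hx
    rw [co_sub, co_ct, abs_le] at h1
    constructor <;> linarith [h1.1, h1.2]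
  · intro a x hx y hy
    have h1 : ∀ i, |co (x - y) i| ≤ ε := by
      intro i
      have hx' := mem_cl.1 hx i
      have hy' := mem_cl.1 hy i
      rw [co_sub, abs_le]
      constructor <;> linarith [hx'.1, hx'.2, hy'.1, hy'.2]
    have h2 : ‖x - y‖ ^ 2 ≤ (finrank ℝ E : ℝ) * ε ^ 2 := by
      rw [co_norm_sq]
      refine (Finset.sum_le_sum (g := fun _ => ε ^ 2) fun i _ => ?_).trans (le_of_eq ?_)
      · have := h1 i
        rw [← sq_abs]
        exact pow_le_pow_left₀ (abs_nonneg _) this 2
      · rw [Finset.sum_const, Finset.card_univ, Fintype.card_fin, nsmul_eq_mul]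
    have h3 : (1 : ℝ) ≤ finrank ℝ E := by exact_mod_cast (by omega : 1 ≤ finrank ℝ E)
    have h4 : ‖x - y‖ ^ 2 ≤ ((finrank ℝ E : ℝ) * ε) ^ 2 := by
      refine h2.trans ?_
      rw [mul_pow]
      refine mul_le_mul_of_nonneg_right ?_ (sq_nonneg ε)
      nlinarith
    exact (pow_le_pow_iff_left₀ (norm_nonneg _) (by positivity) (by norm_num)).1 h4
  · intro a
    unfold cl
    rw [co_mp.measureReal_preimage
      (MeasurableSet.univ_pi fun i => measurableSet_Ico).nullMeasurableSet, Measure.real,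
      Real.volume_pi_Ico_toReal (fun i => by linarith)]
    rw [Finset.prod_congr rfl (fun i _ => by ring : ∀ i ∈ Finset.univ,
      (ε * (a i : ℝ) + ε - ε * (a i : ℝ)) = ε)]
    rw [Finset.prod_const, Finset.card_univ, Fintype.card_fin]
  · intro K hK
    obtain ⟨R, hR⟩ := hK.subset_closedBall (0 : E)
    obtain ⟨M, hM⟩ := exists_int_gt (|R| / ε + 1)
    refine (Set.finite_Icc (fun _ : Fin (finrank ℝ E) => -M) (fun _ => M)).subset ?_
    rintro a ⟨x, hxa, hxK⟩
    have hx : ‖x‖ ≤ |R| := by
      have := hR hxK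
      rw [mem_closedBall, dist_zero_right] at this
      exact this.trans (le_abs_self R)
    have key : ∀ i, |(a i : ℝ)| ≤ |R| / ε + 1 := by
      intro i
      have h1 := mem_cl.1 hxa i
      have h2 := (abs_co_le x i).trans hx
      rw [abs_le] at h2 ⊢
      have h3 : |R| / ε * ε = |R| := div_mul_cancel₀ _ hε.ne'
      constructor
      · by_contra hc
        push Not at hc
        nlinarith [h1.2, h2.1]
      · by_contra hc
        push Not at hc
        nlinarith [h1.1, h2.2]
    rw [Set.mem_Icc]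
    constructor
    · intro i
      have h1 := abs_le.1 (key i)
      have : (-M : ℝ) ≤ (a i : ℝ) := by linarith [h1.1]
      exact_mod_cast this
    · intro i
      have h1 := abs_le.1 (key i)
      have : (a i : ℝ) ≤ (M : ℝ) := by linarith [h1.2]
      exact_mod_cast this

end Pool.Agent.H4.NM
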