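import Pool.Agent.H4.NM.Tors
import Pool.Agent.H4.NM.Sim
import Pool.Agent.H4.NM.Weak
import Pool.Agent.H4.NM.Norm1

/-!
# First eigenvalue and torsional rigidity (MP_898b17_an, all dimensions)
-/

open MeasureTheory Set Metric Filter Topology ContDiff Module
open scoped ENNReal RealInnerProductSpace

namespace Pool.Agent.H4.NM

variable {E : Type} [NormedAddCommGroup E] [InnerProductSpace ℝ E] [FiniteDimensional ℝ E]
  [CompleteSpace E] [MeasurableSpace E] [BorelSpace E]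

set_option linter.unusedSectionVars false

set_option maxHeartbeats 400000

variable {Ω Ω' U : Set E} {u v w w' : E → ℝ} {G H W W' : E → E} {φ ψ : E → ℝ}

theorem IsTorsion.unique (hd : 2 ≤ finrank ℝ E) (hΩ : IsOpen Ω) (hfin : volume Ω < ⊤)
    (h : IsTorsion Ω w W) (h' : IsTorsion Ω w' W') : w =ᵐ[volume] w' := by
  have h1 := H10.ae_zero_of_grad hd hΩ hfin (h.1.sub h'.1) (IsTorsion.grad_eq hΩ hfin h h').le
  filter_upwards [h1] with z hz
  linarith

theorem IsTorsion.torsion_eq (hd : 2 ≤ finrank ℝ E) (hΩ : IsOpen Ω) (hfin : volume Ω < ⊤) (h : IsTorsion Ω w W) :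
    torsion Ω = ∫ z, w z := by
  have hex : ∃ w W, IsTorsion Ω w W := ⟨w, W, h⟩
  unfold torsion
  rw [dif_pos hex]
  obtain ⟨V, hV⟩ := hex.choose_spec
  exact integral_congr_ae (hV.unique hd hΩ hfin h)

theorem lam_set_nonneg (Ω : Set E) : ∀ t ∈ {t : ℝ | ∃ (u : E → ℝ) (G : E → E), H10 Ω u G ∧
    (∫ x, u x ^ 2) ≠ 0 ∧ t = (∫ x, ‖G x‖ ^ 2) / ∫ x, u x ^ 2}, 0 ≤ t := by
  rintro t ⟨u, G, -, -, rfl⟩
  exact div_nonneg (integral_nonneg fun z => by positivity) (integral_nonneg fun z => by positivity)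

theorem lam_nonneg (Ω : Set E) : 0 ≤ lam Ω := Real.sInf_nonneg (lam_set_nonneg Ω)

theorem rq_lam (Ω : Set E) : RQ Ω (lam Ω) := by
  intro φ hφ
  by_cases h0 : (∫ x, φ x ^ 2) = 0
  · rw [h0, mul_zero]
    exact integral_nonneg fun z => by positivity
  · have hpos : 0 < ∫ x, φ x ^ 2 :=
      lt_of_le_of_ne (integral_nonneg fun z => by positivity) (Ne.symm h0)
    rw [← le_div_iff₀ hpos]
    exact csInf_le ⟨0, lam_set_nonneg Ω⟩ ⟨φ, gradient φ, hφ.h10, h0, rfl⟩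

theorem exists_test_pos (hΩ : IsOpen Ω) (hne : Ω.Nonempty) : ∃ φ : E → ℝ, IsTest Ω φ ∧
    (∀ z, 0 ≤ φ z) ∧ 0 < ∫ z, φ z ∧ 0 < ∫ z, φ z ^ 2 := by
  obtain ⟨p, hp⟩ := hne
  obtain ⟨r, hr, hr'⟩ := Metric.isOpen_iff.1 hΩ p hp
  let b : ContDiffBump p :=
    { rIn := r / 4, rOut := r / 2, rIn_pos := by positivity, rIn_lt_rOut := by linarith }
  have hb : IsTest Ω (b : E → ℝ) := by
    refine ⟨b.contDiff, b.hasCompactSupport, ?_⟩
    rw [b.tsupport_eq]
    refine (closedBall_subset_ball ?_).trans hr'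
    change r / 2 < r
    linarith
  have hnn : ∀ z, 0 ≤ b z := fun z => b.nonneg
  have hbp : b p = 1 := b.one_of_mem_closedBall (by
    simp only [mem_closedBall, dist_self]
    exact b.rIn_pos.le)
  refine ⟨b, hb, hnn, ?_, ?_⟩
  · rw [integral_pos_iff_support_of_nonneg hnn
      (hb.continuous.integrable_of_hasCompactSupport hb.2.1)]
    exact (hb.continuous.isOpen_support).measure_pos volume ⟨p, by simp [hbp]⟩
  · have hc : Continuous fun z => b z ^ 2 := hb.continuous.pow 2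
    rw [integral_pos_iff_support_of_nonneg (fun z => sq_nonneg _) (hb.memLp 2).integrable_sq]
    exact (hc.isOpen_support).measure_pos volume ⟨p, by simp [hbp]⟩

theorem le_lam {c : ℝ} (hΩ : IsOpen Ω) (hne : Ω.Nonempty) (h : RQ Ω c) : c ≤ lam Ω := by
  obtain ⟨φ, h1, -, -, h2⟩ := exists_test_pos hΩ hne
  refine le_csInf ⟨_, φ, gradient φ, h1.h10, h2.ne', rfl⟩ ?_
  rintro t ⟨u, G, h3, h4, rfl⟩
  have hpos : 0 < ∫ x, u x ^ 2 :=
    lt_of_le_of_ne (integral_nonneg fun z => by positivity) (Ne.symm h4)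
  rw [le_div_iff₀ hpos]
  exact h.all h3

theorem Admissible.nonempty (h : Admissible Ω) : Ω.Nonempty := by
  by_contra h0
  rw [not_nonempty_iff_eq_empty] at h0
  have := h.2.1
  rw [h0, measure_empty] at this
  exact lt_irrefl _ this

theorem Admissible.toReal_pos (h : Admissible Ω) : 0 < (volume Ω).toReal :=
  ENNReal.toReal_pos h.2.1.ne' h.2.2.ne

/-- A crude Faber-Krahn inequality. -/
theorem exists_lam_lower (hd : 2 ≤ finrank ℝ E) : ∃ C : ℝ, 1 ≤ C ∧ ∀ Ω : Set E, Admissible Ω →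
    1 / C ≤ lam Ω * (volume Ω).toReal ^ (2 / (finrank ℝ E : ℝ)) := by
  obtain ⟨C, hC0, hC⟩ := poincare (E := E) hd
  refine ⟨max C 1, le_max_right _ _, fun Ω h => ?_⟩
  have hA := h.toReal_pos
  have hAp : 0 < (volume Ω).toReal ^ (2 / (finrank ℝ E : ℝ)) := Real.rpow_pos_of_pos hA _
  have h1 : RQ Ω (1 / (C * (volume Ω).toReal ^ (2 / (finrank ℝ E : ℝ)))) := by
    intro φ hφ
    have h2 := hC Ω _ _ h.1 h.2.2 hφ.h10
    rw [one_div, inv_mul_le_iff₀ (by positivity)]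
    exact h2
  have h2 := le_lam h.1 h.nonempty h1
  calc 1 / max C 1 ≤ 1 / C := one_div_le_one_div_of_le hC0 (le_max_left _ _)
    _ = 1 / (C * (volume Ω).toReal ^ (2 / (finrank ℝ E : ℝ))) *
        (volume Ω).toReal ^ (2 / (finrank ℝ E : ℝ)) := by field_simp
    _ ≤ lam Ω * (volume Ω).toReal ^ (2 / (finrank ℝ E : ℝ)) :=
        mul_le_mul_of_nonneg_right h2 hAp.le

theorem Admissible.lam_pos (hd : 2 ≤ finrank ℝ E) (h : Admissible Ω) : 0 < lam Ω := by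
  obtain ⟨C, hC1, hC⟩ := exists_lam_lower (E := E) hd
  have h1 := hC Ω h
  have h2 : 0 < 1 / C := by positivity
  have h3 : 0 < (volume Ω).toReal ^ (2 / (finrank ℝ E : ℝ)) :=
    Real.rpow_pos_of_pos h.toReal_pos _
  by_contra h4
  push Not at h4
  have : lam Ω * (volume Ω).toReal ^ (2 / (finrank ℝ E : ℝ)) ≤ 0 :=
    mul_nonpos_of_nonpos_of_nonneg h4 h3.le
  linarith

/-! ### The bound `F_q ≤ C^{q-1}` -/

theorem IsTorsion.torsion_nonneg (hΩ : IsOpen Ω) (hfin : volume Ω < ⊤) (h : IsTorsion Ω w W) :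
    0 ≤ ∫ z, w z := by
  rw [← h.energy hΩ hfin]
  exact integral_nonneg fun z => by positivity

/-- `T² ≤ |Ω| ∫ w²`. -/
theorem IsTorsion.sq_le (hΩ : IsOpen Ω) (hfin : volume Ω < ⊤) (h : IsTorsion Ω w W) :
    (∫ z, w z) ^ 2 ≤ (volume Ω).toReal * ∫ z, w z ^ 2 := by
  have h1 := Pool.Agent.H47.FQ.cs_mul (f := Ω.indicator fun _ => (1 : ℝ)) (g := w) (μ := volume)
    (memLp_indicator_one hΩ hfin) h.1.1
  have e1 : ∫ z, Ω.indicator (fun _ => (1 : ℝ)) z * w z = ∫ z, w z := by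
    apply integral_congr_ae
    filter_upwards [h.1.ae_zero hΩ] with z h3
    by_cases hz : z ∈ Ω
    · simp [hz]
    · simp [hz, (h3 hz).1]
  have e2 : ∫ z, Ω.indicator (fun _ => (1 : ℝ)) z ^ 2 = (volume Ω).toReal := by
    have e3 : (fun z => Ω.indicator (fun _ => (1 : ℝ)) z ^ 2) = Ω.indicator (fun _ => (1 : ℝ)) := by
      ext z
      by_cases hz : z ∈ Ω <;> simp [hz]
    rw [e3, integral_indicator_const _ hΩ.measurableSet]
    simp [Measure.real]
  rw [e1, e2] at h1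
  have h2 : 0 ≤ ∫ z, w z ^ 2 := integral_nonneg fun z => sq_nonneg _
  calc (∫ z, w z) ^ 2 = |∫ z, w z| ^ 2 := (sq_abs _).symm
    _ ≤ (Real.sqrt (volume Ω).toReal * Real.sqrt (∫ z, w z ^ 2)) ^ 2 :=
        pow_le_pow_left₀ (abs_nonneg _) h1 2
    _ = _ := by rw [mul_pow, Real.sq_sqrt ENNReal.toReal_nonneg, Real.sq_sqrt h2]

theorem exists_torsion_le (hd : 2 ≤ finrank ℝ E) : ∃ C : ℝ, 1 ≤ C ∧ ∀ Ω : Set E, Admissible Ω →
    torsion Ω ≤ C * (volume Ω).toReal ^ (1 + 2 / (finrank ℝ E : ℝ)) := by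
  obtain ⟨C, hC0, hC⟩ := poincare (E := E) hd
  refine ⟨max C 1, le_max_right _ _, fun Ω h => ?_⟩
  obtain ⟨w, W, hw⟩ := exists_torsion hd h.1 h.2.2
  rw [hw.torsion_eq hd h.1 h.2.2]
  have hA := h.toReal_pos
  have h1 := hw.sq_le h.1 h.2.2
  have h2 := hC Ω w W h.1 h.2.2 hw.1
  rw [hw.energy h.1 h.2.2] at h2
  have hAp : 0 < (volume Ω).toReal ^ (2 / (finrank ℝ E : ℝ)) := Real.rpow_pos_of_pos hA _
  have e0 : (volume Ω).toReal ^ (1 + 2 / (finrank ℝ E : ℝ)) =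
      (volume Ω).toReal * (volume Ω).toReal ^ (2 / (finrank ℝ E : ℝ)) := by
    rw [Real.rpow_add hA, Real.rpow_one]
  rw [e0]
  rcases (hw.torsion_nonneg h.1 h.2.2).eq_or_lt with h3 | h3
  · rw [← h3]; positivity
  · have h4 : (∫ z, w z) * (∫ z, w z) ≤
        (C * ((volume Ω).toReal * (volume Ω).toReal ^ (2 / (finrank ℝ E : ℝ)))) * ∫ z, w z := by
      calc (∫ z, w z) * (∫ z, w z) = (∫ z, w z) ^ 2 := by ring
        _ ≤ (volume Ω).toReal * ∫ z, w z ^ 2 := h1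
        _ ≤ (volume Ω).toReal * (C * (volume Ω).toReal ^ (2 / (finrank ℝ E : ℝ)) * ∫ z, w z) :=
            mul_le_mul_of_nonneg_left h2 hA.le
        _ = _ := by ring
    have h5 := le_of_mul_le_mul_right h4 h3
    refine h5.trans ?_
    exact mul_le_mul_of_nonneg_right (le_max_left _ _) (by positivity)

/-- Pólya's inequality. -/
theorem polya (hd : 2 ≤ finrank ℝ E) (h : Admissible Ω) :
    lam Ω * torsion Ω ≤ (volume Ω).toReal := by
  obtain ⟨w, W, hw⟩ := exists_torsion hd h.1 h.2.2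
  rw [hw.torsion_eq hd h.1 h.2.2]
  have hA := h.toReal_pos
  have h1 := hw.sq_le h.1 h.2.2
  have h2 := (rq_lam Ω).all hw.1
  rw [hw.energy h.1 h.2.2] at h2
  rcases (hw.torsion_nonneg h.1 h.2.2).eq_or_lt with h3 | h3
  · rw [← h3, mul_zero]; exact hA.le
  · have h4 : (lam Ω * (∫ z, w z)) * (∫ z, w z) ≤ (volume Ω).toReal * ∫ z, w z := by
      calc (lam Ω * (∫ z, w z)) * (∫ z, w z) = lam Ω * (∫ z, w z) ^ 2 := by ring
        _ ≤ lam Ω * ((volume Ω).toReal * ∫ z, w z ^ 2) :=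
            mul_le_mul_of_nonneg_left h1 (lam_nonneg Ω)
        _ = (volume Ω).toReal * (lam Ω * ∫ z, w z ^ 2) := by ring
        _ ≤ (volume Ω).toReal * ∫ z, w z := mul_le_mul_of_nonneg_left h2 hA.le
    exact le_of_mul_le_mul_right h4 h3

theorem torsion_nonneg (hd : 2 ≤ finrank ℝ E) (h : Admissible Ω) : 0 ≤ torsion Ω := by
  obtain ⟨w, W, hw⟩ := exists_torsion hd h.1 h.2.2
  rw [hw.torsion_eq hd h.1 h.2.2]
  exact hw.torsion_nonneg h.1 h.2.2

theorem Fq_eq (q : ℝ) (Ω : Set E) :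
    Fq (finrank ℝ E) q Ω = lam Ω * torsion Ω ^ q / (volume Ω).toReal ^ pexp E q := rfl

theorem pexp_eq (hd : 2 ≤ finrank ℝ E) (q : ℝ) :
    pexp E q = 1 + (1 + 2 / (finrank ℝ E : ℝ)) * (q - 1) := by
  have h : (finrank ℝ E : ℝ) ≠ 0 := by
    have : 0 < finrank ℝ E := by omega
    positivity
  unfold pexp
  field_simp
  ring

/-- The supremum of `F_q` is finite. -/
theorem exists_Fq_le (hd : 2 ≤ finrank ℝ E) : ∃ C : ℝ, 1 ≤ C ∧ ∀ Ω : Set E, Admissible Ω →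
    ∀ q : ℝ, 1 ≤ q → Fq (finrank ℝ E) q Ω ≤ C ^ (q - 1) := by
  obtain ⟨C, hC1, hC⟩ := exists_torsion_le (E := E) hd
  refine ⟨C, hC1, fun Ω h q hq => ?_⟩
  rw [Fq_eq]
  have hA := h.toReal_pos
  have hT := torsion_nonneg hd h
  rw [div_le_iff₀ (Real.rpow_pos_of_pos hA _)]
  have h1 : torsion Ω ^ q = torsion Ω * torsion Ω ^ (q - 1) := by
    rcases hT.eq_or_lt with h0 | h0
    · rw [← h0, Real.zero_rpow (by linarith), zero_mul]
    · rw [← Real.rpow_one_add' hT (by linarith)]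
      congr 1
      ring
  have h2 : torsion Ω ^ (q - 1) ≤
      (C * (volume Ω).toReal ^ (1 + 2 / (finrank ℝ E : ℝ))) ^ (q - 1) :=
    Real.rpow_le_rpow hT (hC Ω h) (by linarith)
  have h3 : (C * (volume Ω).toReal ^ (1 + 2 / (finrank ℝ E : ℝ))) ^ (q - 1) =
      C ^ (q - 1) * (volume Ω).toReal ^ ((1 + 2 / (finrank ℝ E : ℝ)) * (q - 1)) := by
    rw [Real.mul_rpow (by linarith) (Real.rpow_nonneg hA.le _), ← Real.rpow_mul hA.le]
  have h4 : (volume Ω).toReal ^ pexp E q =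
      (volume Ω).toReal * (volume Ω).toReal ^ ((1 + 2 / (finrank ℝ E : ℝ)) * (q - 1)) := by
    rw [pexp_eq hd, Real.rpow_add hA, Real.rpow_one]
  calc lam Ω * torsion Ω ^ q = (lam Ω * torsion Ω) * torsion Ω ^ (q - 1) := by rw [h1]; ring
    _ ≤ (volume Ω).toReal *
        (C * (volume Ω).toReal ^ (1 + 2 / (finrank ℝ E : ℝ))) ^ (q - 1) :=
        mul_le_mul (polya hd h) h2 (Real.rpow_nonneg hT _) hA.le
    _ = C ^ (q - 1) * (volume Ω).toReal ^ pexp E q := by rw [h3, h4]; ring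

/-- Maximality in terms of certified bounds. -/
theorem noBetter_of_max (hd : 2 ≤ finrank ℝ E) {q S : ℝ} (hq : 0 < q)
    (hmax : ∀ Ω : Set E, Admissible Ω → Fq (finrank ℝ E) q Ω ≤ S) :
    NoBetter E (finrank ℝ E) q S := by
  intro Ω' hO hfin c t hc ht hRQ hT
  have hne : Ω'.Nonempty := by
    by_contra h0
    rw [not_nonempty_iff_eq_empty] at h0
    obtain ⟨ψ, h1, h2⟩ := hT
    have h3 : ∀ z, ψ z = 0 := fun z => h1.ae_zero z (by rw [h0]; exact notMem_empty z)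
    have h4 : ∫ z, ψ z = 0 := by simp [h3]
    rw [h4, mul_zero] at h2
    have h5 : 0 ≤ ∫ z, ‖gradient ψ z‖ ^ 2 := integral_nonneg fun z => by positivity
    linarith
  have hadm : Admissible Ω' := ⟨hO, hO.measure_pos volume hne, hfin⟩
  have h1 := hmax Ω' hadm
  rw [Fq_eq, div_le_iff₀ (Real.rpow_pos_of_pos hadm.toReal_pos _)] at h1
  refine le_trans ?_ h1
  have h2 := le_lam hO hne hRQ
  have h3 : t ≤ torsion Ω' := by
    obtain ⟨w, W, hw⟩ := exists_torsion hd hO hfin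
    rw [hw.torsion_eq hd hO hfin]
    exact hw.tLow_le hO hfin hT
  exact mul_le_mul h2 (Real.rpow_le_rpow ht.le h3 hq.le) (Real.rpow_nonneg ht.le _) (lam_nonneg _)

end Pool.Agent.H4.NM
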