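import Pool.Agent.H4.NM.Av
import Pool.Agent.H4.NM.Tors
import Pool.Agent.H47.Ev.L2

/-!
# NM-04: the mean value formula in `H¹` (MP_898b17_an, all dimensions)

## Paper proof

Smooth case, `φ ∈ C_c^∞(E)` (`mv_ftc_smooth`): put `A(t) = av x t φ`; by the change of variables
`y = x + t z` (`MeasureTheory.Measure.setIntegral_comp_smul`-type lemmas, translation invariance)
`A(t) = |B_1|⁻¹ ∫_{B_1(0)} φ(x + t z) dz` for `t > 0`. Differentiate under the integral sign
(`hasDerivAt_integral_of_dominated_loc_of_deriv_le`; `∇φ` is bounded):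
`A'(t) = |B_1|⁻¹ ∫_{B_1} ⟪∇φ(x + t z), z⟫ dz = (t |B_t|)⁻¹ ∫_{B_t(x)} ⟪∇φ(y), y - x⟫ dy`
`      = - (t |B_t|)⁻¹ ∫ ⟪∇φ, GPh x t⟫` and this is continuous in `t > 0`
(first form: dominated convergence, `continuous_of_dominated`). FTC
(`intervalIntegral.integral_eq_sub_of_hasDerivAt`).

General case: `φ n → u`, `∇φ n → G` in `L²`. Left side: `av x r (φ n) → av x r u` (Cauchy-Schwarz on
the ball). Right side: for `t ∈ [r, R]`
`|∫ ⟪∇φ n - G, GPh x t⟫| ≤ ‖∇φ n - G‖₂ ‖GPh x t‖₂ ≤ ‖∇φ n - G‖₂ (R² |B_R|)^{1/2}`, and
`(t |B_t|)⁻¹ ≤ (r |B_r|)⁻¹`, so the integrands converge uniformly on `[r, R]`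
(`intervalIntegral.norm_integral_le_of_norm_le_const` for the difference; the limit integrand is
interval integrable, being continuous on `[r, R]`, or as a uniform limit: `t ↦ ∫ ⟪G, GPh x t⟫` is
continuous by dominated convergence since spheres are null sets, `Measure.addHaar_sphere`).
-/

open MeasureTheory Set Metric Filter Topology ContDiff Module
open scoped ENNReal NNReal RealInnerProductSpace

namespace Pool.Agent.H4.NM

variable {E : Type} [NormedAddCommGroup E] [InnerProductSpace ℝ E] [FiniteDimensional ℝ E]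
  [CompleteSpace E] [MeasurableSpace E] [BorelSpace E]

set_option linter.unusedSectionVars false

variable {u : E → ℝ} {G : E → E} {φ : E → ℝ}

theorem gph_norm_le (x : E) {t T : ℝ} (htT : t ≤ T) (y : E) :
    ‖GPh x t y‖ ≤ (ball x T).indicator (fun _ => T) y := by
  unfold GPh
  by_cases h : y ∈ ball x t
  · have h2 : y ∈ ball x T := ball_subset_ball htT h
    rw [indicator_of_mem h, indicator_of_mem h2]
    rw [mem_ball, dist_eq_norm, norm_sub_rev] at h
    exact h.le.trans htT
  · rw [indicator_of_notMem h, norm_zero]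
    refine indicator_nonneg (fun z hz => ?_) y
    have := (dist_nonneg (x := z) (y := x)).trans_lt (mem_ball.1 hz)
    exact this.le

theorem gph_memLp (x : E) (t : ℝ) : MemLp (GPh x t) 2 volume := by
  have h1 : MemLp ((ball x t).indicator (fun _ : E => t)) 2 volume :=
    memLp_indicator_const 2 measurableSet_ball t (Or.inr measure_ball_lt_top.ne)
  refine h1.mono ?_ (Eventually.of_forall fun y => ?_)
  · exact (continuous_const.sub continuous_id).aestronglyMeasurable.indicator measurableSet_ball
  · exact (gph_norm_le x le_rfl y).trans (le_abs_self _)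

theorem integral_gph_sq_le (x : E) {t T : ℝ} (htT : t ≤ T) :
    ∫ y, ‖GPh x t y‖ ^ 2 ≤ T ^ 2 * volume.real (ball x T) := by
  have h1 : ∫ y, (ball x T).indicator (fun _ => T ^ 2) y = T ^ 2 * volume.real (ball x T) := by
    rw [integral_indicator measurableSet_ball, setIntegral_const, smul_eq_mul, mul_comm]
  rw [← h1]
  refine integral_mono (Pool.Agent.H47.FQ.int_norm_sq (gph_memLp x t))
    ((integrable_indicator_iff measurableSet_ball).2
      (integrableOn_const (by exact measure_ball_lt_top.ne))) fun y => ?_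
  have h2 := gph_norm_le x htT y
  have h3 : ‖GPh x t y‖ ^ 2 ≤ ((ball x T).indicator (fun _ => T) y) ^ 2 := by
    gcongr
  refine h3.trans (le_of_eq ?_)
  by_cases h : y ∈ ball x T
  · rw [indicator_of_mem h, indicator_of_mem h]
  · rw [indicator_of_notMem h, indicator_of_notMem h]; norm_num

/-- Change of variables. -/
theorem setIntegral_ball_eq (x : E) {t : ℝ} (ht : 0 < t) (f : E → ℝ) :
    ∫ z in ball (0 : E) 1, f (x + t • z) = (t ^ finrank ℝ E)⁻¹ * ∫ y in ball x t, f y := by
  have h1 := Measure.setIntegral_comp_smul_of_pos (volume : Measure E) (fun z => f (x + z))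
    (ball (0 : E) 1) ht
  rw [h1, smul_eq_mul]
  congr 1
  rw [smul_unitBall ht.ne', Real.norm_of_nonneg ht.le,
    ← integral_indicator measurableSet_ball, ← integral_indicator measurableSet_ball,
    ← integral_add_left_eq_self ((ball x t).indicator f) x]
  congr 1
  ext z
  have e : z ∈ ball (0 : E) t ↔ x + z ∈ ball x t := by
    simp [mem_ball, dist_eq_norm]
  by_cases h : z ∈ ball (0 : E) t
  · rw [indicator_of_mem h, indicator_of_mem (e.1 h)]
  · rw [indicator_of_notMem h, indicator_of_notMem fun h' => h (e.2 h')]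

theorem av_eq_one (x : E) {t : ℝ} (ht : 0 < t) (f : E → ℝ) :
    av x t f = (volume.real (ball (0 : E) 1))⁻¹ * ∫ z in ball (0 : E) 1, f (x + t • z) := by
  rw [setIntegral_ball_eq x ht, av, vol_ball x ht, mul_inv, ← mul_assoc,
    mul_comm (volume.real (ball (0 : E) 1))⁻¹]

theorem inner_gph (x : E) (t : ℝ) (F : E → E) (y : E) :
    ⟪F y, GPh x t y⟫ = (ball x t).indicator (fun y => ⟪F y, x - y⟫) y := by
  unfold GPh
  by_cases h : y ∈ ball x t
  · rw [indicator_of_mem h, indicator_of_mem h]
  · rw [indicator_of_notMem h, indicator_of_notMem h, inner_zero_right]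

theorem hasDerivAt_av (hφ : IsTest univ φ) (x : E) {t : ℝ} (ht : 0 < t) :
    HasDerivAt (fun s => av x s φ)
      (-((t * volume.real (ball x t))⁻¹ * ∫ y, ⟪gradient φ y, GPh x t y⟫)) t := by
  obtain ⟨M, hM⟩ := hφ.gradient_hasCompactSupport.exists_bound_of_continuous hφ.continuous_gradient
  have : IsFiniteMeasure (volume.restrict (ball (0 : E) 1)) := ⟨by simpa using measure_ball_lt_top⟩
  have hd := (hasDerivAt_integral_of_dominated_loc_of_deriv_le (μ := volume.restrict (ball (0 : E) 1))
    (F := fun s z => φ (x + s • z)) (F' := fun s z => ⟪gradient φ (x + s • z), z⟫)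
    (x₀ := t) (s := univ) (bound := fun _ => M) univ_mem
    (Eventually.of_forall fun s => by
      have : Continuous fun z : E => φ (x + s • z) := hφ.continuous.comp (by fun_prop)
      exact this.aestronglyMeasurable)
    (by
      obtain ⟨K, hK⟩ := hφ.hasCompactSupport.exists_bound_of_continuous hφ.continuous
      refine Integrable.mono' (integrable_const K) ?_ (Eventually.of_forall fun z => hK _)
      have : Continuous fun z : E => φ (x + t • z) := hφ.continuous.comp (by fun_prop)
      exact this.aestronglyMeasurable)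
    (by
      have : Continuous fun z : E => ⟪gradient φ (x + t • z), z⟫ :=
        (hφ.continuous_gradient.comp (by fun_prop)).inner continuous_id
      exact this.aestronglyMeasurable)
    (by
      filter_upwards [ae_restrict_mem (measurableSet_ball (x := (0 : E)) (ε := 1))] with z hz s _
      have h1 := norm_inner_le_norm (𝕜 := ℝ) (gradient φ (x + s • z)) z
      have h2 : ‖z‖ ≤ 1 := by
        have := mem_ball.1 hz
        rw [dist_zero_right] at this
        exact this.le
      refine h1.trans ?_
      have h3 := hM (x + s • z)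
      calc ‖gradient φ (x + s • z)‖ * ‖z‖ ≤ ‖gradient φ (x + s • z)‖ * 1 := by gcongr
        _ ≤ M := by rw [mul_one]; exact h3)
    (integrable_const M)
    (Eventually.of_forall fun z s _ => by
      have h1 : HasDerivAt (fun s : ℝ => x + s • z) z s := by
        simpa using ((hasDerivAt_id s).smul_const z).const_add x
      have h2 := (hφ.differentiable (x + s • z)).hasFDerivAt.comp_hasDerivAt s h1
      rw [inner_gradient]
      exact h2)).2
  have h3 := hd.const_mul (volume.real (ball (0 : E) 1))⁻¹
  have h4 : (fun s => av x s φ) =ᶠ[𝓝 t]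
      fun s => (volume.real (ball (0 : E) 1))⁻¹ * ∫ z in ball (0 : E) 1, φ (x + s • z) := by
    filter_upwards [lt_mem_nhds ht] with s hs
    exact av_eq_one x hs φ
  refine (h3.congr_of_eventuallyEq h4).congr_deriv ?_
  have h5 : ∫ z in ball (0 : E) 1, ⟪gradient φ (x + t • z), z⟫ =
      (t ^ finrank ℝ E)⁻¹ * ∫ y in ball x t, -t⁻¹ * ⟪gradient φ y, x - y⟫ := by
    rw [← setIntegral_ball_eq x ht (fun y => -t⁻¹ * ⟪gradient φ y, x - y⟫)]
    congr 1
    ext z
    rw [sub_add_cancel_left, inner_neg_right, inner_smul_right]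
    field_simp
  rw [h5, integral_const_mul]
  have h6 : ∫ y, ⟪gradient φ y, GPh x t y⟫ = ∫ y in ball x t, ⟪gradient φ y, x - y⟫ := by
    rw [← integral_indicator measurableSet_ball]
    exact integral_congr_ae (Eventually.of_forall fun y => inner_gph x t _ y)
  rw [h6, vol_ball x ht, mul_inv, mul_inv]
  ring

/-- The integrand of the mean value formula is continuous (auxiliary). -/
theorem mv_continuousOn' (hG : MemLp G 2 volume) (x : E) {r R : ℝ} (hr : 0 < r) :
    ContinuousOn (fun t => (t * volume.real (ball x t))⁻¹ * ∫ y, ⟪G y, GPh x t y⟫) (Icc r R) := by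
  intro t ht
  have ht0 : 0 < t := hr.trans_le ht.1
  apply ContinuousAt.continuousWithinAt
  refine ContinuousAt.mul ?_ ?_
  · have h1 : ContinuousAt
        (fun t : ℝ => (t * (t ^ finrank ℝ E * volume.real (ball (0 : E) 1)))⁻¹) t := by
      refine ContinuousAt.inv₀ (by fun_prop) ?_
      have := vol_one_pos (E := E)
      positivity
    refine h1.congr ?_
    filter_upwards [lt_mem_nhds ht0] with s hs
    rw [vol_ball x hs]
  · have hint : Integrable (fun y => (ball x (t + 1)).indicator (fun y => ‖G y‖ * (t + 1)) y) := by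
      refine (integrable_indicator_iff measurableSet_ball).2 ?_
      have h2 : MemLp (fun y => ‖G y‖) 2 volume := hG.norm
      exact (memLp_integrableOn_ball h2 x (t + 1)).mul_const _
    refine continuousAt_of_dominated (bound := fun y =>
      (ball x (t + 1)).indicator (fun y => ‖G y‖ * (t + 1)) y) ?_ ?_ hint ?_
    · exact Eventually.of_forall fun s => hG.1.inner (gph_memLp x s).1
    · filter_upwards [gt_mem_nhds (lt_add_one t)] with s hs
      refine Eventually.of_forall fun y => ?_
      refine (norm_inner_le_norm (𝕜 := ℝ) _ _).trans ?_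
      have h2 := gph_norm_le x (le_of_lt hs) y
      by_cases h : y ∈ ball x (t + 1)
      · rw [indicator_of_mem h] at h2 ⊢
        gcongr
      · rw [indicator_of_notMem h] at h2 ⊢
        have h3 : ‖GPh x s y‖ = 0 := le_antisymm h2 (norm_nonneg _)
        rw [h3, mul_zero]
    · have h0 : ∀ᵐ y, y ∉ sphere x t :=
        measure_eq_zero_iff_ae_notMem.1 (Measure.addHaar_sphere_of_ne_zero volume x ht0.ne')
      filter_upwards [h0] with y hy
      have hne : dist y x ≠ t := fun h => hy (mem_sphere.2 h)
      rcases lt_or_gt_of_ne hne with h | h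
      · have h1 : (fun s => ⟪G y, GPh x s y⟫) =ᶠ[𝓝 t] fun _ => ⟪G y, x - y⟫ := by
          filter_upwards [lt_mem_nhds h] with s hs
          rw [GPh, indicator_of_mem (mem_ball.2 hs)]
        exact continuousAt_const.congr h1.symm
      · have h1 : (fun s => ⟪G y, GPh x s y⟫) =ᶠ[𝓝 t] fun _ => ⟪G y, 0⟫ := by
          filter_upwards [gt_mem_nhds h] with s hs
          rw [GPh, indicator_of_notMem fun hy' => (lt_asymm hs (mem_ball.1 hy'))]
        exact continuousAt_const.congr h1.symm

/-- Mean value formula for test functions. -/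
theorem mv_ftc_smooth (hφ : IsTest univ φ) (x : E) {r R : ℝ} (hr : 0 < r) (hrR : r ≤ R) :
    av x r φ - av x R φ =
      ∫ t in r..R, (t * volume.real (ball x t))⁻¹ * ∫ y, ⟪gradient φ y, GPh x t y⟫ := by
  have hc := mv_continuousOn' (hφ.memLp_gradient 2) x (R := R) hr
  have h1 := intervalIntegral.integral_eq_sub_of_hasDerivAt (a := r) (b := R)
    (f := fun s => -av x s φ)
    (f' := fun t => (t * volume.real (ball x t))⁻¹ * ∫ y, ⟪gradient φ y, GPh x t y⟫)
    (fun t ht => by
      rw [uIcc_of_le hrR] at ht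
      have := (hasDerivAt_av hφ x (hr.trans_le ht.1)).neg
      rwa [neg_neg] at this)
    (by
      refine ContinuousOn.intervalIntegrable ?_
      rwa [uIcc_of_le hrR])
  rw [h1]
  ring

/-- The integrand of the mean value formula is continuous. -/
theorem mv_continuousOn (hG : MemLp G 2 volume) (x : E) {r R : ℝ} (hr : 0 < r) :
    ContinuousOn (fun t => (t * volume.real (ball x t))⁻¹ * ∫ y, ⟪G y, GPh x t y⟫) (Icc r R) :=
  mv_continuousOn' hG x hr

theorem tendsto_av (hu : MemLp u 2 volume) {f : ℕ → E → ℝ} (hf : ∀ n, MemLp (f n) 2 volume)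
    (h : Tendsto (fun n => eLpNorm (fun z => f n z - u z) 2 volume) atTop (𝓝 0)) (x : E) (r : ℝ) :
    Tendsto (fun n => av x r (f n)) atTop (𝓝 (av x r u)) := by
  have hi : MemLp ((ball x r).indicator (fun _ : E => (1 : ℝ))) 2 volume :=
    memLp_indicator_const 2 measurableSet_ball 1 (Or.inr measure_ball_lt_top.ne)
  have h1 := tendsto_integral_inner (fn := fun _ => (ball x r).indicator (fun _ : E => (1 : ℝ)))
    (gn := f) (f := (ball x r).indicator (fun _ : E => (1 : ℝ))) (g := u)
    (fun _ => hi) hf hi hu (by simp) h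
  have key : ∀ g : E → ℝ, ∫ z, ⟪(ball x r).indicator (fun _ : E => (1 : ℝ)) z, g z⟫ =
      ∫ z in ball x r, g z := by
    intro g
    rw [← integral_indicator measurableSet_ball]
    congr 1
    ext z
    by_cases hz : z ∈ ball x r
    · rw [indicator_of_mem hz, indicator_of_mem hz]; simp
    · rw [indicator_of_notMem hz, indicator_of_notMem hz, inner_zero_left]
  rw [key] at h1
  have h2 := (h1.congr fun n => key (f n)).const_mul (volume.real (ball x r))⁻¹
  exact h2

/-- Mean value formula in `H¹`. -/
theorem mv_ftc (hu : H10 univ u G) (x : E) {r R : ℝ} (hr : 0 < r) (hrR : r ≤ R) :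
    av x r u - av x R u =
      ∫ t in r..R, (t * volume.real (ball x t))⁻¹ * ∫ y, ⟪G y, GPh x t y⟫ := by
  obtain ⟨φ, h1, h2, h3⟩ := hu.approx
  have hL : Tendsto (fun n => av x r (φ n) - av x R (φ n)) atTop (𝓝 (av x r u - av x R u)) :=
    (tendsto_av hu.1 (fun n => (h1 n).memLp 2) h2 x r).sub
      (tendsto_av hu.1 (fun n => (h1 n).memLp 2) h2 x R)
  have hsq : Tendsto (fun n => ∫ z, ‖gradient (φ n) z‖ ^ 2) atTop (𝓝 (∫ z, ‖G z‖ ^ 2)) :=
    hu.tendsto_integral_grad h1 h3
  have hR0 : 0 < R := hr.trans_le hrR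
  have hRt : Tendsto (fun n => ∫ t in r..R, (t * volume.real (ball x t))⁻¹ *
      ∫ y, ⟪gradient (φ n) y, GPh x t y⟫) atTop
      (𝓝 (∫ t in r..R, (t * volume.real (ball x t))⁻¹ * ∫ y, ⟪G y, GPh x t y⟫)) := by
    refine intervalIntegral.tendsto_integral_filter_of_dominated_convergence
      (bound := fun _ => (r * volume.real (ball x r))⁻¹ *
        (Real.sqrt ((∫ z, ‖G z‖ ^ 2) + 1) * Real.sqrt (R ^ 2 * volume.real (ball x R)))) ?_ ?_ ?_ ?_
    · refine Eventually.of_forall fun n => ?_
      rw [uIoc_of_le hrR]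
      exact ((mv_continuousOn ((h1 n).memLp_gradient 2) x (R := R) hr).mono
        Ioc_subset_Icc_self).aestronglyMeasurable measurableSet_Ioc
    · have hlt : ∫ z, ‖G z‖ ^ 2 < (∫ z, ‖G z‖ ^ 2) + 1 := lt_add_one _
      filter_upwards [hsq.eventually (gt_mem_nhds hlt)] with n hn
      refine Eventually.of_forall fun t ht => ?_
      rw [uIoc_of_le hrR] at ht
      have ht0 : 0 < t := hr.trans ht.1
      rw [norm_mul]
      have hv : 0 < volume.real (ball x r) := vol_ball_pos x hr
      have hv' : volume.real (ball x r) ≤ volume.real (ball x t) :=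
        measureReal_mono (ball_subset_ball ht.1.le) measure_ball_lt_top.ne
      have e1 : ‖(t * volume.real (ball x t))⁻¹‖ ≤ (r * volume.real (ball x r))⁻¹ := by
        rw [Real.norm_of_nonneg (by positivity)]
        have := ht.1.le
        gcongr
      have e2 : ‖∫ y, ⟪gradient (φ n) y, GPh x t y⟫‖ ≤
          Real.sqrt ((∫ z, ‖G z‖ ^ 2) + 1) * Real.sqrt (R ^ 2 * volume.real (ball x R)) := by
        refine (Pool.Agent.H47.FQ.cs_inner ((h1 n).memLp_gradient 2) (gph_memLp x t)).trans ?_
        have := integral_gph_sq_le x ht.2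
        have := hn.le
        gcongr
      exact mul_le_mul e1 e2 (norm_nonneg _) (by positivity)
    · exact intervalIntegrable_const
    · refine Eventually.of_forall fun t _ => ?_
      exact (tendsto_integral_inner (fn := fun n => gradient (φ n)) (gn := fun _ => GPh x t)
        (f := G) (g := GPh x t) (fun n => (h1 n).memLp_gradient 2) (fun _ => gph_memLp x t) hu.2
        (gph_memLp x t) h3 (by simp)).const_mul _
  refine tendsto_nhds_unique (hL.congr fun n => ?_) hRt
  exact mv_ftc_smooth (h1 n) x hr hrR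

end Pool.Agent.H4.NM
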