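import Pool.Agent.H4.NM.Tors

/-!
# The subsolution inequality `-Δ w ≤ 1` on the whole space (MP_898b17_an, all dimensions)
-/

open MeasureTheory Set Metric Filter Topology ContDiff
open scoped ENNReal RealInnerProductSpace

namespace Pool.Agent.H4.NM

variable {E : Type} [NormedAddCommGroup E] [InnerProductSpace ℝ E] [FiniteDimensional ℝ E]
  [CompleteSpace E] [MeasurableSpace E] [BorelSpace E]

set_option linter.unusedSectionVars false


variable {Ω U : Set E} {u v w : E → ℝ} {G H W : E → E}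

theorem memLp_smul_of_le_one {g : E → ℝ} {f : E → E} (hg : AEStronglyMeasurable g volume)
    (hg1 : ∀ᵐ z, |g z| ≤ 1) (hf : MemLp f 2 volume) : MemLp (fun z => g z • f z) 2 volume := by
  refine hf.mono (hg.smul hf.1) ?_
  filter_upwards [hg1] with z hz
  rw [norm_smul, Real.norm_eq_abs]
  calc |g z| * ‖f z‖ ≤ 1 * ‖f z‖ := mul_le_mul_of_nonneg_right hz (norm_nonneg _)
    _ = ‖f z‖ := one_mul _

/-- `-Δ w ≤ 1` on the whole plane, tested with bounded integrable nonnegative functions. -/
theorem sub_star (hΩ : IsOpen Ω) (hfin : volume Ω < ⊤) (hw : IsTorsion Ω w W)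
    (hΨ : H10 univ v H) (h0 : ∀ᵐ z, 0 ≤ v z) {n : ℝ} (hn : ∀ᵐ z, v z ≤ n)
    (hint : Integrable v volume) : ∫ z, ⟪W z, H z⟫ ≤ ∫ z, v z := by
  classical
  have hw0 := hw.nonneg hΩ hfin
  have hvb : ∀ᵐ z, |v z| ≤ n := by
    filter_upwards [h0, hn] with z h1 h2
    rwa [abs_of_nonneg h1]
  have hWz := hw.1.grad_zero_of_eq 0
  have step : ∀ k : ℕ, ∫ z, ⟪W z, (((k : ℝ) + 1) * min (w z) (1 / ((k : ℝ) + 1))) • H z⟫ ≤
      ∫ z, v z := by
    intro k
    have hk : (0 : ℝ) < (k : ℝ) + 1 := by positivity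
    have ht : (0 : ℝ) ≤ 1 / ((k : ℝ) + 1) := by positivity
    have h1 := (hw.1.min_const ht).const_mul ((k : ℝ) + 1)
    have hu1 : ∀ᵐ z, |((k : ℝ) + 1) * min (w z) (1 / ((k : ℝ) + 1))| ≤ 1 := by
      filter_upwards [hw0] with z hz
      have h2 : 0 ≤ min (w z) (1 / ((k : ℝ) + 1)) := le_min hz ht
      rw [abs_of_nonneg (mul_nonneg hk.le h2)]
      calc ((k : ℝ) + 1) * min (w z) (1 / ((k : ℝ) + 1)) ≤ ((k : ℝ) + 1) * (1 / ((k : ℝ) + 1)) :=
            mul_le_mul_of_nonneg_left (min_le_right _ _) hk.le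
        _ = 1 := by field_simp
    have hL := memLp_smul_of_le_one h1.1.1 hu1 hΨ.2
    have h2 := h1.mul hΨ hvb hL
    rw [inter_univ] at h2
    have h3 := hw.all hΩ hfin h2
    have i1 : Integrable (fun z => ⟪W z, (((k : ℝ) + 1) * min (w z) (1 / ((k : ℝ) + 1))) • H z⟫)
        volume := integrable_inner_of_memLp hw.1.2 hL
    have i2 := integrable_inner_of_memLp hw.1.2 h2.2
    have e1 : ∫ z, ⟪W z, (((k : ℝ) + 1) * min (w z) (1 / ((k : ℝ) + 1))) • H z⟫ ≤
        ∫ z, ((k : ℝ) + 1) * min (w z) (1 / ((k : ℝ) + 1)) * v z := by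
      rw [← h3]
      apply integral_mono_ae i1 i2
      filter_upwards [h0] with z hz
      rw [inner_add_right]
      have h4 : 0 ≤ ⟪W z, v z • ((k : ℝ) + 1) • (if w z < 1 / ((k : ℝ) + 1) then W z else 0)⟫ := by
        rw [inner_smul_right, inner_smul_right]
        apply mul_nonneg hz
        apply mul_nonneg hk.le
        split_ifs
        · exact real_inner_self_nonneg
        · simp
      linarith
    refine e1.trans ?_
    apply integral_mono_ae _ hint
    · filter_upwards [h0, hu1] with z hz hz1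
      exact mul_le_of_le_one_left hz ((le_abs_self _).trans hz1)
    · refine hint.mono (h1.1.1.mul hint.1) ?_
      filter_upwards [hu1] with z hz
      rw [norm_mul]
      exact mul_le_of_le_one_left (norm_nonneg _) hz
  have hlim : Tendsto (fun k : ℕ => ∫ z, ⟪W z, (((k : ℝ) + 1) * min (w z) (1 / ((k : ℝ) + 1))) •
      H z⟫) atTop (𝓝 (∫ z, ⟪W z, H z⟫)) := by
    apply tendsto_integral_of_dominated_convergence (fun z => ‖W z‖ * ‖H z‖)
    · intro k
      exact hw.1.2.1.inner (((aestronglyMeasurable_const (b := (k : ℝ) + 1)).mul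
        (hw.1.1.1.inf aestronglyMeasurable_const)).smul hΨ.2.1)
    · exact hw.1.2.norm.integrable_mul hΨ.2.norm
    · intro k
      have hk : (0 : ℝ) < (k : ℝ) + 1 := by positivity
      have ht : (0 : ℝ) ≤ 1 / ((k : ℝ) + 1) := by positivity
      filter_upwards [hw0] with z hz
      refine (norm_inner_le_norm _ _).trans ?_
      apply mul_le_mul_of_nonneg_left _ (norm_nonneg _)
      rw [norm_smul]
      apply mul_le_of_le_one_left (norm_nonneg _)
      have h2 : 0 ≤ min (w z) (1 / ((k : ℝ) + 1)) := le_min hz ht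
      rw [Real.norm_eq_abs, abs_of_nonneg (mul_nonneg hk.le h2)]
      calc ((k : ℝ) + 1) * min (w z) (1 / ((k : ℝ) + 1)) ≤ ((k : ℝ) + 1) * (1 / ((k : ℝ) + 1)) :=
            mul_le_mul_of_nonneg_left (min_le_right _ _) hk.le
        _ = 1 := by field_simp
    · filter_upwards [hw0, hWz] with z hz hz0
      rcases hz.eq_or_lt with h | h
      · rw [hz0 h.symm]
        simp
      · have hev : ∀ᶠ k : ℕ in atTop, 1 / ((k : ℝ) + 1) < w z :=
          tendsto_one_div_add_atTop_nhds_zero_nat.eventually (gt_mem_nhds h)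
        apply tendsto_const_nhds.congr'
        filter_upwards [hev] with k hk
        rw [min_eq_right hk.le]
        have hk' : ((k : ℝ) + 1) * (1 / ((k : ℝ) + 1)) = 1 := by
          have : (0 : ℝ) < (k : ℝ) + 1 := by positivity
          field_simp
        rw [hk', one_smul]
  exact le_of_tendsto' hlim step

/-- `-Δ w ≤ 1`, tested with nonnegative functions of `H¹₀(U)`, `|U| < ∞`. -/
theorem sub_all (hΩ : IsOpen Ω) (hfin : volume Ω < ⊤) (hw : IsTorsion Ω w W) (hU : IsOpen U)
    (hUfin : volume U < ⊤) (hΦ : H10 U v H) (h0 : ∀ᵐ z, 0 ≤ v z) :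
    ∫ z, ⟪W z, H z⟫ ≤ ∫ z, v z := by
  have hvi : Integrable v volume := hΦ.integrable hU hUfin
  have step : ∀ n : ℕ, ∫ z, ⟪W z, if v z < (n : ℝ) then H z else 0⟫ ≤ ∫ z, v z := by
    intro n
    have h1 := hΦ.min_const (Nat.cast_nonneg n)
    have h2 := sub_star hΩ hfin hw (h1.mono (subset_univ _)) (by
      filter_upwards [h0] with z hz
      exact le_min hz (Nat.cast_nonneg n)) (n := n) (Eventually.of_forall fun z => min_le_right _ _)
      (h1.integrable hU hUfin)
    refine h2.trans ?_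
    exact integral_mono_ae (h1.integrable hU hUfin) hvi
      (Eventually.of_forall fun z => min_le_left _ _)
  have hlim : Tendsto (fun n : ℕ => ∫ z, ⟪W z, if v z < (n : ℝ) then H z else 0⟫) atTop
      (𝓝 (∫ z, ⟪W z, H z⟫)) := by
    apply tendsto_integral_of_dominated_convergence (fun z => ‖W z‖ * ‖H z‖)
    · intro n
      exact hw.1.2.1.inner (hΦ.min_const (Nat.cast_nonneg n)).2.1
    · exact hw.1.2.norm.integrable_mul hΦ.2.norm
    · intro n
      filter_upwards with z
      refine (norm_inner_le_norm _ _).trans ?_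
      apply mul_le_mul_of_nonneg_left _ (norm_nonneg _)
      split_ifs
      · exact le_rfl
      · simp
    · filter_upwards with z
      have hev : ∀ᶠ n : ℕ in atTop, v z < (n : ℝ) :=
        tendsto_natCast_atTop_atTop.eventually (eventually_gt_atTop _)
      apply tendsto_const_nhds.congr'
      filter_upwards [hev] with n hn
      rw [if_pos hn]
  exact le_of_tendsto' hlim step

end Pool.Agent.H4.NM
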