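import Pool.Agent.H4.NM.MvA
import Pool.Agent.H4.NM.Moll
import Pool.Agent.H4.NM.Prod
import Pool.Agent.H4.NM.Star
import Pool.Agent.H4.NM.Lip0

/-!
# NM-05: mean value inequality and its almost everywhere form (MP_898b17_an, all dimensions)

## Paper proof

`ph_h10`: `Ph x t` is Lipschitz (it is `max (t² - |y - x|²) 0 / 2`, zero off `ball x t`; write it as
the composition with `‖y - x‖` or bound differences by `t |y - y'|` : on `closedBall x t` the
function `|y-x|²/2` is `t`-Lipschitz, and clamp the norm at `t`: `Ph x t y = (t² - (min ‖y-x‖ t)²)/2`),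
zero off `ball x t`, with compact support, so `H10.of_lipschitz_zero` (file `Lip0`, job NM-08) gives
`H10 (ball x t) (Ph x t) (gradient (Ph x t))`, and `gradient (Ph x t) = GPh x t` off the sphere
(inside: gradient of `(t² - |y - x|²)/2` is `x - y`; outside: locally zero; sphere: null set,
`Measure.addHaar_sphere`); `H10.congr`.

`mv_sub`: by `mv_ftc` `av x r u - av x R u = ∫_r^R (t |B_t|)⁻¹ ∫ ⟪G, GPh x t⟫ dt
≤ ∫_r^R (t |B_t|)⁻¹ c ∫ Ph x t dt ≤ ∫_r^R c t / 2 dt ≤ c R²`, as `0 ≤ Ph x t ≤ t²/2` is supported in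
`ball x t`. (At `t = R` the hypothesis is not assumed; a single point is irrelevant, or use
`intervalIntegral.integral_mono_on_of_le_Ioo` / continuity.) `mv_harm`: the integrand is zero on
`(r, R)`.

`ae_tendsto_av`: Lebesgue differentiation, `IsUnifLocDoublingMeasure.ae_tendsto_average` (closed
balls, `w = x` constant), and `closedBall =ᵐ ball` (`Measure.addHaar_sphere`).
`ae_le_av`: let `r → 0` in `mv_sub` at a Lebesgue point (`t < R`: `ball x t ⊆ ball x R ⊆ U`).
`ae_eq_av`: the same with `mv_harm`.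
`IsTorsion.ae_le_av`: `sub_all` (file Star) with `U = ball x t` and `ph_h10`; `c = 1`.
`IsTorsion.bdd`: `w x ≤ av x 1 w + 1 ≤ |B_1|⁻¹ ∫ w + 1` (`w ≥ 0`, `IsTorsion.nonneg`).
-/

open MeasureTheory Set Metric Filter Topology ContDiff Module
open scoped ENNReal NNReal RealInnerProductSpace

namespace Pool.Agent.H4.NM

variable {E : Type} [NormedAddCommGroup E] [InnerProductSpace ℝ E] [FiniteDimensional ℝ E]
  [CompleteSpace E] [MeasurableSpace E] [BorelSpace E]

set_option linter.unusedSectionVars false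

variable {Ω U : Set E} {u w : E → ℝ} {G W : E → E} {φ : E → ℝ}

open Pool.Agent.H95.Perf (IsLip)

theorem ph_eq_zero (x : E) {t : ℝ} (ht : 0 ≤ t) {y : E} (hy : t ≤ ‖y - x‖) : Ph x t y = 0 := by
  have h : t ^ 2 ≤ ‖y - x‖ ^ 2 := by gcongr
  rw [Ph, max_eq_right (by linarith), zero_div]

theorem ph_eq_min (x : E) {t : ℝ} (ht : 0 < t) (y : E) :
    Ph x t y = (t ^ 2 - (min ‖y - x‖ t) ^ 2) / 2 := by
  rcases le_total ‖y - x‖ t with h | h
  · have h1 : ‖y - x‖ ^ 2 ≤ t ^ 2 := by gcongr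
    rw [Ph, max_eq_left (by linarith), min_eq_left h]
  · rw [ph_eq_zero x ht.le h, min_eq_right h, sub_self, zero_div]

theorem ph_isLip (x : E) {t : ℝ} (ht : 0 < t) : IsLip (Ph x t) := by
  refine IsLip.of_abs_le (K := t) fun y y' => ?_
  rw [ph_eq_min x ht, ph_eq_min x ht]
  have h1 : |min ‖y - x‖ t - min ‖y' - x‖ t| ≤ dist y y' := by
    refine (abs_min_sub_min_le_max _ _ _ _).trans ?_
    rw [sub_self, abs_zero]
    refine max_le ?_ dist_nonneg
    refine (abs_norm_sub_norm_le _ _).trans ?_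
    rw [dist_eq_norm, sub_sub_sub_cancel_right]
  have h2 : 0 ≤ min ‖y - x‖ t := le_min (norm_nonneg _) ht.le
  have h3 : 0 ≤ min ‖y' - x‖ t := le_min (norm_nonneg _) ht.le
  have h4 : min ‖y - x‖ t ≤ t := min_le_right _ _
  have h5 : min ‖y' - x‖ t ≤ t := min_le_right _ _
  have e : (t ^ 2 - (min ‖y - x‖ t) ^ 2) / 2 - (t ^ 2 - (min ‖y' - x‖ t) ^ 2) / 2 =
      -((min ‖y - x‖ t - min ‖y' - x‖ t) * ((min ‖y - x‖ t + min ‖y' - x‖ t) / 2)) := by ring
  rw [e, abs_neg, abs_mul, abs_of_nonneg (by positivity : 0 ≤ (min ‖y - x‖ t + min ‖y' - x‖ t) / 2),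
    mul_comm t]
  exact mul_le_mul h1 (by linarith) (by positivity) dist_nonneg

theorem ph_continuous (x : E) (t : ℝ) : Continuous (Ph x t) := by
  unfold Ph
  fun_prop

theorem ph_compact (x : E) {t : ℝ} (ht : 0 < t) : HasCompactSupport (Ph x t) := by
  refine HasCompactSupport.of_support_subset_isCompact (isCompact_closedBall x t) fun y hy => ?_
  by_contra hc
  rw [mem_closedBall, dist_eq_norm, not_le] at hc
  exact hy (ph_eq_zero x ht.le hc.le)

theorem ae_not_mem_sphere (x : E) {t : ℝ} (ht : t ≠ 0) : ∀ᵐ y : E, y ∉ sphere x t := by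
  have h := Measure.addHaar_sphere_of_ne_zero (volume : Measure E) x ht
  exact compl_mem_ae_iff.2 h

theorem gradient_ph (x : E) {t : ℝ} (ht : 0 < t) {y : E} (hy : y ∉ sphere x t) :
    gradient (Ph x t) y = GPh x t y := by
  rw [mem_sphere, dist_eq_norm] at hy
  rcases lt_or_gt_of_ne hy with h | h
  · have hb : y ∈ ball x t := by rw [mem_ball, dist_eq_norm]; exact h
    rw [GPh, indicator_of_mem hb]
    have he : Ph x t =ᶠ[𝓝 y] fun z => (t ^ 2 - ‖z - x‖ ^ 2) / 2 := by
      filter_upwards [isOpen_ball.mem_nhds hb] with z hz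
      rw [mem_ball, dist_eq_norm] at hz
      have h1 : ‖z - x‖ ^ 2 ≤ t ^ 2 := by gcongr
      rw [Ph, max_eq_left (by linarith)]
    apply gradient_eq_of_fderiv
    intro b
    rw [he.fderiv_eq]
    have h1 : HasFDerivAt (fun z : E => z - x) (ContinuousLinearMap.id ℝ E) y :=
      (hasFDerivAt_id y).sub_const x
    have h2 := ((h1.norm_sq).const_sub (t ^ 2)).mul_const ((2 : ℝ)⁻¹)
    have h3 : (fun z : E => (t ^ 2 - ‖z - x‖ ^ 2) / 2) = fun z => (t ^ 2 - ‖z - x‖ ^ 2) * (2 : ℝ)⁻¹ := by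
      ext z
      ring
    rw [h3, h2.fderiv]
    simp only [smul_apply, neg_apply,
      ContinuousLinearMap.comp_apply, ContinuousLinearMap.id_apply, innerSL_apply_apply, smul_eq_mul,
      nsmul_eq_mul, Nat.cast_ofNat, inner_sub_left]
    ring
  · have hb : y ∉ ball x t := by rw [mem_ball, dist_eq_norm, not_lt]; exact h.le
    rw [GPh, indicator_of_notMem hb]
    have he : Ph x t =ᶠ[𝓝 y] fun _ => 0 := by
      have ho : IsOpen {z : E | t < ‖z - x‖} := isOpen_lt continuous_const (by fun_prop)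
      filter_upwards [ho.mem_nhds h] with z hz
      exact ph_eq_zero x ht.le (le_of_lt hz)
    apply gradient_eq_of_fderiv
    intro b
    rw [he.fderiv_eq]
    simp

theorem ph_h10 (x : E) {t : ℝ} (ht : 0 < t) : H10 (ball x t) (Ph x t) (GPh x t) := by
  have h := H10.of_lipschitz_zero (Ω := ball x t) isOpen_ball (ph_isLip x ht) (ph_compact x ht)
    (fun z hz => ph_eq_zero x ht.le (by rwa [mem_ball, dist_eq_norm, not_lt] at hz))
  refine h.congr (Eventually.of_forall fun _ => rfl) ?_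
  filter_upwards [ae_not_mem_sphere x ht.ne'] with y hy
  exact gradient_ph x ht hy

theorem ph_nonneg (x : E) (t : ℝ) (y : E) : 0 ≤ Ph x t y :=
  div_nonneg (le_max_right _ _) (by norm_num)

theorem ph_le (x : E) (t : ℝ) (y : E) : Ph x t y ≤ t ^ 2 / 2 := by
  rw [Ph]
  have h : max (t ^ 2 - ‖y - x‖ ^ 2) 0 ≤ t ^ 2 :=
    max_le (by nlinarith [sq_nonneg ‖y - x‖]) (sq_nonneg t)
  linarith

theorem ph_integrable (x : E) {t : ℝ} (ht : 0 < t) : Integrable (Ph x t) volume :=
  (ph_continuous x t).integrable_of_hasCompactSupport (ph_compact x ht)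

theorem ph_integral_le (x : E) {t : ℝ} (ht : 0 < t) :
    ∫ y, Ph x t y ≤ t ^ 2 / 2 * volume.real (ball x t) := by
  have h1 : ∫ y in ball x t, Ph x t y = ∫ y, Ph x t y :=
    setIntegral_eq_integral_of_forall_compl_eq_zero fun y hy =>
      ph_eq_zero x ht.le (by rwa [mem_ball, dist_eq_norm, not_lt] at hy)
  rw [← h1]
  calc ∫ y in ball x t, Ph x t y ≤ ∫ _ in ball x t, t ^ 2 / 2 := by
        refine setIntegral_mono (ph_integrable x ht).integrableOn
          (integrableOn_const (by exact measure_ball_lt_top.ne)) fun y => ph_le x t y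
    _ = t ^ 2 / 2 * volume.real (ball x t) := by
        rw [setIntegral_const, smul_eq_mul, mul_comm]

/-- Mean value inequality. -/
theorem mv_sub (hu : H10 univ u G) (x : E) {r R c : ℝ} (hr : 0 < r) (hrR : r ≤ R) (hc : 0 ≤ c)
    (h : ∀ t, 0 < t → t < R → ∫ y, ⟪G y, GPh x t y⟫ ≤ c * ∫ y, Ph x t y) :
    av x r u ≤ av x R u + c * R ^ 2 := by
  have h1 := mv_ftc hu x hr hrR
  have hi : IntervalIntegrable (fun t => (t * volume.real (ball x t))⁻¹ * ∫ y, ⟪G y, GPh x t y⟫)
      volume r R := (mv_continuousOn hu.2 x hr).intervalIntegrable_of_Icc hrR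
  have h2 : ∫ t in r..R, (t * volume.real (ball x t))⁻¹ * ∫ y, ⟪G y, GPh x t y⟫ ≤
      ∫ t in r..R, c / 2 * t := by
    refine intervalIntegral.integral_mono_on_of_le_Ioo hrR hi
      (Continuous.intervalIntegrable (by fun_prop) _ _) fun t ht => ?_
    have ht0 : 0 < t := hr.trans ht.1
    have hv := vol_ball_pos x ht0
    have hp : 0 < t * volume.real (ball x t) := mul_pos ht0 hv
    rw [inv_mul_le_iff₀ hp]
    refine (h t ht0 ht.2).trans ?_
    refine (mul_le_mul_of_nonneg_left (ph_integral_le x ht0) hc).trans (le_of_eq ?_)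
    ring
  have h3 : ∫ t in r..R, c / 2 * t = c / 2 * ((R ^ 2 - r ^ 2) / 2) := by
    rw [intervalIntegral.integral_const_mul, integral_id]
  rw [h3] at h2
  have h4 : c / 2 * ((R ^ 2 - r ^ 2) / 2) ≤ c * R ^ 2 := by nlinarith [sq_nonneg r, sq_nonneg R]
  linarith

/-- Mean value equality. -/
theorem mv_harm (hu : H10 univ u G) (x : E) {r R : ℝ} (hr : 0 < r) (hrR : r ≤ R)
    (h : ∀ t, 0 < t → t < R → ∫ y, ⟪G y, GPh x t y⟫ = 0) :
    av x r u = av x R u := by
  have h1 := mv_ftc hu x hr hrR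
  have h2 : ∫ t in r..R, (t * volume.real (ball x t))⁻¹ * ∫ y, ⟪G y, GPh x t y⟫ = 0 := by
    rw [intervalIntegral.integral_of_le hrR, integral_Ioc_eq_integral_Ioo]
    have h3 : ∫ t in Ioo r R, (t * volume.real (ball x t))⁻¹ * ∫ y, ⟪G y, GPh x t y⟫ =
        ∫ t in Ioo r R, (0 : ℝ) := by
      refine setIntegral_congr_fun measurableSet_Ioo fun t ht => ?_
      show (t * volume.real (ball x t))⁻¹ * ∫ y, ⟪G y, GPh x t y⟫ = 0
      rw [h t (hr.trans ht.1) ht.2, mul_zero]
    rw [h3, integral_zero]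
  rw [h2] at h1
  linarith

/-- Lebesgue points. -/
theorem ae_tendsto_av (hu : LocallyIntegrable u volume) :
    ∀ᵐ x, Tendsto (fun r => av x r u) (𝓝[>] 0) (𝓝 (u x)) := by
  filter_upwards [IsUnifLocDoublingMeasure.ae_tendsto_average (volume : Measure E) hu 1] with x hx
  have h1 : Tendsto (fun r : ℝ => ⨍ y in closedBall x r, u y) (𝓝[>] 0) (𝓝 (u x)) := by
    refine hx (fun _ : ℝ => x) (fun r : ℝ => r) tendsto_id ?_
    filter_upwards [self_mem_nhdsWithin] with r hr
    rw [one_mul]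
    exact mem_closedBall_self (le_of_lt hr)
  refine h1.congr' ?_
  filter_upwards [self_mem_nhdsWithin] with r hr
  have hr' : (0 : ℝ) < r := hr
  have hae : (closedBall x r : Set E) =ᵐ[volume] ball x r := by
    refine (ae_eq_set.2 ⟨?_, ?_⟩)
    · rw [closedBall_sdiff_ball]
      exact Measure.addHaar_sphere_of_ne_zero _ x hr'.ne'
    · rw [sdiff_eq_empty.2 ball_subset_closedBall]
      exact measure_empty
  rw [setAverage_eq, av, smul_eq_mul, setIntegral_congr_set hae, measureReal_congr hae]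

theorem ae_le_av (hu : H10 univ u G) {c : ℝ} (hc : 0 ≤ c)
    (h : ∀ (x : E) (t : ℝ), 0 < t → ball x t ⊆ U → ∫ y, ⟪G y, GPh x t y⟫ ≤ c * ∫ y, Ph x t y) :
    ∀ᵐ x, ∀ R, 0 < R → ball x R ⊆ U → u x ≤ av x R u + c * R ^ 2 := by
  have hl : LocallyIntegrable u volume := hu.1.locallyIntegrable (by norm_num)
  filter_upwards [ae_tendsto_av hl] with x hx R hR hU
  refine le_of_tendsto hx ?_
  have h1 : Ioo (0 : ℝ) R ∈ 𝓝[>] (0 : ℝ) := Ioo_mem_nhdsGT hR
  filter_upwards [h1] with r hr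
  exact mv_sub hu x hr.1 hr.2.le hc fun t ht htR => h x t ht ((ball_subset_ball htR.le).trans hU)

theorem ae_eq_av (hu : H10 univ u G)
    (h : ∀ (x : E) (t : ℝ), 0 < t → ball x t ⊆ U → ∫ y, ⟪G y, GPh x t y⟫ = 0) :
    ∀ᵐ x, ∀ R, 0 < R → ball x R ⊆ U → u x = av x R u := by
  have hl : LocallyIntegrable u volume := hu.1.locallyIntegrable (by norm_num)
  filter_upwards [ae_tendsto_av hl] with x hx R hR hU
  refine tendsto_nhds_unique hx (tendsto_const_nhds.congr' ?_)
  have h1 : Ioo (0 : ℝ) R ∈ 𝓝[>] (0 : ℝ) := Ioo_mem_nhdsGT hR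
  filter_upwards [h1] with r hr
  exact (mv_harm hu x hr.1 hr.2.le fun t ht htR => h x t ht ((ball_subset_ball htR.le).trans hU)).symm

theorem IsTorsion.ae_le_av (hΩ : IsOpen Ω) (hfin : volume Ω < ⊤) (hw : IsTorsion Ω w W) :
    ∀ᵐ x, ∀ R, 0 < R → w x ≤ av x R w + R ^ 2 := by
  have h := Pool.Agent.H4.NM.ae_le_av (U := (univ : Set E)) (hw.1.mono (subset_univ _)) (c := 1)
    zero_le_one (fun x t ht _ => by
      rw [one_mul]
      exact sub_all hΩ hfin hw isOpen_ball measure_ball_lt_top (ph_h10 x ht)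
        (Eventually.of_forall fun y => ph_nonneg x t y))
  filter_upwards [h] with x hx R hR
  have := hx R hR (subset_univ _)
  rwa [one_mul] at this

theorem IsTorsion.bdd (hΩ : IsOpen Ω) (hfin : volume Ω < ⊤) (hw : IsTorsion Ω w W) :
    ∃ C : ℝ, 0 ≤ C ∧ ∀ᵐ x, w x ≤ C := by
  have h0 := hw.nonneg hΩ hfin
  have hi : Integrable w volume := hw.1.integrable hΩ hfin
  refine ⟨(volume.real (ball (0 : E) 1))⁻¹ * (∫ x, w x) + 1, ?_, ?_⟩
  · have h1 : 0 ≤ ∫ x, w x := integral_nonneg_of_ae h0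
    positivity
  · filter_upwards [hw.ae_le_av hΩ hfin] with x hx
    refine (hx 1 one_pos).trans ?_
    rw [one_pow, av, vol_ball_center x 0]
    have h1 : ∫ z in ball x 1, w z ≤ ∫ z, w z := setIntegral_le_integral hi h0
    have h2 := mul_le_mul_of_nonneg_left h1
      (inv_nonneg.2 (measureReal_nonneg (μ := volume) (s := ball (0 : E) 1)))
    linarith

end Pool.Agent.H4.NM
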