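import Pool.Agent.H4.NM.Weak
import Pool.Agent.H47.FQPoint

/-!
# NM-02: the penalised obstacle problem with a right side `g ∈ L²` (MP_898b17_an)

Model: `Pool/Agent/H47/Ev/Pen.lean` (`exists_penalised`) and `Pool/Agent/H47/Ev/Comp.lean`
(`penalised_ge`, `penalised_small`): the plane and `g = 1_U`. Replace `ℂ` by `E`, the datum
`one` by `g` (so `data f z = g z + n * min (f z) (w' z)`), and `∫ v` by `∫ g v`; `exists_gap` and
`exists_weak` need the extra argument `hd` (take `F = fun _ => 0` in `exists_weak`, and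
`simp only [inner_zero_left, integral_zero, add_zero]`).

`penalised_small`: test with `d = u - w'`:
`∫ |∇d|² + ∫ ⟪W', ∇d⟫ + n ∫ d² = ∫ g d ≤ (1/2) ∫ g² + (1/2) ∫ d²` and
`-∫ ⟪W', ∇d⟫ ≤ (1/2) ∫ |W'|² + (1/2) ∫ |∇d|²`; `n ≥ 1`.

`penalised_le`: test the difference of the equations of `u` and of `G0 • w_U` with
`(u - G0 w_U)⁺ ∈ H¹₀(U)`; `g ≤ G0` and the penalty is nonnegative, so
`∫ |∇(u - G0 w_U)⁺|² ≤ 0`, and `H10.ae_zero_of_grad`. (`w_U` with gradient `W_U` is the torsion
function of `U`, `IsTorsion.all` gives its equation.)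
-/

open MeasureTheory Set Metric Filter Topology ContDiff Module
open scoped ENNReal NNReal RealInnerProductSpace

namespace Pool.Agent.H4.NM

open Pool.Agent.H47.FQ

variable {E : Type} [NormedAddCommGroup E] [InnerProductSpace ℝ E] [FiniteDimensional ℝ E]
  [CompleteSpace E] [MeasurableSpace E] [BorelSpace E]

set_option linter.unusedSectionVars false

variable {Ω Ω' U : Set E} {u v w w' g : E → ℝ} {G H W W' : E → E} {φ : E → ℝ}

/-- The penalised problem. -/
theorem exists_penalised (hd : 2 ≤ finrank ℝ E) (hU : IsOpen U) (hfin : volume U < ⊤)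
    (hw' : MemLp w' 2 volume) (hg : MemLp g 2 volume) {n : ℝ} (hn : 0 < n) :
    ∃ u G, H10 U u G ∧ ∀ v H, H10 U v H →
      (∫ z, ⟪G z, H z⟫) + n * (∫ z, max (u z - w' z) 0 * v z) = ∫ z, g z * v z := by
  obtain ⟨l, hl, hgap⟩ := exists_gap hd hU hfin
  let data : (E → ℝ) → E → ℝ := fun f z => g z + n * min (f z) (w' z)
  have hmin : ∀ f : E → ℝ, MemLp f 2 (volume : Measure E) →
      MemLp (fun z => min (f z) (w' z)) 2 (volume : Measure E) := by
    intro f hf
    exact hf.inf hw'
  have hdata : ∀ f : E → ℝ, MemLp f 2 (volume : Measure E) →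
      MemLp (data f) 2 (volume : Measure E) := by
    intro f hf
    exact hg.add ((hmin f hf).const_mul n)
  have hsol : ∀ f : Lp ℝ 2 (volume : Measure E), ∃ u G, H10 U u G ∧ ∀ v H, H10 U v H →
      (∫ z, ⟪G z, H z⟫) + n * (∫ z, u z * v z) = ∫ z, data f z * v z := by
    intro f
    obtain ⟨u, G, h1, h2⟩ := exists_weak hd hU hfin hn.le (hdata f (Lp.memLp f))
      (F := fun _ => (0 : E)) (MemLp.zero')
    refine ⟨u, G, h1, fun v H hv => ?_⟩
    have := h2 v H hv
    simpa only [inner_zero_left, integral_zero, add_zero] using this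
  choose S GS hS hSeq using hsol
  let T : Lp ℝ 2 (volume : Measure E) → Lp ℝ 2 (volume : Measure E) := fun f =>
    (hS f).memLp.toLp (S f)
  have hnorm : ∀ f : Lp ℝ 2 (volume : Measure E), ‖f‖ ^ 2 = ∫ z, (f z) ^ 2 := by
    intro f
    rw [Lp.norm_def, eLpNorm_two_sq (Lp.memLp f)]
    simp
  have hcontr : ∀ f k : Lp ℝ 2 (volume : Measure E), ‖T f - T k‖ ≤ n / (n + l) * ‖f - k‖ := by
    intro f k
    set d : E → ℝ := fun z => S f z - S k z with hdd
    set D : E → E := fun z => GS f z - GS k z with hD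
    have hdD : H10 U d D := (hS f).sub (hS k)
    have e1 := hSeq f d D hdD
    have e2 := hSeq k d D hdD
    have iD : Integrable (fun z => ⟪GS f z, D z⟫) := int_inner (hS f).memLp_grad hdD.memLp_grad
    have iD' : Integrable (fun z => ⟪GS k z, D z⟫) := int_inner (hS k).memLp_grad hdD.memLp_grad
    have iu : Integrable (fun z => S f z * d z) := int_mul (hS f).memLp hdD.memLp
    have iu' : Integrable (fun z => S k z * d z) := int_mul (hS k).memLp hdD.memLp
    have if1 : Integrable (fun z => data f z * d z) :=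
      int_mul (hdata f (Lp.memLp f)) hdD.memLp
    have ig1 : Integrable (fun z => data k z * d z) :=
      int_mul (hdata k (Lp.memLp k)) hdD.memLp
    have e3 : (∫ z, ‖D z‖ ^ 2) + n * ∫ z, d z ^ 2
        = n * ∫ z, (min (f z) (w' z) - min (k z) (w' z)) * d z := by
      have h1 : ∫ z, ‖D z‖ ^ 2 = (∫ z, ⟪GS f z, D z⟫) - ∫ z, ⟪GS k z, D z⟫ := by
        rw [← integral_sub iD iD']
        refine integral_congr_ae (Eventually.of_forall fun z => ?_)
        show ‖D z‖ ^ 2 = ⟪GS f z, D z⟫ - ⟪GS k z, D z⟫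
        rw [← inner_sub_left, ← real_inner_self_eq_norm_sq]
      have h2 : ∫ z, d z ^ 2 = (∫ z, S f z * d z) - ∫ z, S k z * d z := by
        rw [← integral_sub iu iu']
        refine integral_congr_ae (Eventually.of_forall fun z => ?_)
        show d z ^ 2 = S f z * d z - S k z * d z
        rw [hdd]; ring
      have h3 : n * ∫ z, (min (f z) (w' z) - min (k z) (w' z)) * d z
          = (∫ z, data f z * d z) - ∫ z, data k z * d z := by
        rw [← integral_sub if1 ig1, ← integral_const_mul]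
        refine integral_congr_ae (Eventually.of_forall fun z => ?_)
        show n * ((min (f z) (w' z) - min (k z) (w' z)) * d z) = data f z * d z - data k z * d z
        simp only [data]; ring
      rw [h1, h2, h3, ← e1, ← e2]; ring
    have hmm : MemLp (fun z => min (f z) (w' z) - min (k z) (w' z)) 2 (volume : Measure E) :=
      (hmin f (Lp.memLp f)).sub (hmin k (Lp.memLp k))
    have hfg : MemLp (fun z => f z - k z) 2 (volume : Measure E) :=
      (Lp.memLp f).sub (Lp.memLp k)
    have e4 : ∫ z, (min (f z) (w' z) - min (k z) (w' z)) * d z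
        ≤ ∫ z, |f z - k z| * |d z| := by
      refine integral_mono_ae (int_mul hmm hdD.memLp) (int_abs_mul hfg hdD.memLp)
        (Eventually.of_forall fun z => ?_)
      show (min (f z) (w' z) - min (k z) (w' z)) * d z ≤ |f z - k z| * |d z|
      refine (le_abs_self _).trans ?_
      rw [abs_mul]
      refine mul_le_mul_of_nonneg_right ?_ (abs_nonneg _)
      have := abs_min_sub_min_le_max (f z) (w' z) (k z) (w' z)
      simpa using this
    have e5 := cs_abs hfg hdD.memLp
    have hTd : ‖T f - T k‖ ^ 2 = ∫ z, d z ^ 2 := by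
      rw [hnorm]
      refine integral_congr_ae ?_
      filter_upwards [Lp.coeFn_sub (T f) (T k), (hS f).memLp.coeFn_toLp,
        (hS k).memLp.coeFn_toLp] with z h1 h2 h3
      rw [h1]
      simp only [Pi.sub_apply, T, h2, h3, hdd]
    have hfgn : ‖f - k‖ ^ 2 = ∫ z, (f z - k z) ^ 2 := by
      rw [hnorm]
      refine integral_congr_ae ?_
      filter_upwards [Lp.coeFn_sub f k] with z h1
      rw [h1]; rfl
    rw [← hTd, ← hfgn, Real.sqrt_sq (norm_nonneg _), Real.sqrt_sq (norm_nonneg _)] at e5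
    have e6 := hgap d D hdD
    rw [← hTd] at e6 e3
    set a := ‖T f - T k‖ with ha
    set b := ‖f - k‖ with hb
    have ha0 : 0 ≤ a := norm_nonneg _
    have hb0 : 0 ≤ b := norm_nonneg _
    have e7 : (n + l) * a ^ 2 ≤ n * (b * a) := by
      have := mul_le_mul_of_nonneg_left (e4.trans e5) hn.le
      nlinarith
    rw [div_mul_eq_mul_div, le_div_iff₀ (by positivity)]
    rcases eq_or_lt_of_le ha0 with h | h
    · rw [← h]; simp; positivity
    · have : ((n + l) * a) * a ≤ (n * b) * a := by nlinarith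
      have := le_of_mul_le_mul_right this h
      linarith
  have hKc : ((Real.toNNReal (n / (n + l)) : NNReal) : ℝ) = n / (n + l) :=
    Real.coe_toNNReal _ (by positivity)
  have hK : Real.toNNReal (n / (n + l)) < 1 := by
    rw [← NNReal.coe_lt_coe, hKc]
    show n / (n + l) < 1
    rw [div_lt_one (by positivity)]; linarith
  have hCW : ContractingWith (Real.toNNReal (n / (n + l))) T := by
    refine ⟨hK, LipschitzWith.of_dist_le_mul fun f k => ?_⟩
    rw [dist_eq_norm, dist_eq_norm, hKc]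
    exact hcontr f k
  set f0 := ContractingWith.fixedPoint T hCW with hf0
  have hfix : T f0 = f0 := ContractingWith.fixedPoint_isFixedPt (f := T) hCW
  have hfix' : (S f0) =ᵐ[volume] f0 := by
    have h1 := (hS f0).memLp.coeFn_toLp
    have h2 : ((hS f0).memLp.toLp (S f0) : Lp ℝ 2 (volume : Measure E)) = f0 := hfix
    rw [h2] at h1
    exact h1.symm
  refine ⟨S f0, GS f0, hS f0, fun v H hv => ?_⟩
  have e := hSeq f0 v H hv
  have i1 : Integrable (fun z => S f0 z * v z) := int_mul (hS f0).memLp hv.memLp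
  have i2 : Integrable (fun z => min (f0 z) (w' z) * v z) :=
    int_mul (hmin f0 (Lp.memLp f0)) hv.memLp
  have i3 : Integrable (fun z => g z * v z) := int_mul hg hv.memLp
  have h1 : ∫ z, data f0 z * v z = (∫ z, g z * v z) + n * ∫ z, min (f0 z) (w' z) * v z := by
    rw [← integral_const_mul, ← integral_add i3 (i2.const_mul n)]
    refine integral_congr_ae (Eventually.of_forall fun z => ?_)
    show data f0 z * v z = g z * v z + n * (min (f0 z) (w' z) * v z)
    simp only [data]; ring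
  have h2 : ∫ z, max (S f0 z - w' z) 0 * v z
      = (∫ z, S f0 z * v z) - ∫ z, min (f0 z) (w' z) * v z := by
    rw [← integral_sub i1 i2]
    refine integral_congr_ae ?_
    filter_upwards [hfix'] with z hz
    rw [hz, ← sub_mul]
    congr 1
    rcases le_total (f0 z) (w' z) with h | h
    · rw [min_eq_left h, max_eq_right (by linarith)]; ring
    · rw [min_eq_right h, max_eq_left (by linarith)]
  rw [h1] at e
  rw [h2]
  linarith

/-- Comparison: the solution of the penalised problem lies above `w'`. -/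
theorem penalised_ge (hd : 2 ≤ finrank ℝ E) (hU : IsOpen U) (hfin : volume U < ⊤)
    (hw' : H10 U w' W')
    (hS : ∀ Φ H, H10 U Φ H → (∀ᵐ z, 0 ≤ Φ z) → ∫ z, ⟪W' z, H z⟫ ≤ ∫ z, g z * Φ z) {n : ℝ}
    (hu : H10 U u G) (heq : ∀ v H, H10 U v H →
      (∫ z, ⟪G z, H z⟫) + n * (∫ z, max (u z - w' z) 0 * v z) = ∫ z, g z * v z) :
    ∀ᵐ z, w' z ≤ u z := by
  classical
  have hdd := (hw'.sub hu).pos_part
  set Φ : E → ℝ := fun z => max (w' z - u z) 0 with hΦ
  set P : E → E := fun z => if 0 < w' z - u z then W' z - G z else 0 with hP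
  have e1 := hS Φ P hdd (Eventually.of_forall fun z => le_max_right _ _)
  have e2 := heq Φ P hdd
  have e3 : ∫ z, max (u z - w' z) 0 * Φ z = 0 := by
    refine integral_eq_zero_of_ae (Eventually.of_forall fun z => ?_)
    show max (u z - w' z) 0 * max (w' z - u z) 0 = 0
    rcases le_total (u z) (w' z) with h | h
    · rw [max_eq_right (by linarith), zero_mul]
    · rw [max_eq_right (a := w' z - u z) (by linarith), mul_zero]
  rw [e3, mul_zero, add_zero] at e2
  have i1 : Integrable (fun z => ⟪W' z, P z⟫) := int_inner hw'.memLp_grad hdd.memLp_grad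
  have i2 : Integrable (fun z => ⟪G z, P z⟫) := int_inner hu.memLp_grad hdd.memLp_grad
  have e4 : ∫ z, ‖P z‖ ^ 2 = (∫ z, ⟪W' z, P z⟫) - ∫ z, ⟪G z, P z⟫ := by
    rw [← integral_sub i1 i2]
    refine integral_congr_ae (Eventually.of_forall fun z => ?_)
    show ‖P z‖ ^ 2 = ⟪W' z, P z⟫ - ⟪G z, P z⟫
    rw [← inner_sub_left, hP]
    by_cases h : 0 < w' z - u z
    · simp only [h, if_true]
      rw [← real_inner_self_eq_norm_sq]
    · simp only [h, if_false]; simp
  have e5 : ∫ z, ‖P z‖ ^ 2 ≤ 0 := by rw [e4, e2]; linarith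
  have e8 := H10.ae_zero_of_grad hd hU hfin hdd e5
  filter_upwards [e8] with z hz
  have h1 : w' z - u z ≤ 0 := by
    have := le_max_left (w' z - u z) 0
    rw [hΦ] at hz
    simp only at hz
    linarith
  linarith

/-- The excess over the obstacle is small. -/
theorem penalised_small (hw' : H10 U w' W') (hg : MemLp g 2 volume) {n : ℝ}
    (hn : 1 ≤ n) (hu : H10 U u G) (heq : ∀ v H, H10 U v H →
      (∫ z, ⟪G z, H z⟫) + n * (∫ z, max (u z - w' z) 0 * v z) = ∫ z, g z * v z)
    (hge : ∀ᵐ z, w' z ≤ u z) :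
    n * ∫ z, (u z - w' z) ^ 2 ≤ (∫ z, g z ^ 2) + ∫ z, ‖W' z‖ ^ 2 := by
  set d : E → ℝ := fun z => u z - w' z with hd
  set D : E → E := fun z => G z - W' z with hD
  have hdD : H10 U d D := hu.sub hw'
  have e1 := heq d D hdD
  have e2 : ∫ z, max (u z - w' z) 0 * d z = ∫ z, d z ^ 2 := by
    refine integral_congr_ae ?_
    filter_upwards [hge] with z hz
    show max (u z - w' z) 0 * (u z - w' z) = (u z - w' z) ^ 2
    rw [max_eq_left (by linarith)]; ring
  rw [e2] at e1
  have i1 : Integrable (fun z => ⟪G z, D z⟫) := int_inner hu.memLp_grad hdD.memLp_grad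
  have i2 : Integrable (fun z => ⟪W' z, D z⟫) := int_inner hw'.memLp_grad hdD.memLp_grad
  have e3 : ∫ z, ⟪G z, D z⟫ = (∫ z, ‖D z‖ ^ 2) + ∫ z, ⟪W' z, D z⟫ := by
    rw [← integral_add (int_norm_sq hdD.memLp_grad) i2]
    refine integral_congr_ae (Eventually.of_forall fun z => ?_)
    show ⟪G z, D z⟫ = ‖D z‖ ^ 2 + ⟪W' z, D z⟫
    rw [← real_inner_self_eq_norm_sq, ← inner_add_left]
    congr 1
    simp only [hD, sub_add_cancel]
  have e4 : ∫ z, g z * d z ≤ (1 / 2) * (∫ z, g z ^ 2) + (1 / 2) * ∫ z, d z ^ 2 := by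
    rw [← integral_const_mul, ← integral_const_mul, ← integral_add
      (hg.integrable_sq.const_mul _) (hdD.memLp.integrable_sq.const_mul _)]
    refine integral_mono (int_mul hg hdD.memLp)
      ((hg.integrable_sq.const_mul _).add (hdD.memLp.integrable_sq.const_mul _)) fun z => ?_
    show g z * d z ≤ 1 / 2 * g z ^ 2 + 1 / 2 * d z ^ 2
    nlinarith [sq_nonneg (g z - d z)]
  have e5 : -(∫ z, ⟪W' z, D z⟫) ≤ (1 / 2) * (∫ z, ‖W' z‖ ^ 2) + (1 / 2) * ∫ z, ‖D z‖ ^ 2 := by
    rw [← integral_neg, ← integral_const_mul, ← integral_const_mul, ← integral_add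
      ((int_norm_sq hw'.memLp_grad).const_mul _) ((int_norm_sq hdD.memLp_grad).const_mul _)]
    refine integral_mono i2.neg
      (((int_norm_sq hw'.memLp_grad).const_mul _).add
        ((int_norm_sq hdD.memLp_grad).const_mul _)) fun z => ?_
    show -⟪W' z, D z⟫ ≤ 1 / 2 * ‖W' z‖ ^ 2 + 1 / 2 * ‖D z‖ ^ 2
    have h := abs_real_inner_le_norm (W' z) (D z)
    have h2 := neg_abs_le (⟪W' z, D z⟫ : ℝ)
    nlinarith [sq_nonneg (‖W' z‖ - ‖D z‖)]
  have h0 : 0 ≤ ∫ z, ‖D z‖ ^ 2 := by positivity
  have h0' : 0 ≤ ∫ z, d z ^ 2 := by positivity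
  have h0'' : 0 ≤ ∫ z, g z ^ 2 := by positivity
  show n * ∫ z, d z ^ 2 ≤ _
  nlinarith

/-- Upper bound by a multiple of the torsion function of `U`. -/
theorem penalised_le (hd : 2 ≤ finrank ℝ E) (hU : IsOpen U) (hfin : volume U < ⊤)
    (hw' : MemLp w' 2 volume) (hg : MemLp g 2 volume) {G0 : ℝ} (hgG : ∀ᵐ z, g z ≤ G0)
    (hw : IsTorsion U w W) {n : ℝ} (hn : 0 ≤ n) (hu : H10 U u G) (heq : ∀ v H, H10 U v H →
      (∫ z, ⟪G z, H z⟫) + n * (∫ z, max (u z - w' z) 0 * v z) = ∫ z, g z * v z) :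
    ∀ᵐ z, u z ≤ G0 * w z := by
  classical
  have hG0w := hw.1.const_mul G0
  have hdd := (hu.sub hG0w).pos_part
  set Φ : E → ℝ := fun z => max (u z - G0 * w z) 0 with hΦ
  set P : E → E := fun z => if 0 < u z - G0 * w z then G z - G0 • W z else 0 with hP
  have e1 := heq Φ P hdd
  have e2 := hw.all hU hfin hdd
  have iΦ : Integrable Φ := hdd.integrable hU hfin
  have i1 : Integrable (fun z => ⟪G z, P z⟫) := int_inner hu.memLp_grad hdd.memLp_grad
  have i2 : Integrable (fun z => ⟪W z, P z⟫) := int_inner hw.1.memLp_grad hdd.memLp_grad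
  have hΦ0 : ∀ z, 0 ≤ Φ z := fun z => le_max_right _ _
  have e3 : ∫ z, ‖P z‖ ^ 2 = (∫ z, ⟪G z, P z⟫) - G0 * ∫ z, ⟪W z, P z⟫ := by
    rw [← integral_const_mul, ← integral_sub i1 (i2.const_mul G0)]
    refine integral_congr_ae (Eventually.of_forall fun z => ?_)
    show ‖P z‖ ^ 2 = ⟪G z, P z⟫ - G0 * ⟪W z, P z⟫
    rw [← real_inner_smul_left, ← inner_sub_left, hP]
    by_cases h : 0 < u z - G0 * w z
    · simp only [h, if_true]
      rw [← real_inner_self_eq_norm_sq]
    · simp only [h, if_false]; simp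
  have e4 : 0 ≤ ∫ z, max (u z - w' z) 0 * Φ z :=
    integral_nonneg fun z => mul_nonneg (le_max_right _ _) (hΦ0 z)
  have e5 : ∫ z, g z * Φ z ≤ G0 * ∫ z, Φ z := by
    rw [← integral_const_mul]
    refine integral_mono_ae (int_mul hg hdd.memLp) (iΦ.const_mul G0) ?_
    filter_upwards [hgG] with z hz
    exact mul_le_mul_of_nonneg_right hz (hΦ0 z)
  have e6 : ∫ z, ‖P z‖ ^ 2 ≤ 0 := by
    rw [e3, e2]
    have := mul_nonneg hn e4
    linarith
  have e8 := H10.ae_zero_of_grad hd hU hfin hdd e6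
  filter_upwards [e8] with z hz
  have h1 : u z - G0 * w z ≤ 0 := by
    have := le_max_left (u z - G0 * w z) 0
    rw [hΦ] at hz
    simp only at hz
    linarith
  linarith

end Pool.Agent.H4.NM
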