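import Pool.Agent.H4.NM.PerfDefs
import Pool.Agent.H4.NM.CPoin
import Pool.Agent.H4.NM.Lip0
import Pool.Agent.H95.Perf.Poincare

/-!
# NM-11: one-scale perforation, eigenvalue part (MP_898b17_an, all dimensions)

Compare `Pool/Agent/H95/Perf/Energy.lean` (`energy_lift`) and `Pool/Agent/H95/Perf/OneScale.lean`
(`one_scale_a`), the plane version.

## Paper proof

`B_a = ball (ctr a) (ε/4)`, `|B_a|` their common volume, `d = finrank ℝ E`. `φ` Lipschitz, compact
support, zero off `U` and on the holes. Put `m_a = (∫_{B_a} φ) / (∫_{B_a} z_a)`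
(`∫_{B_a} z_a ≥ (1 - δ)|B_a| > 0`, as `∫_{B_a} (1 - z_a) ≤ |B_a|^{1/2} (∫ (1-z_a)²)^{1/2} ≤ δ |B_a|`) and
`f = φ + ∑_{a ∈ P} m_a (1 - z_a)`. `f` is Lipschitz, compactly supported, zero off `U`
(`1 - z_a = 0` off `B_a ⊆ cell a ⊆ U`), so `f ∈ H¹₀(U)` with gradient `gradient f`
(`H10.of_lipschitz_zero`). The balls `B_a` (closures too) are disjoint.

(i) `av_{B_a} f = m_a` : `∫_{B_a} f = ∫_{B_a} φ + m_a ∫_{B_a} (1 - z_a) = m_a |B_a|`.

(ii) Energy: almost everywhere `∇f = ∇φ - ∑ m_a ∇z_a`, the `∇z_a` have disjoint supports: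
`∫ |∇f|² = ∫ |∇φ|² - 2 ∑ m_a ∫ ⟪∇z_a, ∇φ⟫ + ∑ m_a² ∫ |∇z_a|²`. `IsCorr.eqn` with `ψ = φ` and
`ψ = z_a`: `∫ ⟪∇z_a, ∇φ⟫ = k_a ∫_{B_a} φ = k_a m_a ∫_{B_a} z_a`, `∫ |∇z_a|² = k_a ∫_{B_a} z_a`. So
`∫ |∇φ|² = ∫ |∇f|² + ∑ m_a² k_a ∫_{B_a} z_a ≥ ∫ |∇f|² + (1 - δ) ∑ m_a² κ_a ε^d`.

(iii) `∫ V f² ≤ τ ∫ f² + ∑_{a ∈ P} κ_a ∫_{cell a} f²` (`V ≤ κ_a + τ` on `cell a`, `V ≤ τ` elsewhere), and
`f² ≤ (1 + s) m_a² + (1 + 1/s) (f - m_a)²`, `cell_poincare` with `D = d ε`:
`∫_{cell a} (f - m_a)² ≤ 2^d d² ε² (ε^d / |B_a|) ∫_{cell a} |∇f|²`, `ε^d/|B_a| = 4^d / |B_1|`. With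
`C = 2^d d² 4^d / |B_1|`:
`∫ V f² ≤ τ ∫ f² + (1 + s) ∑ κ_a ε^d m_a² + (1 + 1/s) C K ε² ∫ |∇f|²`.

(iv) The hypothesis for `f`:
`(Λ - τ) ∫ f² ≤ (1 + (1 + 1/s) C K ε²) ∫ |∇f|² + (1 + s) ∑ κ_a ε^d m_a² ≤ M ∫ |∇φ|²` with
`M = max (1 + (1+1/s) C K ε²) ((1+s)/(1-δ))`.

(v) `‖φ‖₂ ≤ ‖f‖₂ + ‖∑ m_a (1 - z_a)‖₂` and
`‖∑ m_a (1 - z_a)‖₂² = ∑ m_a² ∫_{B_a} (1-z_a)² ≤ δ² ∑ m_a² |B_a| ≤ δ² ∑ ∫_{B_a} f² ≤ δ² ∫ f²`
(`m_a² |B_a| ≤ ∫_{B_a} f²` by Cauchy-Schwarz). So `∫ φ² ≤ (1 + δ)² ∫ f²`, and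
`(Λ - τ) ∫ φ² ≤ (1 + δ)² M ∫ |∇φ|²`.
-/

open MeasureTheory Set Metric Filter Topology ContDiff Module
open scoped ENNReal NNReal RealInnerProductSpace

namespace Pool.Agent.H4.NM

variable {E : Type} [NormedAddCommGroup E] [InnerProductSpace ℝ E] [FiniteDimensional ℝ E]
  [CompleteSpace E] [MeasurableSpace E] [BorelSpace E]

set_option linter.unusedSectionVars false

open Pool.Agent.H95.Perf (IsLip)

section aux

variable {ι : Type} {U : Set E} {ε K τ δ : ℝ} {V : E → ℝ} {P : Finset ι} {cell : ι → Set E}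
  {ctr : ι → E} {κ k r : ι → ℝ} {z : ι → E → ℝ}

/-- bounded measurable functions vanishing off a compact set are integrable -/
theorem pa_int_bdd {h : E → ℝ} (hm : Measurable h) {S : Set E} (hS : IsCompact S)
    {A : ℝ} (hA : ∀ x, |h x| ≤ A) (h0 : ∀ x, x ∉ S → h x = 0) : Integrable h := by
  have : IntegrableOn h S := by
    refine Measure.integrableOn_of_bounded (M := A) hS.measure_lt_top.ne
      hm.aestronglyMeasurable ?_
    exact Eventually.of_forall fun x => by simpa using hA x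
  rw [← integrableOn_univ]
  refine this.of_forall_sdiff_eq_zero MeasurableSet.univ fun x hx => h0 x hx.2

theorem pa_grad_le {f : E → ℝ} (hf : IsLip f) : ∃ A : ℝ, 0 ≤ A ∧ ∀ x, ‖gradient f x‖ ≤ A := by
  obtain ⟨C, hC⟩ := hf
  exact ⟨C, C.2, fun x => norm_gradient_le_of_lipschitz hC x⟩

theorem pa_ip_meas (f g : E → ℝ) : Measurable fun x => ⟪gradient f x, gradient g x⟫ :=
  (measurable_gradient f).inner (measurable_gradient g)

theorem pa_int_ip {f g : E → ℝ} (hf : IsLip f) (hg : IsLip g) {S : Set E} (hS : IsCompact S)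
    (h0 : ∀ x, x ∉ S → gradient f x = 0) :
    Integrable fun x => ⟪gradient f x, gradient g x⟫ := by
  obtain ⟨A, hA0, hA⟩ := pa_grad_le hf
  obtain ⟨B, hB0, hB⟩ := pa_grad_le hg
  refine pa_int_bdd (pa_ip_meas f g) hS (A := A * B) (fun x => ?_) (fun x hx => ?_)
  · refine (abs_real_inner_le_norm _ _).trans ?_
    exact mul_le_mul (hA x) (hB x) (norm_nonneg _) hA0
  · rw [h0 x hx, inner_zero_left]

theorem pa_grad_zero {f : E → ℝ} (x : E) (hx : x ∉ tsupport f) : gradient f x = 0 :=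
  gradient_zero_of_notMem_tsupport hx

theorem pa_int_norm {f : E → ℝ} (hf : IsLip f) (hc : HasCompactSupport f) :
    Integrable fun x => ‖gradient f x‖ ^ 2 := by
  have := pa_int_ip hf hf hc.isCompact (pa_grad_zero (f := f))
  refine this.congr (Eventually.of_forall fun x => ?_)
  exact real_inner_self_eq_norm_sq _

theorem pa_int_sq {f : E → ℝ} (hf : Continuous f) (hc : HasCompactSupport f) :
    Integrable (fun x => f x ^ 2) := by
  have h : (fun x => f x ^ 2) = fun x => f x * f x := by funext x; ring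
  rw [h]
  exact (hf.mul hf).integrable_of_hasCompactSupport hc.mul_left

theorem pa_intOn_ball {f : E → ℝ} (hf : Continuous f) (p : E) (R : ℝ) :
    IntegrableOn f (ball p R) :=
  (hf.continuousOn.integrableOn_compact (isCompact_closedBall p R)).mono_set ball_subset_closedBall

/-- `∑ m_a (1 - z_a)` -/
noncomputable def paB (P : Finset ι) (z : ι → E → ℝ) (m : ι → ℝ) (x : E) : ℝ :=
  ∑ a ∈ P, m a * (1 - z a x)

variable (H : IsPerf U ε K τ δ V P cell ctr κ k r z)
include H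

theorem pa_notMem {a b : ι} (ha : a ∈ P) (hb : b ∈ P) (hab : a ≠ b) {x : E}
    (hx : x ∈ closedBall (ctr a) (ε / 4)) : x ∉ closedBall (ctr b) (ε / 4) := fun hx' =>
  Set.disjoint_left.1 (H.disj a ha b hb hab) (H.ball_sub a ha hx) (H.ball_sub b hb hx')

theorem pa_z_one {a : ι} (ha : a ∈ P) {x : E} (hx : x ∉ ball (ctr a) (ε / 4)) : z a x = 1 :=
  (H.corr a ha).outer x hx

theorem pa_grad_z {a : ι} (ha : a ∈ P) {x : E} (hx : x ∉ closedBall (ctr a) (ε / 4)) :
    gradient (z a) x = 0 := by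
  have h1 : z a =ᶠ[𝓝 x] fun _ => (1 : ℝ) := by
    filter_upwards [isClosed_closedBall.isOpen_compl.mem_nhds hx] with y hy
    exact pa_z_one H ha fun h => hy (ball_subset_closedBall h)
  rw [gradient_eq, h1.fderiv_eq, fderiv_const_apply, map_zero]

theorem pa_B_near (m : ι → ℝ) {a : ι} (ha : a ∈ P) {x : E}
    (hx : x ∈ closedBall (ctr a) (ε / 4)) : paB P z m x = m a * (1 - z a x) := by
  rw [paB, Finset.sum_eq_single_of_mem a ha]
  intro b hb hba
  rw [pa_z_one H hb fun h => pa_notMem H ha hb hba.symm hx (ball_subset_closedBall h)]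
  ring

theorem pa_B_far (m : ι → ℝ) {x : E} (hx : ∀ a ∈ P, x ∉ ball (ctr a) (ε / 4)) :
    paB P z m x = 0 := by
  rw [paB]
  refine Finset.sum_eq_zero fun a ha => ?_
  rw [pa_z_one H ha (hx a ha)]
  ring

theorem pa_B_lip (m : ι → ℝ) : IsLip (paB P z m) :=
  IsLip.finset_sum P fun a ha => ((IsLip.const 1).sub (H.corr a ha).lip).const_mul _

theorem pa_B_compact (m : ι → ℝ) : HasCompactSupport (paB P z m) := by
  refine HasCompactSupport.intro (K := ⋃ a ∈ P, closedBall (ctr a) (ε / 4))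
    (P.isCompact_biUnion fun i _ => isCompact_closedBall _ _) fun x hx => ?_
  simp only [mem_iUnion, not_exists] at hx
  exact pa_B_far H m fun a ha h => hx a ha (ball_subset_closedBall h)

theorem pa_int_zf {a : ι} (ha : a ∈ P) {f : E → ℝ} (hf : IsLip f) :
    Integrable fun x => ⟪gradient (z a) x, gradient f x⟫ :=
  pa_int_ip (H.corr a ha).lip hf (isCompact_closedBall (ctr a) (ε / 4))
    fun _ hx => pa_grad_z H ha hx

/-- **Energy decomposition.** -/
theorem pa_energy {φ : E → ℝ} (hφ : IsLip φ) (hφc : HasCompactSupport φ)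
    (h0 : ∀ a ∈ P, ∀ x ∈ closedBall (ctr a) (r a), φ x = 0) (m : ι → ℝ)
    (hm : ∀ a ∈ P, ∫ x in ball (ctr a) (ε / 4), φ x = m a * ∫ x in ball (ctr a) (ε / 4), z a x) :
    ∫ x, ‖gradient φ x‖ ^ 2 = (∫ x, ‖gradient (fun y => φ y + paB P z m y) x‖ ^ 2)
      + ∑ a ∈ P, m a ^ 2 * (k a * ∫ x in ball (ctr a) (ε / 4), z a x) := by
  classical
  have hI0 : Integrable fun x => ‖gradient φ x‖ ^ 2 := pa_int_norm hφ hφc
  have hI1 : ∀ a ∈ P, Integrable (fun x => m a * ⟪gradient (z a) x, gradient φ x⟫) :=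
    fun a ha => (pa_int_zf H ha hφ).const_mul _
  have hI2 : ∀ a ∈ P, Integrable (fun x => m a ^ 2 * ⟪gradient (z a) x, gradient (z a) x⟫) :=
    fun a ha => (pa_int_zf H ha (H.corr a ha).lip).const_mul _
  have hae : ∀ᵐ x : E, ∀ a ∈ P, DifferentiableAt ℝ (z a) x := by
    refine (Finset.eventually_all P).2 fun a ha => ?_
    obtain ⟨C, hC⟩ := (H.corr a ha).lip
    exact hC.ae_differentiableAt
  have hae' : ∀ᵐ x : E, DifferentiableAt ℝ φ x := by
    obtain ⟨C, hC⟩ := hφ
    exact hC.ae_differentiableAt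
  have key : ∫ x, ‖gradient (fun y => φ y + paB P z m y) x‖ ^ 2 =
      ∫ x, (‖gradient φ x‖ ^ 2 - 2 * ∑ a ∈ P, m a * ⟪gradient (z a) x, gradient φ x⟫
        + ∑ a ∈ P, m a ^ 2 * ⟪gradient (z a) x, gradient (z a) x⟫) := by
    refine integral_congr_ae ?_
    filter_upwards [hae', hae] with x hx1 hx2
    have hb : HasFDerivAt (paB P z m) (∑ a ∈ P, m a • (0 - fderiv ℝ (z a) x)) x := by
      refine HasFDerivAt.fun_sum fun i hi => ?_
      exact ((hasFDerivAt_const (1 : ℝ) x).fun_sub (hx2 i hi).hasFDerivAt).const_mul (m i)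
    have e2 : gradient (fun y => φ y + paB P z m y) x =
        gradient φ x - ∑ a ∈ P, m a • gradient (z a) x := by
      apply gradient_eq_of_fderiv
      intro b
      rw [fderiv_fun_add hx1 hb.differentiableAt, hb.fderiv]
      simp only [zero_sub, smul_neg, Finset.sum_neg_distrib, inner_sub_left, sum_inner,
        real_inner_smul_left, inner_gradient, ContinuousLinearMap.add_apply,
        ContinuousLinearMap.neg_apply, ContinuousLinearMap.coe_sum', Finset.sum_apply,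
        ContinuousLinearMap.coe_smul', Pi.smul_apply, smul_eq_mul]
      ring
    rw [e2, ← real_inner_self_eq_norm_sq, inner_sub_sub_self, inner_sum, sum_inner]
    have e3 : ∀ a ∈ P, ⟪gradient φ x, m a • gradient (z a) x⟫ =
        m a * ⟪gradient (z a) x, gradient φ x⟫ := by
      intro i _
      rw [inner_smul_right, real_inner_comm]
    have e4 : ∀ a ∈ P, ⟪m a • gradient (z a) x, gradient φ x⟫ =
        m a * ⟪gradient (z a) x, gradient φ x⟫ := by
      intro i _
      rw [real_inner_smul_left]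
    rw [Finset.sum_congr rfl e3, Finset.sum_congr rfl e4]
    have e5 : ⟪∑ a ∈ P, m a • gradient (z a) x, ∑ a ∈ P, m a • gradient (z a) x⟫ =
        ∑ a ∈ P, m a ^ 2 * ⟪gradient (z a) x, gradient (z a) x⟫ := by
      rw [sum_inner]
      refine Finset.sum_congr rfl fun i hi => ?_
      rw [inner_sum, Finset.sum_eq_single_of_mem i hi]
      · rw [real_inner_smul_left, inner_smul_right]; ring
      · intro j hj hji
        rw [real_inner_smul_left, inner_smul_right]
        have : ⟪gradient (z i) x, gradient (z j) x⟫ = 0 := by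
          by_cases h : x ∈ closedBall (ctr i) (ε / 4)
          · rw [pa_grad_z H hj (pa_notMem H hi hj hji.symm h), inner_zero_right]
          · rw [pa_grad_z H hi h, inner_zero_left]
        rw [this]; ring
    rw [e5, real_inner_self_eq_norm_sq]
    ring
  have hI1' : Integrable (fun x => 2 * ∑ a ∈ P, m a * ⟪gradient (z a) x, gradient φ x⟫) :=
    (integrable_finsetSum P hI1).const_mul 2
  have hI2' : Integrable (fun x => ∑ a ∈ P, m a ^ 2 *
      ⟪gradient (z a) x, gradient (z a) x⟫) := integrable_finsetSum P hI2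
  have hI3 : Integrable (fun x => ‖gradient φ x‖ ^ 2 -
      2 * ∑ a ∈ P, m a * ⟪gradient (z a) x, gradient φ x⟫) := hI0.sub hI1'
  rw [key, integral_add hI3 hI2', integral_sub hI0 hI1', integral_const_mul,
    integral_finsetSum P hI1, integral_finsetSum P hI2]
  have e6 : ∀ a ∈ P, ∫ x, m a * ⟪gradient (z a) x, gradient φ x⟫ =
      m a ^ 2 * (k a * ∫ x in ball (ctr a) (ε / 4), z a x) := by
    intro a ha
    rw [integral_const_mul, (H.corr a ha).eqn φ hφ (h0 a ha), hm a ha]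
    ring
  have e7 : ∀ a ∈ P, ∫ x, m a ^ 2 * ⟪gradient (z a) x, gradient (z a) x⟫ =
      m a ^ 2 * (k a * ∫ x in ball (ctr a) (ε / 4), z a x) := by
    intro a ha
    rw [integral_const_mul, (H.corr a ha).eqn (z a) (H.corr a ha).lip (H.corr a ha).inner]
  rw [Finset.sum_congr rfl e6, Finset.sum_congr rfl e7]
  ring

end aux

section aux2

variable {ι : Type} {U : Set E} {ε K τ δ : ℝ} {V : E → ℝ} {P : Finset ι} {cell : ι → Set E}
  {ctr : ι → E} {κ k r : ι → ℝ} {z : ι → E → ℝ}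

/-- Cauchy-Schwarz on a ball -/
theorem pa_cs {f : E → ℝ} (hf : Continuous f) (p : E) (R : ℝ) :
    (∫ x in ball p R, f x) ^ 2 ≤ volume.real (ball p R) * ∫ x in ball p R, f x ^ 2 := by
  have : IsFiniteMeasure (volume.restrict (ball p R)) := ⟨by
    rw [Measure.restrict_apply_univ]; exact measure_ball_lt_top⟩
  have h := Pool.Agent.H95.Perf.sq_integral_le (μ := volume.restrict (ball p R)) (g := f)
    (pa_intOn_ball hf p R) (pa_intOn_ball (hf.pow 2) p R)
  rwa [measureReal_restrict_apply_univ] at h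

/-- sum of integrals over disjoint sets -/
theorem pa_sum_le {P : Finset ι} {cell : ι → Set E} (hm : ∀ a ∈ P, MeasurableSet (cell a))
    (hd : ∀ a ∈ P, ∀ b ∈ P, a ≠ b → Disjoint (cell a) (cell b)) {f : E → ℝ} (hf : Integrable f)
    (h0 : ∀ x, 0 ≤ f x) : ∑ a ∈ P, ∫ x in cell a, f x ≤ ∫ x, f x := by
  have h1 : ∫ x in ⋃ a ∈ P, cell a, f x = ∑ a ∈ P, ∫ x in cell a, f x :=
    integral_biUnion_finset P hm (fun a ha b hb hab => hd a ha b hb hab)
      (fun a _ => hf.integrableOn)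
  rw [← h1]
  exact setIntegral_le_integral hf (Eventually.of_forall h0)

variable (H : IsPerf U ε K τ δ V P cell ctr κ k r z)
include H

/-- the integral of the corrector -/
theorem pa_I {a : ι} (ha : a ∈ P) : (1 - δ) * volume.real (ball (ctr a) (ε / 4)) ≤
    ∫ x in ball (ctr a) (ε / 4), z a x := by
  have hzc := (H.corr a ha).lip.continuous
  have hR : 0 < ε / 4 := by have := H.ε_pos; positivity
  have hW := vol_ball_pos (ctr a) hR
  set W := volume.real (ball (ctr a) (ε / 4)) with hWdef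
  have h1 := pa_cs (f := fun x => 1 - z a x) (continuous_const.sub hzc) (ctr a) (ε / 4)
  have h2 := H.mean a ha
  have h3 : ∫ x in ball (ctr a) (ε / 4), (1 - z a x) = W - ∫ x in ball (ctr a) (ε / 4), z a x := by
    rw [integral_sub (pa_intOn_ball continuous_const _ _) (pa_intOn_ball hzc _ _),
      setIntegral_const, smul_eq_mul, mul_one]
  rw [h3, ← hWdef] at h1
  rw [← hWdef] at h2
  have h4 : (W - ∫ x in ball (ctr a) (ε / 4), z a x) ^ 2 ≤ (δ * W) ^ 2 := by
    refine h1.trans ?_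
    calc W * ∫ x in ball (ctr a) (ε / 4), (1 - z a x) ^ 2 ≤ W * (δ ^ 2 * W) := by gcongr
      _ = (δ * W) ^ 2 := by ring
  have h5 := abs_le_of_sq_le_sq' h4 (mul_nonneg H.δ0 hW.le)
  linarith [h5.2]

/-- the mean of the lifted function -/
theorem pa_mean {φ : E → ℝ} (hφ : Continuous φ) (m : ι → ℝ)
    (hm : ∀ a ∈ P, ∫ x in ball (ctr a) (ε / 4), φ x = m a * ∫ x in ball (ctr a) (ε / 4), z a x)
    {a : ι} (ha : a ∈ P) : ∫ x in ball (ctr a) (ε / 4), (φ x + paB P z m x) =
      m a * volume.real (ball (ctr a) (ε / 4)) := by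
  have hzc := (H.corr a ha).lip.continuous
  have e1 : ∫ x in ball (ctr a) (ε / 4), (φ x + paB P z m x) =
      ∫ x in ball (ctr a) (ε / 4), (φ x + m a * (1 - z a x)) := by
    refine setIntegral_congr_fun measurableSet_ball fun x hx => ?_
    rw [pa_B_near H m ha (ball_subset_closedBall hx)]
  have i2 : IntegrableOn (fun x => m a * (1 - z a x)) (ball (ctr a) (ε / 4)) :=
    pa_intOn_ball (continuous_const.mul (continuous_const.sub hzc)) _ _
  rw [e1, integral_add (pa_intOn_ball hφ _ _) i2, integral_const_mul,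
    hm a ha, integral_sub (pa_intOn_ball continuous_const _ _) (pa_intOn_ball hzc _ _),
    setIntegral_const, smul_eq_mul, mul_one]
  ring

/-- the bump is small in `L²` -/
theorem pa_bump {f : E → ℝ} (hf : Continuous f) (hfc : HasCompactSupport f) (m : ι → ℝ)
    (hm : ∀ a ∈ P, ∫ x in ball (ctr a) (ε / 4), f x = m a * volume.real (ball (ctr a) (ε / 4))) :
    ∫ x, paB P z m x ^ 2 ≤ δ ^ 2 * ∫ x, f x ^ 2 := by
  classical
  have hR : 0 < ε / 4 := by have := H.ε_pos; positivity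
  have hpt : ∀ x, paB P z m x ^ 2 =
      ∑ a ∈ P, (ball (ctr a) (ε / 4)).indicator (fun x => (m a * (1 - z a x)) ^ 2) x := by
    intro x
    by_cases h : ∃ a ∈ P, x ∈ ball (ctr a) (ε / 4)
    · obtain ⟨a, ha, hx⟩ := h
      rw [pa_B_near H m ha (ball_subset_closedBall hx), Finset.sum_eq_single_of_mem a ha]
      · rw [indicator_of_mem hx]
      · intro b hb hba
        exact indicator_of_notMem (fun h => pa_notMem H ha hb hba.symm
          (ball_subset_closedBall hx) (ball_subset_closedBall h)) _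
    · push Not at h
      rw [pa_B_far H m h, Finset.sum_eq_zero]
      · ring
      · intro b hb
        exact indicator_of_notMem (h b hb) _
  have hic : ∀ a ∈ P, IntegrableOn (fun x => (m a * (1 - z a x)) ^ 2) (ball (ctr a) (ε / 4)) :=
    fun a ha => pa_intOn_ball ((continuous_const.mul
      (continuous_const.sub (H.corr a ha).lip.continuous)).pow 2) _ _
  have hsq := pa_int_sq hf hfc
  simp_rw [hpt]
  rw [integral_finsetSum P (fun a ha => (integrable_indicator_iff measurableSet_ball).2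
    (hic a ha))]
  calc ∑ a ∈ P, ∫ x, (ball (ctr a) (ε / 4)).indicator (fun x => (m a * (1 - z a x)) ^ 2) x
      ≤ ∑ a ∈ P, δ ^ 2 * ∫ x in ball (ctr a) (ε / 4), f x ^ 2 := by
        refine Finset.sum_le_sum fun a ha => ?_
        have hW := vol_ball_pos (ctr a) hR
        rw [integral_indicator measurableSet_ball]
        have h1 : ∫ x in ball (ctr a) (ε / 4), (m a * (1 - z a x)) ^ 2 =
            m a ^ 2 * ∫ x in ball (ctr a) (ε / 4), (1 - z a x) ^ 2 := by
          rw [← integral_const_mul]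
          refine integral_congr_ae (Eventually.of_forall fun x => ?_)
          simp only
          ring
        have h2 := pa_cs hf (ctr a) (ε / 4)
        rw [hm a ha] at h2
        set W := volume.real (ball (ctr a) (ε / 4)) with hWdef
        have h3 : m a ^ 2 * W ≤ ∫ x in ball (ctr a) (ε / 4), f x ^ 2 := by
          have e : (m a * W) ^ 2 = W * (m a ^ 2 * W) := by ring
          rw [e] at h2
          exact le_of_mul_le_mul_left h2 hW
        have h4 := H.mean a ha
        rw [← hWdef] at h4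
        calc ∫ x in ball (ctr a) (ε / 4), (m a * (1 - z a x)) ^ 2
            = m a ^ 2 * ∫ x in ball (ctr a) (ε / 4), (1 - z a x) ^ 2 := h1
          _ ≤ m a ^ 2 * (δ ^ 2 * W) := by gcongr
          _ = δ ^ 2 * (m a ^ 2 * W) := by ring
          _ ≤ δ ^ 2 * ∫ x in ball (ctr a) (ε / 4), f x ^ 2 := by gcongr
    _ = δ ^ 2 * ∑ a ∈ P, ∫ x in ball (ctr a) (ε / 4), f x ^ 2 := by rw [← Finset.mul_sum]
    _ ≤ δ ^ 2 * ∫ x, f x ^ 2 := by
        have := pa_sum_le (P := P) (cell := fun a => ball (ctr a) (ε / 4))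
          (fun a _ => measurableSet_ball) (fun a ha b hb hab => Set.disjoint_left.2 fun x hx hx' =>
            pa_notMem H ha hb hab (ball_subset_closedBall hx) (ball_subset_closedBall hx')) hsq
          (fun x => sq_nonneg _)
        gcongr

/-- the potential term is bounded by integrals over the cells -/
theorem pa_pot {f : E → ℝ} (hf : Continuous f) (hfc : HasCompactSupport f) :
    ∫ x, V x * f x ^ 2 ≤ τ * (∫ x, f x ^ 2) + ∑ a ∈ P, κ a * ∫ x in cell a, f x ^ 2 := by
  classical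
  have hsq := pa_int_sq hf hfc
  have hK : ∀ x, |V x| ≤ K := fun x => by rw [abs_of_nonneg (H.V0 x)]; exact H.VK x
  have hV : Integrable fun x => V x * f x ^ 2 :=
    hsq.bdd_mul H.Vm.aestronglyMeasurable (Eventually.of_forall fun x => by
      rw [Real.norm_eq_abs]; exact hK x)
  have hi : ∀ a ∈ P, Integrable fun x => κ a * (cell a).indicator (fun x => f x ^ 2) x :=
    fun a ha => (hsq.indicator (H.meas a ha)).const_mul _
  have hle : ∀ x, V x * f x ^ 2 ≤ τ * f x ^ 2 +
      ∑ a ∈ P, κ a * (cell a).indicator (fun x => f x ^ 2) x := by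
    intro x
    by_cases h : ∃ a ∈ P, x ∈ cell a
    · obtain ⟨a, ha, hx⟩ := h
      rw [Finset.sum_eq_single_of_mem a ha]
      · rw [indicator_of_mem hx]
        have := (abs_le.1 (H.V_near a ha x hx)).2
        nlinarith [sq_nonneg (f x)]
      · intro b hb hba
        rw [indicator_of_notMem (fun h => Set.disjoint_left.1 (H.disj a ha b hb hba.symm) hx h),
          mul_zero]
    · push Not at h
      rw [Finset.sum_eq_zero]
      · have := H.V_far x h
        nlinarith [sq_nonneg (f x)]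
      · intro b hb
        rw [indicator_of_notMem (h b hb), mul_zero]
  calc ∫ x, V x * f x ^ 2 ≤ ∫ x, (τ * f x ^ 2 +
        ∑ a ∈ P, κ a * (cell a).indicator (fun x => f x ^ 2) x) :=
        integral_mono hV ((hsq.const_mul τ).add (integrable_finsetSum P hi)) hle
    _ = τ * (∫ x, f x ^ 2) + ∑ a ∈ P, κ a * ∫ x in cell a, f x ^ 2 := by
        rw [integral_add (hsq.const_mul τ) (integrable_finsetSum P hi), integral_const_mul,
          integral_finsetSum P hi]
        congr 1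
        refine Finset.sum_congr rfl fun a ha => ?_
        rw [integral_const_mul, integral_indicator (H.meas a ha)]

end aux2

/-- the weighted square inequality -/
theorem pa_sq {s : ℝ} (hs : 0 < s) (x y : ℝ) :
    (x + y) ^ 2 ≤ (1 + s) * x ^ 2 + (1 + 1 / s) * y ^ 2 := by
  have h1 : 0 ≤ (s * x - y) ^ 2 / s := div_nonneg (sq_nonneg _) hs.le
  have h2 : (s * x - y) ^ 2 / s = s * x ^ 2 - 2 * (x * y) + 1 / s * y ^ 2 := by
    field_simp
    ring
  rw [h2] at h1
  nlinarith

/-- `∫ φ² ≤ (1 + δ)² ∫ f²` for `φ = f - b`, `∫ b² ≤ δ² ∫ f²` -/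
theorem pa_norm {δ : ℝ} (hδ : 0 ≤ δ) {f b φ : E → ℝ} (h : ∀ x, φ x = f x + - b x)
    (hf : Integrable fun x => f x ^ 2) (hb : Integrable fun x => b x ^ 2)
    (hφ : Integrable fun x => φ x ^ 2) (hle : ∫ x, b x ^ 2 ≤ δ ^ 2 * ∫ x, f x ^ 2) :
    ∫ x, φ x ^ 2 ≤ (1 + δ) ^ 2 * ∫ x, f x ^ 2 := by
  have hN : 0 ≤ ∫ x, f x ^ 2 := integral_nonneg fun x => sq_nonneg _
  have key : ∀ s : ℝ, 0 < s →
      ∫ x, φ x ^ 2 ≤ (1 + s) * (∫ x, f x ^ 2) + (1 + 1 / s) * ∫ x, b x ^ 2 := by
    intro s hs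
    calc ∫ x, φ x ^ 2 ≤ ∫ x, ((1 + s) * f x ^ 2 + (1 + 1 / s) * b x ^ 2) := by
          refine integral_mono hφ ((hf.const_mul _).add (hb.const_mul _)) fun x => ?_
          have := pa_sq hs (f x) (- b x)
          rw [← h x, neg_sq] at this
          exact this
      _ = _ := by
          rw [integral_add (hf.const_mul _) (hb.const_mul _), integral_const_mul,
            integral_const_mul]
  rcases hδ.eq_or_lt with h0 | h0
  · rw [← h0] at hle ⊢
    have hb0 : ∫ x, b x ^ 2 = 0 :=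
      le_antisymm (by simpa using hle) (integral_nonneg fun x => sq_nonneg _)
    have key' : ∀ s : ℝ, 0 < s → ∫ x, φ x ^ 2 ≤ (1 + s) * ∫ x, f x ^ 2 := by
      intro s hs
      have := key s hs
      rw [hb0, mul_zero, add_zero] at this
      exact this
    have hlim : Tendsto (fun s : ℝ => (1 + s) * ∫ x, f x ^ 2) (𝓝[>] 0)
        (𝓝 ((1 + 0) * ∫ x, f x ^ 2)) :=
      ((continuous_const.add continuous_id).mul continuous_const).continuousWithinAt.tendsto
    have := ge_of_tendsto hlim (by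
      filter_upwards [self_mem_nhdsWithin] with s hs
      exact key' s hs)
    simpa using this
  · calc ∫ x, φ x ^ 2 ≤ (1 + δ) * (∫ x, f x ^ 2) + (1 + 1 / δ) * ∫ x, b x ^ 2 := key δ h0
      _ ≤ (1 + δ) * (∫ x, f x ^ 2) + (1 + 1 / δ) * (δ ^ 2 * ∫ x, f x ^ 2) := by gcongr
      _ = (1 + δ) ^ 2 * ∫ x, f x ^ 2 := by field_simp; ring

theorem scale_a (hd : 2 ≤ finrank ℝ E) : ∃ C : ℝ, 0 < C ∧
    ∀ {ι : Type} (U : Set E) (ε K τ δ : ℝ) (V : E → ℝ) (P : Finset ι) (cell : ι → Set E)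
      (ctr : ι → E) (κ k r : ι → ℝ) (z : ι → E → ℝ), IsOpen U → volume U < ⊤ →
      IsPerf U ε K τ δ V P cell ctr κ k r z →
      ∀ Λ s : ℝ, 0 < s → 0 ≤ Λ - τ →
      (∀ u G, H10 U u G → Λ * ∫ x, u x ^ 2 ≤ (∫ x, ‖G x‖ ^ 2) + ∫ x, V x * u x ^ 2) →
      ∀ φ : E → ℝ, IsLip φ → HasCompactSupport φ → (∀ x, x ∉ U → φ x = 0) →
      (∀ a ∈ P, ∀ x ∈ closedBall (ctr a) (r a), φ x = 0) →
      (Λ - τ) * ∫ x, φ x ^ 2 ≤ (1 + δ) ^ 2 *
        max (1 + (1 + 1 / s) * C * K * ε ^ 2) ((1 + s) / (1 - δ)) * ∫ x, ‖gradient φ x‖ ^ 2 := by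
  classical
  set d := finrank ℝ E with hddef
  have hω : 0 < volume.real (ball (0 : E) 1) := vol_one_pos
  refine ⟨2 ^ d * (d : ℝ) ^ 2 * (4 ^ d / volume.real (ball (0 : E) 1)), by positivity, ?_⟩
  intro ι U ε K τ δ V P cell ctr κ k r z hU hUv H Λ s hs hΛτ hΛ φ hφ hφc hφU hφ0
  set C : ℝ := 2 ^ d * (d : ℝ) ^ 2 * (4 ^ d / volume.real (ball (0 : E) 1)) with hCdef
  have hC : 0 < C := by positivity
  have hε := H.ε_pos
  have hR : 0 < ε / 4 := by positivity
  have hδ1 : 0 < 1 - δ := by linarith [H.δ1]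
  have hW : ∀ a, 0 < volume.real (ball (ctr a) (ε / 4)) := fun a => vol_ball_pos (ctr a) hR
  have hIpos : ∀ a ∈ P, 0 < ∫ x in ball (ctr a) (ε / 4), z a x := fun a ha =>
    lt_of_lt_of_le (mul_pos hδ1 (hW a)) (pa_I H ha)
  set m : ι → ℝ := fun a => (∫ x in ball (ctr a) (ε / 4), φ x) /
    ∫ x in ball (ctr a) (ε / 4), z a x with hmdef
  have hm : ∀ a ∈ P, ∫ x in ball (ctr a) (ε / 4), φ x =
      m a * ∫ x in ball (ctr a) (ε / 4), z a x := by
    intro a ha
    simp only [hmdef]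
    rw [div_mul_cancel₀ _ (hIpos a ha).ne']
  set f : E → ℝ := fun y => φ y + paB P z m y with hfdef
  have hbL : IsLip (paB P z m) := pa_B_lip H m
  have hbc : HasCompactSupport (paB P z m) := pa_B_compact H m
  have hfL : IsLip f := hφ.add hbL
  have hfc : HasCompactSupport f := hφc.add hbc
  have hf0 : ∀ x, x ∉ U → f x = 0 := by
    intro x hx
    simp only [hfdef]
    rw [hφU x hx, pa_B_far H m fun a ha h =>
      hx (H.cell_sub a ha (H.ball_sub a ha (ball_subset_closedBall h))), add_zero]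
  have hfH : H10 U f (gradient f) := H10.of_lipschitz_zero hU hfL hfc hf0
  have hfm : ∀ a ∈ P, ∫ x in ball (ctr a) (ε / 4), f x =
      m a * volume.real (ball (ctr a) (ε / 4)) := fun a ha => pa_mean H hφ.continuous m hm ha
  have hintD : Integrable fun x => ‖gradient f x‖ ^ 2 := pa_int_norm hfL hfc
  have hintN : Integrable fun x => f x ^ 2 := pa_int_sq hfL.continuous hfc
  set A := ∫ x, ‖gradient φ x‖ ^ 2 with hA
  set At := ∫ x, ‖gradient f x‖ ^ 2 with hAt
  set N := ∫ x, φ x ^ 2 with hN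
  set Nt := ∫ x, f x ^ 2 with hNt
  set S := ∑ a ∈ P, κ a * ε ^ d * m a ^ 2 with hS
  have hAt0 : 0 ≤ At := integral_nonneg fun x => sq_nonneg _
  have hNt0 : 0 ≤ Nt := integral_nonneg fun x => sq_nonneg _
  have hS0 : 0 ≤ S := Finset.sum_nonneg fun a ha => by have := H.κ_pos a ha; positivity
  -- energy
  have s1 : At + (1 - δ) * S ≤ A := by
    have h1 : A = At + ∑ a ∈ P, m a ^ 2 * (k a * ∫ x in ball (ctr a) (ε / 4), z a x) :=
      pa_energy H hφ hφc hφ0 m hm
    rw [h1, hS, Finset.mul_sum]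
    refine add_le_add le_rfl (Finset.sum_le_sum fun a ha => ?_)
    have h2 := pa_I H ha
    have hk : 0 < k a := by
      have h3 := H.k_eq a ha
      have h4 := H.κ_pos a ha
      by_contra hk
      push Not at hk
      have h5 : 0 < κ a * ε ^ d := by positivity
      have h6 : k a * volume.real (ball (ctr a) (ε / 4)) ≤ 0 :=
        mul_nonpos_of_nonpos_of_nonneg hk (hW a).le
      linarith
    calc (1 - δ) * (κ a * ε ^ d * m a ^ 2)
        = m a ^ 2 * (k a * ((1 - δ) * volume.real (ball (ctr a) (ε / 4)))) := by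
          rw [← H.k_eq a ha]; ring
      _ ≤ _ := by gcongr
  -- potential
  have hcell : ∀ a ∈ P, κ a * ∫ x in cell a, f x ^ 2 ≤ (1 + s) * (κ a * ε ^ d * m a ^ 2) +
      (1 + 1 / s) * C * K * ε ^ 2 * ∫ x in cell a, ‖gradient f x‖ ^ 2 := by
    intro a ha
    have hvol : volume (cell a) < ⊤ := (measure_mono (H.cell_sub a ha)).trans_lt hUv
    have hav : av (ctr a) (ε / 4) f = m a := by
      rw [av, hfm a ha, mul_comm (m a), inv_mul_cancel_left₀ (hW a).ne']
    have hp := cell_poincare (H.convex a ha) (H.meas a ha) hvol (H.diam a ha) hR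
      (ball_subset_closedBall.trans (H.ball_sub a ha)) (hfH.mono (subset_univ _))
    rw [hav, H.vol a ha] at hp
    have hcst : 2 ^ d * ((d : ℝ) * ε) ^ 2 * (ε ^ d / volume.real (ball (ctr a) (ε / 4))) =
        C * ε ^ 2 := by
      rw [vol_ball (ctr a) hR, hCdef, ← hddef, div_pow]
      have : ε ^ d ≠ 0 := by positivity
      field_simp
    have hp' : ∫ x in cell a, (f x - m a) ^ 2 ≤
        C * ε ^ 2 * ∫ x in cell a, ‖gradient f x‖ ^ 2 := by
      rw [← hcst]; exact hp
    have hfin : IsFiniteMeasure (volume.restrict (cell a)) := ⟨by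
      rw [Measure.restrict_apply_univ]; exact hvol⟩
    have hbd : ∃ B, ∀ x, ‖f x‖ ≤ B := hfL.continuous.bounded_above_of_compact_support hfc
    obtain ⟨B, hB⟩ := hbd
    have i2 : IntegrableOn (fun x => (f x - m a) ^ 2) (cell a) := by
      refine Measure.integrableOn_of_bounded (M := (B + |m a|) ^ 2) hvol.ne
        ((hfL.continuous.sub continuous_const).pow 2).aestronglyMeasurable ?_
      refine Eventually.of_forall fun x => ?_
      rw [norm_pow]
      refine pow_le_pow_left₀ (norm_nonneg _) ?_ 2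
      refine (norm_sub_le _ _).trans ?_
      rw [Real.norm_eq_abs (m a)]
      gcongr
      exact hB x
    have i1 : IntegrableOn (fun x => f x ^ 2) (cell a) := hintN.integrableOn
    have i3 : IntegrableOn (fun _ : E => (1 + s) * m a ^ 2) (cell a) :=
      integrableOn_const hvol.ne
    have h1 : ∫ x in cell a, f x ^ 2 ≤ (1 + s) * (ε ^ d * m a ^ 2) +
        (1 + 1 / s) * (C * ε ^ 2 * ∫ x in cell a, ‖gradient f x‖ ^ 2) := by
      calc ∫ x in cell a, f x ^ 2
          ≤ ∫ x in cell a, ((1 + s) * m a ^ 2 + (1 + 1 / s) * (f x - m a) ^ 2) := by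
            refine setIntegral_mono i1 (i3.add (i2.const_mul _)) fun x => ?_
            have := pa_sq hs (m a) (f x - m a)
            rwa [add_sub_cancel] at this
        _ = (1 + s) * (ε ^ d * m a ^ 2) + (1 + 1 / s) * ∫ x in cell a, (f x - m a) ^ 2 := by
            rw [integral_add i3 (i2.const_mul _), setIntegral_const, integral_const_mul,
              smul_eq_mul, H.vol a ha]
            ring
        _ ≤ _ := by gcongr
    have hκ := H.κ_pos a ha
    have hD : 0 ≤ ∫ x in cell a, ‖gradient f x‖ ^ 2 := integral_nonneg fun x => sq_nonneg _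
    calc κ a * ∫ x in cell a, f x ^ 2 ≤ κ a * ((1 + s) * (ε ^ d * m a ^ 2) +
          (1 + 1 / s) * (C * ε ^ 2 * ∫ x in cell a, ‖gradient f x‖ ^ 2)) := by gcongr
      _ = (1 + s) * (κ a * ε ^ d * m a ^ 2) +
          (1 + 1 / s) * C * κ a * ε ^ 2 * ∫ x in cell a, ‖gradient f x‖ ^ 2 := by ring
      _ ≤ _ := by
          have := H.κ_le a ha
          gcongr
  have s2 : ∫ x, V x * f x ^ 2 ≤ τ * Nt + ((1 + s) * S +
      (1 + 1 / s) * C * K * ε ^ 2 * At) := by
    refine (pa_pot H hfL.continuous hfc).trans ?_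
    gcongr
    calc ∑ a ∈ P, κ a * ∫ x in cell a, f x ^ 2
        ≤ ∑ a ∈ P, ((1 + s) * (κ a * ε ^ d * m a ^ 2) +
          (1 + 1 / s) * C * K * ε ^ 2 * ∫ x in cell a, ‖gradient f x‖ ^ 2) :=
          Finset.sum_le_sum hcell
      _ = (1 + s) * S + (1 + 1 / s) * C * K * ε ^ 2 *
          ∑ a ∈ P, ∫ x in cell a, ‖gradient f x‖ ^ 2 := by
          rw [Finset.sum_add_distrib, ← Finset.mul_sum, ← Finset.mul_sum]
      _ ≤ _ := by
          have h1 := pa_sum_le H.meas H.disj hintD fun x => sq_nonneg _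
          rcases P.eq_empty_or_nonempty with hP | ⟨a, ha⟩
          · rw [hP, Finset.sum_empty, mul_zero]
            have hK : 0 ≤ K := (H.V0 0).trans (H.VK 0)
            have : 0 ≤ (1 + 1 / s) * C * K * ε ^ 2 * At := by positivity
            linarith
          · have hK : 0 ≤ K := (H.V0 0).trans (H.VK 0)
            gcongr
  have s3 : Λ * Nt ≤ At + ∫ x, V x * f x ^ 2 := hΛ f (gradient f) hfH
  set M := max (1 + (1 + 1 / s) * C * K * ε ^ 2) ((1 + s) / (1 - δ)) with hM
  have hM1 : 1 + (1 + 1 / s) * C * K * ε ^ 2 ≤ M := le_max_left _ _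
  have hM2 : (1 + s) / (1 - δ) ≤ M := le_max_right _ _
  have hM0 : 0 ≤ M := le_trans (by positivity) hM2
  have s4 : (Λ - τ) * Nt ≤ M * A := by
    have h1 : (1 + s) * S ≤ M * ((1 - δ) * S) := by
      calc (1 + s) * S = (1 + s) / (1 - δ) * ((1 - δ) * S) := by field_simp
        _ ≤ M * ((1 - δ) * S) := by gcongr
    have h2 : (1 + (1 + 1 / s) * C * K * ε ^ 2) * At ≤ M * At := by gcongr
    have h3 : M * (At + (1 - δ) * S) ≤ M * A := by gcongr
    nlinarith
  have s5 : N ≤ (1 + δ) ^ 2 * Nt := by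
    refine pa_norm H.δ0 (f := f) (b := paB P z m) (φ := φ) (fun x => ?_) hintN
      (pa_int_sq hbL.continuous hbc) (pa_int_sq hφ.continuous hφc)
      (pa_bump H hfL.continuous hfc m hfm)
    simp only [hfdef]
    ring
  calc (Λ - τ) * N ≤ (Λ - τ) * ((1 + δ) ^ 2 * Nt) := by gcongr
    _ = (1 + δ) ^ 2 * ((Λ - τ) * Nt) := by ring
    _ ≤ (1 + δ) ^ 2 * (M * A) := by gcongr
    _ = (1 + δ) ^ 2 * M * A := by ring

end Pool.Agent.H4.NM
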