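import Pool.Agent.H4.NM.PerfDefs
import Pool.Agent.H4.NM.Moll
import Pool.Agent.H4.NM.Tors

/-!
# NM-12: one-scale perforation, torsion part (MP_898b17_an, all dimensions)

Compare `Pool/Agent/H95/Perf/Energy.lean` (`cut`, `energy_cut_mul`) and
`Pool/Agent/H95/Perf/OneScaleB.lean`, the plane version.

## Paper proof

`B_a = ball (ctr a) (ε/4)`, `d = finrank ℝ E`. `Z = 1 - ∑_{a ∈ P} (1 - z_a)`: Lipschitz, `0 ≤ Z ≤ 1`,
`Z = z_a` on `B_a`, `Z = 1` off the `B_a` (disjoint), `Z = 0` on the holes. `ψ = Z φ₀`.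

`∫ ψ ≥ ∫ φ₀ - A ∑ ∫_{B_a} (1 - z_a) ≥ ∫ φ₀ - A δ ∑ |B_a| ≥ ∫ φ₀ - A δ |U|`
(`∫_{B_a} (1 - z_a) ≤ |B_a|^{1/2} (∫_{B_a} (1 - z_a)²)^{1/2} ≤ δ |B_a|`, the `B_a ⊆ U` are disjoint).

Energy: almost everywhere `|∇(Z φ₀)|² = Z² |∇φ₀|² + ⟪∇Z, ∇(Z φ₀²)⟫`, and
`∇Z = ∑ ∇z_a` with disjoint supports, `∫ ⟪∇Z, ∇(Z φ₀²)⟫ = ∑_a ∫ ⟪∇z_a, ∇(z_a φ₀²)⟫
= ∑ k_a ∫_{B_a} z_a φ₀²` (`IsCorr.eqn` with `ψ = z_a φ₀²`, zero on the hole, Lipschitz). So
`∫ |∇ψ|² ≤ ∫ |∇φ₀|² + ∑ k_a ∫_{B_a} φ₀²`.

`k_a ∫_{B_a} φ₀² = κ_a ε^d av_{B_a} φ₀²`, and `φ₀² (x) ≤ φ₀² (y) + D d ε` for `x, y` in a cell, so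
`av_{B_a} φ₀² ≤ ε^{-d} ∫_{cell a} φ₀² + D d ε`, and with `κ_a ≤ V + τ` on `cell a`, `κ_a ≤ K`,
`∑ ε^d = ∑ |cell a| ≤ |U|`:
`∑ k_a ∫_{B_a} φ₀² ≤ ∑ κ_a ∫_{cell a} φ₀² + K D d ε |U| ≤ ∫ V φ₀² + τ ∫ φ₀² + K D d ε |U|`.
-/

open MeasureTheory Set Metric Filter Topology ContDiff Module
open scoped ENNReal NNReal RealInnerProductSpace

namespace Pool.Agent.H4.NM

variable {E : Type} [NormedAddCommGroup E] [InnerProductSpace ℝ E] [FiniteDimensional ℝ E]
  [CompleteSpace E] [MeasurableSpace E] [BorelSpace E]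

set_option linter.unusedSectionVars false

open Pool.Agent.H95.Perf (IsLip)

theorem integrable_inner_lip {f g : E → ℝ} (hf : IsLip f) (hg : IsLip g)
    (hc : HasCompactSupport g) :
    Integrable (fun x => ⟪gradient f x, gradient g x⟫) := by
  obtain ⟨C, hC⟩ := hf
  obtain ⟨D, hD⟩ := hg
  have hm : Measurable (fun x => ⟪gradient f x, gradient g x⟫) :=
    (measurable_gradient f).inner (measurable_gradient g)
  have hs : Function.support (fun x => ⟪gradient f x, gradient g x⟫) ⊆ tsupport g := by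
    intro x hx
    by_contra h
    apply hx
    simp only [gradient_zero_of_notMem_tsupport h, inner_zero_right]
  rw [← integrableOn_iff_integrable_of_support_subset hs]
  refine Measure.integrableOn_of_bounded (M := C * D) hc.isCompact.measure_lt_top.ne
    hm.aestronglyMeasurable (Eventually.of_forall fun x => ?_)
  refine (norm_inner_le_norm _ _).trans ?_
  exact mul_le_mul (norm_gradient_le_of_lipschitz hC x) (norm_gradient_le_of_lipschitz hD x)
    (norm_nonneg _) C.2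

theorem ae_diff_lip {f : E → ℝ} (hf : IsLip f) : ∀ᵐ x : E, DifferentiableAt ℝ f x := by
  obtain ⟨C, hC⟩ := hf
  exact hC.ae_differentiableAt

/-- mean of `1 - z` from the mean of its square -/
theorem mean_of_sq {B : Set E} (hfin : volume B < ⊤) {g : E → ℝ}
    (hg : Continuous g) (h0 : ∀ x, 0 ≤ g x) (h1 : ∀ x, g x ≤ 1) {δ : ℝ} (hδ : 0 ≤ δ)
    (h : ∫ x in B, g x ^ 2 ≤ δ ^ 2 * volume.real B) : ∫ x in B, g x ≤ δ * volume.real B := by
  have hI : IntegrableOn g B := by
    refine Measure.integrableOn_of_bounded (M := 1) hfin.ne hg.aestronglyMeasurable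
      (Eventually.of_forall fun x => ?_)
    rw [Real.norm_eq_abs, abs_of_nonneg (h0 x)]
    exact h1 x
  have hI2 : IntegrableOn (fun x => g x ^ 2) B := by
    refine Measure.integrableOn_of_bounded (M := 1) hfin.ne (hg.pow 2).aestronglyMeasurable
      (Eventually.of_forall fun x => ?_)
    rw [Real.norm_eq_abs, abs_of_nonneg (sq_nonneg _)]
    exact pow_le_one₀ (h0 x) (h1 x)
  have key : ∀ η : ℝ, 0 < η → ∫ x in B, g x ≤ (δ ^ 2 * volume.real B / η + η * volume.real B) / 2 := by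
    intro η hη
    have i2 : IntegrableOn (fun x => (g x ^ 2 / η + η) / 2) B :=
      ((hI2.div_const η).add (integrableOn_const hfin.ne)).div_const 2
    have h2 : ∫ x in B, g x ≤ ∫ x in B, (g x ^ 2 / η + η) / 2 := by
      refine setIntegral_mono hI i2 fun x => ?_
      show g x ≤ (g x ^ 2 / η + η) / 2
      rw [le_div_iff₀ (by norm_num), div_add' _ _ _ hη.ne', le_div_iff₀ hη]
      nlinarith [sq_nonneg (g x - η)]
    have h3 : ∫ x in B, (g x ^ 2 / η + η) / 2 = ((∫ x in B, g x ^ 2) / η + η * volume.real B) / 2 := by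
      rw [integral_div, integral_add (hI2.div_const η) (integrableOn_const hfin.ne), integral_div,
        setIntegral_const, smul_eq_mul, mul_comm (volume.real B) η]
    rw [h3] at h2
    refine h2.trans ?_
    gcongr
  rcases hδ.lt_or_eq with hδ | hδ
  · have := key δ hδ
    have e : δ ^ 2 * volume.real B / δ = δ * volume.real B := by field_simp
    rw [e] at this
    linarith
  · rw [← hδ, zero_mul]
    have hv : 0 ≤ volume.real B := measureReal_nonneg
    by_contra hcon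
    push Not at hcon
    set t := ∫ x in B, g x with ht
    have h4 := key (t / (volume.real B + 1)) (by positivity)
    rw [← hδ] at h4
    have h5 : t / (volume.real B + 1) * volume.real B ≤ t := by
      rw [div_mul_eq_mul_div, div_le_iff₀ (by positivity)]
      nlinarith
    have e : (0 : ℝ) ^ 2 * volume.real B / (t / (volume.real B + 1)) = 0 := by simp
    rw [e] at h4
    linarith

theorem scale_b {ι : Type} {U : Set E} {ε K τ δ : ℝ} {V : E → ℝ} {P : Finset ι}
    {cell : ι → Set E} {ctr : ι → E} {κ k r : ι → ℝ} {z : ι → E → ℝ} (hU : IsOpen U)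
    (hfin : volume U < ⊤) (hP : IsPerf U ε K τ δ V P cell ctr κ k r z)
    {φ₀ : E → ℝ} (hφ : IsLip φ₀) (hφc : HasCompactSupport φ₀) (hφU : ∀ x, x ∉ U → φ₀ x = 0)
    {A D : ℝ} (hA : ∀ x, |φ₀ x| ≤ A) (hD0 : 0 ≤ D)
    (hD : ∀ x y, φ₀ x ^ 2 - φ₀ y ^ 2 ≤ D * ‖x - y‖) :
    ∃ ψ : E → ℝ, IsLip ψ ∧ HasCompactSupport ψ ∧ (∀ x, x ∉ U → ψ x = 0) ∧
      (∀ a ∈ P, ∀ x ∈ closedBall (ctr a) (r a), ψ x = 0) ∧
      2 * (∫ x, φ₀ x) - (∫ x, ‖gradient φ₀ x‖ ^ 2) - (∫ x, V x * φ₀ x ^ 2)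
        - (2 * A * δ * volume.real U + K * D * (finrank ℝ E : ℝ) * ε * volume.real U
          + τ * ∫ x, φ₀ x ^ 2) ≤
      2 * (∫ x, ψ x) - ∫ x, ‖gradient ψ x‖ ^ 2 := by
  classical
  set Z : E → ℝ := fun x => 1 - ∑ a ∈ P, (1 - z a x) with hZdef
  have hε := hP.ε_pos
  have hA0 : 0 ≤ A := (abs_nonneg _).trans (hA 0)
  have hK0 : 0 ≤ K := (hP.V0 0).trans (hP.VK 0)
  have hzL : ∀ a ∈ P, IsLip (z a) := fun a ha => (hP.corr a ha).lip
  -- geometry
  have hsub : ∀ a ∈ P, ball (ctr a) (ε / 4) ⊆ cell a := fun a ha =>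
    ball_subset_closedBall.trans (hP.ball_sub a ha)
  have hother : ∀ a ∈ P, ∀ b ∈ P, b ≠ a → ∀ x ∈ ball (ctr a) (ε / 4), z b x = 1 := by
    intro a ha b hb hba x hx
    refine (hP.corr b hb).outer x fun hx' => ?_
    exact Set.disjoint_left.1 (hP.disj a ha b hb hba.symm) (hsub a ha hx) (hsub b hb hx')
  have hnear : ∀ a ∈ P, ∀ x ∈ ball (ctr a) (ε / 4), Z x = z a x := by
    intro a ha x hx
    show 1 - ∑ b ∈ P, (1 - z b x) = z a x
    rw [Finset.sum_eq_single_of_mem a ha fun b hb hba => by rw [hother a ha b hb hba x hx, sub_self]]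
    ring
  have hfar : ∀ x, (∀ a ∈ P, x ∉ ball (ctr a) (ε / 4)) → Z x = 1 := by
    intro x hx
    show 1 - ∑ b ∈ P, (1 - z b x) = 1
    rw [Finset.sum_eq_zero fun a ha => by rw [(hP.corr a ha).outer x (hx a ha), sub_self], sub_zero]
  have hZ01 : ∀ x, 0 ≤ Z x ∧ Z x ≤ 1 := by
    intro x
    by_cases h : ∃ a ∈ P, x ∈ ball (ctr a) (ε / 4)
    · obtain ⟨a, ha, hx⟩ := h
      rw [hnear a ha x hx]
      exact ⟨(hP.corr a ha).z0 x, (hP.corr a ha).z1 x⟩
    · push Not at h
      rw [hfar x h]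
      exact ⟨zero_le_one, le_rfl⟩
  have hZabs : ∀ x, |Z x| ≤ 1 := fun x => by rw [abs_of_nonneg (hZ01 x).1]; exact (hZ01 x).2
  have hZL : IsLip Z := (IsLip.const 1).sub (IsLip.finset_sum P fun a ha =>
    (IsLip.const 1).sub (hzL a ha))
  have hZ0 : ∀ a ∈ P, ∀ x ∈ closedBall (ctr a) (r a), Z x = 0 := by
    intro a ha x hx
    have hx' : x ∈ ball (ctr a) (ε / 4) := closedBall_subset_ball (hP.corr a ha).r_lt hx
    rw [hnear a ha x hx', (hP.corr a ha).inner x hx]
  set ψ : E → ℝ := fun x => Z x * φ₀ x with hψdef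
  have hψL : IsLip ψ := hZL.mul_bdd hφ hZabs hA
  have hψc : HasCompactSupport ψ := hφc.mul_left
  have hψA : ∀ x, |ψ x| ≤ 1 * A := fun x => by
    show |Z x * φ₀ x| ≤ 1 * A
    rw [abs_mul]
    exact mul_le_mul (hZabs x) (hA x) (abs_nonneg _) zero_le_one
  refine ⟨ψ, hψL, hψc, fun x hx => by show Z x * φ₀ x = 0; rw [hφU x hx, mul_zero],
    fun a ha x hx => by show Z x * φ₀ x = 0; rw [hZ0 a ha x hx, zero_mul], ?_⟩
  -- the test function of the correctors
  set χ : E → ℝ := fun x => ψ x * φ₀ x with hχdef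
  have hχL : IsLip χ := hψL.mul_bdd hφ hψA hA
  have hχc : HasCompactSupport χ := hφc.mul_left
  have hχ0 : ∀ a ∈ P, ∀ x ∈ closedBall (ctr a) (r a), χ x = 0 := fun a ha x hx => by
    show Z x * φ₀ x * φ₀ x = 0
    rw [hZ0 a ha x hx, zero_mul, zero_mul]
  have hφI : Integrable φ₀ := hφ.continuous.integrable_of_hasCompactSupport hφc
  have hφ2c : HasCompactSupport (fun x => φ₀ x ^ 2) := by
    have : (fun x => φ₀ x ^ 2) = fun x => φ₀ x * φ₀ x := by funext x; ring
    rw [this]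
    exact hφc.mul_left
  have hφ2I : Integrable (fun x => φ₀ x ^ 2) :=
    (hφ.continuous.pow 2).integrable_of_hasCompactSupport hφ2c
  have hψI : Integrable ψ := hψL.continuous.integrable_of_hasCompactSupport hψc
  have hgφI : Integrable (fun x => ‖gradient φ₀ x‖ ^ 2) := by
    refine (integrable_inner_lip hφ hφ hφc).congr (Eventually.of_forall fun x => ?_)
    exact real_inner_self_eq_norm_sq _
  have hI1 : ∀ a ∈ P, Integrable (fun x => ⟪gradient (z a) x, gradient χ x⟫) := fun a ha =>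
    integrable_inner_lip (hzL a ha) hχL hχc
  have hVφI : Integrable (fun x => V x * φ₀ x ^ 2) := by
    refine (hφ2I.const_mul K).mono' (hP.Vm.mul (hφ.continuous.measurable.pow_const 2)).aestronglyMeasurable
      (Eventually.of_forall fun x => ?_)
    rw [Real.norm_eq_abs, abs_mul, abs_of_nonneg (hP.V0 x), abs_of_nonneg (sq_nonneg _)]
    exact mul_le_mul_of_nonneg_right (hP.VK x) (sq_nonneg _)
  have hZI : Integrable (fun x => Z x ^ 2 * ‖gradient φ₀ x‖ ^ 2) := by
    refine hgφI.mono' ((hZL.continuous.measurable.pow_const 2).mul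
      ((measurable_gradient φ₀).norm.pow_const 2)).aestronglyMeasurable
      (Eventually.of_forall fun x => ?_)
    rw [Real.norm_eq_abs, abs_of_nonneg (by positivity)]
    have h1 : Z x ^ 2 ≤ 1 := pow_le_one₀ (hZ01 x).1 (hZ01 x).2
    have h2 : 0 ≤ ‖gradient φ₀ x‖ ^ 2 := sq_nonneg _
    nlinarith
  -- energy
  have e1 : ∫ x, ‖gradient ψ x‖ ^ 2 = (∫ x, Z x ^ 2 * ‖gradient φ₀ x‖ ^ 2) +
      ∑ a ∈ P, k a * ∫ x in ball (ctr a) (ε / 4), χ x := by
    have hall : ∀ᵐ x : E, ∀ a ∈ P, DifferentiableAt ℝ (z a) x :=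
      (Finset.eventually_all P).2 fun a ha => ae_diff_lip (hzL a ha)
    have key : ∫ x, ‖gradient ψ x‖ ^ 2 = ∫ x, (Z x ^ 2 * ‖gradient φ₀ x‖ ^ 2 +
        ∑ a ∈ P, ⟪gradient (z a) x, gradient χ x⟫) := by
      refine integral_congr_ae ?_
      filter_upwards [ae_diff_lip hφ, hall, ae_diff_lip hψL] with x hx1 hx2 hx3
      have hs : HasFDerivAt (fun y => ∑ a ∈ P, (1 - z a y))
          (∑ a ∈ P, (0 - fderiv ℝ (z a) x)) x :=
        HasFDerivAt.fun_sum fun a ha => (hasFDerivAt_const (1 : ℝ) x).fun_sub (hx2 a ha).hasFDerivAt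
      have hZd : HasFDerivAt Z (0 - ∑ a ∈ P, (0 - fderiv ℝ (z a) x)) x :=
        (hasFDerivAt_const (1 : ℝ) x).fun_sub hs
      have g1 : gradient Z x = ∑ a ∈ P, gradient (z a) x := by
        apply gradient_eq_of_fderiv
        intro b
        rw [hZd.fderiv, sum_inner]
        simp only [zero_sub, Finset.sum_neg_distrib, neg_neg]
        rw [sum_apply]
        exact Finset.sum_congr rfl fun a _ => (inner_gradient _ _ _).symm
      have g2 : gradient ψ x = Z x • gradient φ₀ x + φ₀ x • gradient Z x :=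
        gradient_mul' hZd.differentiableAt hx1
      have g3 : gradient χ x = ψ x • gradient φ₀ x + φ₀ x • gradient ψ x :=
        gradient_mul' hx3 hx1
      have g4 : ∑ a ∈ P, ⟪gradient (z a) x, gradient χ x⟫ = ⟪gradient Z x, gradient χ x⟫ := by
        rw [g1, sum_inner]
      show ‖gradient ψ x‖ ^ 2 = Z x ^ 2 * ‖gradient φ₀ x‖ ^ 2 +
        ∑ a ∈ P, ⟪gradient (z a) x, gradient χ x⟫
      rw [g4, g3, g2, ← real_inner_self_eq_norm_sq, ← real_inner_self_eq_norm_sq]
      have g5 : ψ x = Z x * φ₀ x := rfl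
      rw [g5]
      simp only [inner_add_left, inner_add_right, real_inner_smul_left, inner_smul_right]
      rw [real_inner_comm (gradient φ₀ x) (gradient Z x)]
      ring
    rw [key, integral_add hZI (integrable_finsetSum P hI1), integral_finsetSum P hI1]
    congr 1
    exact Finset.sum_congr rfl fun a ha => (hP.corr a ha).eqn χ hχL (hχ0 a ha)
  have e2 : ∫ x, Z x ^ 2 * ‖gradient φ₀ x‖ ^ 2 ≤ ∫ x, ‖gradient φ₀ x‖ ^ 2 := by
    refine integral_mono hZI hgφI fun x => ?_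
    have h1 : Z x ^ 2 ≤ 1 := pow_le_one₀ (hZ01 x).1 (hZ01 x).2
    have h2 : 0 ≤ ‖gradient φ₀ x‖ ^ 2 := sq_nonneg _
    show Z x ^ 2 * ‖gradient φ₀ x‖ ^ 2 ≤ ‖gradient φ₀ x‖ ^ 2
    nlinarith
  have hdisj : Set.PairwiseDisjoint (↑P : Set ι) cell := fun a ha b hb hab =>
    hP.disj a ha b hb hab
  have hcfin : ∀ a ∈ P, volume (cell a) < ⊤ := fun a ha =>
    (measure_mono (hP.cell_sub a ha)).trans_lt hfin
  have hvol : ∑ a ∈ P, volume.real (cell a) ≤ volume.real U := by
    rw [← measureReal_biUnion_finset hdisj hP.meas fun a ha => (hcfin a ha).ne]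
    exact measureReal_mono (iUnion₂_subset hP.cell_sub) hfin.ne
  have hd0 : (0 : ℝ) ≤ (finrank ℝ E : ℝ) := Nat.cast_nonneg _
  have hτ0 := hP.τ0
  have i3 : Integrable (fun x => V x * φ₀ x ^ 2 + τ * φ₀ x ^ 2) := hVφI.add (hφ2I.const_mul τ)
  have e3 : ∑ a ∈ P, k a * ∫ x in ball (ctr a) (ε / 4), χ x ≤
      (∫ x, V x * φ₀ x ^ 2) + τ * (∫ x, φ₀ x ^ 2) +
        K * D * (finrank ℝ E : ℝ) * ε * volume.real U := by
    have h1 : ∀ a ∈ P, k a * ∫ x in ball (ctr a) (ε / 4), χ x ≤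
        (∫ x in cell a, (V x * φ₀ x ^ 2 + τ * φ₀ x ^ 2)) +
          K * D * (finrank ℝ E : ℝ) * ε * volume.real (cell a) := by
      intro a ha
      have hbp : 0 < volume.real (ball (ctr a) (ε / 4)) := vol_ball_pos (ctr a) (by positivity)
      have hκ := hP.κ_pos a ha
      have hεd : 0 < ε ^ finrank ℝ E := by positivity
      have hk : 0 < k a := by
        have h := hP.k_eq a ha
        have h2 : 0 < k a * volume.real (ball (ctr a) (ε / 4)) := by rw [h]; positivity
        exact (pos_iff_pos_of_mul_pos h2).2 hbp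
      have hbfin : volume (ball (ctr a) (ε / 4)) < ⊤ := measure_ball_lt_top
      have b1 : ∫ x in ball (ctr a) (ε / 4), χ x ≤ ∫ x in ball (ctr a) (ε / 4), φ₀ x ^ 2 := by
        refine setIntegral_mono (hχL.continuous.integrable_of_hasCompactSupport hχc).integrableOn
          hφ2I.integrableOn fun x => ?_
        show Z x * φ₀ x * φ₀ x ≤ φ₀ x ^ 2
        have h1 := hZ01 x
        nlinarith [sq_nonneg (φ₀ x), h1.2]
      set X := ∫ x in cell a, φ₀ x ^ 2 with hX
      set Y := D * ((finrank ℝ E : ℝ) * ε) with hY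
      have b2 : ∀ x ∈ ball (ctr a) (ε / 4), ε ^ finrank ℝ E * φ₀ x ^ 2 ≤
          X + Y * ε ^ finrank ℝ E := by
        intro x hx
        have i1 : IntegrableOn (fun y => φ₀ y ^ 2 + Y) (cell a) :=
          hφ2I.integrableOn.add (integrableOn_const (hcfin a ha).ne)
        have i2 : IntegrableOn (fun _ => φ₀ x ^ 2) (cell a) := integrableOn_const (hcfin a ha).ne
        have h2 : ∫ y in cell a, φ₀ x ^ 2 ≤ ∫ y in cell a, (φ₀ y ^ 2 + Y) := by
          refine setIntegral_mono_on i2 i1 (hP.meas a ha) fun y hy => ?_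
          have h3 := hD x y
          have h4 : D * ‖x - y‖ ≤ Y :=
            mul_le_mul_of_nonneg_left (hP.diam a ha x (hsub a ha hx) y hy) hD0
          linarith
        rw [setIntegral_const, smul_eq_mul, hP.vol a ha,
          integral_add hφ2I.integrableOn (integrableOn_const (hcfin a ha).ne),
          setIntegral_const, smul_eq_mul, hP.vol a ha] at h2
        linarith
      have b3 : ε ^ finrank ℝ E * ∫ x in ball (ctr a) (ε / 4), φ₀ x ^ 2 ≤
          volume.real (ball (ctr a) (ε / 4)) * (X + Y * ε ^ finrank ℝ E) := by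
        have h2 := setIntegral_mono_on (hφ2I.const_mul (ε ^ finrank ℝ E)).integrableOn
          (integrableOn_const (C := X + Y * ε ^ finrank ℝ E) hbfin.ne) measurableSet_ball b2
        rwa [integral_const_mul, setIntegral_const, smul_eq_mul] at h2
      have b4 : k a * ∫ x in ball (ctr a) (ε / 4), φ₀ x ^ 2 ≤ κ a * (X + Y * ε ^ finrank ℝ E) := by
        have h2 := mul_le_mul_of_nonneg_left b3 hk.le
        have h3 : k a * (volume.real (ball (ctr a) (ε / 4)) * (X + Y * ε ^ finrank ℝ E)) =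
            ε ^ finrank ℝ E * (κ a * (X + Y * ε ^ finrank ℝ E)) := by
          rw [← mul_assoc, hP.k_eq a ha]
          ring
        rw [h3] at h2
        have h4 : ε ^ finrank ℝ E * (k a * ∫ x in ball (ctr a) (ε / 4), φ₀ x ^ 2) ≤
            ε ^ finrank ℝ E * (κ a * (X + Y * ε ^ finrank ℝ E)) := by
          calc _ = k a * (ε ^ finrank ℝ E * ∫ x in ball (ctr a) (ε / 4), φ₀ x ^ 2) := by ring
            _ ≤ _ := h2
        exact le_of_mul_le_mul_left h4 hεd
      have b5 : κ a * X ≤ ∫ x in cell a, (V x * φ₀ x ^ 2 + τ * φ₀ x ^ 2) := by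
        rw [hX, ← integral_const_mul]
        refine setIntegral_mono_on (hφ2I.const_mul (κ a)).integrableOn i3.integrableOn
          (hP.meas a ha) fun y hy => ?_
        have h3 := (abs_le.1 (hP.V_near a ha y hy)).1
        have h4 : κ a ≤ V y + τ := by linarith
        calc κ a * φ₀ y ^ 2 ≤ (V y + τ) * φ₀ y ^ 2 := mul_le_mul_of_nonneg_right h4 (sq_nonneg _)
          _ = _ := by ring
      have b6 : κ a * (Y * ε ^ finrank ℝ E) ≤ K * (Y * ε ^ finrank ℝ E) := by
        refine mul_le_mul_of_nonneg_right (hP.κ_le a ha) ?_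
        positivity
      rw [hP.vol a ha]
      calc k a * ∫ x in ball (ctr a) (ε / 4), χ x
          ≤ k a * ∫ x in ball (ctr a) (ε / 4), φ₀ x ^ 2 := mul_le_mul_of_nonneg_left b1 hk.le
        _ ≤ κ a * (X + Y * ε ^ finrank ℝ E) := b4
        _ = κ a * X + κ a * (Y * ε ^ finrank ℝ E) := by ring
        _ ≤ (∫ x in cell a, (V x * φ₀ x ^ 2 + τ * φ₀ x ^ 2)) + K * (Y * ε ^ finrank ℝ E) :=
            add_le_add b5 b6
        _ = _ := by rw [hY]; ring
    refine (Finset.sum_le_sum h1).trans ?_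
    rw [Finset.sum_add_distrib, ← Finset.mul_sum]
    have h2 : ∑ a ∈ P, (∫ x in cell a, (V x * φ₀ x ^ 2 + τ * φ₀ x ^ 2)) ≤
        ∫ x, (V x * φ₀ x ^ 2 + τ * φ₀ x ^ 2) := by
      rw [← integral_biUnion_finset P hP.meas (fun a ha b hb hab => hP.disj a ha b hb hab)
        fun a _ => i3.integrableOn]
      refine setIntegral_le_integral i3 (Eventually.of_forall fun x => ?_)
      show 0 ≤ V x * φ₀ x ^ 2 + τ * φ₀ x ^ 2
      have := hP.V0 x
      positivity
    rw [integral_add hVφI (hφ2I.const_mul τ), integral_const_mul] at h2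
    refine add_le_add h2 ?_
    refine mul_le_mul_of_nonneg_left hvol ?_
    positivity
  -- mass
  have e4 : (∫ x, φ₀ x) - A * δ * volume.real U ≤ ∫ x, ψ x := by
    have i1 : ∀ a ∈ P, Integrable (fun x => 1 - z a x) := by
      intro a ha
      refine ((IsLip.const 1).sub (hzL a ha)).continuous.integrable_of_hasCompactSupport ?_
      refine HasCompactSupport.intro (K := closedBall (ctr a) (ε / 4)) (isCompact_closedBall _ _)
        fun x hx => ?_
      rw [(hP.corr a ha).outer x fun h => hx (ball_subset_closedBall h), sub_self]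
    have i2 : Integrable (fun x => A * ∑ a ∈ P, (1 - z a x)) :=
      (integrable_finsetSum P i1).const_mul A
    have h1 : ∫ x, (φ₀ x - ψ x) ≤ ∫ x, A * ∑ a ∈ P, (1 - z a x) := by
      refine integral_mono (hφI.sub hψI) i2 fun x => ?_
      show φ₀ x - Z x * φ₀ x ≤ A * ∑ a ∈ P, (1 - z a x)
      have e : ∑ a ∈ P, (1 - z a x) = 1 - Z x := by
        show _ = 1 - (1 - ∑ a ∈ P, (1 - z a x))
        ring
      rw [e]
      have h2 : φ₀ x ≤ A := (le_abs_self _).trans (hA x)
      nlinarith [(hZ01 x).2]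
    rw [integral_sub hφI hψI, integral_const_mul, integral_finsetSum P i1] at h1
    have h2 : ∑ a ∈ P, (∫ x, (1 - z a x)) ≤ δ * volume.real U := by
      refine le_trans ?_ (mul_le_mul_of_nonneg_left hvol hP.δ0)
      rw [Finset.mul_sum]
      refine Finset.sum_le_sum fun a ha => ?_
      have h3 : ∫ x, (1 - z a x) = ∫ x in ball (ctr a) (ε / 4), (1 - z a x) := by
        refine (setIntegral_eq_integral_of_forall_compl_eq_zero fun x hx => ?_).symm
        rw [(hP.corr a ha).outer x hx, sub_self]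
      rw [h3]
      refine (mean_of_sq measure_ball_lt_top (continuous_const.sub (hzL a ha).continuous)
        (fun x => sub_nonneg.2 ((hP.corr a ha).z1 x))
        (fun x => by have := (hP.corr a ha).z0 x; show 1 - z a x ≤ 1; linarith) hP.δ0
        (hP.mean a ha)).trans ?_
      exact mul_le_mul_of_nonneg_left (measureReal_mono (hsub a ha) (hcfin a ha).ne) hP.δ0
    have h3 := mul_le_mul_of_nonneg_left h2 hA0
    linarith
  rw [e1]
  linarith

end Pool.Agent.H4.NM
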