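import Pool.Agent.H4.NM.PerfA
import Pool.Agent.H4.NM.PerfB
import Pool.Agent.H4.NM.Corr
import Pool.Agent.H4.NM.Grid

/-!
# NM-13: the perforation theorem (MP_898b17_an, all dimensions)

## Paper proof

`d = finrank ℝ E`. `K = max V + 1`. If `Λ - η ≤ 0` the eigenvalue part is trivial; keep both parts
for the same `ε`. First extend the hypothesis to `H¹₀(U)` (`hyp_h10`): `V` is bounded; test functions
`φ n → u` in `H¹`; `∫ V (φ n)² → ∫ V u²` (compare `hyp_lipschitz` in `Pool/Agent/H95/Perf/Main.lean`).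

Let `ε > 0` be small, `exists_grid`: cells, centres. `κ a = V (ctr a)`; `P = {a | V (ctr a) ≠ 0}` is
finite (`ctr a ∈ cell a ∩ tsupport V`, bounded). `τ = τ(ε)`: `V` is uniformly continuous, so for every
`τ > 0` there is `ε` with `|V x - V y| ≤ τ` if `‖x - y‖ ≤ d ε`. `V_near`, `V_far` clear (a point in a cell
`a ∉ P` has `V x ≤ V (ctr a) + τ = τ`). `cell a ⊆ U` for `a ∈ P`: `cell a` is in the closed
`d ε`-neighbourhood of `ctr a ∈ tsupport V`, compact, contained in `U`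
(`IsCompact.exists_cthickening_subset_open`). `k a = κ a ε^d / |B_{ε/4}| = κ a 4^d / |B_1|`,
`exists_corr` with `R = ε/4`: `r a`, `z a`. `corr_mean`:
`∫_{B_a} (1 - z_a)² ≤ C k_a (ε/4)² |B_a| ≤ δ² |B_a|` with `δ² = C K 4^d/|B_1| (ε/4)²`, so `δ → 0` with
`ε`. Take `s = ε` in `scale_a`: `(1 + 1/s) C K ε² = C K (ε² + ε) → 0`. So for small `ε`:
`(Λ - τ) / ((1+δ)² M) ≥ Λ - η` (if `Λ - η > 0`, use `(Λ - η)(1+δ)² M ≤ Λ - τ`; then `Λ - τ ≥ 0`).

`Ω' = U \ ⋃_{a ∈ P} closedBall (ctr a) (r a)`, open. `RQ Ω' (Λ - η)`: a test function of `Ω'` is Lipschitz,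
zero off `U` and on the holes; `scale_a`. `TLow Ω'`: `ψ` of `scale_b` is Lipschitz, zero off `Ω'`, so
`H10.of_lipschitz_zero` and `H10.tLow` (file Tors) (take `η/2` for the error terms to have the strict
inequality).
-/

open MeasureTheory Set Metric Filter Topology ContDiff Module
open scoped ENNReal NNReal RealInnerProductSpace

namespace Pool.Agent.H4.NM

variable {E : Type} [NormedAddCommGroup E] [InnerProductSpace ℝ E] [FiniteDimensional ℝ E]
  [CompleteSpace E] [MeasurableSpace E] [BorelSpace E]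

set_option linter.unusedSectionVars false

open Pool.Agent.H95.Perf (IsLip)

/-- The hypothesis on test functions extends to `H¹₀`. -/
theorem hyp_h10 {U : Set E} {V : E → ℝ} (hV : Measurable V) {C : ℝ} (hC : ∀ z, |V z| ≤ C)
    {Λ : ℝ} (hΛ : ∀ φ, IsTest U φ →
      Λ * ∫ z, φ z ^ 2 ≤ (∫ z, ‖gradient φ z‖ ^ 2) + ∫ z, V z * φ z ^ 2) {u : E → ℝ} {G : E → E}
    (hu : H10 U u G) :
    Λ * ∫ z, u z ^ 2 ≤ (∫ z, ‖G z‖ ^ 2) + ∫ z, V z * u z ^ 2 := by
  obtain ⟨φ, h1, h2, h3⟩ := hu.approx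
  have e1 := hu.tendsto_integral_sq h1 h2
  have e2 := hu.tendsto_integral_grad h1 h3
  have e3 := tendsto_eLpNorm_smul (an := fun _ => V) (a := V) (Gn := φ) (G := u)
    (C := C) (fun _ => hV.aestronglyMeasurable) (fun _ => Eventually.of_forall hC)
    (Eventually.of_forall fun z => tendsto_const_nhds) hu.1 (fun n => (h1 n).memLp 2) h2
  have hVφ : ∀ n, MemLp (fun z => V z • φ n z) 2 volume := fun n => by
    refine ((h1 n).memLp 2).of_le_mul (c := C) (hV.aestronglyMeasurable.smul ((h1 n).memLp 2).1)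
      (Eventually.of_forall fun z => ?_)
    rw [norm_smul]
    exact mul_le_mul_of_nonneg_right (hC z) (norm_nonneg _)
  have e4 := tendsto_integral_inner (fn := fun n z => V z • φ n z)
    (gn := φ) (f := fun z => V z • u z) (g := u) hVφ (fun n => (h1 n).memLp 2) e3.1 hu.1 e3.2 h2
  have key : ∀ g : E → ℝ, ∫ z, ⟪V z • g z, g z⟫ = ∫ z, V z * g z ^ 2 := by
    intro g
    refine integral_congr_ae (Eventually.of_forall fun z => ?_)
    simp only [smul_eq_mul, RCLike.inner_apply, conj_trivial]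
    ring
  simp only [key] at e4
  exact le_of_tendsto_of_tendsto' (e1.const_mul Λ) (e2.add e4) fun n => hΛ (φ n) (h1 n)

/-- Choice of the scale. -/
theorem exists_scale {m CK c0 L ρ e : ℝ} (hm : 0 ≤ m) (hCK : 0 ≤ CK) (hc0 : 0 < c0) (hL : 0 ≤ L)
    (hρ : 0 < ρ) {d : ℝ} (hd : 0 < d) (he : 0 < e) :
    ∃ ε : ℝ, 0 < ε ∧ d * ε ≤ ρ ∧ m * ε < 1 ∧
      (1 + m * ε) ^ 2 * max (1 + (1 + 1 / ε) * CK * ε ^ 2) ((1 + ε) / (1 - m * ε)) ≤ 1 + c0 ∧
      L * ε < e := by
  have h1 : ∀ᶠ ε in 𝓝 (0 : ℝ), d * ε < ρ := by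
    have : ContinuousAt (fun ε : ℝ => d * ε) 0 := by fun_prop
    exact this.eventually_lt continuousAt_const (by simpa using hρ)
  have h2 : ∀ᶠ ε in 𝓝 (0 : ℝ), m * ε < 1 := by
    have : ContinuousAt (fun ε : ℝ => m * ε) 0 := by fun_prop
    exact this.eventually_lt continuousAt_const (by simp)
  have h3 : ∀ᶠ ε in 𝓝 (0 : ℝ),
      (1 + m * ε) ^ 2 * max (1 + CK * (ε ^ 2 + ε)) ((1 + ε) / (1 - m * ε)) < 1 + c0 := by
    have hdiv : ContinuousAt (fun ε : ℝ => (1 + ε) / (1 - m * ε)) 0 := by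
      refine ContinuousAt.div (by fun_prop) (by fun_prop) ?_
      simp
    have hmax : ContinuousAt (fun ε : ℝ => max (1 + CK * (ε ^ 2 + ε)) ((1 + ε) / (1 - m * ε))) 0 :=
      Filter.Tendsto.max (ContinuousAt.tendsto (by fun_prop)) hdiv
    have : ContinuousAt (fun ε : ℝ => (1 + m * ε) ^ 2 *
        max (1 + CK * (ε ^ 2 + ε)) ((1 + ε) / (1 - m * ε))) 0 :=
      ContinuousAt.mul (by fun_prop) hmax
    exact this.eventually_lt continuousAt_const (by simpa using hc0)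
  have h4 : ∀ᶠ ε in 𝓝 (0 : ℝ), L * ε < e := by
    have : ContinuousAt (fun ε : ℝ => L * ε) 0 := by fun_prop
    exact this.eventually_lt continuousAt_const (by simpa using he)
  have h5 := ((h1.and (h2.and (h3.and h4))).filter_mono nhdsWithin_le_nhds :
    ∀ᶠ ε in 𝓝[>] (0 : ℝ), _)
  obtain ⟨ε, ⟨k1, k2, k3, k4⟩, k0⟩ := (h5.and self_mem_nhdsWithin).exists
  have hε : 0 < ε := k0
  refine ⟨ε, hε, k1.le, k2, ?_, k4⟩
  have : (1 + 1 / ε) * CK * ε ^ 2 = CK * (ε ^ 2 + ε) := by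
    field_simp
  rw [this]
  exact k3.le

/-- **Perforation theorem**, for a continuous potential with compact support in `U`. -/
theorem perforation (hd : 2 ≤ finrank ℝ E) {U : Set E} (hU : IsOpen U) (hfin : volume U < ⊤)
    {V : E → ℝ} (hVc : Continuous V) (hVs : HasCompactSupport V) (hVU : tsupport V ⊆ U)
    (hV0 : ∀ z, 0 ≤ V z) {Λ : ℝ}
    (hΛ : ∀ φ, IsTest U φ →
      Λ * ∫ z, φ z ^ 2 ≤ (∫ z, ‖gradient φ z‖ ^ 2) + ∫ z, V z * φ z ^ 2)
    {φ₀ : E → ℝ} (hφ₀ : IsTest U φ₀) {η : ℝ} (hη : 0 < η) :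
    ∃ Ω' : Set E, IsOpen Ω' ∧ Ω' ⊆ U ∧ RQ Ω' (Λ - η) ∧
      TLow Ω' (2 * (∫ z, φ₀ z) - (∫ z, ‖gradient φ₀ z‖ ^ 2) - (∫ z, V z * φ₀ z ^ 2) - η) := by
  classical
  have hdpos : (0 : ℝ) < finrank ℝ E := by
    have : 0 < finrank ℝ E := by omega
    exact_mod_cast this
  have hnt : Nontrivial E := Module.nontrivial_of_finrank_pos (R := ℝ) (by omega)
  -- the bound of the potential
  obtain ⟨K, hK0, hK⟩ : ∃ K : ℝ, 0 < K ∧ ∀ z, V z ≤ K := by
    obtain ⟨K, hK⟩ := hVc.bounded_above_of_compact_support hVs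
    refine ⟨max K 1, lt_of_lt_of_le one_pos (le_max_right _ _), fun z => ?_⟩
    exact ((le_abs_self _).trans (hK z)).trans (le_max_left _ _)
  have hVK : ∀ z, |V z| ≤ K := fun z => by rw [abs_of_nonneg (hV0 z)]; exact hK z
  -- nonnegative version of Λ
  set Λ' := max Λ 0 with hΛ'def
  have hΛ'0 : 0 ≤ Λ' := le_max_right _ _
  have hΛ' : ∀ u G, H10 U u G → Λ' * ∫ z, u z ^ 2 ≤ (∫ z, ‖G z‖ ^ 2) + ∫ z, V z * u z ^ 2 := by
    intro u G hu
    rcases le_total Λ 0 with hL | hL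
    · rw [hΛ'def, max_eq_right hL, zero_mul]
      have h1 : 0 ≤ ∫ z, ‖G z‖ ^ 2 := integral_nonneg fun z => sq_nonneg _
      have h2 : 0 ≤ ∫ z, V z * u z ^ 2 := integral_nonneg fun z =>
        mul_nonneg (hV0 z) (sq_nonneg _)
      linarith
    · rw [hΛ'def, max_eq_left hL]
      exact hyp_h10 hVc.measurable hVK hΛ hu
  -- the function φ₀
  have hLip : ∀ {Ω : Set E} {φ : E → ℝ}, IsTest Ω φ → IsLip φ := by
    intro Ω φ hφ
    obtain ⟨C, hC⟩ := hφ.contDiff.lipschitzWith_of_hasCompactSupport hφ.hasCompactSupport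
      (by simp)
    exact ⟨C, hC⟩
  have hφL : IsLip φ₀ := hLip hφ₀
  have hφc := hφ₀.hasCompactSupport
  obtain ⟨A, hA0, hA⟩ : ∃ A : ℝ, 0 ≤ A ∧ ∀ x, |φ₀ x| ≤ A := by
    obtain ⟨A, hA⟩ := hφL.continuous.bounded_above_of_compact_support hφc
    exact ⟨max A 0, le_max_right _ _, fun x => (hA x).trans (le_max_left _ _)⟩
  obtain ⟨D, hD0, hD⟩ : ∃ D : ℝ, 0 ≤ D ∧ ∀ x y, φ₀ x ^ 2 - φ₀ y ^ 2 ≤ D * ‖x - y‖ := by
    obtain ⟨D, hD0, hD⟩ := (hφL.mul_bdd hφL hA hA).exists_abs_le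
    refine ⟨D, hD0, fun x y => ?_⟩
    have := (le_abs_self _).trans (hD x y)
    rw [← dist_eq_norm]
    calc φ₀ x ^ 2 - φ₀ y ^ 2 = φ₀ x * φ₀ x - φ₀ y * φ₀ y := by ring
      _ ≤ _ := this
  set N : ℝ := ∫ z, φ₀ z ^ 2 with hNdef
  have hN0 : 0 ≤ N := integral_nonneg fun z => sq_nonneg _
  -- the constants
  obtain ⟨C, hC, hscale⟩ := scale_a (E := E) hd
  obtain ⟨C', hC', hmean⟩ := corr_mean (E := E) hd
  set om : ℝ := volume.real (ball (0 : E) 1) with homdef
  have hom : 0 < om := ENNReal.toReal_pos (measure_ball_pos volume (0 : E) one_pos).ne'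
    measure_ball_lt_top.ne
  have hballvol : ∀ (p : E) (s : ℝ), 0 < s → volume.real (ball p s) = s ^ finrank ℝ E * om :=
    fun p s hs => by
      rw [measureReal_def, Measure.addHaar_ball_of_pos volume p hs, ENNReal.toReal_mul,
        ENNReal.toReal_ofReal (by positivity)]
      rfl
  set k0 : ℝ := K * 4 ^ finrank ℝ E / om with hk0def
  have hk0 : 0 < k0 := by positivity
  set m : ℝ := Real.sqrt (C' * k0 * (1 / 16)) with hmdef
  have hm0 : 0 ≤ m := Real.sqrt_nonneg _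
  have hm2 : m ^ 2 = C' * k0 * (1 / 16) := Real.sq_sqrt (by positivity)
  set τ : ℝ := min (η / 2) (η / (4 * (N + 1))) with hτdef
  have hτ : 0 < τ := lt_min (by positivity) (by positivity)
  have hτη : τ ≤ η / 2 := min_le_left _ _
  have hτN : τ * N ≤ η / 4 := by
    have h1 : τ ≤ η / (4 * (N + 1)) := min_le_right _ _
    have h2 : τ * (4 * (N + 1)) ≤ η := (le_div_iff₀ (by positivity)).1 h1
    nlinarith
  -- uniform continuity, and the distance to the complement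
  have huc : UniformContinuous V := hVs.uniformContinuous_of_continuous hVc
  obtain ⟨ρ₁, hρ₁, hρ₁V⟩ := Metric.uniformContinuous_iff.1 huc τ hτ
  obtain ⟨ρ₂, hρ₂, hρ₂U⟩ := hVs.isCompact.exists_cthickening_subset_open hU hVU
  set ρ : ℝ := min (ρ₁ / 2) ρ₂ with hρdef
  have hρ : 0 < ρ := lt_min (by positivity) hρ₂
  -- the scale
  set c0 : ℝ := η / (2 * (Λ' + 1)) with hc0def
  have hc0 : 0 < c0 := by positivity
  set L : ℝ := 2 * A * m * volume.real U + K * D * (finrank ℝ E : ℝ) * volume.real U with hLdef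
  have hL : 0 ≤ L := by positivity
  obtain ⟨ε, hε, hε1, hε2, hε3, hε4⟩ := exists_scale (m := m) (CK := C * K) (c0 := c0) (L := L)
    (ρ := ρ) (e := η / 4) hm0 (by positivity) hc0 hL hρ hdpos (by positivity)
  obtain ⟨cell, ctr, hg⟩ := exists_grid (E := E) hd hε
  have hctr : ∀ a, ctr a ∈ cell a := fun a =>
    hg.ball_sub a (mem_closedBall_self (by positivity))
  have hfinP : {a | V (ctr a) ≠ 0}.Finite := by
    refine (hg.fin (tsupport V) hVs.isCompact.isBounded).subset fun a ha => ?_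
    exact ⟨ctr a, hctr a, subset_tsupport V ha⟩
  set P : Finset (Fin (finrank ℝ E) → ℤ) := hfinP.toFinset with hPdef
  have hPmem : ∀ a, a ∈ P ↔ V (ctr a) ≠ 0 := fun a => by rw [hPdef]; simp
  set κ : (Fin (finrank ℝ E) → ℤ) → ℝ := fun a => V (ctr a) with hκdef
  set k : (Fin (finrank ℝ E) → ℤ) → ℝ := fun a => κ a * 4 ^ finrank ℝ E / om with hkdef
  have hκpos : ∀ a ∈ P, 0 < κ a := fun a ha =>
    lt_of_le_of_ne (hV0 _) (Ne.symm ((hPmem a).1 ha))
  have hkpos : ∀ a ∈ P, 0 < k a := fun a ha => by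
    have := hκpos a ha
    rw [hkdef]
    positivity
  have hkle : ∀ a, k a ≤ k0 := fun a => by
    have h1 := hK (ctr a)
    have h2 : κ a * 4 ^ finrank ℝ E / om ≤ K * 4 ^ finrank ℝ E / om := by gcongr
    exact h2
  have hex : ∀ a, ∃ (r : ℝ) (z : E → ℝ), a ∈ P → IsCorr (ctr a) (ε / 4) (k a) r z := by
    intro a
    by_cases ha : a ∈ P
    · obtain ⟨r, z, h⟩ := exists_corr hd (ctr a) (R := ε / 4) (by positivity) (hkpos a ha)
      exact ⟨r, z, fun _ => h⟩
    · exact ⟨0, fun _ => 0, fun h => absurd h ha⟩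
  choose r z hcorr using hex
  have hnear : ∀ a, ∀ x ∈ cell a, |V x - V (ctr a)| ≤ τ := by
    intro a x hx
    have h1 := hg.diam a x hx (ctr a) (hctr a)
    have h2 : dist x (ctr a) < ρ₁ := by
      rw [dist_eq_norm]
      have : ρ ≤ ρ₁ / 2 := min_le_left _ _
      linarith
    have := hρ₁V h2
    rw [Real.dist_eq] at this
    exact this.le
  have hP : IsPerf U ε K τ (m * ε) V P cell ctr κ k r z := by
    refine ⟨hε, by positivity, hε2, hτ.le, fun a _ => hg.meas a, fun a _ => hg.convex a,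
      fun a _ b _ hab => hg.disj a b hab, fun a _ => hg.ball_sub a, ?_, fun a _ => hg.diam a,
      fun a _ => hg.vol a, hκpos, fun a _ => hK _, ?_, fun a ha => hcorr a ha, ?_,
      hVc.measurable, hV0, hK, fun a _ => hnear a, ?_⟩
    · intro a ha x hx
      apply hρ₂U
      refine mem_cthickening_of_dist_le x (ctr a) ρ₂ _ (subset_tsupport V ((hPmem a).1 ha)) ?_
      have h1 := hg.diam a x hx (ctr a) (hctr a)
      rw [dist_eq_norm]
      have : ρ ≤ ρ₂ := min_le_right _ _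
      linarith
    · intro a _
      rw [hballvol _ _ (by positivity), hkdef, div_pow]
      field_simp
    · intro a ha
      refine (hmean _ _ _ _ _ (by positivity) (hkpos a ha).le (hcorr a ha)).trans ?_
      have h1 : C' * k a * (ε / 4) ^ 2 ≤ (m * ε) ^ 2 := by
        rw [mul_pow, hm2]
        calc C' * k a * (ε / 4) ^ 2 ≤ C' * k0 * (ε / 4) ^ 2 := by
              have := hkle a
              gcongr
          _ = C' * k0 * (1 / 16) * ε ^ 2 := by ring
      gcongr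
    · intro x hx
      obtain ⟨a, ha⟩ := hg.cover x
      have h1 : a ∉ P := fun h => hx a h ha
      rw [hPmem, not_not] at h1
      have h2 := (le_abs_self _).trans (hnear a x ha)
      rw [h1] at h2
      linarith
  -- the set
  have hopen : IsOpen (U \ ⋃ a ∈ P, closedBall (ctr a) (r a)) :=
    hU.sdiff (P.finite_toSet.isClosed_biUnion fun a _ => isClosed_closedBall)
  refine ⟨U \ ⋃ a ∈ P, closedBall (ctr a) (r a), hopen, sdiff_subset, ?_, ?_⟩
  · intro φ hφ
    have hts := hφ.tsupport_subset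
    have hN0' : 0 ≤ ∫ z, φ z ^ 2 := integral_nonneg fun z => sq_nonneg _
    have hG0 : 0 ≤ ∫ z, ‖gradient φ z‖ ^ 2 := integral_nonneg fun z => sq_nonneg _
    have hΛΛ : Λ ≤ Λ' := le_max_left _ _
    rcases le_total Λ' η with hcase | hcase
    · refine le_trans ?_ hG0
      apply mul_nonpos_of_nonpos_of_nonneg _ hN0'
      linarith
    have hmain := hscale U ε K τ (m * ε) V P cell ctr κ k r z hU hfin hP Λ' ε hε (by linarith) hΛ'
      φ (hLip hφ) hφ.hasCompactSupport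
      (fun x hx => image_eq_zero_of_notMem_tsupport fun hx' => hx (hts hx').1)
      (fun a ha x hx => image_eq_zero_of_notMem_tsupport fun hx' =>
        (hts hx').2 (mem_iUnion₂.2 ⟨a, ha, hx⟩))
    set X : ℝ := (1 + m * ε) ^ 2 *
      max (1 + (1 + 1 / ε) * C * K * ε ^ 2) ((1 + ε) / (1 - m * ε)) with hXdef
    have hX : X ≤ 1 + c0 := by
      rw [hXdef, mul_assoc (1 + 1 / ε) C K]
      exact hε3
    have h1 : (Λ' - τ) * ∫ z, φ z ^ 2 ≤ (1 + c0) * ∫ z, ‖gradient φ z‖ ^ 2 :=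
      hmain.trans (by gcongr)
    have h2 : (Λ' - η) * (1 + c0) ≤ Λ' - τ := by
      have h3 : c0 * (2 * (Λ' + 1)) = η := by rw [hc0def]; field_simp
      nlinarith
    have h4 : (1 + c0) * ((Λ' - η) * ∫ z, φ z ^ 2) ≤ (1 + c0) * ∫ z, ‖gradient φ z‖ ^ 2 := by
      refine le_trans ?_ h1
      calc (1 + c0) * ((Λ' - η) * ∫ z, φ z ^ 2) = ((Λ' - η) * (1 + c0)) * ∫ z, φ z ^ 2 := by ring
        _ ≤ (Λ' - τ) * ∫ z, φ z ^ 2 := by gcongr
    have h5 := le_of_mul_le_mul_left h4 (by positivity)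
    refine le_trans ?_ h5
    apply mul_le_mul_of_nonneg_right _ hN0'
    linarith
  · obtain ⟨ψ, hψL, hψc, hψU, hψb, hψ⟩ := scale_b hU hfin hP hφL hφc
      (fun x hx => image_eq_zero_of_notMem_tsupport fun hx' => hx (hφ₀.tsupport_subset hx'))
      hA hD0 hD
    have hH : H10 (U \ ⋃ a ∈ P, closedBall (ctr a) (r a)) ψ (gradient ψ) := by
      refine H10.of_lipschitz_zero hopen hψL hψc fun x hx => ?_
      by_cases hxU : x ∈ U
      · have : x ∈ ⋃ a ∈ P, closedBall (ctr a) (r a) := by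
          by_contra h
          exact hx ⟨hxU, h⟩
        obtain ⟨a, ha, hxa⟩ := mem_iUnion₂.1 this
        exact hψb a ha x hxa
      · exact hψU x hxU
    refine hH.tLow hopen ((measure_mono sdiff_subset).trans_lt hfin) ?_
    have herr : 2 * A * (m * ε) * volume.real U +
        K * D * (finrank ℝ E : ℝ) * ε * volume.real U + τ * N < η := by
      have : 2 * A * (m * ε) * volume.real U +
        K * D * (finrank ℝ E : ℝ) * ε * volume.real U = L * ε := by rw [hLdef]; ring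
      rw [this]
      linarith
    linarith

end Pool.Agent.H4.NM
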