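import Pool.Agent.H4.NM.Pen
import Pool.Agent.H4.NM.Eig
import Pool.Agent.H4.NM.MvB
import Pool.Agent.H4.NM.PerfMain
import Pool.Agent.H4.NM.Norm1

/-!
# NM-14: Theorem R' (relaxed competitors with a right side) (MP_898b17_an, all dimensions)

Model: `Pool/Agent/H47/Ev/Relaxed.lean` (`tendsto_int_norm_sq`, `exists_test_near`, `relaxed`) and
`Pool/Agent/H47/Ev/Step.lean` (`exists_compact_approx`, `exists_cont_approx`), the plane with `g = 1`.

## Paper proof of `relaxed`

`C: Compet Ω U w w' W' g G0`. `g ∈ L²` (bounded, zero off `U`). For `n ≥ 1` take `u` of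
`exists_penalised` (data `g`, obstacle `w'`), `penalised_ge`: `u ≥ w' ≥ w ≥ 0`; `v = u - w' ≥ 0`;
`penalised_small`: `n ∫ v² ≤ ∫ g² + ∫ |W'|²`; `penalised_le` and `IsTorsion.bdd`:
`0 ≤ v ≤ u ≤ G0 w_U ≤ M0` a.e. with `M0` independent of `n` (`G0 ≥ 0` without loss: replace it by
`max G0 0`). So by `sob_mul` (bound `M0`, small constant) for `n` large
`8 ∫ v φ² ≤ (η/8) ‖φ‖₂ ‖∇φ‖₂` for all test functions. Fix this `n`.
`V = n v / u`, `0 ≤ V ≤ n`, zero off `U`. `eig_estimate`:
`∫ φ² - 8 ∫ v φ² ≤ ∫ |∇φ|² + ∫ V φ²`. Energy: testing with `u`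
`∫ |G|² + ∫ V u² = ∫ g u`, so `2 ∫ u - ∫ |G|² - ∫ V u² = ∫ (2 - g) u`, and
`|∫ (2 - g) (u - w')| ≤ ∫_U (2 + G0) v ≤ (2 + G0) |U|^{1/2} ‖v‖₂`, small for `n` large: so
`2 ∫ u - ∫ |G|² - ∫ V u² ≥ ∫ (2 - g) w' - η/4`.
`φ₀` test function with `2 ∫ φ₀ - ∫ |∇φ₀|² - ∫ V φ₀² ≥ ∫ (2-g) w' - η/2` (density, `V` bounded;
`exists_test_near`).
`exists_cont_approx`: continuous `V' ` with compact support in `U`, `0 ≤ V' ≤ n`, `∫ (V - V')²` so
small that by `sob_mul` (bound `M = n`) `∫ |V - V'| φ² ≤ (small) ‖φ‖₂ ‖∇φ‖₂` for all test functions,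
small also for `φ₀`. Then for all test `φ`: `(1 - η/2) ∫ φ² ≤ ∫ |∇φ|² + ∫ V' φ²`: with
`a = ‖φ‖₂`, `b = ‖∇φ‖₂`: if `a ≤ b` trivial (`V' ≥ 0`); if `b ≤ a` the errors are
`≤ (η/2) a b ≤ (η/2) a²`. `perforation` with `Λ = 1 - η/2` and `η/4` (or `η/2`).
-/

open MeasureTheory Set Metric Filter Topology ContDiff Module
open scoped ENNReal NNReal RealInnerProductSpace

namespace Pool.Agent.H4.NM

variable {E : Type} [NormedAddCommGroup E] [InnerProductSpace ℝ E] [FiniteDimensional ℝ E]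
  [CompleteSpace E] [MeasurableSpace E] [BorelSpace E]

set_option linter.unusedSectionVars false

open Pool.Agent.H47.FQ

variable {Ω U : Set E} {w w' g V : E → ℝ} {W W' : E → E}

/-- First step: restriction to a compact subset. -/
theorem exists_compact_approx (hU : IsOpen U) (hV : MemLp V 2 volume)
    (hVU : ∀ᵐ z, z ∉ U → V z = 0) {ε : ℝ≥0∞} (hε : 0 < ε) :
    ∃ K : Set E, IsCompact K ∧ K ⊆ U ∧ eLpNorm (fun z => V z - K.indicator V z) 2 volume ≤ ε := by
  obtain ⟨F, hFc, hFU, hFun, hFm⟩ := hU.exists_iUnion_isClosed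
  set K : ℕ → Set E := fun n => F n ∩ closedBall 0 n with hK
  have hKc : ∀ n, IsCompact (K n) := fun n =>
    (isCompact_closedBall (0 : E) n).inter_left (hFc n)
  have hmeas : ∀ n, MeasurableSet (K n) := fun n => (hKc n).measurableSet
  have hmem : ∀ n, MemLp (fun z => V z - (K n).indicator V z) 2 (volume : Measure E) := fun n =>
    hV.sub (hV.indicator (hmeas n))
  have hlim : Tendsto (fun n => eLpNorm (fun z => V z - (K n).indicator V z) 2 volume) atTop
      (𝓝 0) := by
    rw [tendsto_eLpNorm_iff hmem]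
    have h0 : (0 : ℝ) = ∫ z : E, (0 : ℝ) := by simp
    rw [h0]
    refine tendsto_integral_of_dominated_convergence (fun z => ‖V z‖ ^ 2)
      (fun n => (hmem n).1.norm.pow 2) (int_norm_sq hV) ?_ ?_
    · intro n
      refine Eventually.of_forall fun z => ?_
      rw [norm_pow, norm_norm]
      by_cases h : z ∈ K n
      · simp [h, sq_nonneg]
      · simp [h]
    · filter_upwards [hVU] with z hz
      by_cases hzU : z ∈ U
      · have h1 : ∀ᶠ n in atTop, z ∈ K n := by
          rw [← hFun] at hzU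
          obtain ⟨n0, hn0⟩ := mem_iUnion.1 hzU
          obtain ⟨m, hm⟩ := exists_nat_ge ‖z‖
          filter_upwards [eventually_ge_atTop (max n0 m)] with n hn
          refine ⟨hFm ((le_max_left _ _).trans hn) hn0, ?_⟩
          rw [mem_closedBall_zero_iff]
          exact hm.trans (by exact_mod_cast (le_max_right _ _).trans hn)
        refine Tendsto.congr' ?_ tendsto_const_nhds
        filter_upwards [h1] with n hn
        simp [hn]
      · have h2 : V z = 0 := hz hzU
        refine Tendsto.congr (fun n => ?_) tendsto_const_nhds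
        by_cases h : z ∈ K n <;> simp [h, h2]
  obtain ⟨n, hn⟩ := (hlim.eventually (ge_mem_nhds hε)).exists
  exact ⟨K n, hKc n, inter_subset_left.trans (hFU n), hn⟩

/-- Approximation of a bounded nonnegative function by continuous ones with compact support. -/
theorem exists_cont_approx (hU : IsOpen U) (hV : MemLp V 2 volume) {n : ℝ} (hn : 0 ≤ n)
    (hV0 : ∀ᵐ z, 0 ≤ V z) (hVn : ∀ᵐ z, V z ≤ n) (hVU : ∀ᵐ z, z ∉ U → V z = 0) {ε : ℝ}
    (hε : 0 < ε) :
    ∃ g : E → ℝ, Continuous g ∧ HasCompactSupport g ∧ tsupport g ⊆ U ∧ (∀ z, 0 ≤ g z) ∧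
      (∀ z, g z ≤ n) ∧ ∫ z, (V z - g z) ^ 2 ≤ ε := by
  have hsε : 0 < Real.sqrt ε := Real.sqrt_pos.2 hε
  set e : ℝ≥0∞ := ENNReal.ofReal (Real.sqrt ε) with he
  have he0 : 0 < e := ENNReal.ofReal_pos.2 hsε
  have hε2 : 0 < e / 2 := ENNReal.half_pos he0.ne'
  -- from the norm to the integral
  have fin : ∀ g : E → ℝ, MemLp g 2 (volume : Measure E) →
      eLpNorm (fun z => V z - g z) 2 volume ≤ e → ∫ z, (V z - g z) ^ 2 ≤ ε := by
    intro g hg hle
    have h1 := eLpNorm_two_sq (hV.sub hg)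
    have h2 : (eLpNorm (V - g) 2 (volume : Measure E)).toReal ≤ Real.sqrt ε := by
      have h3 := ENNReal.toReal_mono (by rw [he]; exact ENNReal.ofReal_ne_top) hle
      rw [he, ENNReal.toReal_ofReal hsε.le] at h3
      exact h3
    have h4 : ∫ z, ‖(V - g) z‖ ^ 2 = ∫ z, (V z - g z) ^ 2 := by
      refine integral_congr_ae (Eventually.of_forall fun z => ?_)
      show ‖V z - g z‖ ^ 2 = (V z - g z) ^ 2
      rw [Real.norm_eq_abs, sq_abs]
    rw [← h4, ← h1]
    calc (eLpNorm (V - g) 2 (volume : Measure E)).toReal ^ 2 ≤ Real.sqrt ε ^ 2 :=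
          pow_le_pow_left₀ ENNReal.toReal_nonneg h2 2
      _ = ε := Real.sq_sqrt hε.le
  obtain ⟨K, hK, hKU, hKε⟩ := exists_compact_approx hU hV hVU hε2
  have hVK : MemLp (K.indicator V) 2 (volume : Measure E) := hV.indicator hK.measurableSet
  obtain ⟨g1, hg1s, hg1ε, hg1c, hg1m⟩ :=
    hVK.exists_hasCompactSupport_eLpNorm_sub_le (by simp) hε2.ne'
  obtain ⟨δ, hδ, hδU⟩ := hK.exists_cthickening_subset_open hU hKU
  rcases K.eq_empty_or_nonempty with hKe | hKne
  · refine ⟨fun _ => 0, continuous_const, HasCompactSupport.zero, ?_, fun _ => le_rfl,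
      fun _ => hn, fin _ MemLp.zero' ?_⟩
    · have : tsupport (fun _ : E => (0 : ℝ)) = ∅ := by
        rw [tsupport_eq_empty_iff]; rfl
      rw [this]; exact empty_subset _
    · refine le_trans (le_trans (le_of_eq ?_) hKε) ENNReal.half_le_self
      congr 1
      funext z
      simp [hKe]
  set χ : E → ℝ := fun z => max 0 (1 - infDist z K / δ) with hχ
  have hχc : Continuous χ := by
    have := continuous_infDist_pt K
    fun_prop
  have hχ0 : ∀ z, 0 ≤ χ z := fun z => le_max_left _ _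
  have hχ1 : ∀ z, χ z ≤ 1 := fun z => by
    refine max_le zero_le_one ?_
    have : 0 ≤ infDist z K / δ := div_nonneg infDist_nonneg hδ.le
    linarith
  have hχK : ∀ z ∈ K, χ z = 1 := fun z hz => by
    rw [hχ]
    simp only
    rw [infDist_zero_of_mem hz]
    simp
  have hχs : ∀ z, z ∉ cthickening δ K → χ z = 0 := fun z hz => by
    rw [hχ]
    simp only
    refine max_eq_left ?_
    have h1 : δ < infDist z K := by
      by_contra hcon
      push Not at hcon
      apply hz
      rw [cthickening, mem_ofPred_eq]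
      rw [infDist] at hcon
      exact (ENNReal.le_ofReal_iff_toReal_le (infEDist_ne_top hKne) hδ.le).2 hcon
    have : 1 < infDist z K / δ := by rwa [one_lt_div hδ]
    linarith
  have hCt : IsCompact (cthickening δ K) := hK.cthickening
  have hsub : tsupport χ ⊆ cthickening δ K := by
    refine closure_minimal ?_ isClosed_cthickening
    intro z hz
    by_contra hcon
    exact hz (hχs z hcon)
  set c : E → ℝ := fun z => max (min (g1 z) n) 0 with hc
  have hcc : Continuous c := by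
    rw [hc]
    fun_prop
  have hc0 : ∀ z, 0 ≤ c z := fun z => le_max_right _ _
  have hcn : ∀ z, c z ≤ n := fun z => max_le (min_le_right _ _) hn
  have hcl : ∀ (z : E) (v : ℝ), 0 ≤ v → v ≤ n → |v - c z| ≤ |v - g1 z| := by
    intro z v h0 h1
    have e1 : v = max (min v n) 0 := by
      rw [min_eq_left h1, max_eq_left h0]
    have e2 : |max (min v n) 0 - max (min (g1 z) n) 0| ≤ |min v n - min (g1 z) n| := by
      have := abs_max_sub_max_le_max (min v n) 0 (min (g1 z) n) 0
      simpa using this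
    have e3 : |min v n - min (g1 z) n| ≤ |v - g1 z| := by
      have := abs_min_sub_min_le_max v n (g1 z) n
      simpa using this
    calc |v - c z| = |max (min v n) 0 - max (min (g1 z) n) 0| := by rw [← e1]
      _ ≤ _ := e2.trans e3
  have hc1 : ∀ z, |c z| ≤ |g1 z| := by
    intro z
    have := hcl z 0 le_rfl hn
    simpa using this
  have hgm : MemLp (fun z => χ z * c z) 2 (volume : Measure E) := by
    refine hg1m.of_le (hχc.mul hcc).aestronglyMeasurable ?_
    refine Eventually.of_forall fun z => ?_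
    rw [norm_mul, Real.norm_eq_abs, Real.norm_eq_abs, Real.norm_eq_abs, abs_of_nonneg (hχ0 z)]
    exact (mul_le_of_le_one_left (abs_nonneg _) (hχ1 z)).trans (hc1 z)
  refine ⟨fun z => χ z * c z, hχc.mul hcc, ?_, ?_, ?_, ?_, fin _ hgm ?_⟩
  · have hχcs : HasCompactSupport χ := hCt.of_isClosed_subset (isClosed_tsupport _) hsub
    exact hχcs.mul_right
  · exact (tsupport_mul_subset_left).trans (hsub.trans hδU)
  · intro z
    exact mul_nonneg (hχ0 z) (hc0 z)
  · intro z
    exact (mul_le_of_le_one_left (hc0 z) (hχ1 z)).trans (hcn z)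
  · have h1 : eLpNorm (fun z => V z - χ z * c z) 2 volume
        ≤ eLpNorm (fun z => V z - K.indicator V z) 2 volume
          + eLpNorm (fun z => K.indicator V z - χ z * c z) 2 volume := by
      have e' : (fun z => V z - χ z * c z)
          = (fun z => V z - K.indicator V z) + (fun z => K.indicator V z - χ z * c z) := by
        funext z; simp
      rw [e']
      exact eLpNorm_add_le (hV.1.sub hVK.1)
        (hVK.1.sub (hχc.mul hcc).aestronglyMeasurable) (by norm_num)
    have h2 : eLpNorm (fun z => K.indicator V z - χ z * c z) 2 volume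
        ≤ eLpNorm (K.indicator V - g1) 2 volume := by
      refine eLpNorm_mono_ae ?_
      filter_upwards [hV0, hVn] with z hz hzn
      by_cases hzK : z ∈ K
      · rw [Pi.sub_apply, indicator_of_mem hzK, hχK z hzK, one_mul, Real.norm_eq_abs,
          Real.norm_eq_abs]
        exact hcl z (V z) hz hzn
      · rw [Pi.sub_apply, indicator_of_notMem hzK, zero_sub, zero_sub, norm_neg, norm_neg,
          norm_mul, Real.norm_eq_abs, Real.norm_eq_abs, Real.norm_eq_abs, abs_of_nonneg (hχ0 z)]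
        exact (mul_le_of_le_one_left (abs_nonneg _) (hχ1 z)).trans (hc1 z)
    refine h1.trans ?_
    rw [← ENNReal.add_halves e]
    exact add_le_add hKε (h2.trans hg1ε)

/-- Convergence in `L²` gives convergence of the square norms. -/
theorem tendsto_int_norm_sq {E' : Type*} [NormedAddCommGroup E'] {F : E → E'} {Fn : ℕ → E → E'}
    (hF : MemLp F 2 volume) (hFn : ∀ n, MemLp (Fn n) 2 volume)
    (h : Tendsto (fun n => eLpNorm (fun z => Fn n z - F z) 2 volume) atTop (𝓝 0)) :
    Tendsto (fun n => ∫ z, ‖Fn n z‖ ^ 2) atTop (𝓝 (∫ z, ‖F z‖ ^ 2)) := by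
  have h1 : Tendsto (fun n => (hFn n).toLp (Fn n)) atTop (𝓝 (hF.toLp F)) :=
    (Lp.tendsto_Lp_iff_tendsto_eLpNorm'' Fn hFn F hF).2 h
  have h2 := (h1.norm).pow 2
  have h3 : ∀ {f : E → E'} (hf : MemLp f 2 (volume : Measure E)),
      ‖hf.toLp f‖ ^ 2 = ∫ z, ‖f z‖ ^ 2 := by
    intro f hf
    rw [Lp.norm_toLp, eLpNorm_two_sq hf]
  simp only [h3] at h2
  exact h2

/-- test functions nearly optimal for the penalised functional -/
theorem exists_test_near (hU : IsOpen U) (hfin : volume U < ⊤) {u : E → ℝ} {G : E → E}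
    (hu : H10 U u G)
    (hVm : AEStronglyMeasurable V volume) {n : ℝ} (hV0 : ∀ᵐ z, 0 ≤ V z) (hVn : ∀ᵐ z, V z ≤ n)
    {η : ℝ} (hη : 0 < η) :
    ∃ φ, IsTest U φ ∧ 2 * (∫ z, u z) - (∫ z, ‖G z‖ ^ 2) - (∫ z, V z * u z ^ 2) - η
      ≤ 2 * (∫ z, φ z) - (∫ z, ‖gradient φ z‖ ^ 2) - (∫ z, V z * φ z ^ 2) := by
  obtain ⟨φ, hφ, h1, h2⟩ := hu.approx
  have t1 := hu.tendsto_integral hU hfin hφ h1
  have t2 := hu.tendsto_integral_grad hφ h2
  have t3 : Tendsto (fun k => ∫ z, V z * φ k z ^ 2) atTop (𝓝 (∫ z, V z * u z ^ 2)) := by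
    have hsm : AEStronglyMeasurable (fun z => Real.sqrt (V z)) (volume : Measure E) :=
      (Real.continuous_sqrt).comp_aestronglyMeasurable hVm
    have hmul : ∀ {f : E → ℝ}, MemLp f 2 (volume : Measure E) →
        MemLp (fun z => Real.sqrt (V z) * f z) 2 (volume : Measure E) := by
      intro f hf
      refine (hf.norm.const_mul (Real.sqrt n)).mono' (hsm.mul hf.1) ?_
      filter_upwards [hVn] with z hz
      rw [norm_mul, Real.norm_eq_abs, abs_of_nonneg (Real.sqrt_nonneg _)]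
      exact mul_le_mul_of_nonneg_right (Real.sqrt_le_sqrt hz) (norm_nonneg _)
    have h3 : Tendsto (fun k => eLpNorm (fun z => Real.sqrt (V z) * φ k z
        - Real.sqrt (V z) * u z) 2 volume) atTop (𝓝 0) := by
      have hlim : Tendsto (fun k => ENNReal.ofReal (Real.sqrt n) *
          eLpNorm (fun z => φ k z - u z) 2 (volume : Measure E)) atTop (𝓝 0) := by
        have := ENNReal.Tendsto.const_mul (a := ENNReal.ofReal (Real.sqrt n)) h1
          (Or.inr ENNReal.ofReal_ne_top)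
        simpa using this
      refine tendsto_of_tendsto_of_tendsto_of_le_of_le tendsto_const_nhds hlim
        (fun k => zero_le) (fun k => ?_)
      refine eLpNorm_le_mul_eLpNorm_of_ae_le_mul ?_ 2
      filter_upwards [hVn] with z hz
      rw [← mul_sub, norm_mul, Real.norm_eq_abs, abs_of_nonneg (Real.sqrt_nonneg _)]
      exact mul_le_mul_of_nonneg_right (Real.sqrt_le_sqrt hz) (norm_nonneg _)
    have h4 := tendsto_int_norm_sq (hmul hu.memLp) (fun k => hmul (hφ k).h10.memLp) h3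
    have h5 : ∀ f : E → ℝ, ∫ z, ‖Real.sqrt (V z) * f z‖ ^ 2 = ∫ z, V z * f z ^ 2 := by
      intro f
      refine integral_congr_ae ?_
      filter_upwards [hV0] with z hz
      rw [Real.norm_eq_abs, sq_abs, mul_pow, Real.sq_sqrt hz]
    simp only [h5] at h4
    exact h4
  have t := ((t1.const_mul 2).sub t2).sub t3
  have ev := t.eventually (lt_mem_nhds (show 2 * (∫ z, u z) - (∫ z, ‖G z‖ ^ 2)
    - (∫ z, V z * u z ^ 2) - η < 2 * (∫ z, u z) - (∫ z, ‖G z‖ ^ 2)
    - (∫ z, V z * u z ^ 2) by linarith))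
  obtain ⟨k, hk⟩ := ev.exists
  exact ⟨φ k, hφ k, hk.le⟩

theorem int_abs_mul_sq {f φ : E → ℝ} (hf : MemLp f 2 (volume : Measure E)) (hφ : IsTest U φ) :
    Integrable (fun z => |f z| * φ z ^ 2) volume := by
  have := (int_mul hf (hφ.sq.h10.memLp)).norm
  refine this.congr (Eventually.of_forall fun z => ?_)
  show ‖f z * φ z ^ 2‖ = |f z| * φ z ^ 2
  rw [norm_mul, Real.norm_eq_abs, Real.norm_eq_abs, abs_of_nonneg (sq_nonneg (φ z))]

/-- **Theorem R'.** -/
theorem relaxed (hd : 2 ≤ finrank ℝ E) (hN : Norm1 Ω w W) (hU : IsOpen U) (hΩU : Ω ⊆ U)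
    (hfin : volume U < ⊤) {G0 : ℝ} (hC : Compet Ω U w w' W' g G0) {η : ℝ} (hη : 0 < η) :
    ∃ Ω' : Set E, IsOpen Ω' ∧ Ω' ⊆ U ∧ RQ Ω' (1 - η) ∧
      TLow Ω' ((∫ z, (2 - g z) * w' z) - η) := by
  have hw0 := hN.nonneg
  have hw' := hC.h10
  -- the bound of `g`
  set G1 : ℝ := max G0 0 with hG1
  have hG10 : 0 ≤ G1 := le_max_right _ _
  have hgG1 : ∀ᵐ z, g z ≤ G1 := by
    filter_upwards [hC.gG] with z hz
    exact hz.trans (le_max_left _ _)
  have hone2 : MemLp (U.indicator (fun _ => (1 : ℝ))) 2 (volume : Measure E) :=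
    memLp_indicator_one hU hfin
  have hgm : MemLp g 2 (volume : Measure E) := by
    refine (hone2.const_mul G1).mono' hC.gm ?_
    filter_upwards [hC.g0, hgG1, hC.gU] with z h1 h2 h3
    rw [Real.norm_eq_abs, abs_of_nonneg h1]
    by_cases h : z ∈ U
    · simpa [h] using h2
    · simp [h, h3 h]
  -- the torsion function of `U`
  obtain ⟨tw, Tw, htw⟩ := exists_torsion hd hU hfin
  obtain ⟨Cb, hCb0, hCb⟩ := htw.bdd hU hfin
  set M0 : ℝ := G1 * Cb with hM0
  have hM00 : 0 ≤ M0 := mul_nonneg hG10 hCb0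
  obtain ⟨δ1, hδ1, hsob1⟩ := sob_mul (E := E) hd hM00 (show 0 < η / 64 by positivity)
  set S : ℝ := Real.sqrt (∫ z, U.indicator (fun _ => (1 : ℝ)) z ^ 2) with hS
  have hS0 : 0 ≤ S := Real.sqrt_nonneg _
  set τ : ℝ := η / (4 * (G1 * S + 1)) with hτ
  have hτ0 : 0 < τ := by positivity
  set δ : ℝ := min δ1 (τ ^ 2) with hδ
  have hδ0 : 0 < δ := lt_min hδ1 (by positivity)
  set K : ℝ := (∫ z, g z ^ 2) + ∫ z, ‖W' z‖ ^ 2 with hK
  set n : ℝ := max 1 (K / δ) with hndef
  have hn1 : 1 ≤ n := le_max_left _ _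
  have hn0 : 0 < n := by linarith
  have hnK : K ≤ n * δ := by
    have h1 : K / δ ≤ n := le_max_right _ _
    rwa [div_le_iff₀ hδ0] at h1
  obtain ⟨u, G, hu, heq⟩ := exists_penalised hd hU hfin hw'.memLp hgm hn0
  have huge := penalised_ge hd hU hfin hw' hC.g1 hu heq
  have hsmall := penalised_small hw' hgm hn1 hu heq huge
  have hule := penalised_le hd hU hfin hw'.memLp hgm hgG1 htw hn0.le hu heq
  have hw'0 : ∀ᵐ z, 0 ≤ w' z := by
    filter_upwards [hw0, hC.ge] with z h1 h2
    linarith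
  have hu0 : ∀ᵐ z, 0 ≤ u z := by
    filter_upwards [hw'0, huge] with z h1 h2
    linarith
  have huM : ∀ᵐ z, u z ≤ M0 := by
    filter_upwards [hule, hCb] with z h1 h2
    exact h1.trans (mul_le_mul_of_nonneg_left h2 hG10)
  have hv2 : ∫ z, (u z - w' z) ^ 2 ≤ δ := by
    have h1 : n * ∫ z, (u z - w' z) ^ 2 ≤ n * δ := hsmall.trans hnK
    exact le_of_mul_le_mul_left h1 hn0
  have hvH : H10 U (fun z => u z - w' z) (fun z => G z - W' z) := hu.sub hw'
  have hvs : Real.sqrt (∫ z, (u z - w' z) ^ 2) ≤ τ := by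
    rw [Real.sqrt_le_left hτ0.le]
    exact hv2.trans (min_le_right _ _)
  -- the integral of `v`
  have hvint : ∫ z, (u z - w' z) ≤ S * τ := by
    have h1 : ∫ z, U.indicator (fun _ => (1 : ℝ)) z * (u z - w' z) = ∫ z, (u z - w' z) := by
      refine integral_congr_ae ?_
      filter_upwards [hvH.ae_zero hU] with z hz
      by_cases h : z ∈ U
      · simp [h]
      · have h2 : u z - w' z = 0 := (hz h).1
        simp [h, h2]
    have h2 := cs_mul hone2 hvH.memLp
    rw [h1] at h2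
    calc ∫ z, (u z - w' z) ≤ |∫ z, (u z - w' z)| := le_abs_self _
      _ ≤ S * Real.sqrt (∫ z, (u z - w' z) ^ 2) := h2
      _ ≤ S * τ := mul_le_mul_of_nonneg_left hvs hS0
  have hGτ : G1 * (S * τ) ≤ η / 4 := by
    rw [hτ]
    have h1 : G1 * (S * (η / (4 * (G1 * S + 1)))) = (η / 4) * ((G1 * S) / (G1 * S + 1)) := by
      field_simp
    rw [h1]
    have h2 : (G1 * S) / (G1 * S + 1) ≤ 1 := by
      rw [div_le_one (by positivity)]
      linarith
    have h3 : 0 ≤ η / 4 := by positivity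
    calc η / 4 * (G1 * S / (G1 * S + 1)) ≤ η / 4 * 1 := mul_le_mul_of_nonneg_left h2 h3
      _ = η / 4 := mul_one _
  -- the potential
  set V : E → ℝ := fun z => n * (u z - w' z) / u z with hV
  have hVm : AEStronglyMeasurable V (volume : Measure E) :=
    (hvH.memLp.1.const_mul n).div₀ hu.memLp.1
  have hV0 : ∀ᵐ z, 0 ≤ V z := by
    filter_upwards [huge, hu0] with z h1 h2
    exact div_nonneg (mul_nonneg hn0.le (by linarith)) h2
  have hVn : ∀ᵐ z, V z ≤ n := by
    filter_upwards [hw'0, huge, hu0] with z h2 h3 h4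
    show n * (u z - w' z) / u z ≤ n
    rcases eq_or_lt_of_le h4 with h5 | h5
    · rw [← h5]; simp [hn0.le]
    · rw [div_le_iff₀ h5]
      exact mul_le_mul_of_nonneg_left (by linarith) hn0.le
  have hVU : ∀ᵐ z, z ∉ U → V z = 0 := by
    filter_upwards [hu.ae_zero hU] with z hz hzU
    show n * (u z - w' z) / u z = 0
    rw [(hz hzU).1]; simp
  have hVmem : MemLp V 2 (volume : Measure E) := by
    refine (hone2.const_mul n).mono' hVm ?_
    filter_upwards [hV0, hVn, hVU] with z h1 h2 h3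
    rw [Real.norm_eq_abs, abs_of_nonneg h1]
    by_cases h : z ∈ U
    · simpa [h] using h2
    · simp [h, h3 h]
  -- energy
  have hiu : Integrable u volume := hu.integrable hU hfin
  have hiw' : Integrable w' volume := hw'.integrable hU hfin
  have higu : Integrable (fun z => g z * u z) volume := int_mul hgm hu.memLp
  have higw' : Integrable (fun z => g z * w' z) volume := int_mul hgm hw'.memLp
  have hJ : (∫ z, (2 - g z) * w' z) - η / 4 ≤
      2 * (∫ z, u z) - (∫ z, ‖G z‖ ^ 2) - (∫ z, V z * u z ^ 2) := by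
    have h1 := heq u G hu
    have h2 : ∫ z, ⟪G z, G z⟫ = ∫ z, ‖G z‖ ^ 2 :=
      integral_congr_ae (Eventually.of_forall fun z => real_inner_self_eq_norm_sq _)
    have h3 : n * (∫ z, max (u z - w' z) 0 * u z) = ∫ z, V z * u z ^ 2 := by
      rw [← integral_const_mul]
      refine integral_congr_ae ?_
      filter_upwards [huge, hu0] with z h4 h5
      show n * (max (u z - w' z) 0 * u z) = n * (u z - w' z) / u z * u z ^ 2
      rw [max_eq_left (by linarith)]
      rcases eq_or_lt_of_le h5 with h6 | h6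
      · rw [← h6]; simp
      · field_simp
    rw [h2, h3] at h1
    have h4 : ∫ z, (2 - g z) * w' z = 2 * (∫ z, w' z) - ∫ z, g z * w' z := by
      rw [← integral_const_mul, ← integral_sub (hiw'.const_mul 2) higw']
      refine integral_congr_ae (Eventually.of_forall fun z => ?_)
      show (2 - g z) * w' z = 2 * w' z - g z * w' z
      ring
    have h5 : (∫ z, g z * u z) - (∫ z, g z * w' z) ≤ G1 * ∫ z, (u z - w' z) := by
      rw [← integral_sub higu higw', ← integral_const_mul]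
      refine integral_mono_ae (higu.sub higw') ((hiu.sub hiw').const_mul G1) ?_
      filter_upwards [hgG1, huge] with z h6 h7
      show g z * u z - g z * w' z ≤ G1 * (u z - w' z)
      rw [← mul_sub]
      exact mul_le_mul_of_nonneg_right h6 (by linarith)
    have h6 : G1 * ∫ z, (u z - w' z) ≤ η / 4 :=
      (mul_le_mul_of_nonneg_left hvint hG10).trans hGτ
    have h7 : ∫ z, w' z ≤ ∫ z, u z := integral_mono_ae hiw' hiu huge
    rw [h4]
    linarith
  obtain ⟨φ₀, hφ₀, hφ₀J⟩ := exists_test_near hU hfin hu hVm hV0 hVn (η := η / 8) (by positivity)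
  -- the continuous potential
  set A : ℝ := Real.sqrt (∫ z, φ₀ z ^ 2) with hA
  set B : ℝ := Real.sqrt (∫ z, ‖gradient φ₀ z‖ ^ 2) with hB
  have hA0 : 0 ≤ A := Real.sqrt_nonneg _
  have hB0 : 0 ≤ B := Real.sqrt_nonneg _
  set ε : ℝ := min (η / 8) (η / (8 * (A * B + 1))) with hεdef
  have hε : 0 < ε := by rw [hεdef]; positivity
  obtain ⟨δ3, hδ3, hsob3⟩ := sob_mul (E := E) hd hn0.le hε
  obtain ⟨V', hV'c, hV's, hV'U, hV'0, hV'n, hV'δ⟩ :=
    exists_cont_approx hU hVmem hn0.le hV0 hVn hVU hδ3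
  have hV'm : MemLp V' 2 (volume : Measure E) := hV'c.memLp_of_hasCompactSupport hV's
  have hdm : MemLp (fun z => V z - V' z) 2 (volume : Measure E) := hVmem.sub hV'm
  have hdn : ∀ᵐ z, |V z - V' z| ≤ n := by
    filter_upwards [hV0, hVn] with z h1 h2
    rw [abs_le]
    constructor
    · have := hV'n z
      linarith
    · have := hV'0 z
      linarith
  -- comparison of the two potentials
  have hcomp : ∀ φ : E → ℝ, IsTest U φ →
      |(∫ z, V z * φ z ^ 2) - ∫ z, V' z * φ z ^ 2| ≤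
        ε * Real.sqrt (∫ z, φ z ^ 2) * Real.sqrt (∫ z, ‖gradient φ z‖ ^ 2) := by
    intro φ hφ
    have hφ2 : MemLp (fun z => φ z ^ 2) 2 (volume : Measure E) := hφ.sq.h10.memLp
    have h1 := hsob3 _ hdm hdn hV'δ φ (gradient φ) (hφ.h10.mono (subset_univ _))
    rw [← integral_sub (int_mul hVmem hφ2) (int_mul hV'm hφ2)]
    refine abs_integral_le_integral_abs.trans ?_
    have h2 : ∫ z, |V z * φ z ^ 2 - V' z * φ z ^ 2| = ∫ z, |V z - V' z| * φ z ^ 2 := by
      refine integral_congr_ae (Eventually.of_forall fun z => ?_)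
      show |V z * φ z ^ 2 - V' z * φ z ^ 2| = |V z - V' z| * φ z ^ 2
      rw [← sub_mul, abs_mul, abs_of_nonneg (sq_nonneg (φ z))]
    rw [h2]
    exact h1
  have hvM : ∀ᵐ z, |u z - w' z| ≤ M0 := by
    filter_upwards [huge, hw'0, huM] with z h1 h2 h3
    rw [abs_of_nonneg (by linarith)]
    linarith
  have hΛ : ∀ φ, IsTest U φ →
      (1 - η / 2) * ∫ z, φ z ^ 2 ≤ (∫ z, ‖gradient φ z‖ ^ 2) + ∫ z, V' z * φ z ^ 2 := by
    intro φ hφ
    set a : ℝ := Real.sqrt (∫ z, φ z ^ 2) with ha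
    set b : ℝ := Real.sqrt (∫ z, ‖gradient φ z‖ ^ 2) with hb
    have ha0 : 0 ≤ a := Real.sqrt_nonneg _
    have hb0 : 0 ≤ b := Real.sqrt_nonneg _
    have ha2 : ∫ z, φ z ^ 2 = a ^ 2 := (Real.sq_sqrt (by positivity)).symm
    have hb2 : ∫ z, ‖gradient φ z‖ ^ 2 = b ^ 2 := (Real.sq_sqrt (by positivity)).symm
    have hV'φ : 0 ≤ ∫ z, V' z * φ z ^ 2 :=
      integral_nonneg fun z => mul_nonneg (hV'0 _) (sq_nonneg _)
    rcases le_total b a with hba | hab
    · have e1 := eig_estimate hN.isOpen hΩU hN.fin hN.rq hN.tor hw0 hw' hC.ge hgm hC.g0 hC.g2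
        hC.g3 hn0.le hu heq huge hφ
      have e2 := hcomp φ hφ
      have e3 := hsob1 _ hvH.memLp hvM (hv2.trans (min_le_left _ _)) φ (gradient φ)
        (hφ.h10.mono (subset_univ _))
      have e4 : ∫ z, (u z - w' z) * φ z ^ 2 ≤ ∫ z, |u z - w' z| * φ z ^ 2 := by
        refine integral_mono (int_mul hvH.memLp hφ.sq.h10.memLp) (int_abs_mul_sq hvH.memLp hφ)
          fun z => ?_
        exact mul_le_mul_of_nonneg_right (le_abs_self _) (sq_nonneg _)
      have e5 : η / 64 * a * b = η / 64 * (a * b) := by ring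
      have e6 : ε * a * b ≤ η / 8 * (a * b) := by
        calc ε * a * b = ε * (a * b) := by ring
          _ ≤ η / 8 * (a * b) := mul_le_mul_of_nonneg_right (min_le_left _ _) (by positivity)
      have e7 : a * b ≤ a ^ 2 := by
        rw [sq]
        exact mul_le_mul_of_nonneg_left hba ha0
      have e7' : η * (a * b) ≤ η * a ^ 2 := mul_le_mul_of_nonneg_left e7 hη.le
      have e8 := (abs_le.1 e2).2
      rw [ha2, hb2] at e1
      rw [ha2, hb2]
      have e9 : (∫ z, (u z - w' z) * φ z ^ 2) ≤ η / 64 * (a * b) := by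
        rw [← e5]
        exact e4.trans e3
      have e10 : (∫ z, V z * φ z ^ 2) ≤ (∫ z, V' z * φ z ^ 2) + η / 8 * (a * b) := by
        linarith
      have e11 : (1 - η / 2) * a ^ 2 = a ^ 2 - (η * a ^ 2) / 2 := by ring
      have e12 : 0 ≤ η * a ^ 2 := by positivity
      have e1' : a ^ 2 - 8 * (∫ z, (u z - w' z) * φ z ^ 2) ≤ b ^ 2 + ∫ z, V z * φ z ^ 2 := e1
      rw [e11]
      linarith
    · rw [ha2, hb2]
      have e1 : a ^ 2 ≤ b ^ 2 := pow_le_pow_left₀ ha0 hab 2
      have e12 : 0 ≤ η * a ^ 2 := by positivity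
      have e11 : (1 - η / 2) * a ^ 2 = a ^ 2 - (η * a ^ 2) / 2 := by ring
      rw [e11]
      linarith
  obtain ⟨Ω', hΩ', hsub, hRQ, hT⟩ := perforation hd hU hfin hV'c hV's hV'U hV'0 hΛ hφ₀
    (η := η / 2) (by positivity)
  refine ⟨Ω', hΩ', hsub, ?_, ?_⟩
  · have : 1 - η / 2 - η / 2 = 1 - η := by ring
    rwa [this] at hRQ
  · obtain ⟨ψ, hψ, hψt⟩ := hT
    refine ⟨ψ, hψ, le_trans ?_ hψt⟩
    have e1 := (abs_le.1 (hcomp φ₀ hφ₀)).1
    have e2 : ε * A * B ≤ η / 8 := by
      have h1 : ε ≤ η / (8 * (A * B + 1)) := min_le_right _ _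
      calc ε * A * B = (A * B) * ε := by ring
        _ ≤ (A * B) * (η / (8 * (A * B + 1))) := mul_le_mul_of_nonneg_left h1 (by positivity)
        _ ≤ η / 8 := by
            rw [mul_div_assoc', div_le_div_iff₀ (by positivity) (by norm_num)]
            have h2 : 0 ≤ A * B := by positivity
            nlinarith
    linarith

end Pool.Agent.H4.NM
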